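import Pool.Agent.Helper81.Tile.Return
import Pool.Agent.Helper64.IPC.ArmA

/-!
UPPER direction: if both corners at every cut end are connected (in the slit strip) to the corners
of odd copies of the slit, and there is a winding circuit above and below, the algebraic arm event
`arm k k` holds for arbitrary outer states.
-/

namespace H81Tile
open Finset IPC
open IP (St)

/-! ### the response in the lower half -/

lemma mc_mc : ∀ c : Fin 4, mc (mc c) = c := by decide

lemma mir_mir (d : DS) : mir (mir d) = d := by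
  obtain ⟨⟨x, y⟩, c⟩ := d
  simp only [mir, mc_mc]
  congr 2
  ring

theorem mact_resp_dn {L m : ℕ} {O : Set DS} {t : TC} (ht : Per L t)
    (hcl : ClosedOn t (rows (-m) 0) O) (hI : Inv ((L : ℤ) + L) O)
    {b : ℕ → ℕ → Bool} (hb : ∀ j < m, ∀ i < L, t ((i : ℤ), -1 - (j : ℤ)) = !b j i) {τ : St}
    (hτ : τ ∈ W L) (hbot : ∀ z, dn z (-m) ∉ O)
    {u v : ℕ} (hu4 : 4 ≤ u) (hu : u < 2 * L + 4) (hv4 : 4 ≤ v) (hv : v < 2 * L + 4)
    (huv : (mact L b m τ) u v) : up (pos L u) 0 ∈ O ↔ up (pos L v) 0 ∈ O := by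
  let O' : Set DS := {d | mir d ∈ O}
  have hcl' : ClosedOn (mirT t) (rows 0 m) O' := by
    constructor
    · intro d hd
      show mir (rev d) ∈ O
      rw [← rev_mir]
      exact hcl.rv _ hd
    · intro d hd hdr
      show mir (d.1, prt (mirT t d.1) d.2) ∈ O
      have h1 : (mir d).1 ∈ rows (-(m : ℤ)) 0 := by
        obtain ⟨h1, h2⟩ := hdr
        show -(m : ℤ) ≤ -1 - d.1.2 ∧ -1 - d.1.2 < 0
        omega
      have h2 := hcl.pr _ hd h1
      have h3 : mir (d.1, prt (mirT t d.1) d.2) = ((mir d).1, prt (t (mir d).1) (mir d).2) := by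
        unfold mir mirT
        simp only
        have := prt_mc (!t (d.1.1, -1 - d.1.2)) d.2
        rw [Bool.not_not] at this
        rw [this]
      rw [h3]
      exact h2
  have hper : ∀ j, ve ((L : ℤ) + L) j ∈ O' ↔ ve 0 j ∈ O' := by
    intro j
    have h1 := hI (mir (ve 0 j))
    have h2 : sh ((L : ℤ) + L) (mir (ve 0 j)) = mir (ve (L + L) j) := by
      simp [H81Tile.sh, mir, ve]
    rw [h2] at h1
    exact h1
  have h0 : ∀ z, up z 0 ∈ O' ↔ up z 0 ∈ O := by
    intro z
    show mir (up z 0) ∈ O ↔ _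
    rw [mir_up, ← rev_up]
    exact hcl.rv_iff _
  have := mact_resp (m := m) ht.mirT hcl' hper (b := b) (by
      intro j hj i hi
      show (!t ((i : ℤ), -1 - (j : ℤ))) = b j i
      rw [hb j hj i hi, Bool.not_not]) hτ (by
      intro u v _ _ _ _ _
      have hno : ∀ z, up z (m : ℤ) ∉ O' := by
        intro z hz
        have h1 : mir (up z (m : ℤ)) = dn z (-m) := by
          simp only [mir, up, dn, mc]
          simp
          ring
        apply hbot z
        rw [← h1]
        exact hz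
      exact iff_of_false (hno _) (hno _)) hu4 hu hv4 hv huv
  rw [h0, h0] at this
  exact this

/-! ### marked corners -/

/-- one step between marked corners (`true`: seen from above, `false`: seen from below), in the
strip `-m ≤ y ≤ m` slit along the cuts -/
def MStep (t : TC) (L k m : ℕ) (u v : (ℤ × ℤ) × Bool) : Prop :=
  (∃ p ∈ rows (-(m : ℤ)) m, u.2 = decide (0 ≤ p.2) ∧ v.2 = decide (0 ≤ p.2) ∧ Jn t p u.1 v.1) ∨
    (u.1 = v.1 ∧ u.1.2 = 0 ∧ (u.1.1 % L = 0 ∨ (k : ℤ) ≤ u.1.1 % L))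

/-- connection in the slit strip -/
def MConn (t : TC) (L k m : ℕ) : (ℤ × ℤ) × Bool → (ℤ × ℤ) × Bool → Prop :=
  Relation.ReflTransGen (MStep t L k m)

/-- the mark of the corners of a side -/
def mk (d : DS) : Bool := decide (0 ≤ d.1.2)

/-- connected to an odd copy of the slit -/
def ToOdd (t : TC) (L k m : ℕ) (v : (ℤ × ℤ) × Bool) : Prop :=
  ∃ j s : ℤ, j % 2 = 1 ∧ 0 ≤ s ∧ s ≤ k ∧ ∃ bb, MConn t L k m v ((j * L + s, 0), bb)

lemma nd_block {L : ℕ} {σ : St} (hσ : σ ∈ W L) {u v : ℕ} (h : σ u v) :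
    (u < 4 ↔ v < 4) ∧ (u < 2 * L + 4 ↔ v < 2 * L + 4) := by
  have hbl := W_blocks hσ
  have h1 : ∀ u v, σ u v → u < 4 → v < 4 := by
    intro u v h hu
    rcases (by omega : u = 0 ∨ u = 1 ∨ u = 2 ∨ u = 3) with rfl | rfl | rfl | rfl
    · have := (hbl.1 _).1 h; omega
    · have := (hbl.2.1 _).1 h; omega
    · have := (hbl.2.2.1 _).1 h; omega
    · have := (hbl.2.2.2 _).1 h; omega
  have h2 : ∀ u v, σ u v → u < 2 * L + 4 → v < 2 * L + 4 := by
    intro u v h hu
    obtain ⟨y, hy1, _, hy⟩ := hσ.1.1.1 u hu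
    rcases (hy v).1 h with rfl | rfl
    · exact hu
    · exact hy1
  exact ⟨⟨h1 u v h, h1 v u (σ.symm h)⟩, ⟨h2 u v h, h2 v u (σ.symm h)⟩⟩

/-! ### the colouring of the labels by a cut set of sides -/

/-- the side of a label -/
def lside (L k l : ℕ) : DS :=
  if (l - 4) / 2 < k then up (pos L l) 0
  else if (l - 4) / 2 < 2 * k then dn (pos L (l - 2 * k)) 0
  else up (pos L (l - 2 * k)) 0

/-- the colour of a label -/
def lcol (L k : ℕ) (O : Set DS) (l : ℕ) : Prop :=
  4 ≤ l ∧ l < 2 * (L + k) + 4 ∧ lside L k l ∈ O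

lemma lcol_top {L k : ℕ} (hk : k ≤ L) (O : Set DS) {x : ℕ}
    (hx : x < 2 * k + 4 ∨ 2 * k + 2 * k + 4 ≤ x) :
    lcol L k O x ↔ (4 ≤ shu k k x ∧ shu k k x < 2 * L + 4 ∧ up (pos L (shu k k x)) 0 ∈ O) := by
  unfold lcol lside shu
  rcases hx with hx | hx
  · rw [if_pos hx]
    by_cases h4 : 4 ≤ x
    · rw [if_pos (show (x - 4) / 2 < k by omega)]
      constructor
      · rintro ⟨h1, h2, h3⟩; exact ⟨h1, by omega, h3⟩
      · rintro ⟨h1, h2, h3⟩; exact ⟨h1, by omega, h3⟩
    · exact iff_of_false (fun h => h4 h.1) (fun h => h4 h.1)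
  · rw [if_neg (show ¬ x < 2 * k + 4 by omega), if_neg (show ¬ (x - 4) / 2 < k by omega),
      if_neg (show ¬ (x - 4) / 2 < 2 * k by omega)]
    constructor
    · rintro ⟨h1, h2, h3⟩; exact ⟨by omega, by omega, h3⟩
    · rintro ⟨h1, h2, h3⟩; exact ⟨by omega, by omega, h3⟩

lemma pos_emod {L u : ℕ} (h4 : 4 ≤ u) (hu : u < 2 * L + 4) :
    pos L u % L = (((u - 4) / 2 : ℕ) : ℤ) := by
  unfold pos
  have h1 : (u - 4) / 2 < L := by omega
  rw [Int.add_mul_emod_self_right]
  exact Int.emod_eq_of_lt (by positivity) (by exact_mod_cast h1)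

lemma lcol_bot {L k : ℕ} {t : TC} {R : Set (ℤ × ℤ)} {O : Set DS}
    (hO : CutClosed t R (Kut L k) O) {x : ℕ} (hx : x < 4 ∨ 2 * 0 + 2 * k + 4 ≤ x) :
    lcol L k O x ↔ (4 ≤ shu 0 k x ∧ shu 0 k x < 2 * L + 4 ∧ dn (pos L (shu 0 k x)) 0 ∈ O) := by
  unfold lcol lside shu
  rcases hx with hx | hx
  · rw [if_pos (show x < 2 * 0 + 4 by omega)]
    exact iff_of_false (fun h => by omega) (fun h => by omega)
  · rcases Nat.eq_zero_or_pos k with rfl | hk0
    · by_cases h4 : x < 2 * 0 + 4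
      · rw [if_pos h4]
        exact iff_of_false (fun h => by omega) (fun h => by omega)
      · rw [if_neg h4]
        simp only [Nat.not_lt_zero, if_false, mul_zero, Nat.sub_zero, Nat.add_zero]
        constructor
        · rintro ⟨h1, h2, h3⟩
          refine ⟨h1, h2, ?_⟩
          rw [← rev_up]
          refine hO.rv _ h3 ?_
          rw [kut_up, pos_emod h1 h2]
          push_cast
          omega
        · rintro ⟨h1, h2, h3⟩
          refine ⟨h1, h2, ?_⟩
          rw [← rev_dn]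
          refine hO.rv _ h3 ?_
          rw [kut_dn, pos_emod h1 h2]
          push_cast
          omega
    · rw [if_neg (show ¬ x < 2 * 0 + 4 by omega), if_neg (show ¬ (x - 4) / 2 < k by omega)]
      by_cases h2k : (x - 4) / 2 < 2 * k
      · rw [if_pos h2k]
        constructor
        · rintro ⟨h1, h2, h3⟩; exact ⟨by omega, by omega, h3⟩
        · rintro ⟨h1, h2, h3⟩; exact ⟨by omega, by omega, h3⟩
      · rw [if_neg h2k]
        constructor
        · rintro ⟨h1, h2, h3⟩
          refine ⟨by omega, by omega, ?_⟩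
          rw [← rev_up]
          refine hO.rv _ h3 ?_
          rw [kut_up, pos_emod (by omega) (by omega)]
          push_cast
          omega
        · rintro ⟨h1, h2, h3⟩
          refine ⟨by omega, by omega, ?_⟩
          rw [← rev_dn]
          refine hO.rv _ h3 ?_
          rw [kut_dn, pos_emod (by omega) (by omega)]
          push_cast
          omega

/-- the glued state respects the colouring by a cut closed set of sides -/
theorem lcol_resp {L m k : ℕ} (hk : k ≤ L) {t : TC} (ht : Per L t) {b b' : ℕ → ℕ → Bool}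
    (hb : ∀ j < m, ∀ i < L, t ((i : ℤ), (j : ℤ)) = b j i)
    (hb' : ∀ j < m, ∀ i < L, t ((i : ℤ), -1 - (j : ℤ)) = !b' j i)
    {σ τ : St} (hσ : σ ∈ W L) (hτ : τ ∈ W L) {O : Set DS}
    (hO : CutClosed t (rows (-(m : ℤ)) m) (Kut L k) O) (hI : Inv ((L : ℤ) + L) O)
    (htop : ∀ z, up z m ∉ upO O) (hbot : ∀ z, dn z (-m) ∉ dnO O) {x y : ℕ}
    (h : (IPC.sh k k (mact L b m σ) ⊔ IPC.sh 0 k (mact L b' m τ)) x y) :
    lcol L k O x ↔ lcol L k O y := by
  have hα := mact_W b m hσ
  have hβ := mact_W b' m hτ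
  let S : St :=
    { r := fun x y => (lcol L k O x ↔ lcol L k O y)
      iseqv := ⟨fun _ => Iff.rfl, fun h => h.symm, fun h1 h2 => h1.trans h2⟩ }
  refine IPC.sup_le_of (S := S) ?_ ?_ x y h
  · rintro x y (rfl | ⟨h1, h2, h3⟩)
    · exact S.refl x
    · show lcol L k O x ↔ lcol L k O y
      rw [lcol_top hk O h1, lcol_top hk O h2]
      have hbl := nd_block hα h3
      by_cases h4 : 4 ≤ shu k k x
      · by_cases h5 : shu k k x < 2 * L + 4
        · have h4' : 4 ≤ shu k k y := by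
            by_contra hc
            exact absurd (hbl.1.2 (by omega)) (by omega)
          have h5' := hbl.2.1 h5
          have hper : ∀ j, ve ((L : ℤ) + L) j ∈ upO O ↔ ve 0 j ∈ upO O := by
            intro j
            have := hI.upO (ve 0 j)
            have e : sh ((L : ℤ) + L) (ve 0 j) = ve (L + L) j := by
              simp [H81Tile.sh, ve]
            rwa [e] at this
          have key := mact_resp ht (upO_closed hO) hper hb hσ
            (fun u v _ _ _ _ _ => iff_of_false (htop _) (htop _)) h4 h5 h4' h5' h3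
          rw [up_mem_upO, up_mem_upO] at key
          constructor
          · rintro ⟨_, _, h6⟩; exact ⟨h4', h5', key.1 h6⟩
          · rintro ⟨_, _, h6⟩; exact ⟨h4, h5, key.2 h6⟩
        · have h5' : ¬ shu k k y < 2 * L + 4 := fun hc => h5 (hbl.2.2 hc)
          exact iff_of_false (fun h => h5 h.2.1) (fun h => h5' h.2.1)
      · have h4' : ¬ 4 ≤ shu k k y := by
          have := hbl.1.1 (by omega)
          omega
        exact iff_of_false (fun h => h4 h.1) (fun h => h4' h.1)
  · rintro x y (rfl | ⟨h1, h2, h3⟩)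
    · exact S.refl x
    · show lcol L k O x ↔ lcol L k O y
      rw [lcol_bot hO (by simpa using h1), lcol_bot hO (by simpa using h2)]
      have hbl := nd_block hβ h3
      by_cases h4 : 4 ≤ shu 0 k x
      · by_cases h5 : shu 0 k x < 2 * L + 4
        · have h4' : 4 ≤ shu 0 k y := by
            by_contra hc
            exact absurd (hbl.1.2 (by omega)) (by omega)
          have h5' := hbl.2.1 h5
          have key := mact_resp_dn ht (dnO_closed hO) hI.dnO hb' hτ hbot h4 h5 h4' h5' h3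
          rw [up_mem_dnO, up_mem_dnO] at key
          constructor
          · rintro ⟨_, _, h6⟩; exact ⟨h4', h5', key.1 h6⟩
          · rintro ⟨_, _, h6⟩; exact ⟨h4, h5, key.2 h6⟩
        · have h5' : ¬ shu 0 k y < 2 * L + 4 := fun hc => h5 (hbl.2.2 hc)
          exact iff_of_false (fun h => h5 h.2.1) (fun h => h5' h.2.1)
      · have h4' : ¬ 4 ≤ shu 0 k y := by
          have := hbl.1.1 (by omega)
          omega
        exact iff_of_false (fun h => h4 h.1) (fun h => h4' h.1)

/-! ### the set of sides of the path between two cut ends -/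

lemma up_inj {x y : ℤ} (h : up x 0 = up y 0) : x = y := by
  have := congrArg (fun d : DS => d.1.1) h
  simpa [up] using this

lemma dn_inj {x y : ℤ} (h : dn x 0 = dn y 0) : x = y := by
  have := congrArg (fun d : DS => d.1.1) h
  simpa [dn] using this

lemma up_ne_dn (x y : ℤ) : up x 0 ≠ dn y 0 := by
  intro h
  have := congrArg Prod.snd h
  simp [up, dn] at this

lemma cpath_kut {t : TC} {L k : ℕ} {d : DS} {n : ℕ}
    (hK : ∀ i, 0 < i → i < n → (nxt t)^[i] d ∉ Kut L k) {e : DS} (he : e ∈ cpath t d n)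
    (heK : e ∈ Kut L k) : e = d ∨ e = rev ((nxt t)^[n] d) := by
  obtain ⟨i, ⟨hi, rfl⟩ | ⟨h0, hi, rfl⟩⟩ := he
  · rcases Nat.eq_zero_or_pos i with rfl | h
    · left; rfl
    · exact absurd heK (hK i h hi)
  · rcases Nat.lt_or_ge i n with h | h
    · exact absurd (kut_rev_iff.1 heK) (hK i h0 h)
    · right
      rw [le_antisymm hi h]

lemma cpath_tile {t : TC} {R : Set (ℤ × ℤ)} {d : DS} {n : ℕ}
    (hR : ∀ i < n, ((nxt t)^[i] d).1 ∈ R) {e : DS} (he : e ∈ cpath t d n) : e.1 ∈ R := by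
  obtain ⟨i, ⟨hi, rfl⟩ | ⟨h0, hi, rfl⟩⟩ := he
  · exact hR i hi
  · obtain ⟨j, rfl⟩ : ∃ j, i = j + 1 := ⟨i - 1, by omega⟩
    rw [Function.iterate_succ_apply', rev_nxt]
    exact hR j (by omega)

lemma kut_level {L k : ℕ} {d : DS} (h : d ∈ Kut L k) {z b : ℤ} (hd : d = up z b ∨ d = dn z b) :
    b = 0 := by
  obtain ⟨x, _, rfl | rfl⟩ := h
  · rcases hd with hd | hd
    · have := congrArg (fun d : DS => d.1.2) hd
      simp [up] at this
      exact this.symm
    · have := congrArg Prod.snd hd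
      simp [up, dn] at this
  · rcases hd with hd | hd
    · have := congrArg Prod.snd hd
      simp [up, dn] at this
    · have := congrArg (fun d : DS => d.1.2) hd
      simp [dn] at this
      omega

lemma noTop {t : TC} {L k m : ℕ} (hm : 0 < m) {O : Set DS}
    (hO : CutClosed t (rows (-(m : ℤ)) m) (Kut L k) O) (hR : ∀ e ∈ O, e.1 ∈ rows (-(m : ℤ)) m)
    (z : ℤ) : up z m ∉ upO O := by
  have h1 : up z m ∉ O := by
    intro h
    have := (hR _ h).2
    simp [up] at this
  rintro (⟨h, _⟩ | ⟨h, _⟩)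
  · exact h1 h
  · rw [rev_up] at h
    have := hO.rv _ h (fun hk => by
      have := kut_level hk (Or.inr rfl)
      omega)
    rw [rev_dn] at this
    exact h1 this

lemma noBot {t : TC} {L k m : ℕ} (hm : 0 < m) {O : Set DS}
    (hO : CutClosed t (rows (-(m : ℤ)) m) (Kut L k) O) (hR : ∀ e ∈ O, e.1 ∈ rows (-(m : ℤ)) m)
    (z : ℤ) : dn z (-m) ∉ dnO O := by
  have h1 : dn z (-(m : ℤ)) ∉ O := by
    intro h
    have := (hR _ h).1
    simp [dn] at this
  rintro (⟨h, _⟩ | ⟨h, _⟩)
  · exact h1 h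
  · rw [rev_dn] at h
    have := hO.rv _ h (fun hk => by
      have := kut_level hk (Or.inl rfl)
      omega)
    rw [rev_up] at this
    exact h1 this

open Classical in
/-- indicator modulo two of one side -/
noncomputable def ind (d e : DS) : ZMod 2 := if e = d then 1 else 0

lemma sum_ind {k : ℕ} {y : ℤ} (h0 : 0 ≤ y) (h1 : y < k) {d : DS} (hd : d = up y 0 ∨ d = dn y 0) :
    ∑ x ∈ range k, (ind d (up x 0) + ind d (dn x 0)) = 1 := by
  have hmem : y.toNat ∈ range k := by rw [mem_range]; omega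
  have hy : ((y.toNat : ℕ) : ℤ) = y := Int.toNat_of_nonneg h0
  rw [sum_eq_single_of_mem y.toNat hmem]
  · rw [hy]
    unfold ind
    rcases hd with rfl | rfl
    · rw [if_pos rfl, if_neg (fun h => up_ne_dn _ _ h.symm), add_zero]
    · rw [if_neg (up_ne_dn _ _), if_pos rfl, zero_add]
  · intro x _ hx
    unfold ind
    rcases hd with rfl | rfl
    · rw [if_neg (fun h => hx (by have := up_inj h; omega)),
        if_neg (fun h => up_ne_dn _ _ h.symm), add_zero]
    · rw [if_neg (up_ne_dn _ _), if_neg (fun h => hx (by have := dn_inj h; omega)), zero_add]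

/-- integer induction in both directions for constancy -/
lemma const_of_step {f : ℤ → ZMod 2} (h : ∀ j, f j = f (j + 1)) (j : ℤ) : f j = f 0 := by
  have hn : ∀ (n : ℕ) (j : ℤ), f j = f (j + n) := by
    intro n
    induction n with
    | zero => intro j; simp
    | succ n ih =>
      intro j
      rw [ih j, h (j + n)]
      push_cast
      rw [add_assoc]
  rcases le_total 0 j with h0 | h0
  · have := hn j.toNat 0
    rw [Int.toNat_of_nonneg h0, zero_add] at this
    exact this.symm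
  · have := hn (-j).toNat j
    rw [Int.toNat_of_nonneg (by omega)] at this
    rw [this]
    congr 1
    ring

lemma chi_eq_of_iff {O O' : Set DS} {d e : DS} (h : d ∈ O ↔ e ∈ O') : chi O d = chi O' e := by
  unfold chi
  by_cases hd : d ∈ O
  · rw [if_pos hd, if_pos (h.1 hd)]
  · rw [if_neg hd, if_neg (fun h1 => hd (h.2 h1))]

/-- the sum of the potentials of the two halves is constant on the level zero outside of the slits -/
theorem delta_const {L m k : ℕ} (hL : 0 < L) (hk : k ≤ L) {O : Set DS} {Wu Wd : ℤ × ℤ → ZMod 2}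
    (hWu : PotOn 0 m (upO O) Wu) (hWd : PotOn (-m) 0 (dnO O) Wd)
    (hnc : ∀ x : ℤ, (k : ℤ) ≤ x % L → (up x 0 ∈ O ↔ dn x 0 ∈ O))
    (hsl : ∀ j : ℤ, ∑ x ∈ range k, (chi O (up (j * L + x) 0) + chi O (dn (j * L + x) 0)) = 0)
    {x : ℤ} (hx : x % L = 0 ∨ (k : ℤ) ≤ x % L) :
    Wu (x, 0) + Wd (x, 0) = Wu (0, 0) + Wd (0, 0) := by
  have hL' : (0 : ℤ) < L := by exact_mod_cast hL
  have hm0 : (0 : ℤ) ≤ m := by positivity
  obtain ⟨D, hD⟩ : ∃ D : ℤ → ZMod 2, ∀ x, D x = Wu (x, 0) + Wd (x, 0) := ⟨_, fun _ => rfl⟩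
  have hcu : ∀ x, chi (upO O) (up x 0) = chi O (up x 0) := fun x => chi_eq_of_iff (up_mem_upO x)
  have hcd : ∀ x, chi (dnO O) (up x 0) = chi O (dn x 0) := fun x => chi_eq_of_iff (up_mem_dnO x)
  have hD1 : ∀ x : ℤ, (k : ℤ) ≤ x % L → D x = D (x + 1) := by
    intro x hx
    have e1 := hWu.hor x 0 le_rfl hm0
    have e2 := hWd.hor x 0 (by omega) le_rfl
    rw [hcu] at e1
    rw [hcd, ← chi_of_iff (hnc x hx)] at e2
    rw [hD, hD]
    linear_combination e1 + e2 + zz (chi O (up x 0)) - zz (Wu (x + 1, 0)) - zz (Wd (x + 1, 0))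
  have hD2 : ∀ j : ℤ, D (j * L) = D (j * L + k) := by
    intro j
    have e1 := hWu.sum (j * L) 0 le_rfl hm0 k
    have e2 := hWd.sum (j * L) 0 (by omega) le_rfl k
    have e3 := hsl j
    rw [sum_add_distrib] at e3
    simp only [hcu] at e1
    simp only [hcd] at e2
    rw [← e1, ← e2] at e3
    rw [hD, hD]
    linear_combination e3 - zz (Wu (j * L + k, 0)) - zz (Wd (j * L + k, 0))
  have hD3 : ∀ (j : ℤ) (r : ℕ), k ≤ r → r ≤ L → D (j * L + r) = D (j * L + k) := by
    intro j r hkr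
    induction r, hkr using Nat.le_induction with
    | base => intro _; rfl
    | succ r hr ih =>
      intro hrL
      rw [← ih (by omega)]
      have h1 : (j * (L : ℤ) + r) % L = r := by
        rw [add_comm, Int.add_mul_emod_self_right]
        exact Int.emod_eq_of_lt (by positivity) (by omega)
      have h2 := hD1 (j * L + r) (by rw [h1]; exact_mod_cast hr)
      rw [h2]
      push_cast
      rw [add_assoc]
  have hD4 : ∀ j : ℤ, D (j * L) = D ((j + 1) * L) := by
    intro j
    rw [hD2 j, ← hD3 j L hk le_rfl]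
    congr 1
    ring
  have hD5 : ∀ j : ℤ, D (j * L) = D 0 := by
    intro j
    have := const_of_step (f := fun j => D (j * L)) hD4 j
    simpa using this
  rw [← hD, ← hD]
  have hx' := Int.emod_add_mul_ediv x L
  rcases hx with hx | hx
  · rw [← hD5 (x / L)]
    congr 1
    rw [hx] at hx'
    linarith
  · have h0 := Int.emod_nonneg x hL'.ne'
    have h1 := Int.emod_lt_of_pos x hL'
    have h2 := hD3 (x / L) (x % L).toNat (by omega) (by omega)
    rw [← hD2, hD5, Int.toNat_of_nonneg h0] at h2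
    rw [← h2]
    congr 1
    linarith

lemma end_unique {L k : ℕ} (hL : 0 < L) (hk : k ≤ L) {x y c : ℤ} {g g' : DS} (hx0 : 0 ≤ x)
    (hxk : x < k) (hy0 : 0 ≤ y) (hyk : y < k) (hg : g = up x 0 ∨ g = dn x 0)
    (hg' : g' = up y 0 ∨ g' = dn y 0) (h : sh (c * L) g = g') : c = 0 ∧ g = g' := by
  have hL' : (0 : ℤ) < L := by exact_mod_cast hL
  have hk' : (k : ℤ) ≤ L := by exact_mod_cast hk
  have hpos : x + c * L = y := by
    have h1 := congrArg (fun d : DS => d.1.1) h
    rcases hg with rfl | rfl <;> rcases hg' with rfl | rfl <;> simpa [H81Tile.sh, up, dn] using h1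
  have hc : c = 0 := by
    rcases lt_trichotomy c 0 with h1 | h1 | h1
    · have : c * (L : ℤ) ≤ -1 * L := mul_le_mul_of_nonneg_right (by omega) hL'.le
      omega
    · exact h1
    · have : 1 * (L : ℤ) ≤ c * L := mul_le_mul_of_nonneg_right (by omega) hL'.le
      omega
  refine ⟨hc, ?_⟩
  rw [hc, zero_mul, sh_zero] at h
  exact h

lemma slit_mem {L k : ℕ} (hL : 0 < L) (hk : k ≤ L) {P : Set DS} {d e : DS} {a : ℤ}
    (hP : ∀ f ∈ P, f ∈ Kut L k → f = d ∨ f = sh (a * ((L : ℤ) + L)) e) (hdP : d ∈ P)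
    (heP : sh (a * ((L : ℤ) + L)) e ∈ P) {xd ye : ℤ} (hd0 : 0 ≤ xd) (hdk : xd < k) (he0 : 0 ≤ ye)
    (hek : ye < k) (hd : d = up xd 0 ∨ d = dn xd 0) (he : e = up ye 0 ∨ e = dn ye 0) {g : DS} {x : ℤ}
    (hx0 : 0 ≤ x) (hxk : x < k) (hg : g = up x 0 ∨ g = dn x 0) (j : ℤ) :
    sh (j * L) g ∈ spread ((L : ℤ) + L) P ↔ (j % 2 = 0 ∧ (g = d ∨ g = e)) := by
  constructor
  · rintro ⟨a', h⟩
    rw [sh_add] at h
    have hs : j * (L : ℤ) + a' * (L + L) = (j + 2 * a') * L := by ring
    have hK : sh (j * (L : ℤ) + a' * (L + L)) g ∈ Kut L k := by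
      refine ⟨x + (j * L + a' * (L + L)), ?_, ?_⟩
      · rw [hs, Int.add_mul_emod_self_right,
          Int.emod_eq_of_lt hx0 (lt_of_lt_of_le hxk (by exact_mod_cast hk))]
        exact hxk
      · rcases hg with rfl | rfl
        · left; rfl
        · right; rfl
    rcases hP _ h hK with h1 | h1
    · rw [hs] at h1
      obtain ⟨h2, h3⟩ := end_unique hL hk hx0 hxk hd0 hdk hg hd h1
      exact ⟨by omega, Or.inl h3⟩
    · have h2 : sh ((j + 2 * a' - 2 * a) * L) g = e := by
        have h3 := congrArg (sh (-(a * ((L : ℤ) + L)))) h1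
        rw [sh_add, sh_add, add_neg_cancel, sh_zero] at h3
        rw [← h3]
        congr 1
        ring
      obtain ⟨h4, h5⟩ := end_unique hL hk hx0 hxk he0 hek hg he h2
      exact ⟨by omega, Or.inr h5⟩
  · rintro ⟨hj, hge⟩
    obtain ⟨c, rfl⟩ : ∃ c, j = 2 * c := ⟨j / 2, by omega⟩
    rcases hge with rfl | rfl
    · refine ⟨-c, ?_⟩
      rw [sh_add]
      have : 2 * c * (L : ℤ) + -c * (L + L) = 0 := by ring
      rw [this, sh_zero]
      exact hdP
    · refine ⟨a - c, ?_⟩
      rw [sh_add]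
      have : 2 * c * (L : ℤ) + (a - c) * (L + L) = a * (L + L) := by ring
      rw [this]
      exact heP

lemma end_side {L k l : ℕ} (hl : l < 2 * k) : ∃ x : ℤ, 0 ≤ x ∧ x < k ∧
    ((lside L k (2 * l + 4) = up x 0 ∧ (l : ℤ) = x) ∨
      (lside L k (2 * l + 4) = dn x 0 ∧ (l : ℤ) = x + k)) := by
  unfold lside
  have e1 : (2 * l + 4 - 4) / 2 = l := by omega
  rw [e1]
  by_cases h : l < k
  · rw [if_pos h]
    refine ⟨l, by positivity, by exact_mod_cast h, Or.inl ⟨?_, rfl⟩⟩
    congr 1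
    unfold pos
    rw [e1, show (2 * l + 4) % 2 = 0 by omega]
    simp
  · rw [if_neg h, if_pos hl]
    refine ⟨((l - k : ℕ) : ℤ), by positivity, by omega, Or.inr ⟨?_, by omega⟩⟩
    congr 1
    unfold pos
    rw [show (2 * l + 4 - 2 * k - 4) / 2 = l - k by omega, show (2 * l + 4 - 2 * k) % 2 = 0 by omega]
    simp

/-- UPPER DIRECTION for `2k` arms -/
theorem arm_of_conn {L m k : ℕ} (hL : 0 < L) (hm : 0 < m) (hk : k ≤ L) {t : TC} (ht : Per L t)
    {b b' : ℕ → ℕ → Bool}
    (hb : ∀ j < m, ∀ i < L, t ((i : ℤ), (j : ℤ)) = b j i)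
    (hb' : ∀ j < m, ∀ i < L, t ((i : ℤ), -1 - (j : ℤ)) = !b' j i)
    {σ τ : St} (hσ : σ ∈ W L) (hτ : τ ∈ W L)
    (hup : Wind t L 0 m) (hdn : Wind t L (-m) 0)
    (hodd : ∀ (d : DS) (x : ℤ), 0 ≤ x → x < k → (d = up x 0 ∨ d = dn x 0) →
      ToOdd t L k m (lc d, mk d) ∧ ToOdd t L k m (rc d, mk d)) :
    arm k k (mact L b m σ) (mact L b' m τ) := by
  intro i j hij hj hG
  have hL' : (0 : ℤ) < L := by exact_mod_cast hL
  have hm' : (0 : ℤ) < m := by exact_mod_cast hm
  have hk' : (k : ℤ) ≤ L := by exact_mod_cast hk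
  obtain ⟨x, hx0, hxk, hx⟩ := end_side (L := L) (k := k) (l := i) (by omega)
  obtain ⟨y, hy0, hyk, hy⟩ := end_side (L := L) (k := k) (l := j) (by omega)
  set d := lside L k (2 * i + 4) with hdd
  set e := lside L k (2 * j + 4) with hee
  have hd : d = up x 0 ∨ d = dn x 0 := hx.imp And.left And.left
  have he : e = up y 0 ∨ e = dn y 0 := hy.imp And.left And.left
  have hde : d ≠ e := by
    intro h
    rcases hx with ⟨h1, h2⟩ | ⟨h1, h2⟩ <;> rcases hy with ⟨h3, h4⟩ | ⟨h3, h4⟩
    · have := up_inj (h1.symm.trans (h.trans h3)); omega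
    · exact up_ne_dn _ _ (h1.symm.trans (h.trans h3))
    · exact up_ne_dn _ _ (h3.symm.trans (h.symm.trans h1))
    · have := dn_inj (h1.symm.trans (h.trans h3)); omega
  have hdK : d ∈ Kut L k := ⟨x, by rw [Int.emod_eq_of_lt hx0 (by omega)]; exact hxk, hd⟩
  obtain ⟨n, hn0, hnK, hmin, hrow⟩ := returns hL hm ht hup hdn hdK
  have ht2 : Per ((L : ℤ) + L) t := ht.two
  have hcut := cpath_cutClosed (t := t) (R := rows (-(m : ℤ)) m) hdK hnK
  have hPK := fun (f : DS) (hf : f ∈ cpath t d n) (hfK : f ∈ Kut L k) => cpath_kut hmin hf hfK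
  have hPt := fun (f : DS) (hf : f ∈ cpath t d n) => cpath_tile hrow hf
  have hdP : d ∈ cpath t d n := ⟨0, Or.inl ⟨hn0, rfl⟩⟩
  set P := cpath t d n with hP
  have hO : CutClosed t (rows (-(m : ℤ)) m) (Kut L k) (spread ((L : ℤ) + L) P) :=
    hcut.spread ht2 (fun _ _ hp => hp) (fun j e => kut_sh j e)
  have hInv : Inv ((L : ℤ) + L) (spread ((L : ℤ) + L) P) := by
    intro e
    have := spread_sh ((L : ℤ) + L) P 1 e
    rwa [one_mul] at this
  have hOt : ∀ f ∈ spread ((L : ℤ) + L) P, f.1 ∈ rows (-(m : ℤ)) m := by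
    rintro f ⟨a, ha⟩
    have h1 := hPt _ ha
    exact h1
  set O := spread ((L : ℤ) + L) P with hOd
  have hresp := lcol_resp hk ht hb hb' hσ hτ hO hInv (noTop hm hO hOt) (noBot hm hO hOt) hG
  have hci : lcol L k O (2 * i + 4) := ⟨by omega, by omega, mem_spread_of hdP⟩
  have heO : e ∈ O := (hresp.1 hci).2.2
  -- the other end of the path
  obtain ⟨a, ha⟩ := heO
  have heK : sh (a * ((L : ℤ) + L)) e ∈ Kut L k := by
    rw [kut_sh]
    exact ⟨y, by rw [Int.emod_eq_of_lt hy0 (by omega)]; exact hyk, he⟩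
  have hX : rev ((nxt t)^[n] d) = sh (a * ((L : ℤ) + L)) e := by
    rcases hPK _ ha heK with h | h
    · exfalso
      have h1 : sh ((2 * a) * L) e = d := by
        rw [← h]; congr 1; ring
      exact hde (end_unique hL hk hy0 hyk hx0 hxk he hd h1).2.symm
    · exact h.symm
  have hPK' : ∀ f ∈ P, f ∈ Kut L k → f = d ∨ f = sh (a * ((L : ℤ) + L)) e := by
    intro f hf hfK
    rw [← hX]
    exact hPK f hf hfK
  have hslit := fun {g : DS} {x' : ℤ} (h0 : 0 ≤ x') (h1 : x' < k) (hg : g = up x' 0 ∨ g = dn x' 0)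
    (j' : ℤ) => slit_mem hL hk hPK' hdP ha hx0 hxk hy0 hyk hd he h0 h1 hg j'
  -- values of the indicator on the slits
  have hchi : ∀ {g : DS} {x' : ℤ}, 0 ≤ x' → x' < k → (g = up x' 0 ∨ g = dn x' 0) → ∀ j' : ℤ,
      chi O (sh (j' * L) g) = if j' % 2 = 0 then ind d g + ind e g else 0 := by
    intro g x' h0 h1 hg j'
    have h2 := hslit h0 h1 hg j'
    unfold chi ind
    by_cases hj' : j' % 2 = 0
    · rw [if_pos hj']
      by_cases hgd : g = d
      · rw [if_pos (h2.2 ⟨hj', Or.inl hgd⟩), if_pos hgd, if_neg (fun h => hde (hgd.symm.trans h)),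
          add_zero]
      · by_cases hge : g = e
        · rw [if_pos (h2.2 ⟨hj', Or.inr hge⟩), if_neg hgd, if_pos hge, zero_add]
        · rw [if_neg (fun h => (h2.1 h).2.elim hgd hge), if_neg hgd, if_neg hge, add_zero]
    · rw [if_neg hj', if_neg (fun h => hj' (h2.1 h).1)]
  have hupe : ∀ (j' x' : ℤ), up (j' * L + x') 0 = sh (j' * L) (up x' 0) := by
    intro j' x'
    simp [H81Tile.sh, up, add_comm]
  have hdne : ∀ (j' x' : ℤ), dn (j' * L + x') 0 = sh (j' * L) (dn x' 0) := by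
    intro j' x'
    simp [H81Tile.sh, dn, add_comm]
  have hsl : ∀ j' : ℤ,
      ∑ x' ∈ range k, (chi O (up (j' * L + x') 0) + chi O (dn (j' * L + x') 0)) = 0 := by
    intro j'
    have h1 : ∀ x' ∈ range k, chi O (up (j' * L + x') 0) + chi O (dn (j' * L + x') 0) =
        if j' % 2 = 0 then (ind d (up x' 0) + ind d (dn x' 0)) + (ind e (up x' 0) + ind e (dn x' 0))
          else 0 := by
      intro x' hx'
      rw [mem_range] at hx'
      rw [hupe, hdne, hchi (by positivity) (by exact_mod_cast hx') (Or.inl rfl),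
        hchi (by positivity) (by exact_mod_cast hx') (Or.inr rfl)]
      split_ifs
      · ring
      · ring
    rw [sum_congr rfl h1]
    by_cases hj' : j' % 2 = 0
    · simp only [hj', if_true]
      rw [sum_add_distrib, sum_ind hx0 hxk hd, sum_ind hy0 hyk he]
      exact zz 1
    · simp only [hj', if_false, sum_const_zero]
  -- potentials
  obtain ⟨Wu, hWu⟩ := exists_potOn (upO_closed hO)
  obtain ⟨Wd, hWd⟩ := exists_potOn (dnO_closed hO)
  have hnc : ∀ x : ℤ, (k : ℤ) ≤ x % L → (up x 0 ∈ O ↔ dn x 0 ∈ O) := by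
    intro x hx
    constructor
    · intro h
      rw [← rev_up]
      exact hO.rv _ h (by rw [kut_up]; omega)
    · intro h
      rw [← rev_dn]
      exact hO.rv _ h (by rw [kut_dn]; omega)
  have hdelta := fun {x : ℤ} (hx : x % L = 0 ∨ (k : ℤ) ≤ x % L) =>
    delta_const hL hk hWu hWd hnc hsl hx
  -- the marked potential
  obtain ⟨Wm, hWm⟩ : ∃ Wm : (ℤ × ℤ) × Bool → ZMod 2, ∀ v, Wm v =
      if v.2 then Wu v.1 else Wd v.1 + (Wu (0, 0) + Wd (0, 0)) := ⟨_, fun _ => rfl⟩
  have hflip : ∀ v : ℤ × ℤ, v.2 = 0 → (v.1 % L = 0 ∨ (k : ℤ) ≤ v.1 % L) →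
      Wu v = Wd v + (Wu (0, 0) + Wd (0, 0)) := by
    rintro ⟨x, y⟩ hy hx
    simp only at hy hx
    subst hy
    rw [← hdelta hx]
    linear_combination -zz (Wd (x, 0))
  have hstep : ∀ u v, MStep t L k m u v → Wm u = Wm v := by
    rintro ⟨u, mu⟩ ⟨v, mv⟩ (⟨p, hp, h1, h2, h3⟩ | ⟨h1, h2, h3⟩)
    · simp only at h1 h2 h3
      rw [hWm, hWm]
      simp only
      by_cases hp0 : 0 ≤ p.2
      · rw [decide_eq_true hp0] at h1 h2
        rw [h1, h2, if_pos rfl, if_pos rfl]
        exact hWu.join (upO_closed hO) ⟨hp0, hp.2⟩ h3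
      · rw [decide_eq_false hp0] at h1 h2
        rw [h1, h2, if_neg (by decide), if_neg (by decide)]
        rw [hWd.join (dnO_closed hO) ⟨hp.1, by omega⟩ h3]
    · simp only at h1 h2 h3
      subst h1
      rw [hWm, hWm]
      simp only
      have := hflip u h2 h3
      rcases mu with _ | _ <;> rcases mv with _ | _ <;> simp [this]
  have hconn : ∀ u v, MConn t L k m u v → Wm u = Wm v := by
    intro u v h
    induction h with
    | refl => rfl
    | tail _ h2 ih => rw [ih]; exact hstep _ _ h2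
  -- odd slits
  have hper : ∀ c : ℤ, Wu ((2 * c + 1) * L, 0) = Wu ((2 * (c + 1) + 1) * L, 0) := by
    intro c
    have h1 := hWu.sum ((2 * c + 1) * L) 0 le_rfl hm'.le (L + L)
    rw [even_of_wind hL (upO_closed hO) hInv.upO hup _ 0 le_rfl hm'.le] at h1
    have h2 := eq_of_add_zero h1
    rw [h2]
    congr 2
    push_cast
    ring
  have hoddW : ∀ j' : ℤ, j' % 2 = 1 → Wu (j' * L, 0) = Wu (L, 0) := by
    intro j' hj'
    obtain ⟨c, rfl⟩ : ∃ c, j' = 2 * c + 1 := ⟨j' / 2, by omega⟩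
    have := const_of_step (f := fun c => Wu ((2 * c + 1) * L, 0)) hper c
    simpa using this
  have hoddchi : ∀ (j' : ℤ) (i' : ℕ), j' % 2 = 1 → i' < k →
      chi O (up (j' * L + i') 0) = 0 ∧ chi O (dn (j' * L + i') 0) = 0 := by
    intro j' i' hj' hi'
    constructor
    · rw [hupe, hchi (by positivity) (by exact_mod_cast hi') (Or.inl rfl), if_neg (by omega)]
    · rw [hdne, hchi (by positivity) (by exact_mod_cast hi') (Or.inr rfl), if_neg (by omega)]
  have hWodd : ∀ (j' s' : ℤ) (bb : Bool), j' % 2 = 1 → 0 ≤ s' → s' ≤ k →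
      Wm ((j' * L + s', 0), bb) = Wu (L, 0) := by
    intro j' s' bb hj' hs0 hsk
    rw [hWm]
    simp only
    obtain ⟨s, rfl⟩ : ∃ s : ℕ, s' = s := ⟨s'.toNat, (Int.toNat_of_nonneg hs0).symm⟩
    have hs : s ≤ k := by exact_mod_cast hsk
    have e1 : Wu (j' * L + s, 0) = Wu (L, 0) := by
      have h1 := hWu.sum (j' * L) 0 le_rfl hm'.le s
      rw [sum_eq_zero (fun i' hi' => by
        rw [chi_eq_of_iff (up_mem_upO _)]
        exact (hoddchi j' i' hj' (lt_of_lt_of_le (mem_range.1 hi') hs)).1)] at h1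
      rw [← eq_of_add_zero h1]
      exact hoddW j' hj'
    have e2 : Wd (j' * L + s, 0) = Wd (j' * L, 0) := by
      have h1 := hWd.sum (j' * L) 0 (by omega) le_rfl s
      rw [sum_eq_zero (fun i' hi' => by
        rw [chi_eq_of_iff (up_mem_dnO _)]
        exact (hoddchi j' i' hj' (lt_of_lt_of_le (mem_range.1 hi') hs)).2)] at h1
      exact (eq_of_add_zero h1).symm
    rcases bb with _ | _
    · rw [if_neg (by decide), e2, ← hflip (j' * L, 0) rfl (Or.inl (by simp))]
      exact hoddW j' hj'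
    · rw [if_pos rfl, e1]
  -- the contradiction
  obtain ⟨⟨j1, s1, hj1, hs1, hs1', b1, hc1⟩, ⟨j2, s2, hj2, hs2, hs2', b2, hc2⟩⟩ :=
    hodd d x hx0 hxk hd
  have hl := (hconn _ _ hc1).trans (hWodd j1 s1 b1 hj1 hs1 hs1')
  have hr := (hconn _ _ hc2).trans (hWodd j2 s2 b2 hj2 hs2 hs2')
  have hdO : d ∈ O := mem_spread_of hdP
  rw [hWm] at hl hr
  simp only at hl hr
  rcases hd with hd | hd
  · have hmk : mk d = true := by rw [hd]; simp [mk, up]
    rw [hmk, if_pos rfl] at hl hr
    have hrow : d.1 ∈ rows 0 (m : ℤ) := by rw [hd]; exact ⟨le_rfl, hm'⟩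
    have hs := hWu.side (upO_closed hO) hrow
    rw [hl, hr, zz] at hs
    have : chi (upO O) d = 1 := by
      unfold chi
      rw [if_pos]
      exact Or.inl ⟨hdO, by rw [hd]; exact le_rfl⟩
    rw [this] at hs
    exact zero_ne_one hs
  · have hmk : mk d = false := by rw [hd]; simp [mk, dn]
    rw [hmk, if_neg (by decide)] at hl hr
    have hrow : d.1 ∈ rows (-(m : ℤ)) 0 := by
      rw [hd]
      constructor
      · show -(m : ℤ) ≤ 0 - 1
        omega
      · show (0 : ℤ) - 1 < 0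
        omega
    have hs := hWd.side (dnO_closed hO) hrow
    have h3 : Wd (lc d) = Wd (rc d) := by
      have := hl.trans hr.symm
      exact add_right_cancel this
    rw [h3, zz] at hs
    have : chi (dnO O) d = 1 := by
      unfold chi
      rw [if_pos]
      refine Or.inl ⟨hdO, ?_⟩
      rw [hd]
      show (0 : ℤ) - 1 < 0
      omega
    rw [this] at hs
    exact zero_ne_one hs

end H81Tile
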