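import Pool.Agent.Helper81.Tile.Box

/-!
The dual configuration as a bond configuration on the faces (labelled by their lower left corners).
-/

namespace H81Tile
open Finset H47Perc

/-- the dual edge of an edge (it joins the two faces on the sides of the edge) -/
noncomputable def dI : Sym2 (ℤ × ℤ) → Sym2 (ℤ × ℤ) :=
  Sym2.lift ⟨fun u v => if u.2 = v.2 then s((min u.1 v.1, u.2 - 1), (min u.1 v.1, u.2)) else
    if u.1 = v.1 then s((u.1 - 1, min u.2 v.2), (u.1, min u.2 v.2)) else s(u, v), by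
    intro u v
    by_cases h1 : u.2 = v.2
    · simp only [h1, if_true, min_comm]
    · by_cases h2 : u.1 = v.1
      · simp only [if_neg h1, if_neg (Ne.symm h1), h2, if_true, min_comm]
      · simp only [if_neg h1, if_neg (Ne.symm h1), if_neg h2, if_neg (Ne.symm h2), Sym2.eq_swap]⟩

lemma dI_hE (i j : ℤ) : dI (hE i j) = vE i (j - 1) := by
  unfold dI hE vE
  rw [Sym2.lift_mk]
  simp only [if_true]
  rw [min_eq_left (by linarith)]
  rw [sub_add_cancel]

lemma dI_vE (i j : ℤ) : dI (vE i j) = hE (i - 1) j := by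
  unfold dI hE vE
  rw [Sym2.lift_mk]
  simp only
  rw [if_neg (by omega), if_pos trivial, min_eq_left (by linarith), sub_add_cancel]

/-- the dual open edges -/
noncomputable def du (F ω : Finset (Sym2 (ℤ × ℤ))) : Finset (Sym2 (ℤ × ℤ)) := (F \ ω).image dI

lemma dI_sep {f g : ℤ × ℤ} {e : Sym2 (ℤ × ℤ)} (h : Sep f g e) : dI e = s(f, g) := by
  obtain ⟨x, y⟩ := f
  obtain ⟨x', y'⟩ := g
  rcases h with ⟨h1, rfl⟩ | ⟨h1, rfl⟩ | ⟨h1, rfl⟩ | ⟨h1, rfl⟩
  · rw [Prod.mk.injEq] at h1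
    obtain ⟨rfl, rfl⟩ := h1
    simp only
    rw [dI_vE, hE]
    simp
  · rw [Prod.mk.injEq] at h1
    obtain ⟨rfl, rfl⟩ := h1
    simp only
    rw [dI_vE, hE, Sym2.eq_swap]
    simp
  · rw [Prod.mk.injEq] at h1
    obtain ⟨rfl, rfl⟩ := h1
    simp only
    rw [dI_hE, vE]
    simp
  · rw [Prod.mk.injEq] at h1
    obtain ⟨rfl, rfl⟩ := h1
    simp only
    rw [dI_hE, vE, Sym2.eq_swap]
    simp

lemma sep_of_dI_h {i j : ℤ} {f g : ℤ × ℤ} (h : dI (hE i j) = s(f, g)) : Sep f g (hE i j) := by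
  rw [dI_hE, vE, Sym2.eq_iff] at h
  rcases h with ⟨rfl, rfl⟩ | ⟨rfl, rfl⟩
  · right; right; left
    simp
  · right; right; right
    simp

lemma sep_of_dI_v {i j : ℤ} {f g : ℤ × ℤ} (h : dI (vE i j) = s(f, g)) : Sep f g (vE i j) := by
  rw [dI_vE, hE, Sym2.eq_iff] at h
  rcases h with ⟨rfl, rfl⟩ | ⟨rfl, rfl⟩
  · left
    simp
  · right; left
    simp

lemma sep_ne {f g : ℤ × ℤ} {e : Sym2 (ℤ × ℤ)} (h : Sep f g e) : f ≠ g := by
  obtain ⟨x, y⟩ := f
  obtain ⟨x', y'⟩ := g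
  rcases h with ⟨h1, _⟩ | ⟨h1, _⟩ | ⟨h1, _⟩ | ⟨h1, _⟩ <;>
  · rw [Prod.mk.injEq] at h1
    intro h
    rw [Prod.mk.injEq] at h
    omega

/-- a dual step is an edge of the dual configuration -/
theorem fstep_iff {S : Finset (ℤ × ℤ)} {ω : Finset (Sym2 (ℤ × ℤ))} {f g : ℤ × ℤ} :
    FStep (edgesIn S : Set (Sym2 (ℤ × ℤ))) (ω : Set (Sym2 (ℤ × ℤ))) f g ↔
      s(f, g) ∈ du (edgesIn S) ω := by
  unfold FStep du
  rw [mem_image]
  constructor
  · rintro ⟨e, h1, h2, h3⟩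
    exact ⟨e, mem_sdiff.2 ⟨h1, h2⟩, dI_sep h3⟩
  · rintro ⟨e, h1, h2⟩
    rw [mem_sdiff] at h1
    refine ⟨e, h1.1, h1.2, ?_⟩
    rcases edgesIn_cases h1.1 with ⟨i, j, rfl⟩ | ⟨i, j, rfl⟩
    · exact sep_of_dI_h h2
    · exact sep_of_dI_v h2

/-- dual connections are connections in the dual configuration -/
theorem djoined_iff {S : Finset (ℤ × ℤ)} {ω : Finset (Sym2 (ℤ × ℤ))} {f g : ℤ × ℤ} :
    DJoined S ω f g ↔ Joined (du (edgesIn S) ω) f g := by
  unfold DJoined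
  constructor
  · intro h
    induction h with
    | refl => exact joined_refl _ _
    | tail _ h2 ih =>
      obtain ⟨e, _, _, h3⟩ := id h2
      refine joined_trans ih (SimpleGraph.Adj.reachable ?_)
      rw [SimpleGraph.fromEdgeSet_adj]
      exact ⟨fstep_iff.1 h2, sep_ne h3⟩
  · rintro ⟨p⟩
    induction p with
    | nil => exact Relation.ReflTransGen.refl
    | cons h _ ih =>
      rw [SimpleGraph.fromEdgeSet_adj] at h
      exact Relation.ReflTransGen.head (fstep_iff.2 h.1) ih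

end H81Tile
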