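import Pool.Agent.Helper81.Tile.ArmUp
import Pool.Agent.Helper81.Tile.Dual
import Pool.Agent.Helper69.TwoArm.Defs

/-!
Dictionary between the tile coordinates (`H81Tile`) and the colour-blind coordinates (`TA`).

tile `p` ↔ `fT p = (p.1 + p.2 + 1, p.2 - p.1)`, corner `q` ↔ `fF q = (q.1 + q.2, q.2 - q.1)`;
`t p = true` ↔ `M (fT p)`.
-/

namespace H81Tile
open Finset

/-- tiles in colour-blind coordinates -/
def fT (p : ℤ × ℤ) : ℤ × ℤ := (p.1 + p.2 + 1, p.2 - p.1)
/-- corners in colour-blind coordinates -/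
def fF (q : ℤ × ℤ) : ℤ × ℤ := (q.1 + q.2, q.2 - q.1)

lemma fT_inj {p q : ℤ × ℤ} (h : fT p = fT q) : p = q := by
  unfold fT at h
  rw [Prod.mk.injEq] at h
  ext <;> omega

lemma fF_inj {p q : ℤ × ℤ} (h : fF p = fF q) : p = q := by
  unfold fF at h
  rw [Prod.mk.injEq] at h
  ext <;> omega

lemma fT_tile (p : ℤ × ℤ) : TA.IsTile (fT p) := ⟨p.2, by simp only [fT]; ring⟩

lemma fF_face (q : ℤ × ℤ) : TA.IsFace (fF q) := ⟨q.2, by simp only [fF]; ring⟩

lemma exists_fT {v : ℤ × ℤ} (h : TA.IsTile v) : ∃ p, v = fT p := by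
  obtain ⟨k, hk⟩ := h
  refine ⟨(v.1 - 1 - k, k), ?_⟩
  unfold fT
  ext
  · simp
  · simp only; linarith

lemma exists_fF {f : ℤ × ℤ} (h : TA.IsFace f) : ∃ q, f = fF q := by
  obtain ⟨k, hk⟩ := h
  refine ⟨(f.1 - k, k), ?_⟩
  unfold fF
  ext
  · simp
  · simp only; linarith

open Classical in
/-- the tile configuration of a colour-blind configuration -/
noncomputable def tcM (M : ℤ × ℤ → Prop) : TC := fun p => decide (M (fT p))

lemma tcM_true {M : ℤ × ℤ → Prop} {p : ℤ × ℤ} : tcM M p = true ↔ M (fT p) := by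
  simp [tcM]

lemma jn_iff {M : ℤ × ℤ → Prop} {p u v : ℤ × ℤ} :
    Jn (tcM M) p u v ↔ TA.StpV M (fF u) (fF v) (fT p) := by
  obtain ⟨x, y⟩ := p
  obtain ⟨a, b⟩ := u
  obtain ⟨a', b'⟩ := v
  unfold Jn TA.StpV TA.Opp
  rw [tcM_true]
  constructor
  · rintro ⟨c, h1, h2, h3⟩
    rw [h3]
    unfold cor at h1 h2
    fin_cases c <;> simp [co, fT, fF] at h1 h2 ⊢ <;> omega
  · rintro ⟨h1, h2⟩
    rw [h2]
    unfold fT fF at *
    simp only at h1 ⊢
    unfold cor
    rcases h1 with ⟨h3, h4, ⟨h5, h6⟩ | ⟨h5, h6⟩⟩ | ⟨h3, h4, ⟨h5, h6⟩ | ⟨h5, h6⟩⟩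
    · refine ⟨0, ?_, ?_, ?_⟩
      · simp [co]; omega
      · simp [co]; omega
      · simp; omega
    · refine ⟨2, ?_, ?_, ?_⟩
      · simp [co]; omega
      · simp [co]; omega
      · simp; omega
    · refine ⟨1, ?_, ?_, ?_⟩
      · simp [co]; omega
      · simp [co]; omega
      · simp; omega
    · refine ⟨3, ?_, ?_, ?_⟩
      · simp [co]; omega
      · simp [co]; omega
      · simp; omega

/-- a step from a face goes to a face -/
lemma stp_face {M : ℤ × ℤ → Prop} {u g v : ℤ × ℤ} (h : TA.StpV M (fF u) g v) :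
    ∃ w p, g = fF w ∧ v = fT p := by
  have h1 := h.1
  unfold TA.Opp fF at h1
  simp only at h1
  obtain ⟨a, b⟩ := u
  have hg : TA.IsFace g := by
    unfold TA.IsFace
    rcases h1 with ⟨h3, h4, ⟨h5, h6⟩ | ⟨h5, h6⟩⟩ | ⟨h3, h4, ⟨h5, h6⟩ | ⟨h5, h6⟩⟩
    · exact ⟨b + 1, by simp only at *; omega⟩
    · exact ⟨b - 1, by simp only at *; omega⟩
    · exact ⟨b + 1, by simp only at *; omega⟩
    · exact ⟨b - 1, by simp only at *; omega⟩
  have hv : TA.IsTile v := by
    unfold TA.IsTile
    rcases h1 with ⟨h3, h4, ⟨h5, h6⟩ | ⟨h5, h6⟩⟩ | ⟨h3, h4, ⟨h5, h6⟩ | ⟨h5, h6⟩⟩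
    · exact ⟨b, by simp only at *; omega⟩
    · exact ⟨b - 1, by simp only at *; omega⟩
    · exact ⟨b, by simp only at *; omega⟩
    · exact ⟨b - 1, by simp only at *; omega⟩
  obtain ⟨w, hw⟩ := exists_fF hg
  obtain ⟨p, hp⟩ := exists_fT hv
  exact ⟨w, p, hw, hp⟩

theorem cconn_iff {M : ℤ × ℤ → Prop} {R : Set (ℤ × ℤ)} {u w : ℤ × ℤ} :
    CConn (tcM M) (fT ⁻¹' R) u w ↔ TA.Conn M R (fF u) (fF w) := by
  constructor
  · intro h
    induction h with
    | refl => exact Relation.ReflTransGen.refl
    | tail _ h2 ih =>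
      obtain ⟨p, hp, h3⟩ := h2
      exact ih.tail ⟨fT p, hp, jn_iff.1 h3⟩
  · intro h
    have key : ∀ g, TA.Conn M R (fF u) g → ∃ w, g = fF w ∧ CConn (tcM M) (fT ⁻¹' R) u w := by
      intro g hg
      induction hg with
      | refl => exact ⟨u, rfl, Relation.ReflTransGen.refl⟩
      | tail _ h2 ih =>
        obtain ⟨w, rfl, h3⟩ := ih
        obtain ⟨v, hv, h4⟩ := h2
        obtain ⟨w', p, rfl, rfl⟩ := stp_face h4
        exact ⟨w', rfl, h3.tail ⟨p, hv, jn_iff.2 h4⟩⟩
    obtain ⟨w', h1, h2⟩ := key _ h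
    rw [fF_inj h1]
    exact h2

/-! ### interfaces -/

lemma nx_fT (M : ℤ × ℤ → Prop) (p : ℤ × ℤ) (c : Fin 4) :
    TA.nx M (fT (p + dr c)) (fT p) = fT (p + dr (prt (tcM M p) c)) := by
  obtain ⟨x, y⟩ := p
  unfold TA.nx
  by_cases h : M (fT (x, y))
  · rw [if_pos h, tcM_true.2 h]
    fin_cases c <;> simp [fT, dr, prt] <;> constructor <;> ring
  · have h' : tcM M (x, y) = false := by
      rw [← Bool.not_eq_true, tcM_true]; exact h
    rw [if_neg h, h']
    fin_cases c <;> simp [fT, dr, prt] <;> constructor <;> ring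

lemma nxt_fst (t : TC) (d : DS) : (nxt t d).1 = d.1 + dr (prt (t d.1) d.2) := rfl

lemma rev_fst (d : DS) : (rev d).1 = d.1 + dr d.2 := rfl

/-- the interface path in colour-blind coordinates: one step -/
lemma nx_step (M : ℤ × ℤ → Prop) (d : DS) :
    TA.nx M (fT (rev d).1) (fT d.1) = fT (nxt (tcM M) d).1 := by
  rw [nxt_fst, rev_fst]
  exact nx_fT M d.1 d.2

lemma rev_nxt_fst (t : TC) (d : DS) : (rev (nxt t d)).1 = d.1 := by rw [rev_nxt]

lemma diag_dr (p : ℤ × ℤ) (c : Fin 4) : TA.Diag (fT (p + dr c)) (fT p) := by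
  obtain ⟨x, y⟩ := p
  unfold TA.Diag
  fin_cases c <;> simp [fT, dr] <;> omega

/-- a medial edge between two tiles is a directed side -/
lemma exists_ds {u v : ℤ × ℤ} (hu : TA.IsTile u) (h : TA.Diag u v) :
    ∃ d : DS, u = fT (rev d).1 ∧ v = fT d.1 := by
  obtain ⟨p, rfl⟩ := exists_fT hu
  have hv : TA.IsTile v := by
    unfold TA.IsTile
    unfold TA.Diag fT at h
    obtain ⟨x, y⟩ := p
    simp only at h
    rcases h with ⟨h1 | h1, h2 | h2⟩
    · exact ⟨y + 1, by omega⟩
    · exact ⟨y, by omega⟩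
    · exact ⟨y, by omega⟩
    · exact ⟨y - 1, by omega⟩
  obtain ⟨q, rfl⟩ := exists_fT hv
  obtain ⟨x, y⟩ := p
  obtain ⟨x', y'⟩ := q
  unfold TA.Diag fT at h
  simp only at h
  simp only [rev_fst]
  rcases h with ⟨h1 | h1, h2 | h2⟩
  · refine ⟨((x', y'), 0), ?_, rfl⟩
    simp [fT, dr]; omega
  · refine ⟨((x', y'), 3), ?_, rfl⟩
    simp [fT, dr]; omega
  · refine ⟨((x', y'), 1), ?_, rfl⟩
    simp [fT, dr]; omega
  · refine ⟨((x', y'), 2), ?_, rfl⟩
    simp [fT, dr]; omega

/-- the trajectory from outside to outside through a side -/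
theorem thru_iff {M : ℤ × ℤ → Prop} {D : Set (ℤ × ℤ)} {d : DS} :
    TA.Thru M D (fT (rev d).1) (fT d.1) ↔
      Leaves (tcM M) (fT ⁻¹' D) d ∧ Leaves (tcM M) (fT ⁻¹' D) (rev d) := by
  classical
  constructor
  · rintro ⟨c, n, t, hT, htn, h1, h2⟩
    constructor
    · -- forward
      have key : ∀ k, t + 1 + k ≤ n → c (t + k) = fT (rev ((nxt (tcM M))^[k] d)).1 ∧
          c (t + 1 + k) = fT ((nxt (tcM M))^[k] d).1 := by
        intro k
        induction k with
        | zero => intro _; exact ⟨h1, h2⟩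
        | succ k ih =>
          intro hk
          obtain ⟨e1, e2⟩ := ih (by omega)
          constructor
          · rw [Function.iterate_succ_apply', rev_nxt_fst, ← e2]
            congr 1
            omega
          · have h3 := hT.turn (t + k) (by omega)
            rw [show t + k + 1 = t + 1 + k by omega, e1, e2, nx_step] at h3
            rw [Function.iterate_succ_apply', ← h3]
            congr 1
            omega
      refine ⟨n - (t + 1), ?_⟩
      have h3 := (key (n - (t + 1)) (by omega)).2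
      rw [show t + 1 + (n - (t + 1)) = n by omega] at h3
      intro h4
      apply hT.outn
      rw [h3]
      exact h4
    · -- backward
      have key : ∀ k, k ≤ t → c (t + 1 - k) = fT (rev ((nxt (tcM M))^[k] (rev d))).1 ∧
          c (t - k) = fT ((nxt (tcM M))^[k] (rev d)).1 := by
        intro k
        induction k with
        | zero =>
          intro _
          simp only [Function.iterate_zero, id_eq, Nat.sub_zero, rev_rev]
          exact ⟨h2, h1⟩
        | succ k ih =>
          intro hk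
          obtain ⟨e1, e2⟩ := ih (by omega)
          constructor
          · rw [Function.iterate_succ_apply', rev_nxt_fst, ← e2]
            congr 1
            omega
          · have h3 := hT.turn (t - (k + 1)) (by omega)
            rw [show t - (k + 1) + 2 = t + 1 - k by omega,
              show t - (k + 1) + 1 = t - k by omega] at h3
            have h4 : TA.nx M (c (t + 1 - k)) (c (t - k)) =
                TA.nx M (TA.nx M (c (t - (k + 1))) (c (t - k))) (c (t - k)) := by rw [h3]
            have h5 : ∀ a b, TA.nx M (TA.nx M a b) b = a := by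
              intro a b
              unfold TA.nx
              split_ifs
              · ext <;> simp
              · ext <;> simp
            rw [h5, e1, e2, nx_step] at h4
            rw [Function.iterate_succ_apply', h4]
      refine ⟨t, ?_⟩
      have h3 := (key t le_rfl).2
      rw [Nat.sub_self] at h3
      intro h4
      apply hT.out0
      rw [h3]
      exact h4
  · rintro ⟨hf, hb⟩
    -- the path
    let a := Nat.find hb
    let b := Nat.find hf
    have ha := Nat.find_spec hb
    have hbs := Nat.find_spec hf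
    have hamin : ∀ i < a, ((nxt (tcM M))^[i] (rev d)).1 ∈ fT ⁻¹' D := by
      intro i hi
      by_contra hc
      exact Nat.find_min hb hi hc
    have hbmin : ∀ i < b, ((nxt (tcM M))^[i] d).1 ∈ fT ⁻¹' D := by
      intro i hi
      by_contra hc
      exact Nat.find_min hf hi hc
    -- c i for i ≤ a : backwards, for i > a : forwards
    let c : ℕ → ℤ × ℤ := fun i => if i ≤ a then fT ((nxt (tcM M))^[a - i] (rev d)).1 else
      fT ((nxt (tcM M))^[i - a - 1] d).1
    have hca : ∀ i ≤ a, c i = fT ((nxt (tcM M))^[a - i] (rev d)).1 := fun i hi => if_pos hi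
    have hcb : ∀ i, a < i → c i = fT ((nxt (tcM M))^[i - a - 1] d).1 :=
      fun i hi => if_neg (by omega)
    refine ⟨c, a + 1 + b, a, ⟨?_, ?_, by omega, ?_, ?_, ?_, ?_⟩, by omega, ?_, ?_⟩
    · rw [hca 0 (Nat.zero_le _)]; exact fT_tile _
    · -- diag
      rcases Nat.eq_zero_or_pos a with h0 | h0
      · rw [hca 0 (Nat.zero_le _), hcb 1 (by omega)]
        rw [h0]
        simp only [Nat.sub_self, Function.iterate_zero, id_eq, Nat.sub_zero]
        rw [rev_fst]
        exact diag_dr _ _
      · rw [hca 0 (Nat.zero_le _), hca 1 (by omega)]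
        obtain ⟨a', ha'⟩ : ∃ a', a = a' + 1 := ⟨a - 1, by omega⟩
        rw [ha']
        simp only [Nat.sub_zero, Nat.add_sub_cancel]
        rw [Function.iterate_succ_apply']
        rw [nxt_fst]
        exact diag_dr _ _
    · rw [hca 0 (Nat.zero_le _)]
      exact ha
    · rw [hcb (a + 1 + b) (by omega), show a + 1 + b - a - 1 = b by omega]
      exact hbs
    · intro i h0 hi
      rcases Nat.lt_or_ge a i with h1 | h1
      · rw [hcb i h1]
        exact hbmin _ (by omega)
      · rw [hca i h1]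
        exact hamin _ (by omega)
    · intro i hi
      rcases Nat.lt_or_ge a i with h1 | h1
      · rw [hcb i h1, hcb (i + 1) (by omega), hcb (i + 2) (by omega)]
        obtain ⟨j, hj⟩ : ∃ j, i = a + 1 + j := ⟨i - (a + 1), by omega⟩
        subst hj
        rw [show a + 1 + j - a - 1 = j by omega, show a + 1 + j + 1 - a - 1 = j + 1 by omega,
          show a + 1 + j + 2 - a - 1 = j + 2 by omega]
        have := nx_step M ((nxt (tcM M))^[j + 1] d)
        rw [Function.iterate_succ_apply' (nxt (tcM M)) (j + 1), ← this,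
          Function.iterate_succ_apply' (nxt (tcM M)) j, rev_nxt_fst]
      · rcases Nat.eq_or_lt_of_le h1 with h2 | h2
        · -- i = a
          rw [hca i h1, hcb (i + 1) (by omega), hcb (i + 2) (by omega)]
          rw [h2]
          rw [show a - a = 0 by omega, show a + 1 - a - 1 = 0 by omega,
            show a + 2 - a - 1 = 1 by omega]
          simp only [Function.iterate_zero, id_eq, Function.iterate_one]
          exact (nx_step M d).symm
        · rcases Nat.eq_or_lt_of_le (Nat.succ_le_of_lt h2) with h3 | h3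
          · -- i + 1 = a
            rw [hca i h1, hca (i + 1) (by omega), hcb (i + 2) (by omega)]
            rw [show a - i = 1 by omega, show a - (i + 1) = 0 by omega,
              show i + 2 - a - 1 = 0 by omega]
            simp only [Function.iterate_zero, id_eq, Function.iterate_one]
            have := nx_step M (rev (nxt (tcM M) (rev d)))
            rw [nxt_rev_nxt, rev_rev, rev_rev, rev_nxt_fst] at this
            exact this.symm
          · rw [hca i h1, hca (i + 1) (by omega), hca (i + 2) (by omega)]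
            obtain ⟨j, hj⟩ : ∃ j, a = i + 2 + j := ⟨a - (i + 2), by omega⟩
            rw [show a - i = j + 2 by omega, show a - (i + 1) = j + 1 by omega,
              show a - (i + 2) = j by omega]
            have := nx_step M (rev ((nxt (tcM M))^[j + 2] (rev d)))
            rw [rev_rev, Function.iterate_succ_apply' (nxt (tcM M)) (j + 1), nxt_rev_nxt,
              rev_nxt_fst] at this
            rw [Function.iterate_succ_apply' (nxt (tcM M)) (j + 1)]
            rw [this, Function.iterate_succ_apply' (nxt (tcM M)) j, rev_nxt_fst]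
    · rw [hca a le_rfl, Nat.sub_self]
      rfl
    · rw [hcb (a + 1) (by omega), show a + 1 - a - 1 = 0 by omega]
      rfl

end H81Tile
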