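import Pool.Agent.Helper81.Tile.Cyl
import Pool.Agent.Helper64.IPC.Defs

set_option warn.classDefReducibility false

/-!
The action of rows of tiles on the states of `IPC` (double cover of the cylinder), and its relation
to the interfaces in the universal cover.

`tact b i` is the action of one tile (both copies) at the strand `i`; `true` is the exchange of the
labels, `false` the generator.  `ract b n` treats the strands `n-1, ..., 0` (in this order),
`lact L b` is a full row, closed up, `mact L b m` are `m` rows (row `m-1` acts first).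
-/

namespace H81Tile
open Finset IPC
open IP (St)

/-- one tile -/
def tact (b : Bool) (i : ℕ) (σ : St) : St :=
  if b then rel (gs 0 (2 * i + 4) 1 (2 * i + 5)) σ else pr 0 (2 * i + 4) (pr 1 (2 * i + 5) σ)

/-- the tiles at the strands `n-1, ..., 0` -/
def ract (b : ℕ → Bool) : ℕ → St → St
  | 0, σ => σ
  | n + 1, σ => ract b n (tact (b n) n σ)

/-- a full row -/
def lact (L : ℕ) (b : ℕ → Bool) (σ : St) : St :=
  rel (Equiv.swap 2 3) (pr 0 3 (pr 1 2 (ract b L σ)))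

/-- `m` rows -/
def mact (L : ℕ) (b : ℕ → ℕ → Bool) : ℕ → St → St
  | 0, σ => σ
  | m + 1, σ => mact L b m (lact L (b m) σ)

/-- `σ` connects only nodes `< N` with the same colour -/
def Resp (N : ℕ) (c : ℕ → Prop) (σ : St) : Prop := ∀ u v, u < N → v < N → σ u v → (c u ↔ c v)

lemma Resp.congr {N : ℕ} {c c' : ℕ → Prop} {σ : St} (h : Resp N c σ) (hc : ∀ u < N, c u ↔ c' u) :
    Resp N c' σ := by
  intro u v hu hv huv
  rw [← hc u hu, ← hc v hv]
  exact h u v hu hv huv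

lemma Resp.pr {N : ℕ} {c c' : ℕ → Prop} {σ : St} {x y : ℕ} (h : Resp N c σ) (hx : x < N) (hy : y < N)
    (h1 : c x ↔ c y) (h2 : c' x ↔ c' y) (h3 : ∀ u, u ≠ x → u ≠ y → (c' u ↔ c u)) :
    Resp N c' (pr x y σ) := by
  intro u v hu hv huv
  have huv' : u = v ∨ ((u = x ∨ u = y) ∧ (v = x ∨ v = y)) ∨
    ((u ≠ x ∧ u ≠ y) ∧ (v ≠ x ∧ v ≠ y) ∧ (σ u v ∨ (σ u x ∧ σ y v) ∨ (σ u y ∧ σ x v))) := huv
  rcases huv' with rfl | ⟨h4 | h4, h5 | h5⟩ | ⟨h4, h5, h6⟩
  · exact Iff.rfl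
  · rw [h4, h5]
  · rw [h4, h5]; exact h2
  · rw [h4, h5]; exact h2.symm
  · rw [h4, h5]
  · rw [h3 u h4.1 h4.2, h3 v h5.1 h5.2]
    rcases h6 with h6 | ⟨h6, h7⟩ | ⟨h6, h7⟩
    · exact h u v hu hv h6
    · exact (h u x hu hx h6).trans (h1.trans (h y v hy hv h7))
    · exact (h u y hu hy h6).trans (h1.symm.trans (h x v hx hv h7))

lemma Resp.rel {N : ℕ} {c c' : ℕ → Prop} {σ : St} {e : Equiv.Perm ℕ} (h : Resp N c σ)
    (he : ∀ u < N, e.symm u < N) (hc : ∀ u < N, c' u ↔ c (e.symm u)) : Resp N c' (rel e σ) := by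
  intro u v hu hv huv
  rw [hc u hu, hc v hv]
  exact h _ _ (he u hu) (he v hv) huv

/-- the vertical side between the tiles `(x-1, j)` and `(x, j)` -/
def ve (x j : ℤ) : DS := ((x, j), 3)

/-- colours of the nodes, given by a set `O` of sides, when the tiles of the columns `≥ i` of the
row `j` and all higher rows have been treated -/
def colr (L : ℕ) (O : Set DS) (j : ℤ) (i : ℕ) (u : ℕ) : Prop :=
  if u < 2 then ve (i + (u % 2 : ℕ) * L) j ∈ O
  else if u < 4 then ve (L + (u % 2 : ℕ) * L) j ∈ O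
  else if (u - 4) / 2 < i then up (((u - 4) / 2 : ℕ) + (u % 2 : ℕ) * L) (j + 1) ∈ O
  else up (((u - 4) / 2 : ℕ) + (u % 2 : ℕ) * L) j ∈ O

/-- the set `O` is closed under the tile `p` -/
def ClT (t : TC) (O : Set DS) (p : ℤ × ℤ) : Prop := ∀ c, (p, prt (t p) c) ∈ O ↔ (p, c) ∈ O

lemma ve_succ {O : Set DS} (hO : ∀ d, rev d ∈ O ↔ d ∈ O) (x j : ℤ) :
    ve (x + 1) j ∈ O ↔ ((x, j), (1 : Fin 4)) ∈ O := by
  rw [← hO ((x, j), 1)]
  simp [rev, dr, ve]

lemma up_succ {O : Set DS} (hO : ∀ d, rev d ∈ O ↔ d ∈ O) (x j : ℤ) :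
    up x (j + 1) ∈ O ↔ ((x, j), (2 : Fin 4)) ∈ O := by
  rw [← hO ((x, j), 2)]
  simp [rev, dr, up]

lemma colr_0 (L : ℕ) (O : Set DS) (j : ℤ) (i : ℕ) : colr L O j i 0 ↔ ve i j ∈ O := by
  unfold colr
  simp

lemma colr_1 (L : ℕ) (O : Set DS) (j : ℤ) (i : ℕ) : colr L O j i 1 ↔ ve (i + L) j ∈ O := by
  unfold colr
  simp

lemma colr_2 (L : ℕ) (O : Set DS) (j : ℤ) (i : ℕ) : colr L O j i 2 ↔ ve L j ∈ O := by
  unfold colr
  simp

lemma colr_3 (L : ℕ) (O : Set DS) (j : ℤ) (i : ℕ) : colr L O j i 3 ↔ ve (L + L) j ∈ O := by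
  unfold colr
  simp

lemma colr_s0 (L : ℕ) (O : Set DS) (j : ℤ) (i k : ℕ) : colr L O j i (2 * k + 4) ↔
    (if k < i then up k (j + 1) ∈ O else up k j ∈ O) := by
  unfold colr
  rw [if_neg (by omega), if_neg (by omega)]
  have h1 : (2 * k + 4 - 4) / 2 = k := by omega
  have h2 : (2 * k + 4) % 2 = 0 := by omega
  rw [h1, h2]
  simp

lemma colr_s1 (L : ℕ) (O : Set DS) (j : ℤ) (i k : ℕ) : colr L O j i (2 * k + 5) ↔
    (if k < i then up (k + L) (j + 1) ∈ O else up (k + L) j ∈ O) := by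
  unfold colr
  rw [if_neg (by omega), if_neg (by omega)]
  have h1 : (2 * k + 5 - 4) / 2 = k := by omega
  have h2 : (2 * k + 5) % 2 = 1 := by omega
  rw [h1, h2]
  simp

/-- a node is `0`, `1`, `2`, `3` or a strand node -/
lemma node_cases (u : ℕ) : u = 0 ∨ u = 1 ∨ u = 2 ∨ u = 3 ∨ (∃ k, u = 2 * k + 4) ∨
    (∃ k, u = 2 * k + 5) := by
  by_cases h0 : u = 0
  · exact Or.inl h0
  by_cases h1 : u = 1
  · exact Or.inr (Or.inl h1)
  by_cases h2 : u = 2
  · exact Or.inr (Or.inr (Or.inl h2))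
  by_cases h3 : u = 3
  · exact Or.inr (Or.inr (Or.inr (Or.inl h3)))
  rcases Nat.even_or_odd u with h | h
  · obtain ⟨k, hk⟩ := h
    exact Or.inr (Or.inr (Or.inr (Or.inr (Or.inl ⟨k - 2, by omega⟩))))
  · obtain ⟨k, hk⟩ := h
    exact Or.inr (Or.inr (Or.inr (Or.inr (Or.inr ⟨k - 2, by omega⟩))))

/-- colours do not change at the nodes that are not touched by the tile `i` -/
lemma colr_untouched (L : ℕ) (O : Set DS) (j : ℤ) (i u : ℕ) (h0 : u ≠ 0) (h1 : u ≠ 1)
    (h2 : u ≠ 2 * i + 4) (h3 : u ≠ 2 * i + 5) : colr L O j i u ↔ colr L O j (i + 1) u := by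
  rcases node_cases u with rfl | rfl | rfl | rfl | ⟨k, rfl⟩ | ⟨k, rfl⟩
  · exact absurd rfl h0
  · exact absurd rfl h1
  · rw [colr_2, colr_2]
  · rw [colr_3, colr_3]
  · rw [colr_s0, colr_s0]
    by_cases h : k < i
    · rw [if_pos h, if_pos (by omega)]
    · rw [if_neg h, if_neg (by omega)]
  · rw [colr_s1, colr_s1]
    by_cases h : k < i
    · rw [if_pos h, if_pos (by omega)]
    · rw [if_neg h, if_neg (by omega)]

lemma gs_symm_apply (i u : ℕ) : (gs 0 (2 * i + 4) 1 (2 * i + 5)).symm u =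
    if u = 0 then 2 * i + 4 else if u = 1 then 2 * i + 5 else if u = 2 * i + 4 then 0
        else if u = 2 * i + 5 then 1 else u := by
  have e : (gs 0 (2 * i + 4) 1 (2 * i + 5)).symm u =
      Equiv.swap 1 (2 * i + 5) (Equiv.swap 0 (2 * i + 4) u) := rfl
  rw [e]
  by_cases h0 : u = 0
  · subst h0
    rw [Equiv.swap_apply_left, if_pos rfl, Equiv.swap_apply_of_ne_of_ne (by omega) (by omega)]
  · by_cases h1 : u = 1
    · subst h1
      have e1 : Equiv.swap 0 (2 * i + 4) 1 = 1 :=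
        Equiv.swap_apply_of_ne_of_ne (by omega) (by omega)
      rw [e1, Equiv.swap_apply_left]
      simp
    · by_cases h2 : u = 2 * i + 4
      · subst h2
        rw [Equiv.swap_apply_right, if_neg h0, if_neg h1, if_pos rfl,
          Equiv.swap_apply_of_ne_of_ne (by omega) (by omega)]
      · by_cases h3 : u = 2 * i + 5
        · subst h3
          rw [Equiv.swap_apply_of_ne_of_ne h0 h2, Equiv.swap_apply_right, if_neg h0, if_neg h1,
            if_neg h2, if_pos rfl]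
        · rw [Equiv.swap_apply_of_ne_of_ne h0 h2, Equiv.swap_apply_of_ne_of_ne h1 h3,
            if_neg h0, if_neg h1, if_neg h2, if_neg h3]

theorem resp_tact {L : ℕ} {O : Set DS} (hO : ∀ d, rev d ∈ O ↔ d ∈ O) {t : TC} {j : ℤ} {i : ℕ}
    (hi : i < L) {b : Bool} (hb0 : t ((i : ℤ), j) = b) (hb1 : t ((i : ℤ) + L, j) = b)
    (hc0 : ClT t O ((i : ℤ), j)) (hc1 : ClT t O ((i : ℤ) + L, j)) {σ : St}
    (h : Resp (2 * L + 4) (colr L O j (i + 1)) σ) :
    Resp (2 * L + 4) (colr L O j i) (tact b i σ) := by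
  -- colours of the four sides in both copies
  have a0 : colr L O j i 0 ↔ (((i : ℤ), j), (3 : Fin 4)) ∈ O := colr_0 L O j i
  have a1 : colr L O j i 1 ↔ (((i : ℤ) + L, j), (3 : Fin 4)) ∈ O := colr_1 L O j i
  have s0 : colr L O j i (2 * i + 4) ↔ (((i : ℤ), j), (0 : Fin 4)) ∈ O := by
    rw [colr_s0, if_neg (lt_irrefl i)]; rfl
  have s1 : colr L O j i (2 * i + 5) ↔ (((i : ℤ) + L, j), (0 : Fin 4)) ∈ O := by
    rw [colr_s1, if_neg (lt_irrefl i)]; rfl
  have A0 : colr L O j (i + 1) 0 ↔ (((i : ℤ), j), (1 : Fin 4)) ∈ O := by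
    rw [colr_0, ← ve_succ hO]; push_cast; rfl
  have A1 : colr L O j (i + 1) 1 ↔ (((i : ℤ) + L, j), (1 : Fin 4)) ∈ O := by
    rw [colr_1, ← ve_succ hO]; push_cast
    rw [show (i : ℤ) + 1 + L = i + L + 1 by ring]
  have S0 : colr L O j (i + 1) (2 * i + 4) ↔ (((i : ℤ), j), (2 : Fin 4)) ∈ O := by
    rw [colr_s0, if_pos (Nat.lt_succ_self i), up_succ hO]
  have S1 : colr L O j (i + 1) (2 * i + 5) ↔ (((i : ℤ) + L, j), (2 : Fin 4)) ∈ O := by
    rw [colr_s1, if_pos (Nat.lt_succ_self i), up_succ hO]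
  unfold tact
  rcases b with _ | _
  · -- generator
    simp only [Bool.false_eq_true, if_false]
    have q0 := hc0 0
    have q1 := hc0 1
    have q2 := hc1 0
    have q3 := hc1 1
    rw [hb0] at q0 q1
    rw [hb1] at q2 q3
    simp only [prt, Bool.false_eq_true, if_false] at q0 q1 q2 q3
    have q0' : (((i : ℤ), j), (3 : Fin 4)) ∈ O ↔ (((i : ℤ), j), (0 : Fin 4)) ∈ O := q0
    have q1' : (((i : ℤ), j), (2 : Fin 4)) ∈ O ↔ (((i : ℤ), j), (1 : Fin 4)) ∈ O := q1
    have q2' : (((i : ℤ) + L, j), (3 : Fin 4)) ∈ O ↔ (((i : ℤ) + L, j), (0 : Fin 4)) ∈ O := q2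
    have q3' : (((i : ℤ) + L, j), (2 : Fin 4)) ∈ O ↔ (((i : ℤ) + L, j), (1 : Fin 4)) ∈ O := q3
    obtain ⟨c', hc'1, hc's, hc'o⟩ : ∃ c' : ℕ → Prop, (c' 1 ↔ colr L O j i 1) ∧
        (c' (2 * i + 5) ↔ colr L O j i (2 * i + 5)) ∧
        (∀ u, u ≠ 1 → u ≠ 2 * i + 5 → (c' u ↔ colr L O j (i + 1) u)) := by
      refine ⟨fun u => if u = 1 ∨ u = 2 * i + 5 then colr L O j i u
        else colr L O j (i + 1) u, ?_, ?_, ?_⟩
      · simp only [true_or, if_true]
      · simp only [or_true, if_true]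
      · intro u h1 h2
        show (if u = 1 ∨ u = 2 * i + 5 then colr L O j i u
          else colr L O j (i + 1) u) ↔ _
        rw [if_neg (not_or.2 ⟨h1, h2⟩)]
    have step1 : Resp (2 * L + 4) c' (IPC.pr 1 (2 * i + 5) σ) := by
      refine h.pr (by omega) (by omega) ?_ ?_ hc'o
      · rw [A1, S1, q3']
      · rw [hc'1, hc's, a1, s1, q2']
    refine step1.pr (by omega) (by omega) ?_ ?_ ?_
    · rw [hc'o 0 (by omega) (by omega), hc'o (2 * i + 4) (by omega) (by omega), A0, S0, q1']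
    · rw [a0, s0, q0']
    · intro u h1 h2
      by_cases h3 : u = 1
      · rw [h3, hc'1]
      · by_cases h4 : u = 2 * i + 5
        · rw [h4, hc's]
        · rw [hc'o u h3 h4]
          exact colr_untouched L O j i u h1 h3 h2 h4
  · -- exchange
    simp only [if_true]
    have q0 := hc0 0
    have q1 := hc0 2
    have q2 := hc1 0
    have q3 := hc1 2
    rw [hb0] at q0 q1
    rw [hb1] at q2 q3
    simp only [prt, if_true] at q0 q1 q2 q3
    have q0' : (((i : ℤ), j), (1 : Fin 4)) ∈ O ↔ (((i : ℤ), j), (0 : Fin 4)) ∈ O := q0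
    have q1' : (((i : ℤ), j), (3 : Fin 4)) ∈ O ↔ (((i : ℤ), j), (2 : Fin 4)) ∈ O := q1
    have q2' : (((i : ℤ) + L, j), (1 : Fin 4)) ∈ O ↔ (((i : ℤ) + L, j), (0 : Fin 4)) ∈ O := q2
    have q3' : (((i : ℤ) + L, j), (3 : Fin 4)) ∈ O ↔ (((i : ℤ) + L, j), (2 : Fin 4)) ∈ O := q3
    have hg := gs_symm_apply i
    refine h.rel ?_ ?_
    · intro u hu
      rw [hg]
      split_ifs <;> omega
    · intro u hu
      rw [hg]
      by_cases h0 : u = 0
      · rw [h0, if_pos rfl, a0, S0, q1']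
      · by_cases h1 : u = 1
        · rw [h1, if_neg (by omega), if_pos rfl, a1, S1, q3']
        · by_cases h2 : u = 2 * i + 4
          · rw [if_neg h0, if_neg h1, if_pos h2, h2, s0, A0, q0']
          · by_cases h3 : u = 2 * i + 5
            · rw [if_neg h0, if_neg h1, if_neg h2, if_pos h3, h3, s1, A1, q2']
            · rw [if_neg h0, if_neg h1, if_neg h2, if_neg h3]
              exact colr_untouched L O j i u h0 h1 h2 h3

theorem resp_ract {L : ℕ} {O : Set DS} (hO : ∀ d, rev d ∈ O ↔ d ∈ O) {t : TC} {j : ℤ}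
    {b : ℕ → Bool} (n : ℕ) (hn : n ≤ L) (hb0 : ∀ i < n, t ((i : ℤ), j) = b i)
    (hb1 : ∀ i < n, t ((i : ℤ) + L, j) = b i)
    (hc0 : ∀ i < n, ClT t O ((i : ℤ), j)) (hc1 : ∀ i < n, ClT t O ((i : ℤ) + L, j)) {σ : St}
    (h : Resp (2 * L + 4) (colr L O j n) σ) :
    Resp (2 * L + 4) (colr L O j 0) (ract b n σ) := by
  induction n generalizing σ with
  | zero => exact h
  | succ n ih =>
    unfold ract
    apply ih (by omega) (fun i hi => hb0 i (by omega)) (fun i hi => hb1 i (by omega))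
      (fun i hi => hc0 i (by omega)) (fun i hi => hc1 i (by omega))
    exact resp_tact hO (by omega) (hb0 n (by omega)) (hb1 n (by omega)) (hc0 n (by omega))
      (hc1 n (by omega)) h

theorem resp_close {L : ℕ} {O : Set DS} {j : ℤ} (hper : ve (L + L) j ∈ O ↔ ve 0 j ∈ O) {σ : St}
    (h : Resp (2 * L + 4) (colr L O j 0) σ) :
    Resp (2 * L + 4) (colr L O (j - 1) L) (rel (Equiv.swap 2 3) (pr 0 3 (pr 1 2 σ))) := by
  have C0 : colr L O j 0 0 ↔ ve 0 j ∈ O := by rw [colr_0]; simp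
  have C1 : colr L O j 0 1 ↔ ve L j ∈ O := by rw [colr_1]; simp
  have C2 : colr L O j 0 2 ↔ ve L j ∈ O := colr_2 _ _ _ _
  have C3 : colr L O j 0 3 ↔ ve (L + L) j ∈ O := colr_3 _ _ _ _
  have D0 : colr L O (j - 1) L 0 ↔ ve L (j - 1) ∈ O := colr_0 _ _ _ _
  have D1 : colr L O (j - 1) L 1 ↔ ve (L + L) (j - 1) ∈ O := colr_1 _ _ _ _
  have D2 : colr L O (j - 1) L 2 ↔ ve L (j - 1) ∈ O := colr_2 _ _ _ _
  have D3 : colr L O (j - 1) L 3 ↔ ve (L + L) (j - 1) ∈ O := colr_3 _ _ _ _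
  have Ds : ∀ u, 4 ≤ u → u < 2 * L + 4 → (colr L O (j - 1) L u ↔ colr L O j 0 u) := by
    intro u h4 hu
    rcases node_cases u with rfl | rfl | rfl | rfl | ⟨k, rfl⟩ | ⟨k, rfl⟩
    · omega
    · omega
    · omega
    · omega
    · rw [colr_s0, colr_s0, if_pos (by omega), if_neg (by omega)]
      simp
    · rw [colr_s1, colr_s1, if_pos (by omega), if_neg (by omega)]
      simp
  -- colours after `pr 1 2`
  obtain ⟨c', h1, h2, h3⟩ : ∃ c' : ℕ → Prop, (c' 1 ↔ ve (L + L) (j - 1) ∈ O) ∧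
      (c' 2 ↔ ve (L + L) (j - 1) ∈ O) ∧ (∀ u, u ≠ 1 → u ≠ 2 → (c' u ↔ colr L O j 0 u)) := by
    refine ⟨fun u => if u = 1 ∨ u = 2 then ve (L + L) (j - 1) ∈ O else colr L O j 0 u, ?_, ?_, ?_⟩
    · simp only [true_or, if_true]
    · simp only [or_true, if_true]
    · intro u h1 h2
      show (if u = 1 ∨ u = 2 then ve (L + L) (j - 1) ∈ O else colr L O j 0 u) ↔ _
      rw [if_neg (not_or.2 ⟨h1, h2⟩)]
  have s1 : Resp (2 * L + 4) c' (pr 1 2 σ) := by
    refine h.pr (by omega) (by omega) ?_ ?_ h3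
    · rw [C1, C2]
    · rw [h1, h2]
  obtain ⟨c'', g1, g2, g3⟩ : ∃ c'' : ℕ → Prop, (c'' 0 ↔ ve L (j - 1) ∈ O) ∧
      (c'' 3 ↔ ve L (j - 1) ∈ O) ∧ (∀ u, u ≠ 0 → u ≠ 3 → (c'' u ↔ c' u)) := by
    refine ⟨fun u => if u = 0 ∨ u = 3 then ve L (j - 1) ∈ O else c' u, ?_, ?_, ?_⟩
    · simp only [true_or, if_true]
    · simp only [or_true, if_true]
    · intro u h1 h2
      show (if u = 0 ∨ u = 3 then ve L (j - 1) ∈ O else c' u) ↔ _
      rw [if_neg (not_or.2 ⟨h1, h2⟩)]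
  have s2 : Resp (2 * L + 4) c'' (pr 0 3 (pr 1 2 σ)) := by
    refine s1.pr (by omega) (by omega) ?_ ?_ g3
    · rw [h3 0 (by omega) (by omega), h3 3 (by omega) (by omega), C0, C3, hper]
    · rw [g1, g2]
  refine s2.rel ?_ ?_
  · intro u hu
    rw [Equiv.symm_swap, Equiv.swap_apply_def]
    split_ifs <;> omega
  · intro u hu
    rw [Equiv.symm_swap]
    by_cases u2 : u = 2
    · rw [u2, Equiv.swap_apply_left, D2, g2]
    · by_cases u3 : u = 3
      · rw [u3, Equiv.swap_apply_right, D3, g3 2 (by omega) (by omega), h2]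
      · rw [Equiv.swap_apply_of_ne_of_ne u2 u3]
        by_cases u0 : u = 0
        · rw [u0, D0, g1]
        · by_cases u1 : u = 1
          · rw [u1, D1, g3 1 (by omega) (by omega), h1]
          · rw [Ds u (by omega) hu, g3 u u0 u3, h3 u u1 u2]

/-- `m` rows of tiles: colours given by a `2L`-periodic set of sides closed under the tiles of the
rows `0, ..., m-1` are respected -/
theorem resp_mact {L : ℕ} {O : Set DS} {t : TC} {m : ℕ} (ht : Per L t)
    (hcl : ClosedOn t (rows 0 m) O) (hper : ∀ j, ve (L + L) j ∈ O ↔ ve 0 j ∈ O)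
    {b : ℕ → ℕ → Bool} (hb : ∀ j < m, ∀ i < L, t ((i : ℤ), (j : ℤ)) = b j i) {σ : St}
    (h : Resp (2 * L + 4) (colr L O ((m : ℤ) - 1) L) σ) :
    Resp (2 * L + 4) (colr L O (-1) L) (mact L b m σ) := by
  induction m generalizing σ with
  | zero =>
    show Resp _ _ σ
    simpa using h
  | succ m ih =>
    unfold mact
    apply ih (hcl.mono ?_) (fun j hj i hi => hb j (by omega) i hi)
    · unfold lact
      apply resp_close (hper m)
      have e1 : (((m + 1 : ℕ) : ℤ) - 1) = m := by push_cast; ring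
      rw [e1] at h
      have hmem : ∀ x : ℤ, ((x, (m : ℤ)) : ℤ × ℤ) ∈ rows 0 ((m + 1 : ℕ) : ℤ) := by
        intro x
        constructor
        · simp
        · simp
      refine resp_ract hcl.rv_iff (t := t) L le_rfl (fun i hi => hb m (by omega) i hi)
        (fun i hi => ?_) (fun i hi c => hcl.pr_iff (hmem _) c) (fun i hi c => hcl.pr_iff (hmem _) c) h
      rw [← hb m (by omega) i hi]
      exact ht ((i : ℤ), (m : ℤ))
    · intro p hp
      exact ⟨hp.1, lt_trans hp.2 (by push_cast; linarith)⟩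

/-- position of a strand node in the universal cover, `0 ≤ pos L u < 2 L` -/
def pos (L u : ℕ) : ℤ := ((u - 4) / 2 : ℕ) + (u % 2 : ℕ) * L

lemma colr_pos {L : ℕ} (O : Set DS) (j : ℤ) {u : ℕ} (h4 : 4 ≤ u) (hu : u < 2 * L + 4) :
    colr L O j L u ↔ up (pos L u) (j + 1) ∈ O := by
  unfold colr pos
  rw [if_neg (by omega), if_neg (by omega), if_pos (by omega)]

/-- the relation between the state and the interfaces: a set of sides `O`, periodic with period
`2L` and closed under the tiles of the rows `0, ..., m-1`, compatible with the outer state -/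
theorem mact_resp {L : ℕ} {O : Set DS} {t : TC} {m : ℕ} (ht : Per L t)
    (hcl : ClosedOn t (rows 0 m) O) (hper : ∀ j, ve (L + L) j ∈ O ↔ ve 0 j ∈ O)
    {b : ℕ → ℕ → Bool} (hb : ∀ j < m, ∀ i < L, t ((i : ℤ), (j : ℤ)) = b j i) {σ : St}
    (hσ : σ ∈ W L)
    (htop : ∀ u v, 4 ≤ u → u < 2 * L + 4 → 4 ≤ v → v < 2 * L + 4 → σ u v →
      (up (pos L u) m ∈ O ↔ up (pos L v) m ∈ O))
    {u v : ℕ} (hu4 : 4 ≤ u) (hu : u < 2 * L + 4) (hv4 : 4 ≤ v) (hv : v < 2 * L + 4)
    (huv : (mact L b m σ) u v) : up (pos L u) 0 ∈ O ↔ up (pos L v) 0 ∈ O := by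
  have hinit : Resp (2 * L + 4) (colr L O ((m : ℤ) - 1) L) σ := by
    have hc := hσ.1.1.1
    have h02 : σ 0 2 := hσ.2
    have h13 : σ 1 3 := by
      have hf := hσ.1.2
      have : (rel fl σ) (fl 0) (fl 2) := by
        show σ (fl.symm (fl 0)) (fl.symm (fl 2))
        rw [Equiv.symm_apply_apply, Equiv.symm_apply_apply]
        exact h02
      rw [hf] at this
      exact this
    have b0 : ∀ z, σ 0 z → z = 0 ∨ z = 2 := by
      obtain ⟨y, _, hy0, hy⟩ := hc 0 (by omega)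
      have h2 := (hy 2).1 h02
      have : y = 2 := by omega
      intro z hz
      have := (hy z).1 hz
      omega
    have b1 : ∀ z, σ 1 z → z = 1 ∨ z = 3 := by
      obtain ⟨y, _, hy0, hy⟩ := hc 1 (by omega)
      have h2 := (hy 3).1 h13
      have : y = 3 := by omega
      intro z hz
      have := (hy z).1 hz
      omega
    have b2 : ∀ z, σ 2 z → z = 0 ∨ z = 2 := fun z hz => b0 z (σ.trans h02 hz)
    have b3 : ∀ z, σ 3 z → z = 1 ∨ z = 3 := fun z hz => b1 z (σ.trans h13 hz)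
    have C0 : colr L O ((m : ℤ) - 1) L 0 ↔ ve L ((m : ℤ) - 1) ∈ O := colr_0 _ _ _ _
    have C1 : colr L O ((m : ℤ) - 1) L 1 ↔ ve (L + L) ((m : ℤ) - 1) ∈ O := colr_1 _ _ _ _
    have C2 : colr L O ((m : ℤ) - 1) L 2 ↔ ve L ((m : ℤ) - 1) ∈ O := colr_2 _ _ _ _
    have C3 : colr L O ((m : ℤ) - 1) L 3 ↔ ve (L + L) ((m : ℤ) - 1) ∈ O := colr_3 _ _ _ _
    intro u v hu hv huv
    by_cases hu4 : u < 4
    · have : (u = 0 ∨ u = 2) ∧ (v = 0 ∨ v = 2) ∨ (u = 1 ∨ u = 3) ∧ (v = 1 ∨ v = 3) := by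
        rcases (by omega : u = 0 ∨ u = 1 ∨ u = 2 ∨ u = 3) with rfl | rfl | rfl | rfl
        · left; exact ⟨Or.inl rfl, b0 v huv⟩
        · right; exact ⟨Or.inl rfl, b1 v huv⟩
        · left; exact ⟨Or.inr rfl, b2 v huv⟩
        · right; exact ⟨Or.inr rfl, b3 v huv⟩
      rcases this with ⟨rfl | rfl, rfl | rfl⟩ | ⟨rfl | rfl, rfl | rfl⟩
      · rfl
      · rw [C0, C2]
      · rw [C0, C2]
      · rfl
      · rfl
      · rw [C1, C3]
      · rw [C1, C3]
      · rfl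
    · by_cases hv4 : v < 4
      · exfalso
        have hvu := σ.symm huv
        rcases (by omega : v = 0 ∨ v = 1 ∨ v = 2 ∨ v = 3) with rfl | rfl | rfl | rfl
        · have := b0 u hvu; omega
        · have := b1 u hvu; omega
        · have := b2 u hvu; omega
        · have := b3 u hvu; omega
      · rw [colr_pos O _ (by omega) hu, colr_pos O _ (by omega) hv]
        have e1 : (m : ℤ) - 1 + 1 = m := by ring
        rw [e1]
        exact htop u v (by omega) hu (by omega) hv huv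
  have h1 := resp_mact ht hcl hper hb hinit u v hu hv huv
  rw [colr_pos O _ hu4 hu, colr_pos O _ hv4 hv] at h1
  simpa using h1

end H81Tile
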