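import Pool.Agent.Helper81.Tile.Avg
import Pool.Agent.Helper81.Tile.TA
import Pool.Agent.Helper69.RSW.Prob

/-!
Averages over the tiles of the rows `-m, ..., m-1` of the cylinder as probabilities on a finite
set of tiles (in colour-blind coordinates, for an arbitrary reduction map `π`).
-/

namespace H81Tile
open Finset IPC
open IP (St)
open Pool.Agent.Helper69.RSW (P_restrict P_mono P_congr Dep)

/-- configuration on the universal cover given by the sets `A` (rows above) and `B` (below) -/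
def cfg (L : ℕ) (A B : Finset (ℕ × ℕ)) : TC := fun p =>
  if 0 ≤ p.2 then bt A p.2.toNat (p.1 % L).toNat else !(bt B (-1 - p.2).toNat (p.1 % L).toNat)

lemma cfg_per (L : ℕ) (A B : Finset (ℕ × ℕ)) : Per L (cfg L A B) := by
  intro p
  unfold cfg
  simp only [Int.add_emod_right]

lemma cfg_up {L : ℕ} {A B : Finset (ℕ × ℕ)} {i j : ℕ} (hi : i < L) :
    cfg L A B ((i : ℤ), (j : ℤ)) = bt A j i := by
  unfold cfg
  simp only
  rw [if_pos (by positivity), Int.emod_eq_of_lt (by positivity) (by exact_mod_cast hi)]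
  simp

lemma cfg_dn {L : ℕ} {A B : Finset (ℕ × ℕ)} {i j : ℕ} (hi : i < L) :
    cfg L A B ((i : ℤ), -1 - (j : ℤ)) = !bt B j i := by
  unfold cfg
  simp only
  rw [if_neg (by omega), Int.emod_eq_of_lt (by positivity) (by exact_mod_cast hi)]
  have : (-1 - (-1 - (j : ℤ))).toNat = j := by omega
  rw [this]
  simp

open Classical in
lemma P_eq_sum {E : Type*} [DecidableEq E] (F : Finset E) (A : Finset E → Prop) :
    Pool.Agent.Helper69.RSW.P F A = (1 / 2 : ℝ) ^ F.card * ∑ S ∈ F.powerset, if A S then 1 else 0 := by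
  unfold Pool.Agent.Helper69.RSW.P
  rw [sum_boole, div_eq_mul_inv, mul_comm]
  congr 1
  rw [one_div, inv_pow]

/-- the reduction map `π` identifies exactly the tiles of the rows `-m, ..., m-1` that differ by
multiples of the period, and `Λ` is the set of the reduced tiles -/
structure Red {ι : Type*} (L m : ℕ) (π : ℤ × ℤ → ι) (Λ : Finset ι) : Prop where
  iff : ∀ p q : ℤ × ℤ, p ∈ rows (-(m : ℤ)) m → q ∈ rows (-(m : ℤ)) m →
    (π (fT p) = π (fT q) ↔ p.2 = q.2 ∧ p.1 % L = q.1 % L)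
  mem : ∀ x, x ∈ Λ ↔ ∃ p ∈ rows (-(m : ℤ)) m, x = π (fT p)

section
variable {ι : Type*} [DecidableEq ι] {L m : ℕ} {π : ℤ × ℤ → ι} {Λ : Finset ι}

/-- position of the tile with number `q = (j, i)` above the cut -/
def tu (q : ℕ × ℕ) : ℤ × ℤ := ((q.2 : ℤ), (q.1 : ℤ))
/-- position of the tile with number `q = (j, i)` below the cut -/
def td (q : ℕ × ℕ) : ℤ × ℤ := ((q.2 : ℤ), -1 - (q.1 : ℤ))

lemma tu_rows {q : ℕ × ℕ} (hq : q ∈ range m ×ˢ range L) : tu q ∈ rows (-(m : ℤ)) m := by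
  rw [mem_product, mem_range, mem_range] at hq
  unfold tu rows
  simp only [Set.mem_ofPred_eq]
  omega

lemma td_rows {q : ℕ × ℕ} (hq : q ∈ range m ×ˢ range L) : td q ∈ rows (-(m : ℤ)) m := by
  rw [mem_product, mem_range, mem_range] at hq
  unfold td rows
  simp only [Set.mem_ofPred_eq]
  omega

/-- the set of reduced tiles that are horizontal -/
def wOf (L m : ℕ) (π : ℤ × ℤ → ι) (A B : Finset (ℕ × ℕ)) : Finset ι :=
  (A.image fun q => π (fT (tu q))) ∪ (((range m ×ˢ range L) \ B).image fun q => π (fT (td q)))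

lemma emod_nat {i L : ℕ} (hi : i < L) : ((i : ℤ)) % L = i :=
  Int.emod_eq_of_lt (by positivity) (by exact_mod_cast hi)

lemma tu_mem (h : Red L m π Λ) {A B : Finset (ℕ × ℕ)} (hA : A ⊆ range m ×ˢ range L) {q : ℕ × ℕ}
    (hq : q ∈ range m ×ˢ range L) : π (fT (tu q)) ∈ wOf L m π A B ↔ q ∈ A := by
  have hq' := hq
  rw [mem_product, mem_range, mem_range] at hq'
  unfold wOf
  rw [mem_union, mem_image, mem_image]
  constructor
  · rintro (⟨q', h1, h2⟩ | ⟨q', h1, h2⟩)
    · have h3 := hA h1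
      have h4 := (h.iff _ _ (tu_rows h3) (tu_rows hq)).1 h2
      rw [mem_product, mem_range, mem_range] at h3
      unfold tu at h4
      simp only at h4
      rw [emod_nat h3.2, emod_nat hq'.2] at h4
      have : q' = q := by ext <;> omega
      rw [← this]
      exact h1
    · exfalso
      rw [mem_sdiff] at h1
      have h4 := (h.iff _ _ (td_rows h1.1) (tu_rows hq)).1 h2
      unfold tu td at h4
      simp only at h4
      omega
  · intro h1
    exact Or.inl ⟨q, h1, rfl⟩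

lemma td_mem (h : Red L m π Λ) {A B : Finset (ℕ × ℕ)} (hA : A ⊆ range m ×ˢ range L) {q : ℕ × ℕ}
    (hq : q ∈ range m ×ˢ range L) : π (fT (td q)) ∈ wOf L m π A B ↔ q ∉ B := by
  have hq' := hq
  rw [mem_product, mem_range, mem_range] at hq'
  unfold wOf
  rw [mem_union, mem_image, mem_image]
  constructor
  · rintro (⟨q', h1, h2⟩ | ⟨q', h1, h2⟩)
    · exfalso
      have h4 := (h.iff _ _ (tu_rows (hA h1)) (td_rows hq)).1 h2
      unfold tu td at h4
      simp only at h4
      omega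
    · rw [mem_sdiff] at h1
      have h3 := h1.1
      have h4 := (h.iff _ _ (td_rows h3) (td_rows hq)).1 h2
      rw [mem_product, mem_range, mem_range] at h3
      unfold td at h4
      simp only at h4
      rw [emod_nat h3.2, emod_nat hq'.2] at h4
      have : q' = q := by ext <;> omega
      rw [← this]
      exact h1.2
  · intro h1
    exact Or.inr ⟨q, mem_sdiff.2 ⟨hq, h1⟩, rfl⟩

lemma wOf_subset (h : Red L m π Λ) {A B : Finset (ℕ × ℕ)} (hA : A ⊆ range m ×ˢ range L) :
    wOf L m π A B ⊆ Λ := by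
  intro x hx
  unfold wOf at hx
  rw [mem_union, mem_image, mem_image] at hx
  rw [h.mem]
  rcases hx with ⟨q, h1, rfl⟩ | ⟨q, h1, rfl⟩
  · exact ⟨_, tu_rows (hA h1), rfl⟩
  · exact ⟨_, td_rows (mem_sdiff.1 h1).1, rfl⟩

/-- every tile of the rows is equivalent to one with a number -/
lemma exists_num (hL : 0 < L) {p : ℤ × ℤ} (hp : p ∈ rows (-(m : ℤ)) m) :
    ∃ q ∈ range m ×ˢ range L,
      (0 ≤ p.2 ∧ p.2 = (tu q).2 ∧ p.1 % L = (tu q).1 % L ∧ q = (p.2.toNat, (p.1 % L).toNat)) ∨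
      (p.2 < 0 ∧ p.2 = (td q).2 ∧ p.1 % L = (td q).1 % L ∧
        q = ((-1 - p.2).toNat, (p.1 % L).toNat)) := by
  obtain ⟨x, y⟩ := p
  obtain ⟨h1, h2⟩ := hp
  simp only at h1 h2
  have hL' : (0 : ℤ) < L := by exact_mod_cast hL
  have h3 := Int.emod_nonneg x hL'.ne'
  have h4 := Int.emod_lt_of_pos x hL'
  have h5 : ((x % L).toNat : ℤ) = x % L := Int.toNat_of_nonneg h3
  rcases le_or_gt 0 y with h0 | h0
  · refine ⟨(y.toNat, (x % L).toNat), ?_, Or.inl ⟨h0, ?_, ?_, rfl⟩⟩
    · rw [mem_product, mem_range, mem_range]; simp only; omega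
    · simp only [tu]; omega
    · simp only [tu]; rw [h5, Int.emod_emod_of_dvd _ (dvd_refl _)]
  · refine ⟨((-1 - y).toNat, (x % L).toNat), ?_, Or.inr ⟨h0, ?_, ?_, rfl⟩⟩
    · rw [mem_product, mem_range, mem_range]; simp only; omega
    · simp only [td]; omega
    · simp only [td]; rw [h5, Int.emod_emod_of_dvd _ (dvd_refl _)]

lemma tc_wOf (hL : 0 < L) (h : Red L m π Λ) {A B : Finset (ℕ × ℕ)}
    (hA : A ⊆ range m ×ˢ range L) {p : ℤ × ℤ} (hp : p ∈ rows (-(m : ℤ)) m) :
    tcM (fun v => π v ∈ wOf L m π A B) p = cfg L A B p := by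
  obtain ⟨q, hq, h1⟩ := exists_num hL hp
  have e : ∀ b b' : Bool, (b = true ↔ b' = true) → b = b' := by decide
  apply e
  rw [tcM_true]
  rcases h1 with ⟨h0, h1, h2, h3⟩ | ⟨h0, h1, h2, h3⟩
  · rw [(h.iff _ _ hp (tu_rows hq)).2 ⟨h1, h2⟩, tu_mem h hA hq]
    unfold cfg bt
    rw [if_pos h0, decide_eq_true_iff, ← h3]
  · rw [(h.iff _ _ hp (td_rows hq)).2 ⟨h1, h2⟩, td_mem h hA hq]
    unfold cfg bt
    rw [if_neg (by omega), Bool.not_eq_true', decide_eq_false_iff_not, ← h3]

open Classical in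
lemma sum_wOf (hL : 0 < L) (h : Red L m π Λ) (F : Finset ι → ℝ) :
    ∑ w ∈ Λ.powerset, F w = ∑ A ∈ (range m ×ˢ range L).powerset,
      ∑ B ∈ (range m ×ˢ range L).powerset, F (wOf L m π A B) := by
  rw [← sum_product']
  symm
  refine sum_bij' (fun q _ => wOf L m π q.1 q.2)
    (fun w _ => ((range m ×ˢ range L).filter (fun q => π (fT (tu q)) ∈ w),
      (range m ×ˢ range L).filter (fun q => π (fT (td q)) ∉ w))) ?_ ?_ ?_ ?_ ?_
  · rintro ⟨A, B⟩ hAB
    rw [mem_product, mem_powerset, mem_powerset] at hAB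
    rw [mem_powerset]
    exact wOf_subset h hAB.1
  · intro w _
    rw [mem_product, mem_powerset, mem_powerset]
    exact ⟨filter_subset _ _, filter_subset _ _⟩
  · rintro ⟨A, B⟩ hAB
    rw [mem_product, mem_powerset, mem_powerset] at hAB
    refine Prod.ext ?_ ?_
    · ext q
      simp only [mem_filter]
      constructor
      · rintro ⟨h1, h2⟩
        exact (tu_mem h hAB.1 h1).1 h2
      · intro h1
        exact ⟨hAB.1 h1, (tu_mem h hAB.1 (hAB.1 h1)).2 h1⟩
    · ext q
      simp only [mem_filter]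
      constructor
      · rintro ⟨h1, h2⟩
        rw [td_mem h hAB.1 h1, not_not] at h2
        exact h2
      · intro h1
        refine ⟨hAB.2 h1, ?_⟩
        rw [td_mem h hAB.1 (hAB.2 h1), not_not]
        exact h1
  · intro w hw
    rw [mem_powerset] at hw
    ext x
    constructor
    · intro hx
      unfold wOf at hx
      rw [mem_union, mem_image, mem_image] at hx
      rcases hx with ⟨q, h1, rfl⟩ | ⟨q, h1, rfl⟩
      · exact (mem_filter.1 h1).2
      · rw [mem_sdiff, mem_filter] at h1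
        by_contra hc
        exact h1.2 ⟨h1.1, hc⟩
    · intro hx
      obtain ⟨p, hp, rfl⟩ := (h.mem x).1 (hw hx)
      obtain ⟨q, hq, h1⟩ := exists_num hL hp
      rcases h1 with ⟨h0, h1, h2, h3⟩ | ⟨h0, h1, h2, h3⟩
      · rw [(h.iff _ _ hp (tu_rows hq)).2 ⟨h1, h2⟩] at hx ⊢
        rw [tu_mem h (filter_subset _ _) hq, mem_filter]
        exact ⟨hq, hx⟩
      · rw [(h.iff _ _ hp (td_rows hq)).2 ⟨h1, h2⟩] at hx ⊢
        rw [td_mem h (filter_subset _ _) hq, mem_filter]
        exact fun hc => hc.2 hx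
  · rintro ⟨A, B⟩ _
    rfl

lemma card_red (hL : 0 < L) (h : Red L m π Λ) : Λ.card = L * m + L * m := by
  have h1 := sum_wOf hL h (fun _ => (1 : ℝ))
  rw [sum_const, sum_const, sum_const, card_powerset, card_powerset, card_product, card_range,
    card_range] at h1
  simp only [nsmul_eq_mul, mul_one] at h1
  have h2 : (2 : ℝ) ^ Λ.card = 2 ^ (L * m + L * m) := by
    push_cast at h1
    rw [h1, pow_add, mul_comm m L]
  exact Nat.pow_right_injective (le_refl 2) (by exact_mod_cast h2)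

open Classical in
/-- probability of an event that depends on the tiles of the rows `-m, ..., m-1` -/
theorem P_red (hL : 0 < L) (h : Red L m π Λ) {Q : TC → Prop}
    (hQ : ∀ t t' : TC, (∀ p ∈ rows (-(m : ℤ)) m, t p = t' p) → Q t → Q t') :
    Pool.Agent.Helper69.RSW.P Λ (fun w => Q (tcM (fun v => π v ∈ w))) =
      (1 / 2 : ℝ) ^ (L * m + L * m) * ∑ A ∈ (range m ×ˢ range L).powerset,
        ∑ B ∈ (range m ×ˢ range L).powerset, if Q (cfg L A B) then 1 else 0 := by
  rw [P_eq_sum, card_red hL h, sum_wOf hL h]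
  congr 1
  refine sum_congr rfl fun A hA => sum_congr rfl fun B _ => ?_
  rw [mem_powerset] at hA
  have : Q (tcM (fun v => π v ∈ wOf L m π A B)) ↔ Q (cfg L A B) :=
    ⟨hQ _ _ (fun p hp => tc_wOf hL h hA hp), hQ _ _ (fun p hp => (tc_wOf hL h hA hp).symm)⟩
  by_cases hc : Q (cfg L A B)
  · rw [if_pos hc, if_pos (this.2 hc)]
  · rw [if_neg hc, if_neg (fun h' => hc (this.1 h'))]

/-- LOWER BOUND of the algebraic probability -/
theorem P_le_arf (hL : 0 < L) {k : ℕ} (h : Red L m π Λ) {Q : TC → Prop}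
    (hQ : ∀ t t' : TC, (∀ p ∈ rows (-(m : ℤ)) m, t p = t' p) → Q t → Q t')
    (hev : ∀ A B : Finset (ℕ × ℕ), Q (cfg L A B) → ∀ σ ∈ W L, ∀ τ ∈ W L,
      arm k k (mact L (bt A) m σ) (mact L (bt B) m τ)) :
    Pool.Agent.Helper69.RSW.P Λ (fun w => Q (tcM (fun v => π v ∈ w))) ≤
      bil (arf k k) (IPC.P L (fun _ => 0)) (IPC.P L (fun _ => 0)) := by
  classical
  rw [P_red hL h hQ]
  refine avg_le_bil (g := fun A B => if Q (cfg L A B) then 1 else 0) ?_
  intro A _ B _ σ hσ τ hτ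
  by_cases hc : Q (cfg L A B)
  · simp only [if_pos hc]
    unfold arf
    rw [if_pos (hev A B hc σ hσ τ hτ)]
  · simp only [if_neg hc]
    unfold arf
    split_ifs <;> norm_num

/-- UPPER BOUND of the algebraic probability -/
theorem arf_le_P (hL : 0 < L) {k : ℕ} (h : Red L m π Λ) {Q : TC → Prop}
    (hQ : ∀ t t' : TC, (∀ p ∈ rows (-(m : ℤ)) m, t p = t' p) → Q t → Q t')
    (hev : ∀ A B : Finset (ℕ × ℕ), ∀ σ ∈ W L, ∀ τ ∈ W L,
      arm k k (mact L (bt A) m σ) (mact L (bt B) m τ) → Q (cfg L A B)) :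
    bil (arf k k) (IPC.P L (fun _ => 0)) (IPC.P L (fun _ => 0)) ≤
      Pool.Agent.Helper69.RSW.P Λ (fun w => Q (tcM (fun v => π v ∈ w))) := by
  classical
  rw [P_red hL h hQ]
  refine bil_le_avg (g := fun A B => if Q (cfg L A B) then 1 else 0) ?_
  intro A _ B _ σ hσ τ hτ
  unfold arf
  by_cases hc : arm k k (mact L (bt A) m σ) (mact L (bt B) m τ)
  · simp only [if_pos hc]
    rw [if_pos (hev A B σ hσ τ hτ hc)]
  · simp only [if_neg hc]
    split_ifs <;> norm_num

end

end H81Tile
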