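import Pool.Agent.Helper81.Tile.Even
import Pool.Agent.Helper57.Arm.Final

/-!
The slit event in tile coordinates and in colour-blind coordinates.
-/

namespace H81Tile
open Finset H47Perc

lemma nx_invol (M : ℤ × ℤ → Prop) (a b : ℤ × ℤ) : TA.nx M (TA.nx M a b) b = a := by
  unfold TA.nx
  split_ifs
  · ext <;> simp
  · ext <;> simp

lemma traj_fwd {M : ℤ × ℤ → Prop} {D : Set (ℤ × ℤ)} {c : ℕ → ℤ × ℤ} {n t : ℕ}
    (hT : TA.Traj M D c n) {d : DS} (h1 : c t = fT (rev d).1) (h2 : c (t + 1) = fT d.1) :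
    ∀ k, t + 1 + k ≤ n → c (t + k) = fT (rev ((nxt (tcM M))^[k] d)).1 ∧
      c (t + 1 + k) = fT ((nxt (tcM M))^[k] d).1 := by
  intro k
  induction k with
  | zero => intro _; exact ⟨h1, h2⟩
  | succ k ih =>
    intro hk
    obtain ⟨e1, e2⟩ := ih (by omega)
    constructor
    · rw [Function.iterate_succ_apply', rev_nxt_fst, ← e2]
      congr 1
      omega
    · have h3 := hT.turn (t + k) (by omega)
      rw [show t + k + 1 = t + 1 + k by omega, e1, e2, nx_step] at h3
      rw [Function.iterate_succ_apply', ← h3]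
      congr 1
      omega

lemma traj_bwd {M : ℤ × ℤ → Prop} {D : Set (ℤ × ℤ)} {c : ℕ → ℤ × ℤ} {n t : ℕ}
    (hT : TA.Traj M D c n) (htn : t < n) {d : DS} (h1 : c t = fT (rev d).1)
    (h2 : c (t + 1) = fT d.1) :
    ∀ k, k ≤ t → c (t + 1 - k) = fT (rev ((nxt (tcM M))^[k] (rev d))).1 ∧
      c (t - k) = fT ((nxt (tcM M))^[k] (rev d)).1 := by
  intro k
  induction k with
  | zero =>
    intro _
    simp only [Function.iterate_zero, id_eq, Nat.sub_zero, rev_rev]
    exact ⟨h2, h1⟩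
  | succ k ih =>
    intro hk
    obtain ⟨e1, e2⟩ := ih (by omega)
    constructor
    · rw [Function.iterate_succ_apply', rev_nxt_fst, ← e2]
      congr 1
      omega
    · have h3 := hT.turn (t - (k + 1)) (by omega)
      rw [show t - (k + 1) + 2 = t + 1 - k by omega,
        show t - (k + 1) + 1 = t - k by omega] at h3
      have h4 : TA.nx M (c (t + 1 - k)) (c (t - k)) =
          TA.nx M (TA.nx M (c (t - (k + 1))) (c (t - k))) (c (t - k)) := by rw [h3]
      rw [nx_invol, e1, e2, nx_step] at h4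
      rw [Function.iterate_succ_apply', h4]

lemma fT_up (j : ℤ) : fT (up (j - 1) 0).1 = TA.cU j ∧ fT (rev (up (j - 1) 0)).1 = TA.cD j := by
  rw [rev_up]
  unfold fT up dn TA.cU TA.cD
  constructor <;> ext <;> simp <;> ring

lemma dr_inj {c c' : Fin 4} (h : dr c = dr c') : c = c' := by
  revert c c'
  decide

lemma side_ext {d e : DS} (h1 : d.1 = e.1) (h2 : (rev d).1 = (rev e).1) : d = e := by
  rw [rev_fst, rev_fst, h1] at h2
  exact Prod.ext h1 (dr_inj (add_left_cancel h2))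

/-- the medial edge of a side is a cut edge only if the side is a cut side -/
lemma sq_cut_side {e : DS} {i : ℤ} (h : TA.sq (fT (rev e).1) (fT e.1) = TA.cS i) :
    e = up (i - 1) 0 ∨ e = dn (i - 1) 0 := by
  obtain ⟨a1, a2⟩ := fT_up i
  rw [← TA.sq_cut, ← a1, ← a2] at h
  have hd : ∀ d : DS, TA.Diag (fT (rev d).1) (fT d.1) := fun d => by
    rw [rev_fst]; exact diag_dr _ _
  rcases TA.sq_eq_cases (fT_tile _) (hd e) (fT_tile _) (hd (up (i - 1) 0)) h with
    ⟨h1, h2⟩ | ⟨h1, h2⟩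
  · left
    exact side_ext (fT_inj h2) (fT_inj h1)
  · right
    rw [← rev_up]
    refine side_ext (fT_inj h2) ?_
    rw [rev_rev]
    exact fT_inj h1

/-- **the slit event gives the arm event of the colour-blind coordinates** -/
theorem armEv_of_leave {k n : ℕ} (hk : k ≤ 2 * n) {M : ℤ × ℤ → Prop}
    (h : AllLeave k n (tcM M)) : TA.ArmEv M k (TA.rect (2 * n) (2 * n)) := by
  classical
  have hD : fT ⁻¹' (TA.rect (2 * n) (2 * n)) = tbox (-(n : ℤ)) n (-n) n := by
    ext p
    rw [← fT_rect, mem_rectF]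
    rfl
  have hdiam := tbox_diam (n := n) hk
  -- the two ends
  have hup : ∀ x : ℤ, 0 ≤ x → x < k →
      CLeaves (tcM M) (tbox (-(n : ℤ)) n (-n) n) (Cut k) (up x 0) := by
    intro x h0 h1
    have := h x.toNat (by omega)
    unfold en at this
    rw [if_pos (by omega), Int.toNat_of_nonneg h0] at this
    exact this
  have hdn : ∀ x : ℤ, 0 ≤ x → x < k →
      CLeaves (tcM M) (tbox (-(n : ℤ)) n (-n) n) (Cut k) (dn x 0) := by
    intro x h0 h1
    have := h (2 * k - 1 - x).toNat (by omega)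
    unfold en at this
    rw [if_neg (by omega), Int.toNat_of_nonneg (by omega)] at this
    rwa [show 2 * (k : ℤ) - 1 - (2 * k - 1 - x) = x by ring] at this
  have hthru : ∀ j : ℤ, 1 ≤ j → j ≤ k → TA.Thru M (TA.rect (2 * n) (2 * n)) (TA.cD j) (TA.cU j) := by
    intro j h1 h2
    obtain ⟨a1, a2⟩ := fT_up j
    rw [← a1, ← a2, thru_iff, hD]
    constructor
    · obtain ⟨m, hm, _⟩ := hup (j - 1) (by omega) (by omega)
      exact ⟨m, hm⟩
    · rw [rev_up]
      obtain ⟨m, hm, _⟩ := hdn (j - 1) (by omega) (by omega)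
      exact ⟨m, hm⟩
  have hex : ∀ j : ℤ, ∃ (c : ℕ → ℤ × ℤ) (n' t : ℕ), 1 ≤ j → j ≤ k →
      (TA.Traj M (TA.rect (2 * n) (2 * n)) c n' ∧ t < n' ∧ c t = TA.cD j ∧
        c (t + 1) = TA.cU j) := by
    intro j
    by_cases hj : 1 ≤ j ∧ j ≤ k
    · obtain ⟨c, n', t, h1, h2, h3, h4⟩ := hthru j hj.1 hj.2
      exact ⟨c, n', t, fun _ _ => ⟨h1, h2, h3, h4⟩⟩
    · exact ⟨fun _ => (0, 0), 0, 0, fun a b => absurd ⟨a, b⟩ hj⟩
  choose c n' t hc using hex
  refine ⟨c, n', t, ⟨fun j h1 h2 => (hc j h1 h2).1, fun j h1 h2 => (hc j h1 h2).2.1,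
    fun j h1 h2 => (hc j h1 h2).2.2.1, fun j h1 h2 => (hc j h1 h2).2.2.2, ?_⟩⟩
  intro i j hi1 hik hj1 hjk hij s hs hsq
  obtain ⟨hT, htn, e1, e2⟩ := hc j hj1 hjk
  obtain ⟨a1, a2⟩ := fT_up j
  rw [← a2] at e1
  rw [← a1] at e2
  have hf := traj_fwd hT e1 e2
  have hb := traj_bwd hT htn e1 e2
  set d := up (j - 1) 0 with hd
  have hdc : d ∈ Cut k := cut_up.2 ⟨by omega, by omega⟩
  have hcut : ∀ e : DS, TA.sq (fT (rev e).1) (fT e.1) = TA.cS i → e ∈ Cut k := by
    intro e he
    rcases sq_cut_side he with h1 | h1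
    · rw [h1, cut_up]; omega
    · rw [h1, cut_dn]; omega
  have hinD : ∀ m, 0 < m → m < n' j → c j m ∈ TA.rect (2 * (n : ℤ)) (2 * n) :=
    fun m h1 h2 => hT.inn m h1 h2
  have hmem : ∀ p : ℤ × ℤ, fT p ∈ TA.rect (2 * (n : ℤ)) (2 * n) ↔
      p ∈ tbox (-(n : ℤ)) n (-n) n := by
    intro p
    rw [← hD]; rfl
  rcases Nat.lt_or_ge s (t j) with h1 | h1
  · -- backward part
    obtain ⟨q, hq⟩ : ∃ q, t j = s + (q + 1) := ⟨t j - s - 1, by omega⟩
    obtain ⟨b1, b2⟩ := hb (q + 1) (by omega)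
    rw [show t j + 1 - (q + 1) = s + 1 by omega] at b1
    rw [show t j - (q + 1) = s by omega] at b2
    rw [b1, b2, TA.sq_comm] at hsq
    have h3 := hcut _ hsq
    rw [hd, rev_up] at h3
    obtain ⟨n1, hn1, ho1, hin1, hK1⟩ := (hdn (j - 1) (by omega) (by omega)).first
      (hdiam.cut _ (by rw [cut_dn]; omega))
    rcases Nat.lt_or_ge (q + 1) n1 with h4 | h4
    · exact hK1 (q + 1) (by omega) h4 h3
    · -- beyond the first exit
      rcases Nat.lt_or_ge n1 (q + 1) with h5 | h5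
      · obtain ⟨_, b3⟩ := hb n1 (by omega)
        have h6 := hinD (t j - n1) (by omega) (by omega)
        rw [b3, hmem, hd, rev_up] at h6
        exact ho1 h6
      · have : n1 = q + 1 := by omega
        rw [this] at ho1
        exact ho1 (hdiam.cut _ h3)
  · obtain ⟨q, rfl⟩ : ∃ q, s = t j + q := ⟨s - t j, by omega⟩
    obtain ⟨b1, b2⟩ := hf q (by omega)
    rw [show t j + 1 + q = t j + q + 1 by omega] at b2
    rw [b1, b2] at hsq
    rcases Nat.eq_zero_or_pos q with h2 | h2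
    · subst h2
      simp only [Function.iterate_zero, id_eq] at hsq
      rcases sq_cut_side hsq with h3 | h3
      · rw [hd] at h3
        have := up_inj h3
        omega
      · exact up_ne_dn _ _ (hd ▸ h3)
    · have h3 := hcut _ hsq
      obtain ⟨n1, hn1, ho1, hin1, hK1⟩ := (hup (j - 1) (by omega) (by omega)).first
        (hdiam.cut _ (by rw [cut_up]; omega))
      rcases Nat.lt_or_ge q n1 with h4 | h4
      · exact hK1 q h2 h4 h3
      · rcases Nat.lt_or_ge n1 q with h5 | h5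
        · obtain ⟨_, b3⟩ := hf n1 (by omega)
          have h6 := hinD (t j + 1 + n1) (by omega) (by omega)
          rw [b3, hmem] at h6
          exact ho1 h6
        · have : n1 = q := by omega
          rw [this] at ho1
          exact ho1 (hdiam.cut _ h3)

/-- the probability of the slit event of the box -/
theorem leave_le_fA {k m : ℕ} (hk : k ≤ 2 * m) :
    Pool.Agent.Helper69.RSW.P (TA.rectF (2 * m) (2 * m)) (fun S => AllLeave k m (tcM (fun v => v ∈ S)))
      ≤ Arm57.fA k (2 * m) := by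
  unfold Arm57.fA
  push_cast
  exact Pool.Agent.Helper69.RSW.P_mono fun S _ h => armEv_of_leave hk h

lemma iter_congr' {t t' : TC} {D : Set (ℤ × ℤ)} (h : ∀ p ∈ D, t p = t' p) {d : DS} {n : ℕ}
    (hD : ∀ i < n, ((nxt t)^[i] d).1 ∈ D) : ∀ i ≤ n, (nxt t')^[i] d = (nxt t)^[i] d := by
  intro i
  induction i with
  | zero => intro _; rfl
  | succ i ih =>
    intro hi
    rw [Function.iterate_succ_apply', Function.iterate_succ_apply', ih (by omega)]
    have h1 := h _ (hD i (by omega))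
    generalize (nxt t)^[i] d = e at *
    unfold nxt
    rw [h1]

lemma AllLeave.congr' {k n : ℕ} (hk : k ≤ 2 * n) {t t' : TC}
    (h : ∀ p ∈ tbox (-(n : ℤ)) n (-n) n, t p = t' p) (hl : AllLeave k n t) : AllLeave k n t' := by
  intro j hj
  obtain ⟨m, _, h1, h2, h3⟩ := (hl j hj).first ((tbox_diam (n := n) hk).cut _ (en_cut hj))
  have h4 := iter_congr' h h2
  refine ⟨m, ?_, fun i h0 hi => ?_⟩
  · rw [h4 m le_rfl]; exact h1
  · rw [h4 i hi.le]; exact h3 i h0 hi

/-- **the same for bond percolation in the box** -/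
theorem leave_edges_le_fA {k m : ℕ} (hk : k ≤ 2 * m) :
    Pool.Agent.Helper69.RSW.P (edgesIn (bx m)) (fun ω => AllLeave k m (tcOf ω)) ≤
      Arm57.fA k (2 * m) := by
  have h := P_box (n := (m : ℤ)) (Q := fun t => AllLeave k m t)
    (fun t t' h hl => AllLeave.congr' hk h hl)
  exact (le_of_eq h).trans (leave_le_fA hk)

end H81Tile
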