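import Pool.Agent.Helper81.Tile.Glue
import Pool.Agent.Helper64.IPC.Bil

/-!
Lower bounds: if the algebraic arm event holds for the glued states, then the interfaces from the
cut strands leave every narrow box.
-/

namespace H81Tile
open Finset IPC
open IP (St)

/-- a finite set of tiles in the rows `-m, ..., m-1` that meets no cut strand except the strands
`0, ..., k-1` themselves -/
structure Narrow (L m k : ℕ) (D : Set (ℤ × ℤ)) : Prop where
  fin : D.Finite
  row : D ⊆ rows (-m) m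
  cut : ∀ x j : ℤ, (x, j) ∈ D → (j = 0 ∨ j = -1) → x % L < k → 0 ≤ x ∧ x < k

/-- the interface from `d` leaves `D` before it meets a cut side -/
def CLeaves (t : TC) (D : Set (ℤ × ℤ)) (K : Set DS) (d : DS) : Prop :=
  ∃ n, ((nxt t)^[n] d).1 ∉ D ∧ ∀ j, 0 < j → j < n → (nxt t)^[j] d ∉ K

lemma nd_of_lt {L : ℕ} {x : ℤ} (h0 : 0 ≤ x) (h1 : x < L) : nd L x = 2 * x.toNat + 4 := by
  unfold nd
  rw [Int.emod_eq_of_lt h0 h1, Int.ediv_eq_zero_of_lt h0 h1]
  simp

lemma lab_up_of_lt {L k : ℕ} (hk : k ≤ L) {x : ℤ} (h0 : 0 ≤ x) (h1 : x < k) :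
    lab L k (up x 0) = 2 * x.toNat + 4 := by
  rw [lab_up, nd_of_lt h0 (lt_of_lt_of_le h1 (by exact_mod_cast hk))]
  unfold labT
  rw [if_pos (by omega)]

lemma lab_dn_of_lt {L k : ℕ} (hk : k ≤ L) {x : ℤ} (h0 : 0 ≤ x) (h1 : x < k) :
    lab L k (dn x 0) = 2 * (x.toNat + k) + 4 := by
  rw [lab_dn, nd_of_lt h0 (lt_of_lt_of_le h1 (by exact_mod_cast hk))]
  unfold labB
  ring

/-- a path in a finite set of tiles that does not leave it is periodic -/
lemma periodic_of_stay {t : TC} {D : Set (ℤ × ℤ)} (hf : D.Finite) {d : DS}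
    (h : ∀ n, ((nxt t)^[n] d).1 ∈ D) : ∃ N, 0 < N ∧ (nxt t)^[N] d = d := by
  have hfin : (Set.range (fun n : ℕ => (nxt t)^[n] d)).Finite := by
    apply Set.Finite.subset (hf.prod (Set.finite_univ (α := Fin 4)))
    rintro _ ⟨k, rfl⟩
    exact ⟨h k, Set.mem_univ _⟩
  have hni : ¬ Function.Injective (fun n : ℕ => (nxt t)^[n] d) := by
    intro hinj
    exact (Set.infinite_range_of_injective hinj) hfin
  unfold Function.Injective at hni
  push Not at hni
  obtain ⟨a, b, hab, hne⟩ := hni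
  have key : ∀ a b : ℕ, a < b → (nxt t)^[a] d = (nxt t)^[b] d → ∃ N, 0 < N ∧ (nxt t)^[N] d = d := by
    intro a b hlt hab
    refine ⟨b - a, by omega, ?_⟩
    have h1 : (nxt t)^[a] ((nxt t)^[b - a] d) = (nxt t)^[a] d := by
      rw [← Function.iterate_add_apply, show a + (b - a) = b by omega]
      exact hab.symm
    have hinj : Function.Injective ((nxt t)^[a]) := Function.Injective.iterate (stp t).injective a
    exact hinj h1
  rcases Nat.lt_or_gt_of_ne hne with h1 | h1
  · exact key a b h1 hab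
  · exact key b a h1 hab.symm

/-- LOWER BOUND for `2k` arms: if no two of the `2k` ends (first copy) are connected in the glued
state, the interfaces from all ends leave every narrow set `D` before they meet a cut side -/
theorem cleaves_of_arm {L m k : ℕ} (hk : k ≤ L) (hL : 0 < L) {t : TC} (ht : Per L t)
    {b b' : ℕ → ℕ → Bool}
    (hb : ∀ j < m, ∀ i < L, t ((i : ℤ), (j : ℤ)) = b j i)
    (hb' : ∀ j < m, ∀ i < L, t ((i : ℤ), -1 - (j : ℤ)) = !b' j i)
    {σ τ : St} (hσ : σ ∈ W L) (hτ : τ ∈ W L) (G : St)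
    (hT : ∀ u v, 4 ≤ u → 4 ≤ v → (mact L b m σ) u v → G (labT k u) (labT k v))
    (hB : ∀ u v, 4 ≤ u → 4 ≤ v → (mact L b' m τ) u v → G (labB k u) (labB k v))
    (harm : ∀ i j, i < j → j < 2 * k → ¬ G (2 * i + 4) (2 * j + 4))
    {D : Set (ℤ × ℤ)} (hD : Narrow L m k D) {x : ℤ} (hx0 : 0 ≤ x) (hxk : x < k) {d : DS}
    (hd : d = up x 0 ∨ d = dn x 0) : CLeaves t D (Kut L k) d := by
  classical
  by_contra hcon
  -- a first return to a cut side inside D
  have hret : ∃ j, 0 < j ∧ (nxt t)^[j] d ∈ Kut L k ∧ ∀ i < j, ((nxt t)^[i] d).1 ∈ D := by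
    by_cases hex : ∃ n, ((nxt t)^[n] d).1 ∉ D
    · have hfind := Nat.find_spec hex
      by_contra hno
      apply hcon
      refine ⟨Nat.find hex, hfind, fun j h0 hj hjk => ?_⟩
      apply hno
      refine ⟨j, h0, hjk, fun i hi => ?_⟩
      by_contra hc
      exact Nat.find_min hex (lt_trans hi hj) hc
    · have hall : ∀ n, ((nxt t)^[n] d).1 ∈ D := by
        intro n
        by_contra hc
        exact hex ⟨n, hc⟩
      obtain ⟨N, hN, hNd⟩ := periodic_of_stay hD.fin hall
      refine ⟨N, hN, ?_, fun i _ => hall i⟩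
      rw [hNd]
      refine ⟨x, ?_, hd⟩
      rw [Int.emod_eq_of_lt hx0 (lt_of_lt_of_le hxk (by exact_mod_cast hk))]
      exact hxk
  obtain ⟨j, ⟨hj0, hjK, hjD⟩, hmin⟩ : ∃ j, (0 < j ∧ (nxt t)^[j] d ∈ Kut L k ∧
      ∀ i < j, ((nxt t)^[i] d).1 ∈ D) ∧ ∀ i, 0 < i → i < j → (nxt t)^[i] d ∉ Kut L k := by
    refine ⟨Nat.find hret, Nat.find_spec hret, fun i h0 hi hiK => ?_⟩
    exact Nat.find_min hret hi ⟨h0, hiK, fun i' hi' =>
      (Nat.find_spec hret).2.2 i' (lt_trans hi' hi)⟩
  obtain ⟨y, hyk, hy⟩ := hjK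
  have hlevd : Lev d := ⟨x, hd⟩
  have hrel := glue_path hL ht hb hb' hσ hτ G hT hB j d hj0 hlevd ⟨y, hy⟩
    (fun i hi => hD.row (hjD i hi)) hmin
  -- the end side is one of the sides 0, ..., k-1
  obtain ⟨i, rfl⟩ : ∃ i, j = i + 1 := ⟨j - 1, by omega⟩
  have hprev := hjD i (by omega)
  have hrevt : (rev ((nxt t)^[i + 1] d)).1 = ((nxt t)^[i] d).1 := by
    rw [Function.iterate_succ_apply', rev_nxt]
  have hy' : 0 ≤ y ∧ y < k := by
    rcases hy with hy | hy
    · rw [hy, rev_up] at hrevt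
      rw [← hrevt] at hprev
      exact hD.cut y (-1) (by simpa [dn] using hprev) (Or.inr rfl) hyk
    · rw [hy, rev_dn] at hrevt
      rw [← hrevt] at hprev
      exact hD.cut y 0 (by simpa [up] using hprev) (Or.inl rfl) hyk
  have hne := iter_ne_rev t (i + 1) d
  have hrev : rev ((nxt t)^[i + 1] d) ≠ d := by
    intro h
    apply hne
    have := congrArg rev h
    rw [rev_rev] at this
    exact this
  have hlab : ∀ e : DS, ∀ z : ℤ, 0 ≤ z → z < k → (e = up z 0 ∨ e = dn z 0) →
      ∃ l, l < 2 * k ∧ lab L k e = 2 * l + 4 ∧ (e = up z 0 → l = z.toNat) ∧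
        (e = dn z 0 → l = z.toNat + k) := by
    intro e z h0 h1 he
    have hud : up z 0 ≠ dn z 0 := by
      intro h
      have := congrArg Prod.snd h
      simp [up, dn] at this
    rcases he with rfl | rfl
    · refine ⟨z.toNat, by omega, lab_up_of_lt hk h0 h1, fun _ => rfl, fun h => absurd h hud⟩
    · refine ⟨z.toNat + k, by omega, lab_dn_of_lt hk h0 h1, fun h => absurd h.symm hud,
        fun _ => rfl⟩
  obtain ⟨l1, hl1, e1, f1, g1⟩ := hlab d x hx0 hxk hd
  have hre : rev ((nxt t)^[i + 1] d) = up y 0 ∨ rev ((nxt t)^[i + 1] d) = dn y 0 := by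
    rcases hy with hy | hy
    · right; rw [hy, rev_up]
    · left; rw [hy, rev_dn]
  obtain ⟨l2, hl2, e2, f2, g2⟩ := hlab _ y hy'.1 hy'.2 hre
  rw [e1, e2] at hrel
  rcases lt_trichotomy l1 l2 with h | h | h
  · exact harm l1 l2 h hl2 hrel
  · -- equal labels: the same end
    apply hrev
    rcases hre with hr | hr <;> rcases hd with hd' | hd'
    · rw [hr, hd']
      have := f1 hd'
      have := f2 hr
      have : y = x := by omega
      rw [this]
    · have := g1 hd'
      have := f2 hr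
      omega
    · have := f1 hd'
      have := g2 hr
      omega
    · rw [hr, hd']
      have := g1 hd'
      have := g2 hr
      have : y = x := by omega
      rw [this]
  · exact harm l2 l1 h hl1 (G.symm hrel)

end H81Tile
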