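import Pool.Agent.Helper81.Tile.Upper

/-!
The boundary cycle of a box of tiles and potentials outside of the box.
-/

namespace H81Tile
open Finset

/-- box of tiles -/
def Qb (x0 x1 y0 y1 : ℤ) : Set (ℤ × ℤ) := {p | x0 ≤ p.1 ∧ p.1 < x1 ∧ y0 ≤ p.2 ∧ p.2 < y1}

lemma mem_Qb {x0 x1 y0 y1 : ℤ} {p : ℤ × ℤ} :
    p ∈ Qb x0 x1 y0 y1 ↔ x0 ≤ p.1 ∧ p.1 < x1 ∧ y0 ≤ p.2 ∧ p.2 < y1 := Iff.rfl

/-- the outward sides of the box in clockwise order, starting at the upper left corner -/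
def os (x0 x1 y0 y1 i : ℤ) : DS :=
  if i < x1 - x0 then ((x0 + i, y1), 0)
  else if i < (x1 - x0) + (y1 - y0) then ((x1, y1 - 1 - (i - (x1 - x0))), 3)
  else if i < 2 * (x1 - x0) + (y1 - y0) then ((x1 - 1 - (i - (x1 - x0) - (y1 - y0)), y0 - 1), 2)
  else ((x0 - 1, y0 + (i - 2 * (x1 - x0) - (y1 - y0))), 1)

/-- length of the boundary -/
def per (x0 x1 y0 y1 : ℤ) : ℤ := 2 * (x1 - x0) + 2 * (y1 - y0)

section
variable {x0 x1 y0 y1 : ℤ}

lemma os_cases (hx : x0 < x1) (hy : y0 < y1) {i : ℤ} (h0 : 0 ≤ i) (h1 : i < per x0 x1 y0 y1) :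
    (i < x1 - x0 ∧ os x0 x1 y0 y1 i = ((x0 + i, y1), 0)) ∨
    (x1 - x0 ≤ i ∧ i < (x1 - x0) + (y1 - y0) ∧
      os x0 x1 y0 y1 i = ((x1, y1 - 1 - (i - (x1 - x0))), 3)) ∨
    ((x1 - x0) + (y1 - y0) ≤ i ∧ i < 2 * (x1 - x0) + (y1 - y0) ∧
      os x0 x1 y0 y1 i = ((x1 - 1 - (i - (x1 - x0) - (y1 - y0)), y0 - 1), 2)) ∨
    (2 * (x1 - x0) + (y1 - y0) ≤ i ∧ i < 2 * (x1 - x0) + 2 * (y1 - y0) ∧
      os x0 x1 y0 y1 i = ((x0 - 1, y0 + (i - 2 * (x1 - x0) - (y1 - y0))), 1)) := by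
  unfold per at h1
  unfold os
  by_cases c1 : i < x1 - x0
  · left
    rw [if_pos c1]
    exact ⟨c1, rfl⟩
  · by_cases c2 : i < (x1 - x0) + (y1 - y0)
    · right; left
      rw [if_neg c1, if_pos c2]
      exact ⟨by omega, c2, rfl⟩
    · by_cases c3 : i < 2 * (x1 - x0) + (y1 - y0)
      · right; right; left
        rw [if_neg c1, if_neg c2, if_pos c3]
        exact ⟨by omega, c3, rfl⟩
      · right; right; right
        rw [if_neg c1, if_neg c2, if_neg c3]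
        exact ⟨by omega, by omega, rfl⟩

/-- left corner of the side -/
def oc (x0 x1 y0 y1 i : ℤ) : ℤ × ℤ :=
  if i < x1 - x0 then (x0 + i, y1)
  else if i < (x1 - x0) + (y1 - y0) then (x1, y1 - (i - (x1 - x0)))
  else if i < 2 * (x1 - x0) + (y1 - y0) then (x1 - (i - (x1 - x0) - (y1 - y0)), y0)
  else (x0, y0 + (i - 2 * (x1 - x0) - (y1 - y0)))

lemma lc_os (hx : x0 < x1) (hy : y0 < y1) {i : ℤ} (h0 : 0 ≤ i) (h1 : i < per x0 x1 y0 y1) :
    lc (os x0 x1 y0 y1 i) = oc x0 x1 y0 y1 i := by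
  unfold per at h1
  unfold os oc
  split_ifs
  · simp [lc, cor, co]
  · simp [lc, cor, co]; omega
  · simp [lc, cor, co]; omega
  · simp [lc, cor, co]

lemma rc_os (hx : x0 < x1) (hy : y0 < y1) {i : ℤ} (h0 : 0 ≤ i) (h1 : i + 1 < per x0 x1 y0 y1) :
    rc (os x0 x1 y0 y1 i) = oc x0 x1 y0 y1 (i + 1) := by
  unfold per at h1
  unfold os oc
  split_ifs <;> simp [rc, cor, co] <;> omega

lemma rc_os_last (hx : x0 < x1) (hy : y0 < y1) :
    rc (os x0 x1 y0 y1 (per x0 x1 y0 y1 - 1)) = oc x0 x1 y0 y1 0 := by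
  unfold per
  unfold os oc
  split_ifs <;> simp [rc, cor, co] <;> omega

lemma os_out (hx : x0 < x1) (hy : y0 < y1) {i : ℤ} (h0 : 0 ≤ i) (h1 : i < per x0 x1 y0 y1) :
    (os x0 x1 y0 y1 i).1 ∉ Qb x0 x1 y0 y1 ∧ (rev (os x0 x1 y0 y1 i)).1 ∈ Qb x0 x1 y0 y1 := by
  rw [mem_Qb, mem_Qb]
  rcases os_cases hx hy h0 h1 with ⟨a, b⟩ | ⟨a, a', b⟩ | ⟨a, a', b⟩ | ⟨a, a', b⟩ <;>
  rw [b] <;> simp only [rev, dr] <;> constructor <;> (try simp) <;> omega

lemma oc_inj (hx : x0 < x1) (hy : y0 < y1) {i j : ℤ} (h0 : 0 ≤ i) (h1 : i < per x0 x1 y0 y1)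
    (h0' : 0 ≤ j) (h1' : j < per x0 x1 y0 y1) (h : oc x0 x1 y0 y1 i = oc x0 x1 y0 y1 j) :
    i = j := by
  unfold per at h1 h1'
  unfold oc at h
  split_ifs at h <;> rw [Prod.mk.injEq] at h <;> omega

lemma oc_par (hx : x0 < x1) (hy : y0 < y1) {i : ℤ} (h0 : 0 ≤ i) (h1 : i < per x0 x1 y0 y1) :
    ((oc x0 x1 y0 y1 i).1 + (oc x0 x1 y0 y1 i).2) % 2 = (x0 + y1 + i) % 2 := by
  unfold per at h1
  unfold oc
  split_ifs <;> simp only <;> omega

/-- closed box of corners -/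
def Cb (x0 x1 y0 y1 : ℤ) : Set (ℤ × ℤ) := {q | x0 ≤ q.1 ∧ q.1 ≤ x1 ∧ y0 ≤ q.2 ∧ q.2 ≤ y1}

lemma exists_os (hx : x0 < x1) (hy : y0 < y1) {d : DS} (hd : d.1 ∉ Qb x0 x1 y0 y1)
    (h1 : lc d ∈ Cb x0 x1 y0 y1) (h2 : rc d ∈ Cb x0 x1 y0 y1) :
    ∃ i, 0 ≤ i ∧ i < per x0 x1 y0 y1 ∧ d = os x0 x1 y0 y1 i := by
  obtain ⟨⟨x, y⟩, c⟩ := d
  unfold Qb at hd
  unfold Cb at h1 h2
  unfold lc cor at h1
  unfold rc cor at h2
  simp only [Set.mem_ofPred_eq] at hd h1 h2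
  unfold per
  fin_cases c
  · refine ⟨x - x0, ?_, ?_, ?_⟩
    · simp [co] at h1 h2; omega
    · simp [co] at h1 h2; omega
    · simp [co] at h1 h2
      unfold os
      rw [if_pos (by omega)]
      simp; omega
  · refine ⟨2 * (x1 - x0) + (y1 - y0) + (y - y0), ?_, ?_, ?_⟩
    · simp [co] at h1 h2; omega
    · simp [co] at h1 h2; omega
    · simp [co] at h1 h2
      unfold os
      rw [if_neg (by omega), if_neg (by omega), if_neg (by omega)]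
      simp; omega
  · refine ⟨(x1 - x0) + (y1 - y0) + (x1 - 1 - x), ?_, ?_, ?_⟩
    · simp [co] at h1 h2; omega
    · simp [co] at h1 h2; omega
    · simp [co] at h1 h2
      unfold os
      rw [if_neg (by omega), if_neg (by omega), if_pos (by omega)]
      simp; omega
  · refine ⟨(x1 - x0) + (y1 - 1 - y), ?_, ?_, ?_⟩
    · simp [co] at h1 h2; omega
    · simp [co] at h1 h2; omega
    · simp [co] at h1 h2
      unfold os
      rw [if_neg (by omega), if_pos (by omega)]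
      simp; omega

lemma exists_oc (hx : x0 < x1) (hy : y0 < y1) {q : ℤ × ℤ} (h1 : q ∈ Cb x0 x1 y0 y1)
    (h2 : ∃ p, p ∉ Qb x0 x1 y0 y1 ∧ ∃ c, q = cor p c) :
    ∃ i, 0 ≤ i ∧ i < per x0 x1 y0 y1 ∧ q = oc x0 x1 y0 y1 i := by
  obtain ⟨x, y⟩ := q
  obtain ⟨⟨a, b⟩, hp, c, hc⟩ := h2
  unfold Cb at h1
  unfold Qb at hp
  unfold per
  simp only [Set.mem_ofPred_eq] at h1 hp
  have hb : x = x0 ∨ x = x1 ∨ y = y0 ∨ y = y1 := by
    unfold cor at hc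
    fin_cases c <;> simp [co] at hc <;> omega
  by_cases e1 : y = y1 ∧ x < x1
  · refine ⟨x - x0, by omega, by omega, ?_⟩
    unfold oc
    rw [if_pos (by omega)]
    ext <;> simp <;> omega
  · by_cases e2 : x = x1 ∧ y0 < y
    · refine ⟨(x1 - x0) + (y1 - y), by omega, by omega, ?_⟩
      unfold oc
      rw [if_neg (by omega), if_pos (by omega)]
      ext <;> simp <;> omega
    · by_cases e3 : y = y0 ∧ x0 < x
      · refine ⟨(x1 - x0) + (y1 - y0) + (x1 - x), by omega, by omega, ?_⟩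
        unfold oc
        rw [if_neg (by omega), if_neg (by omega), if_pos (by omega)]
        ext <;> simp <;> omega
      · refine ⟨2 * (x1 - x0) + (y1 - y0) + (y - y0), by omega, by omega, ?_⟩
        unfold oc
        rw [if_neg (by omega), if_neg (by omega), if_neg (by omega)]
        ext <;> simp <;> omega

end

end H81Tile
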