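import Pool.Agent.Helper81.Tile.Link
import Pool.Agent.Helper69.TwoArm.Explore
import Pool.Agent.Helper8.CB.PItems

/-!
The algebraic probability of the arm event is at most the probability that all interfaces from the
cut leave a box of the square lattice (bond percolation, `p = 1/2`).
-/

namespace H81Tile
open Finset IPC H47Perc
open IP (St)
open Pool.Agent.Helper69.RSW (P_restrict P_mono P_congr Dep)
open TA (rectF rect)

/-! ### the box in colour-blind coordinates -/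

lemma mem_rectF {W H : ℤ} {v : ℤ × ℤ} : v ∈ rectF W H ↔ -W ≤ v.1 ∧ v.1 ≤ W ∧ -H ≤ v.2 ∧ v.2 ≤ H := by
  unfold TA.rectF
  rw [Finset.mem_Icc, Prod.le_def, Prod.le_def]
  simp only
  tauto

lemma fT_rect {n : ℤ} {p : ℤ × ℤ} : fT p ∈ rectF (2 * n) (2 * n) ↔ p ∈ tbox (-n) n (-n) n := by
  rw [mem_rectF, mem_tbox]
  unfold fT
  simp only
  constructor <;> intro h <;> omega

lemma tl_te (p : ℤ × ℤ) : CB.tl 0 (te p) = fT p := by
  rcases te_cases p with ⟨x, y, rfl⟩ | ⟨x, y, rfl⟩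
  · rw [te_h, CB.tl_hE]
    unfold fT
    ext <;> simp <;> ring
  · rw [te_v, CB.tl_vE]
    unfold fT
    ext <;> simp <;> ring

lemma isH_te (p : ℤ × ℤ) : CB.IsH (te p) ↔ (p.1 + p.2) % 2 = 0 := by
  rcases te_cases p with ⟨x, y, rfl⟩ | ⟨x, y, rfl⟩
  · rw [te_h]
    refine iff_of_true (CB.isH_hE _ _) ?_
    simp only
    omega
  · rw [te_v]
    refine iff_of_false (CB.not_isH_vE _ _) ?_
    simp only
    omega

open Classical in
lemma tcOf_eq {n : ℤ} {ω : Finset (Sym2 (ℤ × ℤ))} {p : ℤ × ℤ} (hp : p ∈ tbox (-n) n (-n) n) :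
    tcM (fun v => v ∈ ((edgesIn (box (-n) n (-n) n)).filter
      (fun e => (CB.IsH e ↔ e ∈ ω))).image (CB.tl 0)) p = tcOf ω p := by
  have e : ∀ b b' : Bool, (b = true ↔ b' = true) → b = b' := by decide
  apply e
  rw [tcM_true, ← tl_te, mem_image]
  have hpe : te p ∈ edgesIn (box (-n) n (-n) n) := by
    have : p ∈ tilesOf (edgesIn (box (-n) n (-n) n) : Set (Sym2 (ℤ × ℤ))) := hp
    exact Finset.mem_coe.1 this
  have h1 : (∃ a ∈ (edgesIn (box (-n) n (-n) n)).filter (fun e => (CB.IsH e ↔ e ∈ ω)),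
      CB.tl 0 a = CB.tl 0 (te p)) ↔ (CB.IsH (te p) ↔ te p ∈ ω) := by
    constructor
    · rintro ⟨a, ha, h2⟩
      rw [mem_filter] at ha
      have := CB.tl_inj 0 _ (Finset.mem_coe.2 ha.1) (Finset.mem_coe.2 hpe) h2
      rw [← this]
      exact ha.2
    · intro h
      exact ⟨te p, mem_filter.2 ⟨hpe, h⟩, rfl⟩
  rw [h1, isH_te]
  unfold tcOf
  by_cases h2 : (p.1 + p.2) % 2 = 0
  · rw [if_pos h2]
    simp [h2]
  · rw [if_neg h2]
    simp [h2]

/-- the law of the tiles of a box -/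
theorem P_box {n : ℤ} {Q : TC → Prop}
    (hQ : ∀ t t' : TC, (∀ p ∈ tbox (-n) n (-n) n, t p = t' p) → Q t → Q t') :
    Pool.Agent.Helper69.RSW.P (edgesIn (box (-n) n (-n) n)) (fun ω => Q (tcOf ω)) =
      Pool.Agent.Helper69.RSW.P (rectF (2 * n) (2 * n)) (fun S => Q (tcM (fun v => v ∈ S))) := by
  classical
  have h0 : ((edgesIn (box (-n) n (-n) n)).image (CB.tl 0)) ⊆ rectF (2 * n) (2 * n) := by
    intro v hv
    rw [mem_image] at hv
    obtain ⟨e, he, rfl⟩ := hv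
    rw [mem_rectF]
    rcases edgesIn_cases he with ⟨x, y, rfl⟩ | ⟨x, y, rfl⟩
    · rw [hE_mem, mem_box, mem_box] at he
      rw [CB.tl_hE]
      simp only at he ⊢
      omega
    · rw [vE_mem, mem_box, mem_box] at he
      rw [CB.tl_vE]
      simp only at he ⊢
      omega
  have hdep : Dep ((edgesIn (box (-n) n (-n) n)).image (CB.tl 0))
      (fun S => Q (tcM (fun v => v ∈ S))) := by
    intro S
    have hh : ∀ p ∈ tbox (-n) n (-n) n, tcM (fun v => v ∈ S) p = tcM (fun v => v ∈ S ∩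
        ((edgesIn (box (-n) n (-n) n)).image (CB.tl 0))) p := by
      intro p hp
      have e : ∀ b b' : Bool, (b = true ↔ b' = true) → b = b' := by decide
      apply e
      rw [tcM_true, tcM_true, mem_inter]
      have hpe : te p ∈ edgesIn (box (-n) n (-n) n) := by
        have : p ∈ tilesOf (edgesIn (box (-n) n (-n) n) : Set (Sym2 (ℤ × ℤ))) := hp
        exact Finset.mem_coe.1 this
      have : fT p ∈ (edgesIn (box (-n) n (-n) n)).image (CB.tl 0) :=
        mem_image.2 ⟨te p, hpe, tl_te p⟩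
      tauto
    exact ⟨hQ _ _ hh, hQ _ _ (fun p hp => (hh p hp).symm)⟩
  rw [P_restrict h0 hdep, CB.P_image' _ _ (CB.tl_inj 0 _)]
  rw [← CB.P_xnor (edgesIn (box (-n) n (-n) n)) CB.IsH
    (fun S => Q (tcM (fun v => v ∈ S.image (CB.tl 0))))]
  refine P_congr fun ω _ => ?_
  have hh := fun p (hp : p ∈ tbox (-n) n (-n) n) => tcOf_eq (ω := ω) hp
  constructor
  · refine hQ _ _ fun p hp => ?_
    rw [← hh p hp]
  · refine hQ _ _ fun p hp => ?_
    rw [← hh p hp]

/-! ### the reduction map of the plane -/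

/-- reduction modulo `(L, -L)` to the columns `-W, ..., L-W-1` -/
def rdp (L W : ℤ) (v : ℤ × ℤ) : ℤ × ℤ := (v.1 - ((v.1 + W) / L) * L, v.2 + ((v.1 + W) / L) * L)

lemma rdp_iff {L : ℕ} (hL : 0 < L) (W : ℤ) (p q : ℤ × ℤ) :
    rdp L W (fT p) = rdp L W (fT q) ↔ p.2 = q.2 ∧ p.1 % L = q.1 % L := by
  obtain ⟨x, y⟩ := p
  obtain ⟨x', y'⟩ := q
  unfold rdp fT
  simp only [Prod.mk.injEq]
  have hL' : (0 : ℤ) < L := by exact_mod_cast hL
  constructor
  · rintro ⟨h1, h2⟩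
    have h3 : y = y' := by linarith
    subst h3
    refine ⟨rfl, ?_⟩
    have h4 : x = x' + ((x + y + 1 + W) / L - (x' + y + 1 + W) / L) * L := by linarith
    rw [h4, Int.add_mul_emod_self_right]
  · rintro ⟨rfl, h1⟩
    obtain ⟨c, hc⟩ : ∃ c, c = x / (L : ℤ) - x' / L := ⟨_, rfl⟩
    have h2 : x = x' + c * L := by
      have e1 := Int.emod_add_mul_ediv x (L : ℤ)
      have e2 := Int.emod_add_mul_ediv x' (L : ℤ)
      rw [hc]
      linear_combination e2 - e1 + h1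
    have h3 : (x + y + 1 + W) / L = (x' + y + 1 + W) / L + c := by
      rw [h2, show x' + c * L + y + 1 + W = x' + y + 1 + W + c * L by ring,
        Int.add_mul_ediv_right _ _ hL'.ne']
    rw [h3]
    constructor
    · rw [h2]; ring
    · rw [h2]; ring

lemma rdp_id {L W : ℤ} (hLW : 2 * W < L) {v : ℤ × ℤ} (h1 : -W ≤ v.1) (h2 : v.1 ≤ W) :
    rdp L W v = v := by
  unfold rdp
  rw [Int.ediv_eq_zero_of_lt (by linarith) (by linarith)]
  ext <;> simp

lemma red_rdp {L m : ℕ} (hL : 0 < L) (W : ℤ) :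
    Red L m (rdp L W) (wOf L m (rdp L W) (range m ×ˢ range L) ∅) := by
  refine ⟨fun p q _ _ => rdp_iff hL W p q, fun x => ?_⟩
  unfold wOf
  rw [mem_union, mem_image, mem_image, sdiff_empty]
  constructor
  · rintro (⟨q, h1, rfl⟩ | ⟨q, h1, rfl⟩)
    · exact ⟨_, tu_rows h1, rfl⟩
    · exact ⟨_, td_rows h1, rfl⟩
  · rintro ⟨p, hp, rfl⟩
    obtain ⟨q, hq, h1⟩ := exists_num hL hp
    rcases h1 with ⟨_, h1, h2, _⟩ | ⟨_, h1, h2, _⟩
    · left
      exact ⟨q, hq, ((rdp_iff hL W _ _).2 ⟨h1, h2⟩).symm⟩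
    · right
      exact ⟨q, hq, ((rdp_iff hL W _ _).2 ⟨h1, h2⟩).symm⟩

/-- **the algebraic probability is at most the probability in the box** -/
theorem arf_le_box {L n k : ℕ} (hL : 4 * n < L) {Q : TC → Prop}
    (hQ : ∀ t t' : TC, (∀ p ∈ tbox (-n) n (-n) n, t p = t' p) → Q t → Q t')
    (hev : ∀ A B : Finset (ℕ × ℕ), ∀ σ ∈ W L, ∀ τ ∈ W L,
      arm k k (mact L (bt A) (2 * n) σ) (mact L (bt B) (2 * n) τ) → Q (cfg L A B)) :
    bil (arf k k) (IPC.P L (fun _ => 0)) (IPC.P L (fun _ => 0)) ≤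
      Pool.Agent.Helper69.RSW.P (edgesIn (box (-n) n (-n) n)) (fun ω => Q (tcOf ω)) := by
  classical
  have hL0 : 0 < L := by omega
  have hrow : ∀ p ∈ tbox (-(n : ℤ)) n (-n) n, p ∈ rows (-((2 * n : ℕ) : ℤ)) ((2 * n : ℕ) : ℤ) := by
    intro p hp
    rw [mem_tbox] at hp
    unfold rows
    simp only [Set.mem_ofPred_eq]
    push_cast
    omega
  have hred := red_rdp (m := 2 * n) hL0 (2 * (n : ℤ))
  set Λ := wOf L (2 * n) (rdp L (2 * (n : ℤ))) (range (2 * n) ×ˢ range L) ∅ with hΛ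
  have h1 := arf_le_P hL0 (k := k) hred
    (fun t t' h => hQ t t' (fun p hp => h p (hrow p hp))) hev
  refine h1.trans (le_of_eq ?_)
  rw [P_box hQ]
  have hfix : ∀ p ∈ tbox (-(n : ℤ)) n (-n) n, rdp L (2 * (n : ℤ)) (fT p) = fT p := by
    intro p hp
    rw [← fT_rect, mem_rectF] at hp
    refine rdp_id (by omega) hp.1 hp.2.1
  have e1 : Pool.Agent.Helper69.RSW.P Λ (fun w => Q (tcM (fun v => rdp L (2 * (n : ℤ)) v ∈ w))) =
      Pool.Agent.Helper69.RSW.P Λ (fun w => Q (tcM (fun v => v ∈ w))) := by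
    refine P_congr fun w _ => ?_
    have hh : ∀ p ∈ tbox (-(n : ℤ)) n (-n) n,
        tcM (fun v => rdp L (2 * (n : ℤ)) v ∈ w) p = tcM (fun v => v ∈ w) p := by
      intro p hp
      have e : ∀ b b' : Bool, (b = true ↔ b' = true) → b = b' := by decide
      apply e
      rw [tcM_true, tcM_true, hfix p hp]
    exact ⟨hQ _ _ hh, hQ _ _ (fun p hp => (hh p hp).symm)⟩
  rw [e1]
  have hdep : Dep (Λ ∩ rectF (2 * n) (2 * n)) (fun S => Q (tcM (fun v => v ∈ S))) := by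
    intro S
    have hh : ∀ p ∈ tbox (-(n : ℤ)) n (-n) n, tcM (fun v => v ∈ S) p =
        tcM (fun v => v ∈ S ∩ (Λ ∩ rectF (2 * n) (2 * n))) p := by
      intro p hp
      have e : ∀ b b' : Bool, (b = true ↔ b' = true) → b = b' := by decide
      apply e
      rw [tcM_true, tcM_true, mem_inter, mem_inter]
      have h2 : fT p ∈ rectF (2 * (n : ℤ)) (2 * n) := fT_rect.2 hp
      have h3 : fT p ∈ Λ := (hred.mem _).2 ⟨p, hrow p hp, (hfix p hp).symm⟩
      tauto
    exact ⟨hQ _ _ hh, hQ _ _ (fun p hp => (hh p hp).symm)⟩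
  rw [P_restrict inter_subset_left hdep, P_restrict inter_subset_right hdep]

end H81Tile
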