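import Pool.Agent.Helper81.Tile.Arms2k
import Pool.Agent.Helper81.Tile.Plane

/-!
Polychromatic `2k`-arm events of bond percolation on the square lattice and the bound of the
algebraic probability by their probabilities.
-/

namespace H81Tile
open Finset IPC H47Perc
open IP (St)

/-- the box `[-m, m]²` -/
noncomputable def bx (m : ℤ) : Finset (ℤ × ℤ) := H47Perc.box (-m) m (-m) m

/-- `z` is a boundary vertex of the box -/
def OnSq (m : ℤ) (z : ℤ × ℤ) : Prop :=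
  -m ≤ z.1 ∧ z.1 ≤ m ∧ -m ≤ z.2 ∧ z.2 ≤ m ∧ (z.1 = -m ∨ z.1 = m ∨ z.2 = -m ∨ z.2 = m)

/-- the unit face with lower left corner `f` lies outside of the box and touches it -/
def OnFr (m : ℤ) (f : ℤ × ℤ) : Prop :=
  -m - 1 ≤ f.1 ∧ f.1 ≤ m ∧ -m - 1 ≤ f.2 ∧ f.2 ≤ m ∧
    (f.1 = -m - 1 ∨ f.1 = m ∨ f.2 = -m - 1 ∨ f.2 = m)

/-- the edges of the annulus between the boxes -/
noncomputable def Ann (r n : ℤ) : Finset (Sym2 (ℤ × ℤ)) := edgesIn (bx n) \ edgesIn (bx r)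

/-- **the `2k`-arm event**: `k` boundary vertices of the inner box are joined to the boundary of the
outer box by open paths in the annulus, and are pairwise not joined there; `k` faces around the
inner box are joined to faces around the outer box by dual paths which cross closed edges of the
annulus, and are pairwise not joined there -/
def Alt (k : ℕ) (r n : ℤ) (ω : Finset (Sym2 (ℤ × ℤ))) : Prop :=
  (∃ x : Fin k → ℤ × ℤ, (∀ i, OnSq r (x i) ∧ ∃ v, OnSq n v ∧ Joined (ω ∩ Ann r n) (x i) v) ∧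
    ∀ i j, i ≠ j → ¬ Joined (ω ∩ Ann r n) (x i) (x j)) ∧
  (∃ f : Fin k → ℤ × ℤ, (∀ i, OnFr r (f i) ∧ ∃ g, OnFr n g ∧ Joined (du (Ann r n) ω) (f i) g) ∧
    ∀ i j, i ≠ j → ¬ Joined (du (Ann r n) ω) (f i) (f j))

/-! ### dictionary for the annulus -/

lemma tiles_ann (r n : ℤ) : tilesOf (Ann r n : Set (Sym2 (ℤ × ℤ))) =
    tbox (-n) n (-n) n \ tbox (-r) r (-r) r := by
  ext p
  unfold tbox tilesOf Ann bx
  rw [Set.mem_ofPred_eq, Finset.coe_sdiff, Set.mem_sdiff, Set.mem_sdiff, Set.mem_ofPred_eq,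
    Set.mem_ofPred_eq]

lemma ann_cases {r n : ℤ} {e : Sym2 (ℤ × ℤ)} (he : e ∈ Ann r n) :
    (∃ x y, e = hE x y) ∨ (∃ x y, e = vE x y) := by
  unfold Ann at he
  exact edgesIn_cases (mem_sdiff.1 he).1

lemma ann_lattice {r n : ℤ} {u v : ℤ × ℤ} (he : s(u, v) ∈ Ann r n) : lattice.Adj u v := by
  unfold Ann at he
  exact (mem_edgesIn.1 (mem_sdiff.1 he).1).2.2

theorem vann_iff {r n : ℤ} {ω : Finset (Sym2 (ℤ × ℤ))} {u v : ℤ × ℤ} :
    Relation.ReflTransGen (VStep (Ann r n : Set (Sym2 (ℤ × ℤ))) (ω : Set (Sym2 (ℤ × ℤ)))) u v ↔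
      Joined (ω ∩ Ann r n) u v := by
  constructor
  · intro h
    induction h with
    | refl => exact SimpleGraph.Reachable.refl _
    | tail _ h2 ih =>
      refine SimpleGraph.Reachable.trans ih (SimpleGraph.Adj.reachable ?_)
      rw [SimpleGraph.fromEdgeSet_adj]
      exact ⟨Finset.mem_coe.2 (mem_inter.2 ⟨h2.2.1, h2.1⟩), h2.2.2.ne⟩
  · rintro ⟨p⟩
    induction p with
    | nil => exact Relation.ReflTransGen.refl
    | cons h _ ih =>
      rw [SimpleGraph.fromEdgeSet_adj] at h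
      have h1 := mem_inter.1 (Finset.mem_coe.1 h.1)
      exact Relation.ReflTransGen.head ⟨h1.2, h1.1, ann_lattice h1.2⟩ ih

lemma fstep_ann {r n : ℤ} {ω : Finset (Sym2 (ℤ × ℤ))} {f g : ℤ × ℤ} :
    FStep (Ann r n : Set (Sym2 (ℤ × ℤ))) (ω : Set (Sym2 (ℤ × ℤ))) f g ↔
      s(f, g) ∈ du (Ann r n) ω := by
  unfold FStep du
  rw [mem_image]
  constructor
  · rintro ⟨e, h1, h2, h3⟩
    exact ⟨e, mem_sdiff.2 ⟨h1, h2⟩, dI_sep h3⟩
  · rintro ⟨e, h1, h2⟩
    rw [mem_sdiff] at h1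
    refine ⟨e, h1.1, h1.2, ?_⟩
    rcases ann_cases h1.1 with ⟨i, j, rfl⟩ | ⟨i, j, rfl⟩
    · exact sep_of_dI_h h2
    · exact sep_of_dI_v h2

theorem fann_iff {r n : ℤ} {ω : Finset (Sym2 (ℤ × ℤ))} {f g : ℤ × ℤ} :
    Relation.ReflTransGen (FStep (Ann r n : Set (Sym2 (ℤ × ℤ))) (ω : Set (Sym2 (ℤ × ℤ)))) f g ↔
      Joined (du (Ann r n) ω) f g := by
  constructor
  · intro h
    induction h with
    | refl => exact joined_refl _ _
    | tail _ h2 ih =>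
      obtain ⟨e, _, _, h3⟩ := id h2
      refine joined_trans ih (SimpleGraph.Adj.reachable ?_)
      rw [SimpleGraph.fromEdgeSet_adj]
      exact ⟨fstep_ann.1 h2, sep_ne h3⟩
  · rintro ⟨p⟩
    induction p with
    | nil => exact Relation.ReflTransGen.refl
    | cons h _ ih =>
      rw [SimpleGraph.fromEdgeSet_adj] at h
      exact Relation.ReflTransGen.head (fstep_ann.2 h.1) ih

lemma cor_box_st {m : ℤ} {z : ℤ × ℤ} {p : ℤ × ℤ} {c : Fin 4} (hp : p ∈ tbox (-m) m (-m) m)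
    (h : st z = cor p c) : -m ≤ z.1 ∧ z.1 ≤ m ∧ -m ≤ z.2 ∧ z.2 ≤ m := by
  rw [mem_tbox] at hp
  obtain ⟨x, y⟩ := z
  obtain ⟨i, j⟩ := p
  unfold st cor at h
  simp only at hp h ⊢
  fin_cases c <;> simp [co] at h <;> omega

lemma cor_box_fc {m : ℤ} {z : ℤ × ℤ} {p : ℤ × ℤ} {c : Fin 4} (hp : p ∈ tbox (-m) m (-m) m)
    (h : fc z = cor p c) : -m - 1 ≤ z.1 ∧ z.1 ≤ m ∧ -m - 1 ≤ z.2 ∧ z.2 ≤ m := by
  rw [mem_tbox] at hp
  obtain ⟨x, y⟩ := z
  obtain ⟨i, j⟩ := p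
  unfold fc cor at h
  simp only at hp h ⊢
  fin_cases c <;> simp [co] at h <;> omega

lemma onSq_of {m : ℤ} {z : ℤ × ℤ} (h1 : ∃ p ∈ tbox (-m) m (-m) m, ∃ c, st z = cor p c)
    (h2 : ∃ p, p ∉ tbox (-m) m (-m) m ∧ ∃ c, st z = cor p c) : OnSq m z := by
  obtain ⟨p, hp, c, hc⟩ := h1
  have h3 := cor_box_st hp hc
  have h4 := onBd_st.1 h2
  unfold OnSq
  omega

lemma onFr_of {m : ℤ} {z : ℤ × ℤ} (h1 : ∃ p ∈ tbox (-m) m (-m) m, ∃ c, fc z = cor p c)
    (h2 : ∃ p, p ∉ tbox (-m) m (-m) m ∧ ∃ c, fc z = cor p c) : OnFr m z := by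
  obtain ⟨p, hp, c, hc⟩ := h1
  have h3 := cor_box_fc hp hc
  have h4 := onBd_fc.1 h2
  unfold OnFr
  omega

lemma exists_st {u : ℤ × ℤ} (h : (u.1 + u.2) % 2 = 0) : ∃ z, u = st z := by
  refine ⟨((u.1 + u.2) / 2, (u.2 - u.1) / 2), ?_⟩
  unfold st
  ext <;> simp only <;> omega

lemma exists_fc {u : ℤ × ℤ} (h : (u.1 + u.2) % 2 = 1) : ∃ z, u = fc z := by
  refine ⟨((u.1 + u.2 - 1) / 2, (u.2 - u.1 - 1) / 2), ?_⟩
  unfold fc
  ext <;> simp only <;> omega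

/-! ### the deterministic statement -/

lemma tbox_diam {n k : ℕ} (hk : k ≤ 2 * n) : Diam (tbox (-(n : ℤ)) n (-n) n) k := by
  refine ⟨fun x y h hy => ?_, fun x y h hy => ?_, ?_⟩
  · rw [mem_tbox] at h ⊢
    simp only at h ⊢
    omega
  · rw [mem_tbox] at h ⊢
    simp only at h ⊢
    omega
  · rintro d ⟨x, h0, h1, rfl | rfl⟩
    · rw [mem_tbox]; simp only [up]; omega
    · rw [mem_tbox]; simp only [dn]; omega

lemma tbox_cov {r k : ℕ} (hk : k ≤ 2 * r) : Cov (tbox (-(r : ℤ)) r (-r) r) k := by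
  rintro ⟨x, y⟩ c hp
  unfold nint
  intro h0
  by_contra hc
  apply hp
  rw [mem_tbox]
  unfold cor at h0 hc
  fin_cases c <;> simp [co] at h0 hc ⊢ <;> omega

/-- all interfaces from the cut leave the box -/
def AllLeave (k : ℕ) (n : ℤ) (t : TC) : Prop :=
  ∀ j < 2 * k, CLeaves t (tbox (-n) n (-n) n) (Cut k) (en k j)

theorem alt_of_leave {k r n : ℕ} (hkr : k ≤ 2 * r) (hrn : r ≤ n) {ω : Finset (Sym2 (ℤ × ℤ))}
    (h : AllLeave k n (tcOf ω)) : Alt k r n ω := by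
  have hBc : ∀ d ∈ Cut k, d.1 ∈ tbox (-(r : ℤ)) r (-r) r := (tbox_diam (n := r) hkr).cut
  have hBD : tbox (-(r : ℤ)) r (-r) r ⊆ tbox (-(n : ℤ)) n (-n) n := by
    intro p hp
    rw [mem_tbox] at hp ⊢
    omega
  obtain ⟨u, v, huv⟩ := arms_annulus (tbox_diam (n := n) (by omega)) hBc hBD (tbox_cov hkr) h
  rw [← tiles_ann] at huv
  constructor
  · -- primal arms
    have hx : ∀ i : Fin k, ∃ z, u (2 * (i : ℕ)) = st z := fun i => by
      obtain ⟨h1, _⟩ := huv (2 * (i : ℕ)) (by omega)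
      exact exists_st (by rw [h1]; push_cast; omega)
    choose x hx using hx
    refine ⟨x, fun i => ?_, fun i j hij hJ => ?_⟩
    · obtain ⟨h1, h2, h3, h4, h5, h6, _⟩ := huv (2 * (i : ℕ)) (by omega)
      rw [hx i] at h2 h3 h4
      refine ⟨onSq_of h3 h4, ?_⟩
      rw [cconn_st_iff] at h2
      obtain ⟨w, hw, h7⟩ := h2
      rw [hw] at h5 h6
      exact ⟨w, onSq_of h5 h6, vann_iff.1 h7⟩
    · have key : ∀ i j : Fin k, i < j → ¬ Joined (ω ∩ Ann r n) (x i) (x j) := by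
        intro i j hij hJ
        obtain ⟨_, _, _, _, _, _, h8⟩ := huv (2 * (j : ℕ)) (by omega)
        apply h8 (2 * (i : ℕ)) (by have : (i : ℕ) < j := hij; omega)
        rw [hx i, hx j, cconn_st_iff]
        exact ⟨x j, rfl, vann_iff.2 hJ⟩
      rcases lt_or_gt_of_ne hij with h1 | h1
      · exact key i j h1 hJ
      · exact key j i h1 (joined_symm hJ)
  · -- dual arms
    have hx : ∀ i : Fin k, ∃ z, u (2 * (i : ℕ) + 1) = fc z := fun i => by
      obtain ⟨h1, _⟩ := huv (2 * (i : ℕ) + 1) (by omega)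
      exact exists_fc (by rw [h1]; push_cast; omega)
    choose x hx using hx
    refine ⟨x, fun i => ?_, fun i j hij hJ => ?_⟩
    · obtain ⟨h1, h2, h3, h4, h5, h6, _⟩ := huv (2 * (i : ℕ) + 1) (by omega)
      rw [hx i] at h2 h3 h4
      refine ⟨onFr_of h3 h4, ?_⟩
      rw [cconn_fc_iff] at h2
      obtain ⟨w, hw, h7⟩ := h2
      rw [hw] at h5 h6
      exact ⟨w, onFr_of h5 h6, fann_iff.1 h7⟩
    · have key : ∀ i j : Fin k, i < j → ¬ Joined (du (Ann r n) ω) (x i) (x j) := by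
        intro i j hij hJ
        obtain ⟨_, _, _, _, _, _, h8⟩ := huv (2 * (j : ℕ) + 1) (by omega)
        apply h8 (2 * (i : ℕ) + 1) (by have : (i : ℕ) < j := hij; omega)
        rw [hx i, hx j, cconn_fc_iff]
        exact ⟨x j, rfl, fann_iff.2 hJ⟩
      rcases lt_or_gt_of_ne hij with h1 | h1
      · exact key i j h1 hJ
      · exact key j i h1 (joined_symm hJ)

end H81Tile
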