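import Pool.Agent.Helper81.Tile.RingPot
import Pool.Agent.Helper81.Tile.Even

/-!
`2k` arms in an annulus give `2k` interface strands of alternating orientation that leave every box
of tiles around the inner box.
-/

namespace H81Tile
open Finset

/-- the strand that starts with `d` leaves `D` before it visits `Q` -/
def Esc (t : TC) (D Q : Set (ℤ × ℤ)) (d : DS) : Prop :=
  ∃ n, ((nxt t)^[n] d).1 ∉ D ∧ ∀ i < n, ((nxt t)^[i] d).1 ∉ Q

/-- `u` is joined to the outer boundary outside of `Q` -/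
def Rch (t : TC) (D Q : Set (ℤ × ℤ)) (u : ℤ × ℤ) : Prop := ∃ v, OnBd D v ∧ CConn t (D \ Q) u v

lemma Esc.reach {t : TC} {D Q : Set (ℤ × ℤ)} {d : DS} (h : Esc t D Q d) :
    Rch t D Q (lc d) ∧ Rch t D Q (rc d) := by
  classical
  obtain ⟨n, h1, h2⟩ := h
  have hex : ∃ n, ((nxt t)^[n] d).1 ∉ D := ⟨n, h1⟩
  obtain ⟨h3, h4⟩ := conn_iter t (D \ Q) d (Nat.find hex) (fun i hi => ⟨by
    by_contra hc
    exact Nat.find_min hex hi hc, h2 i (lt_of_lt_of_le hi (Nat.find_min' hex h1))⟩)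
  have h5 := Nat.find_spec hex
  exact ⟨⟨_, ⟨_, h5, _, rfl⟩, h3⟩, ⟨_, ⟨_, h5, _, rfl⟩, h4⟩⟩

lemma cconn_par {t : TC} {D : Set (ℤ × ℤ)} {u v : ℤ × ℤ} (h : CConn t D u v) :
    (u.1 + u.2) % 2 = (v.1 + v.2) % 2 := by
  induction h with
  | refl => rfl
  | tail _ h2 ih =>
    rw [ih]
    obtain ⟨p, _, c, h3, h4, _⟩ := h2
    rw [h3, h4]
    obtain ⟨x, y⟩ := p
    fin_cases c <;> simp [cor, co] <;> omega

lemma lc_rc_par (d : DS) : ((lc d).1 + (lc d).2) % 2 ≠ ((rc d).1 + (rc d).2) % 2 := by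
  obtain ⟨⟨x, y⟩, c⟩ := d
  fin_cases c <;> simp [lc, rc, cor, co] <;> omega

lemma Rch.of_conn {t : TC} {D Q : Set (ℤ × ℤ)} {u v : ℤ × ℤ} (h : CConn t (D \ Q) u v)
    (hv : Rch t D Q v) : Rch t D Q u := by
  obtain ⟨w, h1, h2⟩ := hv
  exact ⟨w, h1, h.trans h2⟩

section
variable {t : TC} {D : Set (ℤ × ℤ)} {x0 x1 y0 y1 : ℤ}

/-- a strand that does not escape comes back -/
theorem ret_of_not_esc (hx : x0 < x1) (hy : y0 < y1) (hf : D.Finite) {i : ℤ}
    (h : ¬ Esc t D (Qb x0 x1 y0 y1) (es x0 x1 y0 y1 i)) :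
    ∃ (n : ℕ) (l : ℤ), i < l ∧ l < i + per x0 x1 y0 y1 ∧
      (∀ s < n, ((nxt t)^[s] (es x0 x1 y0 y1 i)).1 ∈ D \ Qb x0 x1 y0 y1) ∧
      (nxt t)^[n] (es x0 x1 y0 y1 i) = rev (es x0 x1 y0 y1 l) := by
  classical
  set Q := Qb x0 x1 y0 y1 with hQ
  set d := es x0 x1 y0 y1 i with hd
  have hd0 : d.1 ∉ Q := (es_out hx hy i).1
  have hd1 : (rev d).1 ∈ Q := (es_out hx hy i).2
  have hex : ∃ n, ((nxt t)^[n] d).1 ∈ Q ∨ ((nxt t)^[n] d).1 ∉ D := by
    by_contra hc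
    push Not at hc
    have hfin : (Set.univ : Set (Fin 4)).Finite := Set.finite_univ
    have hfs : (D ×ˢ (Set.univ : Set (Fin 4))).Finite := hf.prod hfin
    obtain ⟨a, b, hab, he⟩ : ∃ a b : ℕ, a < b ∧ (nxt t)^[a] d = (nxt t)^[b] d := by
      have hmaps : Set.MapsTo (fun n : ℕ => (nxt t)^[n] d) Set.univ (D ×ˢ Set.univ) :=
        fun n _ => ⟨(hc n).2, Set.mem_univ _⟩
      obtain ⟨a, _, b, _, hne, he⟩ := Set.infinite_univ.exists_ne_map_eq_of_mapsTo hmaps hfs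
      rcases lt_or_gt_of_ne hne with h1 | h1
      · exact ⟨a, b, h1, he⟩
      · exact ⟨b, a, h1, he.symm⟩
    have hinj : Function.Injective (nxt t) := (stp t).injective
    have h0 : d = (nxt t)^[b - a] d := by
      have h1 : (nxt t)^[a] d = (nxt t)^[a] ((nxt t)^[b - a] d) := by
        rw [← Function.iterate_add_apply, show a + (b - a) = b by omega]
        exact he
      exact (hinj.iterate a) h1
    obtain ⟨T, hT⟩ : ∃ T, b - a = T + 1 := ⟨b - a - 1, by omega⟩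
    rw [hT, Function.iterate_succ_apply'] at h0
    have h2 : (rev d).1 = ((nxt t)^[T] d).1 := by
      have h3 := congrArg (fun e => (rev e).1) h0
      simp only [rev_nxt] at h3
      exact h3
    rw [h2] at hd1
    exact (hc T).1 hd1
  set n := Nat.find hex with hn
  have hspec := Nat.find_spec hex
  have hmin : ∀ s < n, ((nxt t)^[s] d).1 ∈ D \ Q := by
    intro s hs
    have := Nat.find_min hex hs
    push Not at this
    exact ⟨this.2, this.1⟩
  have hnQ : ((nxt t)^[n] d).1 ∈ Q := by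
    rcases hspec with h1 | h1
    · exact h1
    · exact absurd ⟨n, h1, fun s hs => (hmin s hs).2⟩ h
  have hn0 : n ≠ 0 := by
    intro h0
    rw [h0] at hnQ
    exact hd0 hnQ
  obtain ⟨n', hn'⟩ : ∃ n', n = n' + 1 := ⟨n - 1, by omega⟩
  obtain ⟨l, hl1, hl2, hl3⟩ := exists_es' hx hy i (d := rev ((nxt t)^[n] d)) (by
    rw [hn', Function.iterate_succ_apply', rev_nxt]
    exact (hmin n' (by omega)).2) (by rw [rev_rev]; exact hnQ)
  have hl4 : (nxt t)^[n] d = rev (es x0 x1 y0 y1 l) := by rw [← hl3, rev_rev]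
  refine ⟨n, l, ?_, hl2, hmin, hl4⟩
  rcases lt_or_eq_of_le hl1 with h1 | h1
  · exact h1
  · exfalso
    subst h1
    have h2 := (conn_iter t (D \ Q) d n hmin).1
    rw [hl4, lc_rev] at h2
    exact lc_rc_par d (cconn_par h2)

/-- **two corners joined to infinity without escaping strand in between are joined** -/
theorem conn_of_no_esc (hx : x0 < x1) (hy : y0 < y1) (hf : D.Finite) (hD : Out D)
    (hQD : Qb x0 x1 y0 y1 ⊆ D) (n : ℕ) : ∀ i j : ℤ, i ≤ j → j - i ≤ n →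
    j < i + per x0 x1 y0 y1 → Rch t D (Qb x0 x1 y0 y1) (ec x0 x1 y0 y1 i) →
    Rch t D (Qb x0 x1 y0 y1) (ec x0 x1 y0 y1 j) →
    (∀ m, i ≤ m → m < j → ¬ Esc t D (Qb x0 x1 y0 y1) (es x0 x1 y0 y1 m)) →
    CConn t (D \ Qb x0 x1 y0 y1) (ec x0 x1 y0 y1 i) (ec x0 x1 y0 y1 j) := by
  induction n with
  | zero =>
    intro i j hij hn _ _ _ _
    have : i = j := by push_cast at hn; omega
    rw [this]
    exact Relation.ReflTransGen.refl
  | succ n ih =>
    intro i j hij hn hjN hri hrj hne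
    rcases eq_or_lt_of_le hij with h0 | h0
    · rw [h0]
      exact Relation.ReflTransGen.refl
    · obtain ⟨s, l, hil, hlN, hin, hs⟩ := ret_of_not_esc hx hy hf (hne i le_rfl h0)
      have hc := conn_iter t (D \ Qb x0 x1 y0 y1) _ s hin
      rw [hs, lc_rev, rc_rev, lc_es hx hy, rc_es hx hy, rc_es hx hy, lc_es hx hy] at hc
      rcases lt_or_ge l j with h1 | h1
      · refine hc.1.trans (ih (l + 1) j (by omega) (by push_cast at hn; omega) (by omega)
          (hri.imp fun v hv => ⟨hv.1, hc.1.symm.trans hv.2⟩) hrj (fun m h2 h3 =>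
            hne m (by omega) h3))
      · exfalso
        obtain ⟨W, hW1, hW2, hW3⟩ := exists_ring_pot hx hy hD hQD hil hlN hin hs
        obtain ⟨v, hv1, hv2⟩ := hri
        obtain ⟨v', hv1', hv2'⟩ := hrj
        have e1 : W (ec x0 x1 y0 y1 i) = 0 := by rw [hW1 _ _ hv2, hW2 _ hv1]
        have e2 : W (ec x0 x1 y0 y1 j) = 0 := by rw [hW1 _ _ hv2', hW2 _ hv1']
        have e3 := hW3 j h0 h1
        rw [e1, e2] at e3
        simp at e3

/-- the escaping sides: at least as many as classes of corners -/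
theorem card_esc (hx : x0 < x1) (hy : y0 < y1) (hf : D.Finite) (hD : Out D)
    (hQD : Qb x0 x1 y0 y1 ⊆ D) {J : Type} [Fintype J] (hJ : 2 ≤ Fintype.card J) (p : J → ℤ)
    (hp : ∀ s, Rch t D (Qb x0 x1 y0 y1) (ec x0 x1 y0 y1 (p s)))
    (hne : ∀ s s', s ≠ s' →
      ¬ CConn t (D \ Qb x0 x1 y0 y1) (ec x0 x1 y0 y1 (p s)) (ec x0 x1 y0 y1 (p s'))) :
    ∃ T : Finset ℤ, T.card = Fintype.card J ∧ ∀ a ∈ T, 0 ≤ a ∧ a < per x0 x1 y0 y1 ∧
      Esc t D (Qb x0 x1 y0 y1) (es x0 x1 y0 y1 a) := by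
  classical
  set Q := Qb x0 x1 y0 y1 with hQ
  set N := per x0 x1 y0 y1 with hNd
  have hNp : 0 < N := per_pos hx hy
  have key : ∀ i j : ℤ, i ≤ j → j < i + N → Rch t D Q (ec x0 x1 y0 y1 i) →
      Rch t D Q (ec x0 x1 y0 y1 j) → (∀ m, i ≤ m → m < j → ¬ Esc t D Q (es x0 x1 y0 y1 m)) →
      CConn t (D \ Q) (ec x0 x1 y0 y1 i) (ec x0 x1 y0 y1 j) := fun i j h1 h2 h3 h4 h5 =>
    conn_of_no_esc hx hy hf hD hQD (j - i).toNat i j h1 (by
      rw [Int.toNat_of_nonneg (by omega)]) h2 h3 h4 h5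
  -- there is an escaping side
  obtain ⟨a0, ha0⟩ : ∃ a0, Esc t D Q (es x0 x1 y0 y1 a0) := by
    by_contra hc
    push Not at hc
    obtain ⟨s, s', hss⟩ := Fintype.exists_pair_of_one_lt_card (α := J) (by omega)
    obtain ⟨m, h1, h2, h3⟩ := win_exists hNp (p s) (p s')
    apply hne s s' hss
    rw [← ec_congr h3]
    refine key _ _ h1 h2 (hp s) ?_ (fun m _ _ => hc m)
    rw [ec_congr h3]
    exact hp s'
  -- the next escaping side
  have hnext : ∀ q : ℤ, ∃ a, q ≤ a ∧ a < q + N ∧ Esc t D Q (es x0 x1 y0 y1 a) ∧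
      ∀ m, q ≤ m → m < a → ¬ Esc t D Q (es x0 x1 y0 y1 m) := by
    intro q
    obtain ⟨a, h1, h2, h3⟩ := win_exists hNp q a0
    have hex : ∃ s : ℕ, Esc t D Q (es x0 x1 y0 y1 (q + s)) := by
      refine ⟨(a - q).toNat, ?_⟩
      rw [Int.toNat_of_nonneg (by omega), show q + (a - q) = a by ring, es_congr h3]
      exact ha0
    refine ⟨q + Nat.find hex, by omega, ?_, Nat.find_spec hex, fun m hm1 hm2 => ?_⟩
    · have : Nat.find hex ≤ (a - q).toNat := Nat.find_min' hex (by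
        rw [Int.toNat_of_nonneg (by omega), show q + (a - q) = a by ring, es_congr h3]
        exact ha0)
      omega
    · have := Nat.find_min hex (m := (m - q).toNat) (by omega)
      rwa [Int.toNat_of_nonneg (by omega), show q + (m - q) = m by ring] at this
  choose φ hφ1 hφ2 hφ3 hφ4 using hnext
  have hinj : Function.Injective (fun s => φ (p s) % N) := by
    intro s s' h
    simp only at h
    by_contra hss
    obtain ⟨c, hc⟩ : ∃ c, φ (p s') = φ (p s) + c * N := by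
      have := Int.emod_add_mul_ediv (φ (p s)) N
      have := Int.emod_add_mul_ediv (φ (p s')) N
      refine ⟨φ (p s') / N - φ (p s) / N, ?_⟩
      linarith
    have hper : ∀ m, es x0 x1 y0 y1 m = es x0 x1 y0 y1 (m + c * N) := fun m => es_congr (by
      rw [← hNd, Int.add_mul_emod_self_right])
    have hper' : ∀ m, ec x0 x1 y0 y1 m = ec x0 x1 y0 y1 (m + c * N) := fun m => ec_congr (by
      rw [← hNd, Int.add_mul_emod_self_right])
    have h1 := hφ1 (p s)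
    have h2 := hφ2 (p s)
    have h1' := hφ1 (p s')
    have h2' := hφ2 (p s')
    have e0 : ec x0 x1 y0 y1 (p s') = ec x0 x1 y0 y1 (p s' - c * N) := by
      rw [hper' (p s' - c * N), sub_add_cancel]
    rcases le_total (p s) (p s' - c * N) with h5 | h5
    · apply hne s s' hss
      rw [e0]
      refine key _ _ h5 (by rw [hc] at h1'; linarith) (hp s) (by rw [← e0]; exact hp s')
        (fun m hm1 hm2 => hφ4 (p s) m hm1 (by rw [hc] at h1'; linarith))
    · apply hne s' s (Ne.symm hss)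
      rw [e0]
      refine key _ _ h5 (by rw [hc] at h2'; linarith) (by rw [← e0]; exact hp s') (hp s)
        (fun m hm1 hm2 => ?_)
      rw [hper m]
      exact hφ4 (p s') _ (by linarith) (by rw [hc]; linarith)
  refine ⟨univ.image (fun s => φ (p s) % N), ?_, ?_⟩
  · rw [card_image_of_injective _ hinj, card_univ]
  · intro a ha
    rw [mem_image] at ha
    obtain ⟨s, _, rfl⟩ := ha
    refine ⟨Int.emod_nonneg _ hNp.ne', Int.emod_lt_of_pos _ hNp, ?_⟩
    rw [es_congr (show φ (p s) % N % per x0 x1 y0 y1 = φ (p s) % per x0 x1 y0 y1 by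
      rw [← hNd, Int.emod_emod])]
    exact hφ3 (p s)

/-- the escaping sides in clockwise order have alternating parity -/
theorem esc_alternate (hx : x0 < x1) (hy : y0 < y1) (hf : D.Finite) (hD : Out D)
    (hQD : Qb x0 x1 y0 y1 ⊆ D) {a b : ℤ} (h0 : 0 ≤ a) (hab : a < b)
    (hb : b < per x0 x1 y0 y1) (ha : Esc t D (Qb x0 x1 y0 y1) (es x0 x1 y0 y1 a))
    (hb' : Esc t D (Qb x0 x1 y0 y1) (es x0 x1 y0 y1 b))
    (hno : ∀ m, a < m → m < b → ¬ Esc t D (Qb x0 x1 y0 y1) (es x0 x1 y0 y1 m)) :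
    (a + b) % 2 = 1 := by
  have h1 := ha.reach.2
  have h2 := hb'.reach.1
  rw [rc_es hx hy] at h1
  rw [lc_es hx hy] at h2
  have h3 := conn_of_no_esc hx hy hf hD hQD (b - (a + 1)).toNat (a + 1) b (by omega) (by
      rw [Int.toNat_of_nonneg (by omega)]) (by omega) h1 h2 (fun m hm1 hm2 => hno m (by omega) hm2)
  have h4 := cconn_par h3
  unfold ec at h4
  rw [Int.emod_eq_of_lt (by omega) (by omega : a + 1 < per x0 x1 y0 y1),
    Int.emod_eq_of_lt (by omega) hb] at h4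
  rw [oc_par hx hy (by omega) (by omega), oc_par hx hy (by omega) hb] at h4
  omega

/-- **escaping sides of alternating parity** -/
theorem ring_exits (hx : x0 < x1) (hy : y0 < y1) (hf : D.Finite) (hD : Out D)
    (hQD : Qb x0 x1 y0 y1 ⊆ D) {J : Type} [Fintype J] (hJ : 2 ≤ Fintype.card J) (p : J → ℤ)
    (hp : ∀ s, Rch t D (Qb x0 x1 y0 y1) (ec x0 x1 y0 y1 (p s)))
    (hne : ∀ s s', s ≠ s' →
      ¬ CConn t (D \ Qb x0 x1 y0 y1) (ec x0 x1 y0 y1 (p s)) (ec x0 x1 y0 y1 (p s'))) :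
    ∃ ι : ℕ → ℤ, (∀ j < Fintype.card J, 0 ≤ ι j ∧ ι j < per x0 x1 y0 y1 ∧
        Esc t D (Qb x0 x1 y0 y1) (os x0 x1 y0 y1 (ι j))) ∧
      ∀ j, j + 1 < Fintype.card J → ι j < ι (j + 1) ∧ (ι j + ι (j + 1)) % 2 = 1 := by
  classical
  obtain ⟨T, hT, hTe⟩ := card_esc hx hy hf hD hQD hJ p hp hne
  set X := (Finset.Ico 0 (per x0 x1 y0 y1)).filter
    (fun a => Esc t D (Qb x0 x1 y0 y1) (es x0 x1 y0 y1 a)) with hX
  have hTX : T ⊆ X := by
    intro a ha
    obtain ⟨h1, h2, h3⟩ := hTe a ha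
    rw [hX, mem_filter, mem_Ico]
    exact ⟨⟨h1, h2⟩, h3⟩
  have hcard : Fintype.card J ≤ X.card := hT ▸ card_le_card hTX
  set f := X.orderEmbOfFin rfl with hf'
  have hfm : ∀ j, f j ∈ X := fun j => X.orderEmbOfFin_mem rfl j
  have hsurj : ∀ a ∈ X, ∃ j, f j = a := by
    intro a ha
    have : a ∈ Set.range f := by
      rw [hf', Finset.range_orderEmbOfFin]
      exact ha
    exact this
  have hmem : ∀ a ∈ X, 0 ≤ a ∧ a < per x0 x1 y0 y1 ∧
      Esc t D (Qb x0 x1 y0 y1) (es x0 x1 y0 y1 a) := by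
    intro a ha
    rw [hX, mem_filter, mem_Ico] at ha
    exact ⟨ha.1.1, ha.1.2, ha.2⟩
  refine ⟨fun j => if h : j < X.card then f ⟨j, h⟩ else 0, fun j hj => ?_, fun j hj => ?_⟩
  · simp only
    rw [dif_pos (by omega)]
    obtain ⟨h1, h2, h3⟩ := hmem _ (hfm ⟨j, by omega⟩)
    refine ⟨h1, h2, ?_⟩
    unfold es at h3
    rwa [Int.emod_eq_of_lt h1 h2] at h3
  · simp only
    rw [dif_pos (by omega), dif_pos (by omega)]
    obtain ⟨h1, h2, h3⟩ := hmem _ (hfm ⟨j, by omega⟩)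
    obtain ⟨h1', h2', h3'⟩ := hmem _ (hfm ⟨j + 1, by omega⟩)
    have hlt : f ⟨j, by omega⟩ < f ⟨j + 1, by omega⟩ := f.strictMono (by
      rw [Fin.lt_def]; exact Nat.lt_succ_self j)
    refine ⟨hlt, esc_alternate hx hy hf hD hQD h1 hlt h2' h3 h3' (fun m hm1 hm2 he => ?_)⟩
    have hmX : m ∈ X := by
      rw [hX, mem_filter, mem_Ico]
      exact ⟨⟨by omega, by omega⟩, he⟩
    obtain ⟨i, rfl⟩ := hsurj m hmX
    have g1 := f.lt_iff_lt.1 hm1
    have g2 := f.lt_iff_lt.1 hm2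
    rw [Fin.lt_def] at g1 g2
    simp only at g1 g2
    omega

/-- the last visit of the box -/
lemma last_visit {B0 : Set (ℤ × ℤ)} {u v : ℤ × ℤ} (hu : u ∈ Cb x0 x1 y0 y1)
    (h : CConn t (D \ B0) u v) : ∃ u', u' ∈ Cb x0 x1 y0 y1 ∧ CConn t (D \ B0) u u' ∧
      CConn t (D \ Qb x0 x1 y0 y1) u' v := by
  induction h with
  | refl => exact ⟨u, hu, Relation.ReflTransGen.refl, Relation.ReflTransGen.refl⟩
  | @tail b c h1 h2 ih =>
    obtain ⟨u', h3, h4, h5⟩ := ih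
    obtain ⟨p, hp, hj⟩ := id h2
    by_cases hpQ : p ∈ Qb x0 x1 y0 y1
    · refine ⟨c, ?_, h1.tail h2, Relation.ReflTransGen.refl⟩
      obtain ⟨e, _, h6, _⟩ := hj
      rw [h6]
      exact cor_Cb hpQ _
    · exact ⟨u', h3, h4, h5.tail ⟨p, ⟨hp.1, hpQ⟩, hj⟩⟩

lemma conn_first {Q : Set (ℤ × ℤ)} (hQD : Q ⊆ D) {u v : ℤ × ℤ} (hv : OnBd D v)
    (h : CConn t (D \ Q) u v) : ∃ p, p ∉ Q ∧ ∃ c, u = cor p c := by
  rcases Relation.ReflTransGen.cases_head h with h1 | ⟨w, h1, _⟩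
  · rw [h1]
    obtain ⟨p, hp, c, hc⟩ := hv
    exact ⟨p, fun h => hp (hQD h), c, hc⟩
  · obtain ⟨p, hp, c, h2, _⟩ := h1
    exact ⟨p, hp.2, c, h2⟩

/-- **arms give escaping sides** -/
theorem ring_exits_of_arms (hx : x0 < x1) (hy : y0 < y1) (hf : D.Finite) (hD : Out D)
    (hQD : Qb x0 x1 y0 y1 ⊆ D) {B0 : Set (ℤ × ℤ)} (hB0 : B0 ⊆ Qb x0 x1 y0 y1)
    {J : Type} [Fintype J] (hJ : 2 ≤ Fintype.card J) (u : J → ℤ × ℤ)
    (hu : ∀ s, u s ∈ Cb x0 x1 y0 y1) (hr : ∀ s, ∃ v, OnBd D v ∧ CConn t (D \ B0) (u s) v)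
    (hne : ∀ s s', s ≠ s' → ¬ CConn t (D \ B0) (u s) (u s')) :
    ∃ ι : ℕ → ℤ, (∀ j < Fintype.card J, 0 ≤ ι j ∧ ι j < per x0 x1 y0 y1 ∧
        Esc t D (Qb x0 x1 y0 y1) (os x0 x1 y0 y1 (ι j))) ∧
      ∀ j, j + 1 < Fintype.card J → ι j < ι (j + 1) ∧ (ι j + ι (j + 1)) % 2 = 1 := by
  have h1 : ∀ s, ∃ p : ℤ, Rch t D (Qb x0 x1 y0 y1) (ec x0 x1 y0 y1 p) ∧
      CConn t (D \ B0) (u s) (ec x0 x1 y0 y1 p) := by
    intro s
    obtain ⟨v, hv, hc⟩ := hr s
    obtain ⟨u', h2, h3, h4⟩ := last_visit (hu s) hc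
    obtain ⟨i, h5, h6, h7⟩ := exists_oc hx hy h2 (conn_first hQD hv h4)
    have h8 : u' = ec x0 x1 y0 y1 i := by
      unfold ec
      rw [Int.emod_eq_of_lt h5 h6]
      exact h7
    rw [h8] at h3 h4
    exact ⟨i, ⟨v, hv, h4⟩, h3⟩
  choose p hp1 hp2 using h1
  refine ring_exits hx hy hf hD hQD hJ p hp1 (fun s s' hss hc => hne s s' hss ?_)
  refine ((hp2 s).trans (hc.mono ?_)).trans (hp2 s').symm
  exact Set.sdiff_subset_sdiff_right hB0

end

/-- **the `2k`-arm event gives `2k` escaping sides of alternating parity at every large box** -/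
theorem alt_exits {k : ℕ} (hk : 0 < k) {r n x0 x1 y0 y1 : ℤ} (hr : 0 ≤ r)
    (h1 : x0 ≤ -(2 * r + 1)) (h2 : 2 * r + 1 ≤ x1) (h3 : y0 ≤ -(2 * r + 1)) (h4 : 2 * r + 1 ≤ y1)
    (hQD : Qb x0 x1 y0 y1 ⊆ tbox (-n) n (-n) n) {ω : Finset (Sym2 (ℤ × ℤ))}
    (h : Alt k r n ω) :
    ∃ ι : ℕ → ℤ, (∀ j < 2 * k, 0 ≤ ι j ∧ ι j < per x0 x1 y0 y1 ∧
        Esc (tcOf ω) (tbox (-n) n (-n) n) (Qb x0 x1 y0 y1) (os x0 x1 y0 y1 (ι j))) ∧
      ∀ j, j + 1 < 2 * k → ι j < ι (j + 1) ∧ (ι j + ι (j + 1)) % 2 = 1 := by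
  obtain ⟨⟨x, hx1, hx2⟩, ⟨f, hf1, hf2⟩⟩ := h
  have hB0 : tbox (-r) r (-r) r ⊆ Qb x0 x1 y0 y1 := by
    intro p hp
    rw [mem_tbox] at hp
    rw [mem_Qb]
    omega
  have hcard : Fintype.card (Fin k ⊕ Fin k) = 2 * k := by
    rw [Fintype.card_sum, Fintype.card_fin]; ring
  have key := ring_exits_of_arms (t := tcOf ω) (D := tbox (-n) n (-n) n) (x0 := x0) (x1 := x1)
    (y0 := y0) (y1 := y1) (by omega) (by omega) (tbox_finite _ _ _ _) (tbox_out _ _ _ _) hQD hB0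
    (J := Fin k ⊕ Fin k) (by rw [hcard]; omega) (Sum.elim (fun i => st (x i)) (fun i => fc (f i)))
    (by
      rintro (i | i)
      · obtain ⟨⟨a1, a2, a3, a4, _⟩, _⟩ := hx1 i
        unfold Cb st
        simp only [Sum.elim_inl, Set.mem_ofPred_eq]
        omega
      · obtain ⟨⟨a1, a2, a3, a4, _⟩, _⟩ := hf1 i
        unfold Cb fc
        simp only [Sum.elim_inr, Set.mem_ofPred_eq]
        omega)
    (by
      rintro (i | i)
      · obtain ⟨_, v, hv, hj⟩ := hx1 i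
        refine ⟨st v, ?_, ?_⟩
        · rw [onBd_st]
          unfold OnSq at hv
          omega
        · rw [← tiles_ann]
          simp only [Sum.elim_inl]
          rw [cconn_st_iff]
          exact ⟨v, rfl, vann_iff.2 hj⟩
      · obtain ⟨_, v, hv, hj⟩ := hf1 i
        refine ⟨fc v, ?_, ?_⟩
        · rw [onBd_fc]
          unfold OnFr at hv
          omega
        · rw [← tiles_ann]
          simp only [Sum.elim_inr]
          rw [cconn_fc_iff]
          exact ⟨v, rfl, fann_iff.2 hj⟩)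
    (by
      rintro (i | i) (j | j) hij hc
      · rw [← tiles_ann] at hc
        simp only [Sum.elim_inl] at hc
        rw [cconn_st_iff] at hc
        obtain ⟨v, hv, hj⟩ := hc
        rw [← st_inj hv] at hj
        exact hx2 i j (fun h => hij (by rw [h])) (vann_iff.1 hj)
      · have := cconn_par hc
        unfold st fc at this
        simp only [Sum.elim_inl, Sum.elim_inr] at this
        omega
      · have := cconn_par hc
        unfold st fc at this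
        simp only [Sum.elim_inl, Sum.elim_inr] at this
        omega
      · rw [← tiles_ann] at hc
        simp only [Sum.elim_inr] at hc
        rw [cconn_fc_iff] at hc
        obtain ⟨v, hv, hj⟩ := hc
        rw [← fc_inj hv] at hj
        exact hf2 i j (fun h => hij (by rw [h])) (fann_iff.1 hj))
  rw [hcard] at key
  exact key

end H81Tile
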