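import Pool.Agent.Helper81.Tile.Even
import Pool.Agent.Helper70.EA.Final

/-!
LOWER BOUNDS for the polychromatic `2k`-arm probabilities of bond percolation on the square lattice.
-/

namespace H81Tile
open Finset IPC H47Perc
open IP (St)
open Pool.Agent.Helper69.RSW (P_mono)

lemma iter_congr {t t' : TC} {D : Set (ℤ × ℤ)} (h : ∀ p ∈ D, t p = t' p) {d : DS} {n : ℕ}
    (hD : ∀ i < n, ((nxt t)^[i] d).1 ∈ D) : ∀ i ≤ n, (nxt t')^[i] d = (nxt t)^[i] d := by
  intro i
  induction i with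
  | zero => intro _; rfl
  | succ i ih =>
    intro hi
    rw [Function.iterate_succ_apply', Function.iterate_succ_apply', ih (by omega)]
    have h1 := h _ (hD i (by omega))
    generalize (nxt t)^[i] d = e at *
    unfold nxt
    rw [h1]

lemma CLeaves.congr {t t' : TC} {D : Set (ℤ × ℤ)} {K : Set DS} (h : ∀ p ∈ D, t p = t' p) {d : DS}
    (hd : d.1 ∈ D) (hl : CLeaves t D K d) : CLeaves t' D K d := by
  obtain ⟨n, _, h1, h2, h3⟩ := hl.first hd
  have h4 := iter_congr h h2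
  refine ⟨n, ?_, fun j h0 hj => ?_⟩
  · rw [h4 n le_rfl]; exact h1
  · rw [h4 j hj.le]; exact h3 j h0 hj

lemma AllLeave.congr {k n : ℕ} (hk : k ≤ 2 * n) {t t' : TC}
    (h : ∀ p ∈ tbox (-(n : ℤ)) n (-n) n, t p = t' p) (hl : AllLeave k n t) : AllLeave k n t' :=
  fun j hj => (hl j hj).congr h ((tbox_diam (n := n) hk).cut _ (en_cut hj))

lemma labT_eq {k u : ℕ} (h4 : 4 ≤ u) : labT k u = shn k k u := by
  unfold labT shn
  by_cases h : (u - 4) / 2 < k
  · rw [if_pos h, if_pos (by omega)]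
  · rw [if_neg h, if_neg (by omega)]

lemma labB_eq {k u : ℕ} (h4 : 4 ≤ u) : labB k u = shn 0 k u := by
  unfold labB shn
  rw [if_neg (by omega)]

lemma tbox_narrow {L n k : ℕ} (hk : k ≤ 2 * n) (hL : 4 * n < L) :
    Narrow L (2 * n) k (tbox (-(n : ℤ)) n (-n) n) := by
  refine ⟨tbox_finite _ _ _ _, fun p hp => ?_, fun x j h hj hx => ?_⟩
  · rw [mem_tbox] at hp
    unfold rows
    simp only [Set.mem_ofPred_eq]
    push_cast
    omega
  · rw [mem_tbox] at h
    simp only at h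
    have hL' : (0 : ℤ) < L := by omega
    have hr : -(2 * (n : ℤ)) ≤ x ∧ x < 2 * n := by omega
    rcases le_or_gt 0 x with h0 | h0
    · rw [Int.emod_eq_of_lt h0 (by omega)] at hx
      exact ⟨h0, hx⟩
    · exfalso
      have : x % (L : ℤ) = x + L := by
        rw [← Int.add_emod_right]
        exact Int.emod_eq_of_lt (by omega) (by omega)
      omega

/-- if the algebraic arm event holds, all interfaces leave the box -/
theorem allLeave_of_arm {L n k : ℕ} (hk : k ≤ 2 * n) (hL : 4 * n < L) {A B : Finset (ℕ × ℕ)}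
    {σ τ : St} (hσ : σ ∈ W L) (hτ : τ ∈ W L)
    (h : arm k k (mact L (bt A) (2 * n) σ) (mact L (bt B) (2 * n) τ)) :
    AllLeave k n (cfg L A B) := by
  intro j hj
  have key := fun (x : ℤ) (hx0 : 0 ≤ x) (hxk : x < k) (d : DS) (hd : d = up x 0 ∨ d = dn x 0) =>
    cleaves_of_arm (L := L) (m := 2 * n) (k := k) (by omega) (by omega) (cfg_per L A B)
      (b := bt A) (b' := bt B) (fun _ _ i hi => cfg_up hi) (fun _ _ i hi => cfg_dn hi) hσ hτ
      (IPC.sh k k (mact L (bt A) (2 * n) σ) ⊔ IPC.sh 0 k (mact L (bt B) (2 * n) τ))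
      (fun u v h1 h2 h3 => by
        rw [labT_eq h1, labT_eq h2]
        exact IPC.sup_left ((sh_shn k k _ u v).2 h3))
      (fun u v h1 h2 h3 => by
        rw [labB_eq h1, labB_eq h2]
        exact IPC.sup_right ((sh_shn 0 k _ u v).2 h3))
      (fun i j hij hj => h i j hij (by omega)) (tbox_narrow hk hL) hx0 hxk hd
  have hcut : Cut k ⊆ Kut L k := by
    rintro d ⟨x, h0, h1, h2⟩
    exact ⟨x, by rw [Int.emod_eq_of_lt h0 (by omega)]; exact h1, h2⟩
  obtain ⟨x, h0, h1, h2⟩ := en_cases hj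
  obtain ⟨n1, h3, h4⟩ := key x h0 h1 (en k j) (by
    rcases h2 with ⟨_, _, h⟩ | ⟨_, _, h⟩
    · exact Or.inl h
    · exact Or.inr h)
  exact ⟨n1, h3, fun i hi hi' hc => h4 i hi hi' (hcut hc)⟩

/-- **the algebraic probability is at most the `2k`-arm probability** -/
theorem arf_le_alt {L n r k : ℕ} (hkr : k ≤ 2 * r) (hrn : r ≤ n) (hL : 4 * n < L) :
    bil (arf k k) (IPC.P L (fun _ => 0)) (IPC.P L (fun _ => 0)) ≤
      Pool.Agent.Helper69.RSW.P (edgesIn (bx n)) (Alt k r n) := by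
  refine (arf_le_box hL (Q := AllLeave k n) (fun t t' h => AllLeave.congr (by omega) h)
    (fun A B σ hσ τ hτ h => allLeave_of_arm (by omega) hL hσ hτ h)).trans ?_
  exact P_mono fun ω _ h => alt_of_leave hkr hrn h

/-- lower bound for all even numbers of arms -/
theorem alt_lower (k : ℕ) (hk : 0 < k) : ∃ c : ℝ, 0 < c ∧ ∀ r n : ℕ, k ≤ 2 * r → r ≤ n →
    c * (n : ℝ) ^ (-((4 * (k : ℝ) ^ 2 - 1) / 12)) ≤
      Pool.Agent.Helper69.RSW.P (edgesIn (bx n)) (Alt k r n) := by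
  obtain ⟨c, C, hc, _, h⟩ := EA.pk_bounds k hk
  refine ⟨c * (5 : ℝ) ^ (-((4 * (k : ℝ) ^ 2 - 1) / 12)), by positivity, fun r n hkr hrn => ?_⟩
  have h1 := (h (4 * n + 1) (by omega)).1
  have h2 := arf_le_alt (L := 4 * n + 1) hkr hrn (by omega)
  refine le_trans ?_ (h1.trans h2)
  rw [mul_assoc]
  refine mul_le_mul_of_nonneg_left ?_ hc.le
  rw [← Real.mul_rpow (by norm_num) (by positivity)]
  have hn : 0 < n := by omega
  have hk1 : (1 : ℝ) ≤ (k : ℝ) := by exact_mod_cast hk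
  refine Real.rpow_le_rpow_of_nonpos (by positivity) ?_ (by nlinarith)
  push_cast
  have : (1 : ℝ) ≤ (n : ℝ) := by exact_mod_cast hn
  linarith

/-- the interface through the side between the vertex `(0,0)` and the face `(0,-1)` -/
theorem two_of_arm {n : ℕ} {ω : Finset (Sym2 (ℤ × ℤ))} (hω : ω ⊆ edgesIn (bx n))
    (h : AllLeave 1 n (tcOf ω)) :
    VArm (-n) n (-n) n ω (0, 0) ∧ FArm (-n) n (-n) n ω (0, -1) := by
  have h0 := h 0 (by omega)
  obtain ⟨m, h1, _⟩ := h0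
  have hl : Leaves (tcOf ω) (tbox (-(n : ℤ)) n (-n) n) (up 0 0) := ⟨m, h1⟩
  refine (leaves_iff_arms (u := (0, 0)) (f := (0, -1)) hω (Or.inl ⟨?_, ?_⟩)).1 hl
  · rw [lc_up]; rfl
  · rw [rc_up]; rfl

/-- lower bound for the two-arm probability at a vertex and an adjacent face -/
theorem two_lower {n : ℕ} (hn : 0 < n) : bil (arf 1 1) (IPC.P (4 * n + 1) (fun _ => 0))
    (IPC.P (4 * n + 1) (fun _ => 0)) ≤ Pool.Agent.Helper69.RSW.P (edgesIn (bx n)) (fun ω =>
      VArm (-n) n (-n) n ω (0, 0) ∧ FArm (-n) n (-n) n ω (0, -1)) := by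
  refine (arf_le_box (n := n) (k := 1) (L := 4 * n + 1) (by omega) (Q := AllLeave 1 n)
    (fun t t' h => AllLeave.congr (by omega) h)
    (fun A B σ hσ τ hτ h => allLeave_of_arm (by omega) (by omega) hσ hτ h)).trans ?_
  exact P_mono fun ω hω h => two_of_arm hω h

end H81Tile
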