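import Pool.Agent.Helper81.Tile.SlitTA
import Pool.Agent.Helper81.Tile.EvenLower
import Pool.Agent.Helper8.CB.Far

/-!
The slit event has probability of order `n ^ (-(4k²-1)/12)`, and the probability of `2k` arms in the
annulus between radius `r` and radius `n` is at least `c (r/n) ^ ((4k²-1)/12)`, with `c` depending
on `k` only.
-/

namespace H81Tile
open Finset IPC H47Perc
open IP (St)
open Pool.Agent.Helper69.RSW (P_mono P_nonneg P_restrict P_indep Dep)

/-- two-sided bounds for the slit event -/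
theorem leave_bounds (k : ℕ) (hk : 0 < k) : ∃ c C : ℝ, 0 < c ∧ 0 < C ∧ ∀ n : ℕ, k ≤ 2 * n →
    c * (n : ℝ) ^ (-((4 * (k : ℝ) ^ 2 - 1) / 12)) ≤
      Pool.Agent.Helper69.RSW.P (edgesIn (bx n)) (fun ω => AllLeave k n (tcOf ω)) ∧
    Pool.Agent.Helper69.RSW.P (edgesIn (bx n)) (fun ω => AllLeave k n (tcOf ω)) ≤
      C * (n : ℝ) ^ (-((4 * (k : ℝ) ^ 2 - 1) / 12)) := by
  obtain ⟨c, C, hc, hC, h⟩ := EA.pk_bounds k hk
  have hk1 : (1 : ℝ) ≤ (k : ℝ) := by exact_mod_cast hk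
  have hα : 0 < (4 * (k : ℝ) ^ 2 - 1) / 12 := by nlinarith
  obtain ⟨C', hC', h'⟩ := CB.arm_upper_of hk hα hC.le (fun L hL => (h L hL).2)
  refine ⟨c * (5 : ℝ) ^ (-((4 * (k : ℝ) ^ 2 - 1) / 12)), C', by positivity, hC',
    fun n hkn => ⟨?_, ?_⟩⟩
  · have h1 := (h (4 * n + 1) (by omega)).1
    have h2 := arf_le_box (L := 4 * n + 1) (n := n) (k := k) (by omega) (Q := AllLeave k n)
      (fun t t' h => AllLeave.congr (by omega) h)
      (fun A B σ hσ τ hτ h => allLeave_of_arm (by omega) (by omega) hσ hτ h)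
    refine le_trans ?_ (h1.trans h2)
    rw [mul_assoc]
    refine mul_le_mul_of_nonneg_left ?_ hc.le
    rw [← Real.mul_rpow (by norm_num) (by positivity)]
    have hn : 0 < n := by omega
    refine Real.rpow_le_rpow_of_nonpos (by positivity) ?_ (by linarith)
    push_cast
    have : (1 : ℝ) ≤ (n : ℝ) := by exact_mod_cast hn
    linarith
  · have hn : 0 < n := by omega
    have hn1 : (0 : ℝ) < (n : ℝ) := by exact_mod_cast hn
    refine (leave_edges_le_fA hkn).trans ((h' (2 * n) (by omega)).trans ?_)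
    refine mul_le_mul_of_nonneg_left ?_ hC'.le
    refine Real.rpow_le_rpow_of_nonpos hn1 ?_ (by linarith)
    push_cast
    linarith

lemma allLeave_mono {k r n : ℕ} (hkr : k ≤ 2 * r) (hrn : r ≤ n) {t : TC} (h : AllLeave k n t) :
    AllLeave k r t := by
  classical
  intro j hj
  have hd := (tbox_diam (n := r) hkr).cut _ (en_cut hj)
  have hsub : tbox (-(r : ℤ)) r (-r) r ⊆ tbox (-(n : ℤ)) n (-n) n := by
    intro p hp
    rw [mem_tbox] at hp ⊢
    omega
  obtain ⟨m, hm0, h1, h2, h3⟩ := (h j hj).first (hsub hd)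
  have hex : ∃ i, ((nxt t)^[i] (en k j)).1 ∉ tbox (-(r : ℤ)) r (-r) r :=
    ⟨m, fun hc => h1 (hsub hc)⟩
  have hle : Nat.find hex ≤ m := Nat.find_min' hex (fun hc => h1 (hsub hc))
  exact ⟨Nat.find hex, Nat.find_spec hex, fun i h0 hi => h3 i h0 (by omega)⟩

lemma alt_dep (k : ℕ) (r n : ℤ) : Dep (Ann r n) (Alt k r n) := by
  intro S
  have e1 : S ∩ Ann r n ∩ Ann r n = S ∩ Ann r n := by
    rw [inter_assoc, inter_self]
  have e2 : du (Ann r n) (S ∩ Ann r n) = du (Ann r n) S := by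
    unfold du
    congr 1
    ext e
    simp only [mem_sdiff, mem_inter]
    tauto
  unfold Alt
  rw [e1, e2]

lemma leave_dep {k r : ℕ} (hk : k ≤ 2 * r) :
    Dep (edgesIn (bx r)) (fun ω => AllLeave k r (tcOf ω)) := by
  intro S
  have hh : ∀ p ∈ tbox (-(r : ℤ)) r (-r) r, tcOf (S : Set (Sym2 (ℤ × ℤ))) p =
      tcOf ((S ∩ edgesIn (bx r) : Finset (Sym2 (ℤ × ℤ))) : Set (Sym2 (ℤ × ℤ))) p := by
    intro p hp
    have hpe : te p ∈ edgesIn (bx r) := by
      have : p ∈ tilesOf (edgesIn (box (-(r : ℤ)) r (-r) r) : Set (Sym2 (ℤ × ℤ))) := hp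
      exact Finset.mem_coe.1 this
    have h1 : te p ∈ (S : Set (Sym2 (ℤ × ℤ))) ↔
        te p ∈ ((S ∩ edgesIn (bx r) : Finset (Sym2 (ℤ × ℤ))) : Set (Sym2 (ℤ × ℤ))) := by
      rw [Finset.mem_coe, Finset.mem_coe, mem_inter]
      tauto
    unfold tcOf
    by_cases h4 : (p.1 + p.2) % 2 = 0
    · rw [if_pos h4, if_pos h4]
      exact decide_eq_decide.2 h1
    · rw [if_neg h4, if_neg h4]
      exact decide_eq_decide.2 (not_congr h1)
  exact ⟨fun h => h.congr hk hh, fun h => h.congr hk (fun p hp => (hh p hp).symm)⟩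

lemma edges_mono {r n : ℕ} (hrn : r ≤ n) : edgesIn (bx r) ⊆ edgesIn (bx n) := by
  intro e he
  rcases edgesIn_cases he with ⟨x, y, rfl⟩ | ⟨x, y, rfl⟩
  · unfold bx at he ⊢
    rw [hE_mem, mem_box, mem_box] at he ⊢
    simp only at he ⊢
    omega
  · unfold bx at he ⊢
    rw [vE_mem, mem_box, mem_box] at he ⊢
    simp only at he ⊢
    omega

/-- the slit event of the large box is contained in the intersection of two independent events -/
theorem leave_le_mul {k r n : ℕ} (hkr : k ≤ 2 * r) (hrn : r ≤ n) :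
    Pool.Agent.Helper69.RSW.P (edgesIn (bx n)) (fun ω => AllLeave k n (tcOf ω)) ≤
      Pool.Agent.Helper69.RSW.P (edgesIn (bx r)) (fun ω => AllLeave k r (tcOf ω)) *
        Pool.Agent.Helper69.RSW.P (edgesIn (bx n)) (Alt k r n) := by
  classical
  have h1 : Pool.Agent.Helper69.RSW.P (edgesIn (bx n)) (fun ω => AllLeave k n (tcOf ω)) ≤
      Pool.Agent.Helper69.RSW.P (edgesIn (bx n)) (fun ω => AllLeave k r (tcOf ω) ∧ Alt k r n ω) :=
    P_mono fun ω _ h => ⟨allLeave_mono hkr hrn h, alt_of_leave hkr hrn h⟩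
  refine h1.trans (le_of_eq ?_)
  rw [P_indep (edges_mono hrn) (G := edgesIn (bx r)) (H := Ann r n)
    (by unfold Ann; exact sdiff_subset) (by unfold Ann; exact disjoint_sdiff) (leave_dep hkr)
    (alt_dep k r n)]
  rw [P_restrict (edges_mono hrn) (leave_dep hkr)]

/-- **lower bound at all scales** -/
theorem alt_lower_scale (k : ℕ) (hk : 0 < k) : ∃ c : ℝ, 0 < c ∧ ∀ r n : ℕ, k ≤ 2 * r → r ≤ n →
    c * ((r : ℝ) / n) ^ ((4 * (k : ℝ) ^ 2 - 1) / 12) ≤
      Pool.Agent.Helper69.RSW.P (edgesIn (bx n)) (Alt k r n) := by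
  obtain ⟨c, C, hc, hC, h⟩ := leave_bounds k hk
  refine ⟨c / C, div_pos hc hC, fun r n hkr hrn => ?_⟩
  have hr : (0 : ℝ) < r := by exact_mod_cast (show 0 < r by omega)
  have hn : (0 : ℝ) < n := by exact_mod_cast (show 0 < n by omega)
  have h1 := (h n (by omega)).1
  have h2 := (h r hkr).2
  have h3 := leave_le_mul hkr hrn
  set α := (4 * (k : ℝ) ^ 2 - 1) / 12 with hα
  set X := Pool.Agent.Helper69.RSW.P (edgesIn (bx n)) (Alt k r n) with hX
  have hX0 : 0 ≤ X := P_nonneg _ _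
  have h4 : c * (n : ℝ) ^ (-α) ≤ C * (r : ℝ) ^ (-α) * X :=
    h1.trans (h3.trans (mul_le_mul_of_nonneg_right h2 hX0))
  have hrα : 0 < (r : ℝ) ^ α := Real.rpow_pos_of_pos hr _
  have hnα : 0 < (n : ℝ) ^ α := Real.rpow_pos_of_pos hn _
  rw [Real.div_rpow hr.le hn.le, Real.rpow_neg hn.le, Real.rpow_neg hr.le] at *
  rw [div_mul_div_comm, div_le_iff₀ (mul_pos hC hnα)]
  have h5 : c * ((n : ℝ) ^ α)⁻¹ * ((n : ℝ) ^ α * (r : ℝ) ^ α) ≤
      C * ((r : ℝ) ^ α)⁻¹ * X * ((n : ℝ) ^ α * (r : ℝ) ^ α) :=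
    mul_le_mul_of_nonneg_right h4 (by positivity)
  have e1 : c * ((n : ℝ) ^ α)⁻¹ * ((n : ℝ) ^ α * (r : ℝ) ^ α) = c * (r : ℝ) ^ α := by
    field_simp
  have e2 : C * ((r : ℝ) ^ α)⁻¹ * X * ((n : ℝ) ^ α * (r : ℝ) ^ α) = X * (C * (n : ℝ) ^ α) := by
    field_simp
  rw [e1, e2] at h5
  exact h5

end H81Tile
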