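import Pool.Agent.Helper81.Tile.Slit
import Pool.Agent.Helper81.Tile.Dual

/-!
The `2k` arms in the annulus.
-/

namespace H81Tile
open Finset

/-- the mark `b` is allowed at the corner `q` -/
def okm (q : ℤ × ℤ) (b : Bool) : Prop := (0 < q.2 → b = true) ∧ (q.2 < 0 → b = false)

/-- `q` is not an interior corner of the slit -/
def nint (k : ℕ) (q : ℤ × ℤ) : Prop := q.2 = 0 → q.1 ≤ 0 ∨ (k : ℤ) ≤ q.1

lemma okm_cor (p : ℤ × ℤ) (c : Fin 4) : okm (cor p c) (decide (0 ≤ p.2)) := by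
  obtain ⟨x, y⟩ := p
  unfold okm
  constructor
  · intro h
    apply decide_eq_true
    fin_cases c <;> simp [cor, co] at h ⊢ <;> omega
  · intro h
    apply decide_eq_false
    fin_cases c <;> simp [cor, co] at h ⊢ <;> omega

lemma flip_ok {t : TC} {D : Set (ℤ × ℤ)} {k : ℕ} {q : ℤ × ℤ} {b b' : Bool} (h : okm q b)
    (h' : okm q b') (hn : nint k q) : SConn t D k (q, b) (q, b') := by
  rcases lt_trichotomy q.2 0 with h0 | h0 | h0
  · rw [h.2 h0, h'.2 h0]; exact Relation.ReflTransGen.refl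
  · exact Relation.ReflTransGen.single (Or.inr ⟨rfl, h0, hn h0⟩)
  · rw [h.1 h0, h'.1 h0]; exact Relation.ReflTransGen.refl

/-- `B` contains the tiles at the interior corners of the slit -/
def Cov (B : Set (ℤ × ℤ)) (k : ℕ) : Prop := ∀ p c, p ∉ B → nint k (cor p c)

lemma sconn_of_cconn {t : TC} {D B : Set (ℤ × ℤ)} {k : ℕ} (hB : Cov B k) {u v : ℤ × ℤ}
    (h : CConn t (D \ B) u v) {b : Bool} (hb : okm u b) (hu : nint k u) :
    ∀ b', okm v b' → SConn t D k (u, b) (v, b') := by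
  induction h with
  | refl => intro b' hb'; exact flip_ok hb hb' hu
  | @tail v w _ h2 ih =>
    intro b' hb'
    obtain ⟨p, ⟨hpD, hpB⟩, h3⟩ := h2
    obtain ⟨c, e1, e2, h4⟩ := id h3
    have h5 := ih (decide (0 ≤ p.2)) (by rw [e1]; exact okm_cor p c)
    have h6 : SStep t D k (v, decide (0 ≤ p.2)) (w, decide (0 ≤ p.2)) :=
      Or.inl ⟨p, hpD, rfl, rfl, h3⟩
    refine (h5.tail h6).trans ?_
    refine flip_ok ?_ hb' ?_
    · rw [e2]; exact okm_cor p _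
    · rw [e2]; exact hB p _ hpB

lemma sconn_colour {t : TC} {D : Set (ℤ × ℤ)} {k : ℕ} {u v : (ℤ × ℤ) × Bool}
    (h : SConn t D k u v) : (u.1.1 + u.1.2) % 2 = (v.1.1 + v.1.2) % 2 := by
  induction h with
  | refl => rfl
  | tail _ h2 ih =>
    rw [ih]
    rcases h2 with ⟨p, _, _, _, c, h3, h4, _⟩ | ⟨h3, _⟩
    · rw [h3, h4]
      obtain ⟨x, y⟩ := p
      fin_cases c <;> simp [cor, co] <;> omega
    · rw [h3]

lemma okm_mk (d : DS) : okm (lc d) (mk d) := okm_cor d.1 d.2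

/-- the crossing arm at the left side of the interface that starts at the cut side `d` -/
theorem arm_cross {t : TC} {D B : Set (ℤ × ℤ)} {k : ℕ} (hD : Diam D k)
    (hBc : ∀ d ∈ Cut k, d.1 ∈ B) (hBD : B ⊆ D) {d : DS} (hd : d ∈ Cut k)
    (hl : CLeaves t D (Cut k) d) : ∃ (u v : ℤ × ℤ) (b : Bool),
      SConn t D k (lc d, mk d) (u, b) ∧ okm u b ∧ CConn t (D \ B) u v ∧
      (∃ p ∈ B, ∃ c, u = cor p c) ∧ (∃ p, p ∉ B ∧ ∃ c, u = cor p c) ∧
      (∃ p ∈ D, ∃ c, v = cor p c) ∧ (∃ p, p ∉ D ∧ ∃ c, v = cor p c) := by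
  classical
  obtain ⟨n1, hn1, ho1, hin1, hK1⟩ := hl.first (hD.cut _ hd)
  -- the last visit of `B`
  obtain ⟨i0, hi0, hi0B, hmax⟩ : ∃ i0, i0 < n1 ∧ ((nxt t)^[i0] d).1 ∈ B ∧
      ∀ i, i0 < i → i < n1 → ((nxt t)^[i] d).1 ∉ B := by
    have hne : ((range n1).filter (fun i => ((nxt t)^[i] d).1 ∈ B)).Nonempty :=
      ⟨0, by rw [mem_filter, mem_range]; exact ⟨hn1, hBc _ hd⟩⟩
    have hm := Finset.max'_mem _ hne
    rw [mem_filter, mem_range] at hm
    refine ⟨_, hm.1, hm.2, fun i hi hin hiB => ?_⟩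
    have h1 : i ∈ (range n1).filter (fun i => ((nxt t)^[i] d).1 ∈ B) := by
      rw [mem_filter, mem_range]
      exact ⟨hin, hiB⟩
    have := Finset.le_max' _ i h1
    omega
  have hnK : (nxt t)^[n1] d ∉ Cut k := fun h => ho1 (hD.cut _ h)
  set e := (nxt t)^[i0 + 1] d with he
  have hsc := (sconn_iter (t := t) (D := D) (k := k) (d := d) (n := i0 + 1)
    (fun i hi => hin1 i (by omega)) (fun i h0 hi => by
      rcases Nat.lt_or_ge i n1 with h | h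
      · exact hK1 i h0 h
      · have : i = n1 := by omega
        rw [this]; exact hnK)).1
  have hit : ∀ i, (nxt t)^[i] e = (nxt t)^[i + (i0 + 1)] d := by
    intro i
    rw [Function.iterate_add_apply]
  have hcc := (conn_iter t (D \ B) e (n1 - (i0 + 1)) (fun i hi => by
    rw [hit]
    exact ⟨hin1 _ (by omega), hmax _ (by omega) (by omega)⟩)).1
  rw [hit, show n1 - (i0 + 1) + (i0 + 1) = n1 by omega] at hcc
  have hrc : ∀ f : DS, lc f = rc (rev f) := fun f => (rc_rev f).symm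
  refine ⟨lc e, lc ((nxt t)^[n1] d), mk e, hsc, okm_mk e, hcc, ?_, ?_, ?_, ?_⟩
  · refine ⟨((nxt t)^[i0] d).1, hi0B, (rev e).2 + 1, ?_⟩
    rw [hrc]
    have : (rev e).1 = ((nxt t)^[i0] d).1 := by
      rw [he, Function.iterate_succ_apply', rev_nxt]
    unfold rc
    rw [this]
  · refine ⟨e.1, ?_, e.2, rfl⟩
    rcases Nat.lt_or_ge (i0 + 1) n1 with h | h
    · exact hmax _ (by omega) h
    · have : i0 + 1 = n1 := by omega
      rw [he, this]
      exact fun h => ho1 (hBD h)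
  · obtain ⟨n2, rfl⟩ : ∃ n2, n1 = n2 + 1 := ⟨n1 - 1, by omega⟩
    refine ⟨((nxt t)^[n2] d).1, hin1 n2 (by omega), (rev ((nxt t)^[n2 + 1] d)).2 + 1, ?_⟩
    rw [hrc]
    have : (rev ((nxt t)^[n2 + 1] d)).1 = ((nxt t)^[n2] d).1 := by
      rw [Function.iterate_succ_apply', rev_nxt]
    unfold rc
    rw [this]
  · exact ⟨((nxt t)^[n1] d).1, ho1, ((nxt t)^[n1] d).2, rfl⟩

/-- `2k` crossing arms of the annulus `D \ B`, pairwise not connected in the annulus -/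
theorem arms_annulus {t : TC} {D B : Set (ℤ × ℤ)} {k : ℕ} (hD : Diam D k)
    (hBc : ∀ d ∈ Cut k, d.1 ∈ B) (hBD : B ⊆ D) (hB : Cov B k)
    (hl : ∀ j < 2 * k, CLeaves t D (Cut k) (en k j)) :
    ∃ u v : ℕ → ℤ × ℤ, ∀ j < 2 * k, ((u j).1 + (u j).2) % 2 = (j : ℤ) % 2 ∧
      CConn t (D \ B) (u j) (v j) ∧
      (∃ p ∈ B, ∃ c, u j = cor p c) ∧ (∃ p, p ∉ B ∧ ∃ c, u j = cor p c) ∧
      (∃ p ∈ D, ∃ c, v j = cor p c) ∧ (∃ p, p ∉ D ∧ ∃ c, v j = cor p c) ∧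
      ∀ i < j, ¬ CConn t (D \ B) (u i) (u j) := by
  classical
  have hex : ∀ j, ∃ (u v : ℤ × ℤ) (b : Bool), j < 2 * k →
      SConn t D k (lc (en k j), mk (en k j)) (u, b) ∧ okm u b ∧ CConn t (D \ B) u v ∧
      (∃ p ∈ B, ∃ c, u = cor p c) ∧ (∃ p, p ∉ B ∧ ∃ c, u = cor p c) ∧
      (∃ p ∈ D, ∃ c, v = cor p c) ∧ (∃ p, p ∉ D ∧ ∃ c, v = cor p c) := by
    intro j
    by_cases hj : j < 2 * k
    · obtain ⟨u, v, b, h⟩ := arm_cross hD hBc hBD (en_cut hj) (hl j hj)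
      exact ⟨u, v, b, fun _ => h⟩
    · exact ⟨(0, 0), (0, 0), true, fun h => absurd h hj⟩
  choose u v b h using hex
  refine ⟨u, v, fun j hj => ?_⟩
  obtain ⟨h1, h2, h3, h4, h5, h6, h7⟩ := h j hj
  refine ⟨?_, h3, h4, h5, h6, h7, ?_⟩
  · have h8 := sconn_colour h1
    simp only at h8
    rw [← h8]
    obtain ⟨x, h0, h1, ⟨_, a2, h⟩ | ⟨_, a2, h⟩⟩ := en_cases hj
    · rw [h, lc_up]; simp only; omega
    · rw [h, lc_dn]; simp only; omega
  · intro i hi hc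
    obtain ⟨g1, g2, g3, g4, g5, g6, g7⟩ := h i (by omega)
    obtain ⟨Wm, hW1, hW2⟩ := sep_ends hD hl hi hj
    apply hW2
    have hnu : nint k (u i) := by
      obtain ⟨p, hp, c, hpc⟩ := g5
      rw [hpc]
      exact hB p c hp
    have := sconn_of_cconn hB hc g2 hnu (b j) h2
    rw [hW1 _ _ g1, hW1 _ _ h1]
    exact hW1 _ _ this

end H81Tile
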