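import Pool.Agent.Helper81.Tile.Cyl

/-!
Potentials modulo two of closed sets of sides in a horizontal strip (the set may be infinite).
-/

namespace H81Tile
open Finset

lemma exists_prim (g : ℤ → ZMod 2) : ∃ H : ℤ → ZMod 2, ∀ x, H x + H (x + 1) = g x := by
  have h2 : ∀ a : ZMod 2, a + a = 0 := CharTwo.add_self_eq_zero
  refine ⟨fun x => if 0 ≤ x then ∑ i ∈ range x.toNat, g i
    else ∑ i ∈ range (-x).toNat, g (-(i : ℤ) - 1), fun x => ?_⟩
  simp only
  rcases lt_trichotomy x (-1) with h | h | h
  · rw [if_neg (by omega), if_neg (by omega)]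
    have : (-x).toNat = (-(x + 1)).toNat + 1 := by omega
    rw [this, sum_range_succ]
    have e : (-(((-(x + 1)).toNat : ℕ) : ℤ) - 1) = x := by
      rw [Int.toNat_of_nonneg (by omega)]
      ring
    rw [e]
    generalize (∑ i ∈ range (-(x + 1)).toNat, g (-(i : ℤ) - 1)) = s
    linear_combination h2 s
  · subst h
    simp
  · rw [if_pos (by omega), if_pos (by omega)]
    have : (x + 1).toNat = x.toNat + 1 := by omega
    rw [this, sum_range_succ]
    have e : ((x.toNat : ℕ) : ℤ) = x := Int.toNat_of_nonneg (by omega)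
    rw [e]
    generalize (∑ i ∈ range x.toNat, g (i : ℤ)) = s
    linear_combination h2 s

theorem exists_strip_potential (h v : ℤ → ℤ → ZMod 2) (a b : ℤ)
    (hc : ∀ x y, a ≤ y → y < b → h x y + v (x + 1) y + h x (y + 1) + v x y = 0) :
    ∃ W : ℤ → ℤ → ZMod 2, (∀ x y, a ≤ y → y ≤ b → W x y + W (x + 1) y = h x y) ∧
      (∀ x y, a ≤ y → y < b → W x y + W x (y + 1) = v x y) := by
  have h2 : ∀ a : ZMod 2, a + a = 0 := CharTwo.add_self_eq_zero
  obtain ⟨H, hH⟩ := exists_prim (fun x => h x a)
  obtain ⟨W, hWd⟩ : ∃ W : ℤ → ℤ → ZMod 2,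
      ∀ x y, W x y = H x + ∑ j ∈ range (y - a).toNat, v x (a + j) := ⟨_, fun _ _ => rfl⟩
  have hver : ∀ x y, a ≤ y → W x (y + 1) = W x y + v x y := by
    intro x y hy
    rw [hWd, hWd]
    have e1 : (y + 1 - a).toNat = (y - a).toNat + 1 := by omega
    rw [e1, sum_range_succ]
    have e2 : a + (((y - a).toNat : ℕ) : ℤ) = y := by
      rw [Int.toNat_of_nonneg (by omega)]
      ring
    rw [e2, add_assoc]
  have hhor : ∀ (k : ℕ) x, a + k ≤ b → W x (a + k) + W (x + 1) (a + k) = h x (a + k) := by
    intro k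
    induction k with
    | zero =>
      intro x _
      rw [hWd, hWd]
      simp only [Nat.cast_zero, add_zero, sub_self, Int.toNat_zero, range_zero, sum_empty]
      exact hH x
    | succ k ih =>
      intro x hk
      push_cast at hk ⊢
      have h3 := ih x (by linarith)
      have e : a + ((k : ℤ) + 1) = a + k + 1 := by ring
      rw [e, hver x (a + k) (by linarith), hver (x + 1) (a + k) (by linarith)]
      have h4 := hc x (a + k) (by linarith) (by linarith)
      linear_combination h3 - h4 + h2 (v x (a + k)) + h2 (v (x + 1) (a + k)) + h2 (h x (a + k))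
  refine ⟨W, ?_, ?_⟩
  · intro x y hy1 hy2
    have := hhor (y - a).toNat x (by rw [Int.toNat_of_nonneg (by omega)]; linarith)
    rw [Int.toNat_of_nonneg (by omega)] at this
    simpa using this
  · intro x y hy1 _
    rw [hver x y hy1]
    linear_combination h2 (W x y)

/-- potential of the set of sides `O` in the strip `a ≤ y ≤ b` -/
structure PotOn (a b : ℤ) (O : Set DS) (W : ℤ × ℤ → ZMod 2) : Prop where
  hor : ∀ x y, a ≤ y → y ≤ b → W (x, y) + W (x + 1, y) = chi O (up x y)
  ver : ∀ x y, a ≤ y → y < b → W (x, y) + W (x, y + 1) = chi O ((x, y), 3)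

theorem exists_potOn {t : TC} {O : Set DS} {a b : ℤ} (hO : ClosedOn t (rows a b) O) :
    ∃ W, PotOn a b O W := by
  have hr : ∀ d, chi O (rev d) = chi O d := fun d => chi_of_iff (hO.rv_iff d)
  have e1 : ∀ x y, chi O ((x + 1, y), 3) = chi O ((x, y), 1) := by
    intro x y
    rw [← hr ((x, y), 1)]
    simp [rev, dr]
  have e2 : ∀ x y, chi O (up x (y + 1)) = chi O ((x, y), 2) := by
    intro x y
    rw [← hr ((x, y), 2)]
    simp [rev, dr, up]
  obtain ⟨W, hW1, hW2⟩ := exists_strip_potential (fun x y => chi O (up x y))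
    (fun x y => chi O ((x, y), 3)) a b (by
      intro x y h1 h2
      show chi O (up x y) + chi O ((x + 1, y), 3) + chi O (up x (y + 1)) + chi O ((x, y), 3) = 0
      rw [e1, e2]
      have hp : ((x, y) : ℤ × ℤ) ∈ rows a b := ⟨h1, h2⟩
      have hpp := fun c => chi_of_iff (hO.pr_iff hp c)
      have hz : ∀ a : ZMod 2, a + a = 0 := CharTwo.add_self_eq_zero
      show chi O ((x, y), 0) + chi O ((x, y), 1) + chi O ((x, y), 2) + chi O ((x, y), 3) = 0
      rcases hb : t (x, y) with _ | _
      · have q0 := hpp 0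
        have q1 := hpp 1
        simp only [hb, prt] at q0 q1
        have q0' : chi O ((x, y), 3) = chi O ((x, y), 0) := q0
        have q1' : chi O ((x, y), 2) = chi O ((x, y), 1) := q1
        rw [q0', q1']
        linear_combination hz (chi O ((x, y), 0)) + hz (chi O ((x, y), 1))
      · have q0 := hpp 0
        have q1 := hpp 2
        simp only [hb, prt] at q0 q1
        have q0' : chi O ((x, y), 1) = chi O ((x, y), 0) := q0
        have q1' : chi O ((x, y), 3) = chi O ((x, y), 2) := q1
        rw [q0', q1']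
        linear_combination hz (chi O ((x, y), 0)) + hz (chi O ((x, y), 2)))
  exact ⟨fun q => W q.1 q.2, hW1, hW2⟩

/-- the potential at the two corners of a side of a tile of the strip -/
theorem PotOn.side {t : TC} {O : Set DS} {a b : ℤ} (hO : ClosedOn t (rows a b) O)
    {W : ℤ × ℤ → ZMod 2} (hW : PotOn a b O W) {d : DS} (hd : d.1 ∈ rows a b) :
    W (lc d) + W (rc d) = chi O d := by
  have hr : ∀ d, chi O (rev d) = chi O d := fun d => chi_of_iff (hO.rv_iff d)
  have e1 : ∀ x y, chi O ((x + 1, y), 3) = chi O ((x, y), 1) := by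
    intro x y
    rw [← hr ((x, y), 1)]
    simp [rev, dr]
  have e2 : ∀ x y, chi O (up x (y + 1)) = chi O ((x, y), 2) := by
    intro x y
    rw [← hr ((x, y), 2)]
    simp [rev, dr, up]
  obtain ⟨⟨x, y⟩, c⟩ := d
  obtain ⟨h1, h2⟩ := hd
  simp only at h1 h2
  fin_cases c
  · simpa [lc, rc, cor, co, up] using hW.hor x y h1 h2.le
  · have := hW.ver (x + 1) y h1 h2
    rw [e1] at this
    simpa [lc, rc, cor, co] using this
  · have := hW.hor x (y + 1) (by linarith) (by linarith)
    rw [e2, add_comm] at this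
    simpa [lc, rc, cor, co] using this
  · have := hW.ver x y h1 h2
    rw [add_comm] at this
    simpa [lc, rc, cor, co] using this

theorem PotOn.join {t : TC} {O : Set DS} {a b : ℤ} (hO : ClosedOn t (rows a b) O)
    {W : ℤ × ℤ → ZMod 2} (hW : PotOn a b O W) {p u v : ℤ × ℤ} (hp : p ∈ rows a b)
    (h : Jn t p u v) : W u = W v := by
  obtain ⟨c, rfl, rfl, hc⟩ := h
  have h1 := hW.side hO (d := (p, c)) hp
  have h2 := hW.side hO (d := (p, c + 1)) hp
  have hpr : prt (t p) c = c + 1 := prt_eq_succ (t p) c hc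
  have h3 : chi O (p, c + 1) = chi O (p, c) := by
    have := chi_of_iff (hO.pr_iff hp c)
    rwa [hpr] at this
  have e4 : rc (p, c + 1) = cor p (c + 2) := by
    unfold rc
    congr 1
    show c + 1 + 1 = c + 2
    rw [add_assoc]; rfl
  have e5 : lc (p, c + 1) = rc (p, c) := rfl
  have e6 : lc (p, c) = cor p c := rfl
  rw [e4, e5, h3, ← h1, e6] at h2
  generalize W (cor p c) = a at *
  generalize W (cor p (c + 2)) = b at *
  generalize W (rc (p, c)) = e at *
  have : e + b = e + a := by rw [h2, add_comm]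
  exact (add_left_cancel this).symm

theorem PotOn.conn {t : TC} {O : Set DS} {a b : ℤ} (hO : ClosedOn t (rows a b) O)
    {W : ℤ × ℤ → ZMod 2} (hW : PotOn a b O W) {D : Set (ℤ × ℤ)} (hD : D ⊆ rows a b)
    {u v : ℤ × ℤ} (h : CConn t D u v) : W u = W v := by
  induction h with
  | refl => rfl
  | tail _ h2 ih =>
    obtain ⟨p, hp, h3⟩ := h2
    rw [ih]
    exact hW.join hO (hD hp) h3

/-- increments along a line -/
theorem PotOn.sum {O : Set DS} {a b : ℤ} {W : ℤ × ℤ → ZMod 2} (hW : PotOn a b O W) (x y : ℤ)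
    (h1 : a ≤ y) (h2 : y ≤ b) (n : ℕ) :
    W (x, y) + W (x + n, y) = ∑ i ∈ range n, chi O (up (x + i) y) := by
  have hz : ∀ a : ZMod 2, a + a = 0 := CharTwo.add_self_eq_zero
  induction n with
  | zero => simp [hz]
  | succ n ih =>
    rw [sum_range_succ, ← ih, ← hW.hor (x + n) y h1 h2]
    push_cast
    rw [← add_assoc x]
    linear_combination (-1 : ZMod 2) * hz (W (x + n, y))

end H81Tile
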