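import Pool.Agent.Helper81.Tile.Rows
import Pool.Agent.Helper81.Tile.Strip
import Pool.Agent.Helper64.IPC.BB

/-!
Paths of tiles in the upper half of the cylinder are connections of the state.
-/

namespace H81Tile
open Finset IPC
open IP (St)

/-! ### the states stay pairings -/

lemma gs_apply (i u : ℕ) : gs 0 (2 * i + 4) 1 (2 * i + 5) u =
    if u = 0 then 2 * i + 4 else if u = 1 then 2 * i + 5 else if u = 2 * i + 4 then 0
        else if u = 2 * i + 5 then 1 else u := by
  have h := gs_symm_apply i
  have e : gs 0 (2 * i + 4) 1 (2 * i + 5) u =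
      Equiv.swap 0 (2 * i + 4) (Equiv.swap 1 (2 * i + 5) u) := rfl
  rw [e]
  by_cases h0 : u = 0
  · subst h0
    have e1 : Equiv.swap 1 (2 * i + 5) 0 = 0 :=
      Equiv.swap_apply_of_ne_of_ne (by omega) (by omega)
    rw [e1, Equiv.swap_apply_left, if_pos rfl]
  · by_cases h1 : u = 1
    · subst h1
      have e1 : Equiv.swap 0 (2 * i + 4) (2 * i + 5) = 2 * i + 5 :=
        Equiv.swap_apply_of_ne_of_ne (by omega) (by omega)
      rw [Equiv.swap_apply_left, e1]
      simp
    · by_cases h2 : u = 2 * i + 4
      · subst h2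
        have e1 : Equiv.swap 1 (2 * i + 5) (2 * i + 4) = 2 * i + 4 :=
          Equiv.swap_apply_of_ne_of_ne (by omega) (by omega)
        rw [e1, Equiv.swap_apply_right, if_neg h0, if_neg h1, if_pos rfl]
      · by_cases h3 : u = 2 * i + 5
        · subst h3
          have e1 : Equiv.swap 0 (2 * i + 4) 1 = 1 :=
            Equiv.swap_apply_of_ne_of_ne (by omega) (by omega)
          rw [Equiv.swap_apply_right, e1, if_neg h0, if_neg h1, if_neg h2, if_pos rfl]
        · rw [Equiv.swap_apply_of_ne_of_ne h1 h3, Equiv.swap_apply_of_ne_of_ne h0 h2,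
            if_neg h0, if_neg h1, if_neg h2, if_neg h3]

lemma fl_apply (x : ℕ) : fl x = if x % 2 = 0 then x + 1 else x - 1 := rfl

theorem tact_PW {L i : ℕ} (hi : i < L) (b : Bool) {σ : St} (h : σ ∈ PW L) : tact b i σ ∈ PW L := by
  unfold tact
  rcases b with _ | _
  · simp only [Bool.false_eq_true, if_false]
    refine prpr_PW (by omega) (by omega) (by omega) (by omega) ?_ ?_ h
    · rw [fl_apply]; simp
    · rw [fl_apply, if_pos (by omega)]
  · simp only [if_true]
    refine rel_PW ?_ ?_ h
    · intro x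
      rw [gs_apply]
      split_ifs <;> omega
    · intro x
      have hfe : ∀ y : ℕ, fl (2 * y) = 2 * y + 1 := fun y => by rw [fl_apply, if_pos (by omega)]
      have hfo : ∀ y : ℕ, fl (2 * y + 1) = 2 * y := fun y => by
        rw [fl_apply, if_neg (by omega)]; omega
      rcases Nat.even_or_odd' x with ⟨y, rfl | rfl⟩
      · rw [hfe, gs_apply, gs_apply]
        by_cases h0 : y = 0
        · subst h0
          have := hfe (i + 2)
          simpa [mul_add] using this.symm
        · by_cases h1 : y = i + 2
          · subst h1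
            have := hfe 0
            rw [if_neg (by omega), if_neg (by omega), if_neg (by omega), if_pos (by ring),
              if_neg (by omega), if_neg (by omega), if_pos (by ring)]
            simpa using this.symm
          · rw [if_neg (by omega), if_neg (by omega), if_neg (by omega), if_neg (by omega),
              if_neg (by omega), if_neg (by omega), if_neg (by omega), if_neg (by omega), hfe]
      · rw [hfo, gs_apply, gs_apply]
        by_cases h0 : y = 0
        · subst h0
          have := hfo (i + 2)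
          simpa [mul_add] using this.symm
        · by_cases h1 : y = i + 2
          · subst h1
            have := hfo 0
            rw [if_neg (by omega), if_neg (by omega), if_pos (by ring),
              if_neg (by omega), if_neg (by omega), if_neg (by omega), if_pos (by ring)]
            simpa using this.symm
          · rw [if_neg (by omega), if_neg (by omega), if_neg (by omega), if_neg (by omega),
              if_neg (by omega), if_neg (by omega), if_neg (by omega), if_neg (by omega), hfo]

theorem ract_PW {L : ℕ} (b : ℕ → Bool) (n : ℕ) (hn : n ≤ L) {σ : St} (h : σ ∈ PW L) :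
    ract b n σ ∈ PW L := by
  induction n generalizing σ with
  | zero => exact h
  | succ n ih => exact ih (by omega) (tact_PW (by omega) _ h)

theorem lact_W {L : ℕ} (b : ℕ → Bool) {σ : St} (h : σ ∈ W L) : lact L b σ ∈ W L :=
  close_W (ract_PW b L le_rfl h.1)

theorem mact_W {L : ℕ} (b : ℕ → ℕ → Bool) (m : ℕ) {σ : St} (h : σ ∈ W L) : mact L b m σ ∈ W L := by
  induction m generalizing σ with
  | zero => exact h
  | succ m ih => exact ih (lact_W _ h)

/-! ### nodes and positions -/

/-- the node of the strand `x` of the universal cover -/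
def nd (L : ℕ) (x : ℤ) : ℕ := 2 * (x % L).toNat + 4 + ((x / L) % 2).toNat

lemma nd_ge (L : ℕ) (x : ℤ) : 4 ≤ nd L x := by unfold nd; omega

lemma nd_lt {L : ℕ} (hL : 0 < L) (x : ℤ) : nd L x < 2 * L + 4 := by
  unfold nd
  have h1 : x % L < L := Int.emod_lt_of_pos x (by exact_mod_cast hL)
  have h2 : 0 ≤ x % (L : ℤ) := Int.emod_nonneg x (by exact_mod_cast hL.ne')
  omega

lemma pos_nd {L : ℕ} (hL : 0 < L) (x : ℤ) : ∃ k : ℤ, pos L (nd L x) = x + k * (L + L) := by
  have h1 : x % L < L := Int.emod_lt_of_pos x (by exact_mod_cast hL)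
  have h2 : 0 ≤ x % (L : ℤ) := Int.emod_nonneg x (by exact_mod_cast hL.ne')
  have h3 := Int.emod_add_mul_ediv x (L : ℤ)
  unfold pos nd
  set r := x % (L : ℤ) with hr
  set q := x / (L : ℤ) with hq
  have e1 : (2 * r.toNat + 4 + (q % 2).toNat - 4) / 2 = r.toNat := by omega
  have e2 : (2 * r.toNat + 4 + (q % 2).toNat) % 2 = (q % 2).toNat := by omega
  rw [e1, e2]
  refine ⟨-(q / 2), ?_⟩
  have e3 : ((r.toNat : ℕ) : ℤ) = r := Int.toNat_of_nonneg h2
  have e4 : (((q % 2).toNat : ℕ) : ℤ) = q % 2 := Int.toNat_of_nonneg (by omega)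
  rw [e3, e4]
  have e5 : q % 2 = q - 2 * (q / 2) := by omega
  rw [e5]
  linear_combination h3

lemma nd_pos {L u : ℕ} (h4 : 4 ≤ u) (hu : u < 2 * L + 4) : nd L (pos L u) = u := by
  have hL : 0 < L := by omega
  unfold nd pos
  have h1 : (u - 4) / 2 < L := by omega
  have h1' : (((u - 4) / 2 : ℕ) : ℤ) < L := by exact_mod_cast h1
  have e1 : ((((u - 4) / 2 : ℕ) : ℤ) + ((u % 2 : ℕ) : ℤ) * L) % L = (((u - 4) / 2 : ℕ) : ℤ) := by
    rw [Int.add_mul_emod_self_right]
    exact Int.emod_eq_of_lt (by positivity) h1'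
  have e2 : ((((u - 4) / 2 : ℕ) : ℤ) + ((u % 2 : ℕ) : ℤ) * L) / L = ((u % 2 : ℕ) : ℤ) := by
    rw [Int.add_mul_ediv_right _ _ (by exact_mod_cast hL.ne')]
    rw [Int.ediv_eq_zero_of_lt (by positivity) h1', zero_add]
  rw [e1, e2]
  omega

lemma nd_add (L : ℕ) (x k : ℤ) : nd L (x + k * (L + L)) = nd L x := by
  rcases Nat.eq_zero_or_pos L with rfl | hL
  · simp
  unfold nd
  have hL' : (L : ℤ) ≠ 0 := by exact_mod_cast hL.ne'
  have e : x + k * ((L : ℤ) + L) = x + (2 * k) * L := by ring
  rw [e, Int.add_mul_emod_self_right, Int.add_mul_ediv_right _ _ hL']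
  have : (x / (L : ℤ) + 2 * k) % 2 = (x / (L : ℤ)) % 2 := by omega
  rw [this]

lemma nd_eq_iff {L : ℕ} (hL : 0 < L) {x y : ℤ} (h : nd L x = nd L y) :
    ∃ k : ℤ, y = x + k * (L + L) := by
  obtain ⟨k, hk⟩ := pos_nd hL x
  obtain ⟨k', hk'⟩ := pos_nd hL y
  rw [h, hk'] at hk
  exact ⟨k - k', by linear_combination hk⟩

/-! ### upper half -/

/-- the path that starts at the strand `x` of level `0` upwards returns to level `0` at `y`, in the
rows `0, ..., m-1` -/
def PathUp (t : TC) (m : ℤ) (x y : ℤ) : Prop :=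
  ∃ n, (nxt t)^[n] (up x 0) = dn y 0 ∧ ∀ i < n, ((nxt t)^[i] (up x 0)).1 ∈ rows 0 m

theorem rel_of_pathUp {L m : ℕ} (hL : 0 < L) {t : TC} (ht : Per L t) {b : ℕ → ℕ → Bool}
    (hb : ∀ j < m, ∀ i < L, t ((i : ℤ), (j : ℤ)) = b j i) {σ : St} (hσ : σ ∈ W L) {x y : ℤ}
    (hp : PathUp t m x y) : (mact L b m σ) (nd L x) (nd L y) := by
  obtain ⟨n, hn, hR⟩ := hp
  have hα := mact_W b m hσ
  set α := mact L b m σ with hαd
  -- the partner of the node of x
  obtain ⟨u', hu'lt, hu'ne, hu'⟩ := hα.1.1.1 (nd L x) (nd_lt hL x)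
  have hbl := W_blocks hα
  have hu'4 : 4 ≤ u' := by
    by_contra hlt
    have hr : α (nd L x) u' := (hu' u').2 (Or.inr rfl)
    have hr' := α.symm hr
    have h4 := nd_ge L x
    rcases (by omega : u' = 0 ∨ u' = 1 ∨ u' = 2 ∨ u' = 3) with rfl | rfl | rfl | rfl
    · have := (hbl.1 _).1 hr'; omega
    · have := (hbl.2.1 _).1 hr'; omega
    · have := (hbl.2.2.1 _).1 hr'; omega
    · have := (hbl.2.2.2 _).1 hr'; omega
  have hrel : α (nd L x) u' := (hu' u').2 (Or.inr rfl)
  -- the sides of the path
  let O := spread (L + L) (pathSet t (up x 0) n)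
  have ht2 : Per ((L : ℤ) + L) t := by
    intro p
    have := ht.mul 2 p
    rw [show (2 : ℤ) * L = L + L by ring] at this
    exact this
  have hcl : ClosedOn t (rows 0 m) (pathSet t (up x 0) n) := by
    apply pathSet_closedOn
    · rw [rev_up]
      intro h
      have := h.1
      simp only [dn] at this
      omega
    · rw [hn]
      intro h
      have := h.1
      simp only [dn] at this
      omega
  have hclO : ClosedOn t (rows 0 m) O := hcl.spread ht2 (fun k p hp => hp)
  have hper : ∀ j, ve (L + L) j ∈ O ↔ ve 0 j ∈ O := by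
    intro j
    have := spread_sh ((L : ℤ) + L) (pathSet t (up x 0) n) 1 (ve 0 j)
    rw [← this]
    unfold sh ve
    simp
    rfl
  have hn0 : n ≠ 0 := by
    intro h0
    rw [h0] at hn
    have := congrArg Prod.snd hn
    simp [up, dn] at this
  have hm : 0 < m := by
    have := hR 0 (by omega)
    have h1 := this.1
    have h2 := this.2
    simp only [Function.iterate_zero, id_eq, up] at h1 h2
    omega
  -- all sides of the path belong to tiles of the rows -1, ..., m-1
  have hrow : ∀ e ∈ pathSet t (up x 0) n, e.1.2 < m := by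
    rintro e ⟨i, hi, rfl | rfl⟩
    · rcases Nat.lt_or_ge i n with h | h
      · exact (hR i h).2
      · have : i = n := le_antisymm hi h
        rw [this, hn]
        simp only [dn]
        omega
    · rcases Nat.eq_zero_or_pos i with rfl | h
      · simp only [Function.iterate_zero, id_eq]
        rw [rev_up]
        simp only [dn]
        omega
      · obtain ⟨j, rfl⟩ : ∃ j, i = j + 1 := ⟨i - 1, by omega⟩
        rw [Function.iterate_succ_apply', rev_nxt]
        exact (hR j (by omega)).2
  have htop : ∀ u v, 4 ≤ u → u < 2 * L + 4 → 4 ≤ v → v < 2 * L + 4 → σ u v →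
      (up (pos L u) m ∈ O ↔ up (pos L v) m ∈ O) := by
    have hno : ∀ z, up z m ∉ O := by
      rintro z ⟨k, hk⟩
      have := hrow _ hk
      simp [sh, up] at this
    intro u v _ _ _ _ _
    exact iff_of_false (hno _) (hno _)
  have key := mact_resp ht hclO hper hb hσ htop (nd_ge L x) (nd_lt hL x) hu'4 hu'lt hrel
  have hxO : up (pos L (nd L x)) 0 ∈ O := by
    obtain ⟨k, hk⟩ := pos_nd hL x
    rw [hk]
    refine ⟨-k, ?_⟩
    have : sh (-k * ((L : ℤ) + L)) (up (x + k * (L + L)) 0) = up x 0 := by
      unfold sh up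
      simp
    rw [this]
    exact ⟨0, Nat.zero_le _, Or.inl rfl⟩
  obtain ⟨k, hk⟩ := key.1 hxO
  have e1 : sh (k * ((L : ℤ) + L)) (up (pos L u') 0) = up (pos L u' + k * (L + L)) 0 := rfl
  rw [e1] at hk
  have hbd := mem_pathSet_boundary hR hk
    (by constructor
        · simp [up]
        · simp only [up]; exact_mod_cast hm)
    (by rw [rev_up]
        intro h
        have := h.1
        simp only [dn] at this
        omega)
  rcases hbd with hbd | hbd
  · exfalso
    have : pos L u' + k * (L + L) = x := by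
      have := congrArg (fun d : DS => d.1.1) hbd
      simpa [up] using this
    apply hu'ne
    rw [← this, nd_add, nd_pos hu'4 hu'lt]
  · have : pos L u' + k * (L + L) = y := by
      rw [hn, rev_dn] at hbd
      have := congrArg (fun d : DS => d.1.1) hbd
      simpa [up] using this
    have e2 : nd L y = u' := by
      rw [← this, nd_add, nd_pos hu'4 hu'lt]
    rw [e2]
    exact hrel

end H81Tile
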