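import Pool.Agent.Helper64.IPC.RowMap
import Pool.Agent.Helper64.IPC.ArmA
import Pool.Agent.Helper81.Tile.Half

/-!
Bounds for the form of the stationary vectors by averages over the tiles of `m` rows above and
`m` rows below the cut, for arbitrary outer states.
-/

namespace H81Tile
open Finset IPC
open IP (St)

/-- the bits of a set of tiles -/
def bt (A : Finset (ℕ × ℕ)) : ℕ → ℕ → Bool := fun j i => decide ((j, i) ∈ A)

theorem T_pow_P (L m : ℕ) : ((T L (fun _ => 0)) ^ m) (P L (fun _ => 0)) = P L (fun _ => 0) := by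
  induction m with
  | zero => rfl
  | succ m ih =>
    rw [pow_succ, Module.End.mul_apply, doe_T_P L zero_Cube, ih]

theorem sum_P (L : ℕ) : ∑ σ ∈ doe_WF L, P L (fun _ => 0) σ = 1 := by
  rw [← doe_tot_eq (P_Sup L _), tot_P L zero_Cube]

lemma sum_swap4 {α β : Type*} (c : ℝ) (S S' : Finset α) (R R' : Finset β) (F : α → α → β → β → ℝ) :
    ∑ σ ∈ S, ∑ τ ∈ S', c * ∑ A ∈ R, ∑ B ∈ R', F σ τ A B =
      c * ∑ A ∈ R, ∑ B ∈ R', ∑ σ ∈ S, ∑ τ ∈ S', F σ τ A B := by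
  simp only [← mul_sum]
  congr 1
  calc ∑ σ ∈ S, ∑ τ ∈ S', ∑ A ∈ R, ∑ B ∈ R', F σ τ A B
      = ∑ σ ∈ S, ∑ A ∈ R, ∑ τ ∈ S', ∑ B ∈ R', F σ τ A B := sum_congr rfl fun σ _ => sum_comm
    _ = ∑ A ∈ R, ∑ σ ∈ S, ∑ τ ∈ S', ∑ B ∈ R', F σ τ A B := sum_comm
    _ = ∑ A ∈ R, ∑ σ ∈ S, ∑ B ∈ R', ∑ τ ∈ S', F σ τ A B :=
        sum_congr rfl fun A _ => sum_congr rfl fun σ _ => sum_comm
    _ = _ := sum_congr rfl fun A _ => sum_comm

/-- the form as an average over `m` rows above and below -/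
theorem bil_avg (f : St → St → ℝ) (L m : ℕ) :
    bil f (P L (fun _ => 0)) (P L (fun _ => 0)) =
      (1 / 2 : ℝ) ^ (L * m + L * m) * ∑ A ∈ (range m ×ˢ range L).powerset,
        ∑ B ∈ (range m ×ˢ range L).powerset, ∑ σ ∈ doe_WF L, ∑ τ ∈ doe_WF L,
          P L (fun _ => 0) σ * P L (fun _ => 0) τ * f (mact L (bt A) m σ) (mact L (bt B) m τ) := by
  have e : P L (fun _ => 0) = ∑ σ ∈ doe_WF L, P L (fun _ => 0) σ •
      ((T L (fun _ => 0)) ^ m) (Finsupp.single σ (1 : ℝ)) := by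
    conv_lhs => rw [← T_pow_P L m, doe_expand (P_Sup L (fun _ => 0))]
    rw [map_sum]
    exact sum_congr rfl fun σ _ => map_smul _ _ _
  have e2 : bil f (P L (fun _ => 0)) (P L (fun _ => 0)) = ∑ σ ∈ doe_WF L, ∑ τ ∈ doe_WF L,
      P L (fun _ => 0) σ * (P L (fun _ => 0) τ *
        bil f (((T L (fun _ => 0)) ^ m) (Finsupp.single σ (1 : ℝ)))
          (((T L (fun _ => 0)) ^ m) (Finsupp.single τ (1 : ℝ)))) := by
    conv_lhs => rw [e]
    rw [bil_sum_left]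
    refine sum_congr rfl fun σ _ => ?_
    rw [bil_smul_left, bil_sum_right, mul_sum]
    refine sum_congr rfl fun τ _ => ?_
    rw [bil_smul_right]
  rw [e2]
  have e3 : ∀ σ τ : St, P L (fun _ => 0) σ * (P L (fun _ => 0) τ *
        bil f (((T L (fun _ => 0)) ^ m) (Finsupp.single σ (1 : ℝ)))
          (((T L (fun _ => 0)) ^ m) (Finsupp.single τ (1 : ℝ)))) =
      (1 / 2 : ℝ) ^ (L * m + L * m) * ∑ A ∈ (range m ×ˢ range L).powerset,
        ∑ B ∈ (range m ×ˢ range L).powerset,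
          P L (fun _ => 0) σ * P L (fun _ => 0) τ * f (mact L (bt A) m σ) (mact L (bt B) m τ) := by
    intro σ τ
    rw [bil_mact, mul_sum, mul_sum, mul_sum, mul_sum]
    refine sum_congr rfl fun A _ => ?_
    rw [mul_sum, mul_sum, mul_sum, mul_sum]
    refine sum_congr rfl fun B _ => ?_
    unfold bt
    ring
  simp only [e3]
  exact sum_swap4 _ _ _ _ _
    (fun σ τ A B => P L (fun _ => 0) σ * P L (fun _ => 0) τ * f (mact L (bt A) m σ) (mact L (bt B) m τ))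

lemma sum_P_mul (L : ℕ) (c : ℝ) : ∑ σ ∈ doe_WF L, ∑ τ ∈ doe_WF L,
    P L (fun _ => 0) σ * P L (fun _ => 0) τ * c = c := by
  have h : ∀ σ, ∑ τ ∈ doe_WF L, P L (fun _ => 0) σ * P L (fun _ => 0) τ * c =
      P L (fun _ => 0) σ * c := by
    intro σ
    have : ∀ τ, P L (fun _ => 0) σ * P L (fun _ => 0) τ * c =
        (P L (fun _ => 0) σ * c) * P L (fun _ => 0) τ := fun τ => by ring
    simp only [this]
    rw [← mul_sum, sum_P, mul_one]
  simp only [h]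
  rw [← sum_mul, sum_P, one_mul]

/-- lower bound -/
theorem avg_le_bil {L m : ℕ} {f : St → St → ℝ} {g : Finset (ℕ × ℕ) → Finset (ℕ × ℕ) → ℝ}
    (h : ∀ A ∈ (range m ×ˢ range L).powerset, ∀ B ∈ (range m ×ˢ range L).powerset,
      ∀ σ ∈ W L, ∀ τ ∈ W L, g A B ≤ f (mact L (bt A) m σ) (mact L (bt B) m τ)) :
    (1 / 2 : ℝ) ^ (L * m + L * m) * ∑ A ∈ (range m ×ˢ range L).powerset,
        ∑ B ∈ (range m ×ˢ range L).powerset, g A B ≤
      bil f (P L (fun _ => 0)) (P L (fun _ => 0)) := by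
  rw [bil_avg f L m]
  refine mul_le_mul_of_nonneg_left ?_ (by positivity)
  refine sum_le_sum fun A hA => sum_le_sum fun B hB => ?_
  rw [← sum_P_mul L (g A B)]
  refine sum_le_sum fun σ hσ => sum_le_sum fun τ hτ => ?_
  exact mul_le_mul_of_nonneg_left (h A hA B hB σ (doe_mem_WF.1 hσ) τ (doe_mem_WF.1 hτ))
    (mul_nonneg (P_nonneg _ _ _) (P_nonneg _ _ _))

/-- upper bound -/
theorem bil_le_avg {L m : ℕ} {f : St → St → ℝ} {g : Finset (ℕ × ℕ) → Finset (ℕ × ℕ) → ℝ}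
    (h : ∀ A ∈ (range m ×ˢ range L).powerset, ∀ B ∈ (range m ×ˢ range L).powerset,
      ∀ σ ∈ W L, ∀ τ ∈ W L, f (mact L (bt A) m σ) (mact L (bt B) m τ) ≤ g A B) :
    bil f (P L (fun _ => 0)) (P L (fun _ => 0)) ≤
      (1 / 2 : ℝ) ^ (L * m + L * m) * ∑ A ∈ (range m ×ˢ range L).powerset,
        ∑ B ∈ (range m ×ˢ range L).powerset, g A B := by
  rw [bil_avg f L m]
  refine mul_le_mul_of_nonneg_left ?_ (by positivity)
  refine sum_le_sum fun A hA => sum_le_sum fun B hB => ?_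
  rw [← sum_P_mul L (g A B)]
  refine sum_le_sum fun σ hσ => sum_le_sum fun τ hτ => ?_
  exact mul_le_mul_of_nonneg_left (h A hA B hB σ (doe_mem_WF.1 hσ) τ (doe_mem_WF.1 hτ))
    (mul_nonneg (P_nonneg _ _ _) (P_nonneg _ _ _))

end H81Tile
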