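import Pool.Agent.Helper81.Tile.Pot

/-!
Tile configurations on the square lattice.

The tile `p = (i, j)` is the unit square with lower left corner `p`; its corners are
`cor p 0, …, cor p 3` (counterclockwise, starting with `p`), its sides are numbered
`0` = south, `1` = east, `2` = north, `3` = west; the side `c` lies between the corners `cor p c`
and `cor p (c+1)`.  A tile in state `true` contains an arc from side `0` to side `1` and an arc
from side `2` to side `3`, and the corners `0`, `2` are joined; in state `false` there are arcs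
from side `0` to side `3` and from `1` to `2`, and the corners `1`, `3` are joined.

A directed side `(p, c)` stands for the side `c` of the tile `p`, crossed into the tile `p`.
-/

namespace H81Tile
open Finset

/-- the four directions: south, east, north, west -/
def dr : Fin 4 → ℤ × ℤ := ![(0, -1), (1, 0), (0, 1), (-1, 0)]

/-- the corners of a tile -/
def co : Fin 4 → ℤ × ℤ := ![(0, 0), (1, 0), (1, 1), (0, 1)]

/-- corner number `c` of the tile `p` -/
def cor (p : ℤ × ℤ) (c : Fin 4) : ℤ × ℤ := p + co c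

/-- directed sides -/
abbrev DS := (ℤ × ℤ) × Fin 4

/-- tile configurations -/
abbrev TC := ℤ × ℤ → Bool

/-- the side on the other end of the arc -/
def prt (b : Bool) (c : Fin 4) : Fin 4 :=
  if b then ![1, 0, 3, 2] c else ![3, 2, 1, 0] c

lemma prt_prt (b : Bool) (c : Fin 4) : prt b (prt b c) = c := by
  revert b c; decide

lemma prt_ne (b : Bool) (c : Fin 4) : prt b c ≠ c := by
  revert b c; decide

lemma prt_cases (b : Bool) (c : Fin 4) : prt b c = c + 1 ∨ prt b c = c + 3 := by
  revert b c; decide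

/-- the same side crossed in the other direction -/
def rev (d : DS) : DS := (d.1 + dr d.2, d.2 + 2)

lemma dr_add_two (c : Fin 4) : dr (c + 2) = - dr c := by
  fin_cases c <;> rfl

lemma f4_22 (c : Fin 4) : c + 2 + 2 = c := by revert c; decide

lemma rev_rev (d : DS) : rev (rev d) = d := by
  obtain ⟨p, c⟩ := d
  simp only [rev, dr_add_two, f4_22]
  simp

/-- leave the tile: the directed side entered after crossing the tile -/
def nxt (t : TC) (d : DS) : DS := rev (d.1, prt (t d.1) d.2)

/-- the previous directed side -/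
def prv (t : TC) (d : DS) : DS := ((rev d).1, prt (t (rev d).1) (rev d).2)

lemma prv_nxt (t : TC) (d : DS) : prv t (nxt t d) = d := by
  obtain ⟨p, c⟩ := d
  simp only [prv, nxt, rev_rev, prt_prt]

lemma nxt_prv (t : TC) (d : DS) : nxt t (prv t d) = d := by
  simp only [prv, nxt, prt_prt]
  exact rev_rev d

lemma rev_nxt (t : TC) (d : DS) : rev (nxt t d) = (d.1, prt (t d.1) d.2) := by
  simp only [nxt, rev_rev]

lemma nxt_rev_nxt (t : TC) (d : DS) : nxt t (rev (nxt t d)) = rev d := by
  rw [rev_nxt]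
  simp only [nxt, prt_prt]

/-- the step permutation -/
def stp (t : TC) : Equiv.Perm DS where
  toFun := nxt t
  invFun := prv t
  left_inv := prv_nxt t
  right_inv := nxt_prv t

/-- left corner of a directed side -/
def lc (d : DS) : ℤ × ℤ := cor d.1 d.2
/-- right corner of a directed side -/
def rc (d : DS) : ℤ × ℤ := cor d.1 (d.2 + 1)

lemma lc_rev (d : DS) : lc (rev d) = rc d := by
  obtain ⟨⟨x, y⟩, c⟩ := d
  fin_cases c <;> simp [lc, rc, rev, cor, co, dr]

lemma rc_rev (d : DS) : rc (rev d) = lc d := by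
  have := lc_rev (rev d)
  rw [rev_rev] at this
  exact this.symm

/-- the two corners `u`, `v` are joined inside the tile `p` -/
def Jn (t : TC) (p : ℤ × ℤ) (u v : ℤ × ℤ) : Prop :=
  ∃ c : Fin 4, u = cor p c ∧ v = cor p (c + 2) ∧ (t p = true ↔ (c = 0 ∨ c = 2))

lemma Jn.symm {t : TC} {p u v : ℤ × ℤ} (h : Jn t p u v) : Jn t p v u := by
  obtain ⟨c, h1, h2, h3⟩ := h
  refine ⟨c + 2, h2, ?_, ?_⟩
  · rw [f4_22]; exact h1
  · rw [h3]
    clear h1 h2 h3
    revert c; decide

/-- one step between corners inside a tile of `D` -/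
def CStep (t : TC) (D : Set (ℤ × ℤ)) (u v : ℤ × ℤ) : Prop := ∃ p ∈ D, Jn t p u v

/-- connected inside the tiles of `D` -/
def CConn (t : TC) (D : Set (ℤ × ℤ)) : ℤ × ℤ → ℤ × ℤ → Prop := Relation.ReflTransGen (CStep t D)

lemma CConn.symm {t : TC} {D : Set (ℤ × ℤ)} {u v : ℤ × ℤ} (h : CConn t D u v) :
    CConn t D v u := by
  induction h with
  | refl => exact Relation.ReflTransGen.refl
  | tail _ h2 ih =>
    obtain ⟨p, hp, h⟩ := h2
    exact Relation.ReflTransGen.head ⟨p, hp, h.symm⟩ ih

lemma CConn.mono {t : TC} {D D' : Set (ℤ × ℤ)} (hD : D ⊆ D') {u v : ℤ × ℤ} (h : CConn t D u v) :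
    CConn t D' u v := by
  induction h with
  | refl => exact Relation.ReflTransGen.refl
  | tail _ h2 ih =>
    obtain ⟨p, hp, h⟩ := h2
    exact ih.tail ⟨p, hD hp, h⟩

lemma CConn.congr {t t' : TC} {D : Set (ℤ × ℤ)} (ht : ∀ p ∈ D, t p = t' p) {u v : ℤ × ℤ}
    (h : CConn t D u v) : CConn t' D u v := by
  induction h with
  | refl => exact Relation.ReflTransGen.refl
  | tail _ h2 ih =>
    obtain ⟨p, hp, c, h1, h2, h3⟩ := h2
    exact ih.tail ⟨p, hp, c, h1, h2, by rw [← ht p hp]; exact h3⟩

lemma turn_cases : ∀ (b : Bool) (c : Fin 4),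
    (prt b c + 1 = c ∧ prt b c = c + 1 + 2 ∧ (b = true ↔ (c + 1 = 0 ∨ c + 1 = 2))) ∨
      (prt b c = c + 1 ∧ prt b c + 1 = c + 2 ∧ (b = true ↔ (c = 0 ∨ c = 2))) := by
  decide

/-- a right turn keeps the right corner and moves the left corner; a left turn vice versa -/
lemma corners_nxt (t : TC) (d : DS) :
    (lc (nxt t d) = lc d ∧ Jn t d.1 (rc d) (rc (nxt t d))) ∨
      (rc (nxt t d) = rc d ∧ Jn t d.1 (lc d) (lc (nxt t d))) := by
  have h1 : lc (nxt t d) = cor d.1 (prt (t d.1) d.2 + 1) := by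
    rw [nxt, lc_rev]; rfl
  have h2 : rc (nxt t d) = cor d.1 (prt (t d.1) d.2) := by
    rw [nxt, rc_rev]; rfl
  rw [h1, h2]
  rcases turn_cases (t d.1) d.2 with ⟨h3, h4, h5⟩ | ⟨h3, h4, h5⟩
  · left
    refine ⟨by rw [h3]; rfl, d.2 + 1, rfl, by rw [h4], h5⟩
  · right
    refine ⟨by rw [h3]; rfl, d.2, rfl, by rw [h4], h5⟩

/-- along a path whose tiles lie in `D` both corners stay connected inside `D` -/
theorem conn_iter (t : TC) (D : Set (ℤ × ℤ)) (d : DS) (k : ℕ)
    (hk : ∀ i < k, ((nxt t)^[i] d).1 ∈ D) :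
    CConn t D (lc d) (lc ((nxt t)^[k] d)) ∧ CConn t D (rc d) (rc ((nxt t)^[k] d)) := by
  induction k with
  | zero => exact ⟨Relation.ReflTransGen.refl, Relation.ReflTransGen.refl⟩
  | succ k ih =>
    obtain ⟨h1, h2⟩ := ih (fun i hi => hk i (by omega))
    rw [Function.iterate_succ_apply']
    have h3 := hk k (by omega)
    rcases corners_nxt t ((nxt t)^[k] d) with ⟨h4, h5⟩ | ⟨h4, h5⟩
    · rw [h4]
      exact ⟨h1, h2.tail ⟨_, h3, h5⟩⟩
    · rw [h4]
      exact ⟨h1.tail ⟨_, h3, h5⟩, h2⟩

end H81Tile
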