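import Pool.Agent.Helper81.Tile.Z2

/-!
The interface through a side leaves a box of the square lattice if and only if there are a primal
and a dual arm from the two corners of the side to the boundary of the box.
-/

namespace H81Tile
open Finset H47Perc

/-- the tiles of the edges of a box -/
def tbox (a b c d : ℤ) : Set (ℤ × ℤ) := tilesOf (edgesIn (box a b c d) : Set (Sym2 (ℤ × ℤ)))

lemma mem_tbox {a b c d : ℤ} {p : ℤ × ℤ} : p ∈ tbox a b c d ↔
    2 * a ≤ p.1 + p.2 + 1 ∧ p.1 + p.2 + 1 ≤ 2 * b ∧ 2 * c ≤ p.2 - p.1 ∧ p.2 - p.1 ≤ 2 * d := by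
  unfold tbox tilesOf
  rw [Set.mem_ofPred_eq, Finset.mem_coe]
  rcases te_cases p with ⟨x, y, rfl⟩ | ⟨x, y, rfl⟩
  · rw [te_h, hE_mem, mem_box, mem_box]
    simp only
    constructor
    · rintro ⟨_, _⟩
      omega
    · intro _
      omega
  · rw [te_v, vE_mem, mem_box, mem_box]
    simp only
    constructor
    · rintro ⟨_, _⟩
      omega
    · intro _
      omega

lemma tbox_finite (a b c d : ℤ) : (tbox a b c d).Finite := by
  apply Set.Finite.subset (Set.finite_Icc ((a - d - 1, a + c - 1) : ℤ × ℤ) (b - c, b + d))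
  intro p hp
  rw [mem_tbox] at hp
  rw [Set.mem_Icc, Prod.le_def, Prod.le_def]
  simp only
  omega

lemma tbox_out (a b c d : ℤ) : Out (tbox a b c d) := by
  intro p hp
  rw [mem_tbox] at hp
  by_cases h1 : 2 * a ≤ p.1 + p.2 + 1
  · by_cases h2 : p.1 + p.2 + 1 ≤ 2 * b
    · by_cases h3 : 2 * c ≤ p.2 - p.1
      · -- too high
        refine ⟨2, fun k => ?_⟩
        rw [mem_tbox]
        have e1 : (p + (k : ℤ) • dr 2).1 = p.1 := by simp [dr]
        have e2 : (p + (k : ℤ) • dr 2).2 = p.2 + k := by simp [dr]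
        rw [e1, e2]
        omega
      · refine ⟨0, fun k => ?_⟩
        rw [mem_tbox]
        have e1 : (p + (k : ℤ) • dr 0).1 = p.1 := by simp [dr]
        have e2 : (p + (k : ℤ) • dr 0).2 = p.2 - k := by simp [dr]; ring
        rw [e1, e2]
        omega
    · refine ⟨2, fun k => ?_⟩
      rw [mem_tbox]
      have e1 : (p + (k : ℤ) • dr 2).1 = p.1 := by simp [dr]
      have e2 : (p + (k : ℤ) • dr 2).2 = p.2 + k := by simp [dr]
      rw [e1, e2]
      omega
  · refine ⟨0, fun k => ?_⟩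
    rw [mem_tbox]
    have e1 : (p + (k : ℤ) • dr 0).1 = p.1 := by simp [dr]
    have e2 : (p + (k : ℤ) • dr 0).2 = p.2 - k := by simp [dr]; ring
    rw [e1, e2]
    omega

lemma onBd_st {a b c d : ℤ} {z : ℤ × ℤ} :
    OnBd (tbox a b c d) (st z) ↔ ¬ (a < z.1 ∧ z.1 < b ∧ c < z.2 ∧ z.2 < d) := by
  obtain ⟨x, y⟩ := z
  constructor
  · rintro ⟨⟨i, j⟩, hp, k, hk⟩
    rw [mem_tbox] at hp
    unfold st cor at hk
    simp only at hp hk ⊢
    intro h
    apply hp
    fin_cases k <;> simp [co] at hk <;> omega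
  · intro h
    by_cases h1 : a < x
    · by_cases h2 : x < b
      · by_cases h3 : c < y
        · -- y ≥ d : the tile north
          refine ⟨(x - y - 1, x + y), ?_, 1, ?_⟩
          · rw [mem_tbox]; simp only at h ⊢; omega
          · simp [st, cor, co]
        · refine ⟨(x - y, x + y - 1), ?_, 3, ?_⟩
          · rw [mem_tbox]; simp only at h ⊢; omega
          · simp [st, cor, co]
      · refine ⟨(x - y, x + y), ?_, 0, ?_⟩
        · rw [mem_tbox]; simp only at h ⊢; omega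
        · simp [st, cor, co]
    · refine ⟨(x - y - 1, x + y - 1), ?_, 2, ?_⟩
      · rw [mem_tbox]; simp only at h ⊢; omega
      · simp [st, cor, co]

lemma onBd_fc {a b c d : ℤ} {f : ℤ × ℤ} :
    OnBd (tbox a b c d) (fc f) ↔ ¬ (a ≤ f.1 ∧ f.1 < b ∧ c ≤ f.2 ∧ f.2 < d) := by
  obtain ⟨x, y⟩ := f
  constructor
  · rintro ⟨⟨i, j⟩, hp, k, hk⟩
    rw [mem_tbox] at hp
    unfold fc cor at hk
    simp only at hp hk ⊢
    intro h
    apply hp
    fin_cases k <;> simp [co] at hk <;> omega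
  · intro h
    by_cases h1 : a ≤ x
    · by_cases h2 : x < b
      · by_cases h3 : c ≤ y
        · -- y ≥ d : the upper edge of the face
          refine ⟨(x - y - 1, x + y + 1), ?_, 1, ?_⟩
          · rw [mem_tbox]; simp only at h ⊢; omega
          · simp [fc, cor, co]
        · refine ⟨(x - y, x + y), ?_, 3, ?_⟩
          · rw [mem_tbox]; simp only at h ⊢; omega
          · simp [fc, cor, co]
      · refine ⟨(x - y, x + y + 1), ?_, 0, ?_⟩
        · rw [mem_tbox]; simp only at h ⊢; omega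
        · simp [fc, cor, co]
    · refine ⟨(x - y - 1, x + y), ?_, 2, ?_⟩
      · rw [mem_tbox]; simp only at h ⊢; omega
      · simp [fc, cor, co]

/-- dual connection in a configuration inside `S`: a path of faces that crosses only closed edges
of `S` -/
def DJoined (S : Finset (ℤ × ℤ)) (ω : Finset (Sym2 (ℤ × ℤ))) (f g : ℤ × ℤ) : Prop :=
  Relation.ReflTransGen (FStep (edgesIn S : Set (Sym2 (ℤ × ℤ))) (ω : Set (Sym2 (ℤ × ℤ)))) f g

/-- open arm from the vertex `u` to the boundary of the box -/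
def VArm (a b c d : ℤ) (ω : Finset (Sym2 (ℤ × ℤ))) (u : ℤ × ℤ) : Prop :=
  ∃ v : ℤ × ℤ, ¬ (a < v.1 ∧ v.1 < b ∧ c < v.2 ∧ v.2 < d) ∧ Joined ω u v

/-- closed dual arm from the face `f` out of the box -/
def FArm (a b c d : ℤ) (ω : Finset (Sym2 (ℤ × ℤ))) (f : ℤ × ℤ) : Prop :=
  ∃ g : ℤ × ℤ, ¬ (a ≤ g.1 ∧ g.1 < b ∧ c ≤ g.2 ∧ g.2 < d) ∧ DJoined (box a b c d) ω f g

theorem reach_st {a b c d : ℤ} {ω : Finset (Sym2 (ℤ × ℤ))} (hω : ω ⊆ edgesIn (box a b c d))
    (u : ℤ × ℤ) : Reach (tcOf ω) (tbox a b c d) (st u) ↔ VArm a b c d ω u := by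
  unfold Reach VArm
  constructor
  · rintro ⟨w, h1, h2⟩
    unfold tbox at h2
    rw [cconn_st_iff] at h2
    obtain ⟨v, rfl, h3⟩ := h2
    exact ⟨v, onBd_st.1 h1, (vconn_iff_joined hω).1 h3⟩
  · rintro ⟨v, h1, h2⟩
    refine ⟨st v, onBd_st.2 h1, ?_⟩
    unfold tbox
    rw [cconn_st_iff]
    exact ⟨v, rfl, (vconn_iff_joined hω).2 h2⟩

theorem reach_fc {a b c d : ℤ} {ω : Finset (Sym2 (ℤ × ℤ))} (f : ℤ × ℤ) :
    Reach (tcOf ω) (tbox a b c d) (fc f) ↔ FArm a b c d ω f := by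
  unfold Reach FArm
  constructor
  · rintro ⟨w, h1, h2⟩
    unfold tbox at h2
    rw [cconn_fc_iff] at h2
    obtain ⟨v, rfl, h3⟩ := h2
    exact ⟨v, onBd_fc.1 h1, h3⟩
  · rintro ⟨v, h1, h2⟩
    refine ⟨fc v, onBd_fc.2 h1, ?_⟩
    unfold tbox
    rw [cconn_fc_iff]
    exact ⟨v, rfl, h2⟩

/-- THE PLANAR STATEMENT: the interface through the side `d` between the vertex `u` and the
face `f` leaves the box if and only if there are an open arm from `u` and a closed dual arm from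
`f` to the boundary of the box -/
theorem leaves_iff_arms {a b c d : ℤ} {ω : Finset (Sym2 (ℤ × ℤ))}
    (hω : ω ⊆ edgesIn (box a b c d)) {e : DS} {u f : ℤ × ℤ}
    (he : (lc e = st u ∧ rc e = fc f) ∨ (lc e = fc f ∧ rc e = st u)) :
    Leaves (tcOf ω) (tbox a b c d) e ↔ VArm a b c d ω u ∧ FArm a b c d ω f := by
  rw [leaves_iff (tbox_finite a b c d) (tbox_out a b c d)]
  rcases he with ⟨h1, h2⟩ | ⟨h1, h2⟩
  · rw [h1, h2, reach_st hω, reach_fc]
  · rw [h1, h2, reach_st hω, reach_fc, and_comm]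

end H81Tile
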