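import Pool.Agent.Helper81.Tile.Box

/-!
Periodic tile configurations (the universal cover of a cylinder).
-/

namespace H81Tile
open Finset

/-- sets of directed sides closed under reversal, and under the tiles in `R` -/
structure ClosedOn (t : TC) (R : Set (ℤ × ℤ)) (O : Set DS) : Prop where
  rv : ∀ d ∈ O, rev d ∈ O
  pr : ∀ d ∈ O, d.1 ∈ R → (d.1, prt (t d.1) d.2) ∈ O

lemma Closed.on {t : TC} {O : Set DS} (h : Closed t O) (R : Set (ℤ × ℤ)) : ClosedOn t R O :=
  ⟨h.rv, fun d hd _ => h.pr d hd⟩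

lemma ClosedOn.mono {t : TC} {R R' : Set (ℤ × ℤ)} {O : Set DS} (h : ClosedOn t R O)
    (hR : R' ⊆ R) : ClosedOn t R' O :=
  ⟨h.rv, fun d hd h1 => h.pr d hd (hR h1)⟩

lemma ClosedOn.congr {t t' : TC} {R : Set (ℤ × ℤ)} {O : Set DS} (h : ClosedOn t R O)
    (ht : ∀ p ∈ R, t p = t' p) : ClosedOn t' R O :=
  ⟨h.rv, fun d hd h1 => by rw [← ht d.1 h1]; exact h.pr d hd h1⟩

lemma ClosedOn.rv_iff {t : TC} {R : Set (ℤ × ℤ)} {O : Set DS} (h : ClosedOn t R O) (d : DS) :
    rev d ∈ O ↔ d ∈ O := by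
  constructor
  · intro h1
    have := h.rv _ h1
    rwa [rev_rev] at this
  · exact h.rv d

lemma ClosedOn.pr_iff {t : TC} {R : Set (ℤ × ℤ)} {O : Set DS} (h : ClosedOn t R O) {p : ℤ × ℤ}
    (hp : p ∈ R) (c : Fin 4) : (p, prt (t p) c) ∈ O ↔ (p, c) ∈ O := by
  constructor
  · intro h1
    have := h.pr _ h1 hp
    simp only [prt_prt] at this
    exact this
  · intro h1
    exact h.pr _ h1 hp

/-- if the interface through `d` does not leave the finite set `D`, its sides form a finite closed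
set of sides of tiles of `D` -/
theorem exists_closed_of_not_leaves {t : TC} {D : Set (ℤ × ℤ)} (hf : D.Finite) {d : DS}
    (h : ¬ Leaves t D d) : ∃ O : Set DS, Closed t O ∧ O.Finite ∧ d ∈ O ∧ ∀ e ∈ O, e.1 ∈ D := by
  classical
  have hc' : ∀ k : ℕ, ((nxt t)^[k] d).1 ∈ D := by
    intro k
    by_contra h3
    exact h ⟨k, h3⟩
  let S : Set DS := Set.range (fun k : ℕ => (nxt t)^[k] d)
  have hSf : S.Finite := by
    apply Set.Finite.subset (hf.prod (Set.finite_univ (α := Fin 4)))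
    rintro _ ⟨k, rfl⟩
    exact ⟨hc' k, Set.mem_univ _⟩
  have hSD : ∀ e ∈ S, e.1 ∈ D := by
    rintro _ ⟨k, rfl⟩
    exact hc' k
  have hSn : ∀ e ∈ S, nxt t e ∈ S := by
    rintro _ ⟨k, rfl⟩
    exact ⟨k + 1, Function.iterate_succ_apply' _ _ _⟩
  have hSp : ∀ e ∈ S, ∃ e' ∈ S, nxt t e' = e := by
    have hinj : Set.InjOn (nxt t) S := fun a _ b _ hab => (stp t).injective hab
    have himg : nxt t '' S = S := by
      apply Set.eq_of_subset_of_ncard_le
      · rintro _ ⟨e, he, rfl⟩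
        exact hSn e he
      · rw [Set.InjOn.ncard_image hinj]
      · exact hSf
    intro e he
    rw [← himg] at he
    obtain ⟨e', h3, h4⟩ := he
    exact ⟨e', h3, h4⟩
  refine ⟨S ∪ rev '' S, ⟨?_, ?_⟩, hSf.union (hSf.image _), Or.inl ⟨0, rfl⟩, ?_⟩
  · rintro e (he | ⟨e', he', rfl⟩)
    · exact Or.inr ⟨e, he, rfl⟩
    · rw [rev_rev]; exact Or.inl he'
  · rintro e (he | ⟨e', he', rfl⟩)
    · right
      exact ⟨nxt t e, hSn e he, rev_nxt t e⟩
    · left
      obtain ⟨e'', h3, rfl⟩ := hSp e' he'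
      rw [rev_nxt]
      simp only [prt_prt]
      exact h3
  · rintro e (he | ⟨e', he', rfl⟩)
    · exact hSD e he
    · obtain ⟨e'', h3, rfl⟩ := hSp e' he'
      rw [rev_nxt]
      exact hSD e'' h3

/-- translation of a directed side -/
def sh (a : ℤ) (d : DS) : DS := ((d.1.1 + a, d.1.2), d.2)

lemma sh_add (a b : ℤ) (d : DS) : sh a (sh b d) = sh (b + a) d := by
  unfold sh
  simp only [add_assoc]

lemma sh_zero (d : DS) : sh 0 d = d := by
  unfold sh
  simp

lemma rev_sh (a : ℤ) (d : DS) : rev (sh a d) = sh a (rev d) := by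
  obtain ⟨⟨x, y⟩, c⟩ := d
  fin_cases c <;> simp [rev, sh, dr] <;> ring

/-- periodic configurations -/
def Per (L : ℤ) (t : TC) : Prop := ∀ p : ℤ × ℤ, t (p.1 + L, p.2) = t p

lemma Per.mul {L : ℤ} {t : TC} (h : Per L t) (k : ℤ) (p : ℤ × ℤ) : t (p.1 + k * L, p.2) = t p := by
  have hn : ∀ (n : ℕ) (p : ℤ × ℤ), t (p.1 + n * L, p.2) = t p := by
    intro n
    induction n with
    | zero => intro p; simp
    | succ n ih =>
      intro p
      have h1 := h (p.1 + n * L, p.2)
      simp only at h1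
      rw [← ih p, ← h1]
      congr 2
      push_cast
      ring
  rcases Int.eq_nat_or_neg k with ⟨n, rfl | rfl⟩
  · exact hn n p
  · have := hn n (p.1 + -(n : ℤ) * L, p.2)
    simp only at this
    rw [← this]
    congr 2
    ring

lemma nxt_sh {L : ℤ} {t : TC} (h : Per L t) (k : ℤ) (d : DS) :
    nxt t (sh (k * L) d) = sh (k * L) (nxt t d) := by
  have : t (sh (k * L) d).1 = t d.1 := h.mul k d.1
  unfold nxt
  rw [this, ← rev_sh]
  rfl

lemma iter_sh {L : ℤ} {t : TC} (h : Per L t) (k : ℤ) (n : ℕ) (d : DS) :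
    (nxt t)^[n] (sh (k * L) d) = sh (k * L) ((nxt t)^[n] d) := by
  induction n with
  | zero => rfl
  | succ n ih => rw [Function.iterate_succ_apply', Function.iterate_succ_apply', ih, nxt_sh h]

/-- all translates by multiples of `a` of the sides in `O` -/
def spread (a : ℤ) (O : Set DS) : Set DS := {d | ∃ k : ℤ, sh (k * a) d ∈ O}

lemma mem_spread_of {a : ℤ} {O : Set DS} {d : DS} (h : d ∈ O) : d ∈ spread a O :=
  ⟨0, by rw [zero_mul, sh_zero]; exact h⟩

lemma spread_sh (a : ℤ) (O : Set DS) (j : ℤ) (d : DS) :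
    sh (j * a) d ∈ spread a O ↔ d ∈ spread a O := by
  constructor
  · rintro ⟨k, hk⟩
    rw [sh_add] at hk
    exact ⟨j + k, by rw [add_mul]; exact hk⟩
  · rintro ⟨k, hk⟩
    refine ⟨k - j, ?_⟩
    rw [sh_add]
    have : j * a + (k - j) * a = k * a := by ring
    rw [this]
    exact hk

lemma ClosedOn.spread {t : TC} {R : Set (ℤ × ℤ)} {O : Set DS} {a : ℤ} (h : ClosedOn t R O)
    (ht : Per a t) (hR : ∀ (k : ℤ) (p : ℤ × ℤ), p ∈ R → (p.1 + k * a, p.2) ∈ R) :
    ClosedOn t R (spread a O) := by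
  constructor
  · rintro d ⟨k, hk⟩
    refine ⟨k, ?_⟩
    rw [← rev_sh]
    exact h.rv _ hk
  · rintro d ⟨k, hk⟩ hd
    refine ⟨k, ?_⟩
    have h1 := h.pr _ hk (hR k d.1 hd)
    have h2 : t (sh (k * a) d).1 = t d.1 := ht.mul k d.1
    rw [h2] at h1
    exact h1

/-- the rows `a ≤ j < b` -/
def rows (a b : ℤ) : Set (ℤ × ℤ) := {p | a ≤ p.2 ∧ p.2 < b}

lemma rows_sh (a b : ℤ) (c k : ℤ) (p : ℤ × ℤ) (h : p ∈ rows a b) : (p.1 + k * c, p.2) ∈ rows a b :=
  h

/-- the horizontal side between the corners `(x, j)` and `(x + 1, j)`, crossed upwards -/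
def up (x j : ℤ) : DS := ((x, j), 0)
/-- the same side crossed downwards -/
def dn (x j : ℤ) : DS := ((x, j - 1), 2)

lemma rev_up (x j : ℤ) : rev (up x j) = dn x j := by
  unfold rev up dn
  simp only [dr]
  ext <;> simp
  · ring

lemma rev_dn (x j : ℤ) : rev (dn x j) = up x j := by
  rw [← rev_up, rev_rev]

/-! ### sides of a path -/

/-- the sides visited in the first `n` steps -/
def pathSet (t : TC) (d : DS) (n : ℕ) : Set DS :=
  {e | ∃ i ≤ n, e = (nxt t)^[i] d ∨ e = rev ((nxt t)^[i] d)}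

theorem pathSet_closedOn {t : TC} {R : Set (ℤ × ℤ)} {d : DS} {n : ℕ}
    (h0 : (rev d).1 ∉ R) (h1 : ((nxt t)^[n] d).1 ∉ R) : ClosedOn t R (pathSet t d n) := by
  constructor
  · rintro e ⟨i, hi, rfl | rfl⟩
    · exact ⟨i, hi, Or.inr rfl⟩
    · rw [rev_rev]; exact ⟨i, hi, Or.inl rfl⟩
  · rintro e ⟨i, hi, rfl | rfl⟩ he
    · rcases Nat.lt_or_ge i n with h | h
      · refine ⟨i + 1, h, Or.inr ?_⟩
        rw [Function.iterate_succ_apply', rev_nxt]
      · have : i = n := le_antisymm hi h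
        subst this
        exact absurd he h1
    · rcases Nat.eq_zero_or_pos i with rfl | h
      · exact absurd he h0
      · obtain ⟨j, rfl⟩ : ∃ j, i = j + 1 := ⟨i - 1, by omega⟩
        refine ⟨j, by omega, Or.inl ?_⟩
        rw [Function.iterate_succ_apply', rev_nxt]
        simp only [prt_prt]

/-- the sides of a path from `d` to the side `(nxt t)^[n] d` that are crossed between a tile in
`R` and a tile outside `R` are the two end sides, if the path stays in `R` in between -/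
theorem mem_pathSet_boundary {t : TC} {R : Set (ℤ × ℤ)} {d : DS} {n : ℕ}
    (hR : ∀ i < n, ((nxt t)^[i] d).1 ∈ R) {e : DS} (he : e ∈ pathSet t d n)
    (h1 : e.1 ∈ R) (h2 : (rev e).1 ∉ R) : e = d ∨ e = rev ((nxt t)^[n] d) := by
  obtain ⟨i, hi, rfl | rfl⟩ := he
  · rcases Nat.eq_zero_or_pos i with rfl | h
    · left; rfl
    · exfalso
      obtain ⟨j, rfl⟩ : ∃ j, i = j + 1 := ⟨i - 1, by omega⟩
      rw [Function.iterate_succ_apply', rev_nxt] at h2
      exact h2 (hR j (by omega))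
  · rcases Nat.lt_or_ge i n with h | h
    · exfalso
      rw [rev_rev] at h2
      exact h2 (hR i h)
    · have : i = n := le_antisymm hi h
      subst this
      exact Or.inr rfl

end H81Tile
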