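import Pool.Agent.Helper81.Tile.Dual
import Pool.Agent.Helper47.Perc.GenDefs

/-!
The exit of the interface: revealed-edges form.
-/

namespace H81Tile
open Finset H47Perc

/-- the face at the corner of a vertex between the directions `c - 1` and `c` -/
def off : Fin 4 → ℤ × ℤ := ![(-1, -1), (0, -1), (0, 0), (-1, 0)]

/-- the vertices of the edge of a tile are the primal corners -/
lemma mem_te {p : ℤ × ℤ} {k : Fin 4} {u : ℤ × ℤ} (h : cor p k = st u) :
    te p = s(u, u + dir (k + 1)) := by
  obtain ⟨i, j⟩ := p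
  obtain ⟨x, y⟩ := u
  unfold cor st at h
  fin_cases k
  · simp [co] at h
    obtain ⟨rfl, rfl⟩ := h
    rw [te_h]
    simp [hE, dir]
  · simp [co] at h
    obtain ⟨h1, rfl⟩ := h
    have : i = x - y - 1 := by omega
    rw [this, te_v]
    simp [vE, dir]
  · simp [co] at h
    obtain ⟨h1, h2⟩ := h
    have e1 : i = (x - 1) - y := by omega
    have e2 : j = (x - 1) + y := by omega
    rw [e1, e2, te_h, hE, Sym2.eq_swap]
    simp [dir]
    ring
  · simp [co] at h
    obtain ⟨h1, h2⟩ := h
    have e1 : i = x - (y - 1) - 1 := by omega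
    have e2 : j = x + (y - 1) := by omega
    rw [e1, e2, te_v, vE, Sym2.eq_swap]
    simp [dir]
    ring

/-- the face on the right of a side with a vertex on its left -/
lemma rc_of_lc {e : DS} {z : ℤ × ℤ} (h : lc e = st z) : rc e = fc (z + off (e.2 + 1)) := by
  obtain ⟨⟨i, j⟩, k⟩ := e
  obtain ⟨x, y⟩ := z
  unfold lc cor st at h
  unfold rc cor fc
  fin_cases k <;> simp [co] at h ⊢ <;> simp [off] <;> omega

lemma mem_dI {p : ℤ × ℤ} {k : Fin 4} {g : ℤ × ℤ} (h : cor p k = fc g) : g ∈ dI (te p) := by
  obtain ⟨i, j⟩ := p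
  obtain ⟨x, y⟩ := g
  unfold cor fc at h
  fin_cases k
  · simp [co] at h
    obtain ⟨h1, h2⟩ := h
    have e1 : i = (x + 1) - y - 1 := by omega
    have e2 : j = (x + 1) + y := by omega
    rw [e1, e2, te_v, dI_vE, hE, Sym2.mem_iff]
    left
    simp
  · simp [co] at h
    obtain ⟨h1, h2⟩ := h
    have e1 : i = x - (y + 1) := by omega
    have e2 : j = x + (y + 1) := by omega
    rw [e1, e2, te_h, dI_hE, vE, Sym2.mem_iff]
    left
    simp
  · simp [co] at h
    obtain ⟨h1, h2⟩ := h
    have e1 : i = x - y - 1 := by omega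
    have e2 : j = x + y := by omega
    rw [e1, e2, te_v, dI_vE, hE, Sym2.mem_iff]
    right
    simp
  · simp [co] at h
    obtain ⟨h1, h2⟩ := h
    have e1 : i = x - y := by omega
    have e2 : j = x + y := by omega
    rw [e1, e2, te_h, dI_hE, vE, Sym2.mem_iff]
    right
    simp

open Classical in
/-- edges whose dual edge is incident to a face of the dual cluster of `f` -/
noncomputable def revD (F ω : Finset (Sym2 (ℤ × ℤ))) (f : ℤ × ℤ) : Finset (Sym2 (ℤ × ℤ)) :=
  F.filter (fun e => ∃ g ∈ dI e, Joined (du F ω) f g)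

open Classical in
/-- edges incident to the open cluster of `v` -/
noncomputable def revC (F ω : Finset (Sym2 (ℤ × ℤ))) (v : ℤ × ℤ) : Finset (Sym2 (ℤ × ℤ)) :=
  F.filter (fun e => ∃ u ∈ e, Joined ω v u)

lemma joined_mono' {ω ω' : Finset (Sym2 (ℤ × ℤ))} (h : ω ⊆ ω') {u v : ℤ × ℤ}
    (huv : Joined ω u v) : Joined ω' u v :=
  SimpleGraph.Reachable.mono (SimpleGraph.fromEdgeSet_mono (by exact_mod_cast h)) huv

/-- the interface through a side with the vertex `v` on its left and the face `f` on its right: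
connections along its first `k` steps, inside the box -/
theorem iter_joined {a b c d : ℤ} {ω : Finset (Sym2 (ℤ × ℤ))}
    {e : DS} {v f : ℤ × ℤ} (hl : lc e = st v) (hr : rc e = fc f) (k : ℕ)
    (hk : ∀ i < k, ((nxt (tcOf ω))^[i] e).1 ∈ tbox a b c d) :
    ∃ u g, lc ((nxt (tcOf ω))^[k] e) = st u ∧ rc ((nxt (tcOf ω))^[k] e) = fc g ∧
      Joined (ω ∩ revD (edgesIn (box a b c d)) ω f) v u ∧
      Joined (du (revC (edgesIn (box a b c d)) ω v) ω) f g := by
  classical
  induction k with
  | zero => exact ⟨v, f, hl, hr, joined_refl _ _, joined_refl _ _⟩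
  | succ k ih =>
    obtain ⟨u, g, h1, h2, h3, h4⟩ := ih (fun i hi => hk i (by omega))
    have hp := hk k (by omega)
    have hp' : te ((nxt (tcOf ω))^[k] e).1 ∈ edgesIn (box a b c d) := hp
    rw [Function.iterate_succ_apply']
    generalize hε : (nxt (tcOf ω))^[k] e = ε at *
    have hgD : Joined (du (edgesIn (box a b c d)) ω) f g := by
      refine joined_mono' ?_ h4
      unfold du revC
      apply image_subset_image
      apply sdiff_subset_sdiff (filter_subset _ _) le_rfl
    have huC : Joined ω v u := joined_mono' inter_subset_left h3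
    rcases corners_nxt (tcOf ω) ε with ⟨h5, h6⟩ | ⟨h5, h6⟩
    · -- the face moves
      have hstep : CStep (tcOf ω) (tilesOf (edgesIn (box a b c d) : Set _)) (rc ε)
          (rc (nxt (tcOf ω) ε)) := ⟨_, hp, h6⟩
      rcases cstep_cases hstep with ⟨a', b', h7, h8, h9⟩ | ⟨f', g', h7, h8, h9⟩
      · rw [h2] at h7
        exact absurd h7.symm (st_ne_fc _ _)
      · rw [h2] at h7
        have : g = f' := fc_inj h7
        subst this
        refine ⟨u, g', by rw [h5, h1], h8, h3, joined_trans h4 ?_⟩
        obtain ⟨e', he1, he2, he3⟩ := h9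
        have hte : dI (te ε.1) = s(g, g') := by
          obtain ⟨k', q1, q2, q3⟩ := h6
          rw [h2] at q1
          rw [h8] at q2
          have m1 := mem_dI q1.symm
          have m2 := mem_dI q2.symm
          exact ((Sym2.mem_and_mem_iff (sep_ne he3)).1 ⟨m1, m2⟩)
        have hdI : dI e' = s(g, g') := dI_sep he3
        have hee : te ε.1 = e' := by
          have e1 := hte.trans hdI.symm
          rcases edgesIn_cases hp' with ⟨i, j, hi⟩ | ⟨i, j, hi⟩ <;>
          rcases edgesIn_cases (mem_coe.1 he1) with ⟨i', j', hi'⟩ | ⟨i', j', hi'⟩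
          · rw [hi, hi'] at e1 ⊢
            rw [dI_hE, dI_hE] at e1
            obtain ⟨q1, q2⟩ := vE_inj e1
            rw [q1, show j = j' by omega]
          · rw [hi, hi'] at e1
            rw [dI_hE, dI_vE] at e1
            exact absurd e1.symm (hE_ne_vE _ _ _ _)
          · rw [hi, hi'] at e1
            rw [dI_hE, dI_vE] at e1
            exact absurd e1 (hE_ne_vE _ _ _ _)
          · rw [hi, hi'] at e1 ⊢
            rw [dI_vE, dI_vE] at e1
            obtain ⟨q1, q2⟩ := hE_inj e1
            rw [q2, show i = i' by omega]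
        apply SimpleGraph.Adj.reachable
        rw [SimpleGraph.fromEdgeSet_adj]
        refine ⟨?_, sep_ne he3⟩
        rw [mem_coe]
        unfold du
        rw [mem_image]
        refine ⟨e', ?_, hdI⟩
        rw [mem_sdiff]
        refine ⟨?_, he2⟩
        unfold revC
        rw [mem_filter]
        refine ⟨he1, u, ?_, huC⟩
        rw [← hee]
        have : te ε.1 = s(u, u + dir (ε.2 + 1)) := mem_te (by rw [← h1]; rfl)
        rw [this]
        exact Sym2.mem_mk_left _ _
    · -- the vertex moves
      have hstep : CStep (tcOf ω) (tilesOf (edgesIn (box a b c d) : Set _)) (lc ε)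
          (lc (nxt (tcOf ω) ε)) := ⟨_, hp, h6⟩
      rcases cstep_cases hstep with ⟨a', b', h7, h8, h9⟩ | ⟨f', g', h7, h8, h9⟩
      · rw [h1] at h7
        have : u = a' := st_inj h7
        subst this
        refine ⟨b', g, h8, by rw [h5, h2], joined_trans h3 ?_, h4⟩
        obtain ⟨he1, he2, he3⟩ := h9
        apply SimpleGraph.Adj.reachable
        rw [SimpleGraph.fromEdgeSet_adj]
        refine ⟨?_, he3.ne⟩
        rw [mem_coe, mem_inter]
        refine ⟨he2, ?_⟩
        unfold revD
        rw [mem_filter]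
        refine ⟨he1, g, ?_, hgD⟩
        have hte : te ε.1 = s(u, b') := by
          obtain ⟨k', q1, q2, q3⟩ := h6
          rw [h1] at q1
          rw [h8] at q2
          have m1 : u ∈ te ε.1 := by
            rw [mem_te q1.symm]; exact Sym2.mem_mk_left _ _
          have m2 : b' ∈ te ε.1 := by
            rw [mem_te q2.symm]; exact Sym2.mem_mk_left _ _
          exact (Sym2.mem_and_mem_iff he3.ne).1 ⟨m1, m2⟩
        rw [← hte]
        exact mem_dI (k := ε.2 + 1) (by rw [← h2]; rfl)
      · rw [h1] at h7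
        exact absurd h7 (st_ne_fc _ _)

/-- EXIT: if there are both arms from the vertex `v` on the left and the face `f` on the right of
the side `e`, then there is a vertex `z` of the box with a neighbour `z + dir k` outside the box
such that `v` is joined to `z` by open edges next to the dual cluster of `f`, and `f` is joined to
the face `z + off k` (on the right when leaving the box from `z` in direction `k`) by dual edges
next to the open cluster of `v`. -/
theorem exit_of_arms {a b c d : ℤ} {ω : Finset (Sym2 (ℤ × ℤ))} (hω : ω ⊆ edgesIn (box a b c d))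
    {e : DS} {v f : ℤ × ℤ} (hl : lc e = st v) (hr : rc e = fc f) (he : e.1 ∈ tbox a b c d)
    (h1 : VArm a b c d ω v) (h2 : FArm a b c d ω f) :
    ∃ (z : ℤ × ℤ) (k : Fin 4), z ∈ box a b c d ∧ z + dir k ∉ box a b c d ∧
      z + dir (k + 3) ∈ box a b c d ∧
      Joined (ω ∩ revD (edgesIn (box a b c d)) ω f) v z ∧
      Joined (du (revC (edgesIn (box a b c d)) ω v) ω) f (z + off k) := by
  classical
  have hL : Leaves (tcOf ω) (tbox a b c d) e :=
    (leaves_iff_arms hω (Or.inl ⟨hl, hr⟩)).2 ⟨h1, h2⟩
  have hfind := Nat.find_spec hL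
  set n := Nat.find hL with hn
  have hmin : ∀ i < n, ((nxt (tcOf ω))^[i] e).1 ∈ tbox a b c d := by
    intro i hi
    by_contra hc
    exact Nat.find_min hL hi hc
  have hn0 : n ≠ 0 := by
    intro h0
    rw [h0] at hfind
    exact hfind he
  obtain ⟨z, g, q1, q2, q3, q4⟩ := iter_joined hl hr n hmin
  obtain ⟨m, hm⟩ : ∃ m, n = m + 1 := ⟨n - 1, by omega⟩
  have hprev := hmin m (by omega)
  rw [hm] at hfind q1 q2
  rw [Function.iterate_succ_apply'] at hfind q1 q2
  set ε := (nxt (tcOf ω))^[m] e with hε
  -- the last tile inside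
  have hrev : (rev (nxt (tcOf ω) ε)).1 = ε.1 := by rw [rev_nxt]
  set δ := nxt (tcOf ω) ε with hδ
  have hte : te δ.1 = s(z, z + dir (δ.2 + 1)) := mem_te (by rw [← q1]; rfl)
  have hin : s(z, z + dir (δ.2 + 4)) ∈ edgesIn (box a b c d) := by
    have h5 : rc (rev δ) = st z := by rw [rc_rev, q1]
    have h6 : te (rev δ).1 = s(z, z + dir ((rev δ).2 + 1 + 1)) := mem_te (by rw [← h5]; rfl)
    have h7 : (rev δ).2 + 1 + 1 = δ.2 + 4 := by
      show δ.2 + 2 + 1 + 1 = δ.2 + 4
      rw [add_assoc, add_assoc]
      rfl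
    rw [h7] at h6
    rw [← h6, hrev]
    exact hprev
  have hz : z ∈ box a b c d := (mem_edgesIn.1 hin).1
  have hout : z + dir (δ.2 + 1) ∉ box a b c d := by
    intro hc
    apply hfind
    show te δ.1 ∈ (edgesIn (box a b c d) : Set _)
    rw [hte]
    rw [mem_coe, mem_edgesIn]
    refine ⟨hz, hc, ?_⟩
    generalize δ.2 + 1 = k
    obtain ⟨x, y⟩ := z
    fin_cases k
    · left; simp [dir]
    · right; simp [dir]
    · left; simp [dir]
    · right; simp [dir]
  refine ⟨z, δ.2 + 1, hz, hout, ?_, q3, ?_⟩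
  · have : δ.2 + 1 + 3 = δ.2 + 4 := by rw [add_assoc]; rfl
    rw [this]
    exact (mem_edgesIn.1 hin).2.1
  · have h5 := rc_of_lc q1
    rw [q2] at h5
    rw [← fc_inj h5]
    exact q4

end H81Tile
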