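import Pool.Agent.Helper81.Tile.Half

/-!
Gluing the two half cylinders: lower half by reflection; paths between the ends of cut strands are
connections in the glued state.
-/

namespace H81Tile
open Finset IPC
open IP (St)

/-! ### reflection -/

/-- reflection of the sides of a tile -/
def mc : Fin 4 → Fin 4 := ![2, 1, 0, 3]

/-- reflection of a directed side -/
def mir (d : DS) : DS := ((d.1.1, -1 - d.1.2), mc d.2)

/-- reflected configuration -/
def mirT (t : TC) : TC := fun p => !t (p.1, -1 - p.2)

lemma prt_mc : ∀ (b : Bool) (c : Fin 4), prt (!b) (mc c) = mc (prt b c) := by decide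

lemma rev_mir (d : DS) : rev (mir d) = mir (rev d) := by
  obtain ⟨⟨x, y⟩, c⟩ := d
  fin_cases c <;> simp [rev, mir, mc, dr] <;> ring

lemma nxt_mir (t : TC) (d : DS) : nxt (mirT t) (mir d) = mir (nxt t d) := by
  have h1 : mirT t (mir d).1 = !t d.1 := by
    show (!t (d.1.1, -1 - (-1 - d.1.2))) = _
    congr 2
    ext <;> simp
  unfold nxt
  rw [h1, ← rev_mir]
  congr 1
  show ((mir d).1, prt (!t d.1) (mc d.2)) = _
  rw [prt_mc]
  rfl

lemma iter_mir (t : TC) (n : ℕ) (d : DS) : (nxt (mirT t))^[n] (mir d) = mir ((nxt t)^[n] d) := by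
  induction n with
  | zero => rfl
  | succ n ih => rw [Function.iterate_succ_apply', Function.iterate_succ_apply', ih, nxt_mir]

lemma mir_dn (x : ℤ) : mir (dn x 0) = up x 0 := by
  simp [mir, dn, up, mc]

lemma mir_up (x : ℤ) : mir (up x 0) = dn x 0 := by
  simp [mir, dn, up, mc]

/-- the path that starts at the strand `x` of level `0` downwards returns to level `0` at `y`, in
the rows `-m, ..., -1` -/
def PathDn (t : TC) (m : ℤ) (x y : ℤ) : Prop :=
  ∃ n, (nxt t)^[n] (dn x 0) = up y 0 ∧ ∀ i < n, ((nxt t)^[i] (dn x 0)).1 ∈ rows (-m) 0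

lemma PathDn.mir {t : TC} {m x y : ℤ} (h : PathDn t m x y) : PathUp (mirT t) m x y := by
  obtain ⟨n, h1, h2⟩ := h
  refine ⟨n, ?_, ?_⟩
  · rw [← mir_dn, iter_mir, h1, mir_up]
  · intro i hi
    rw [← mir_dn, iter_mir]
    have := h2 i hi
    unfold rows at this ⊢
    have h3 : -m ≤ ((nxt t)^[i] (dn x 0)).1.2 := this.1
    have h4 : ((nxt t)^[i] (dn x 0)).1.2 < 0 := this.2
    show 0 ≤ -1 - ((nxt t)^[i] (dn x 0)).1.2 ∧ -1 - ((nxt t)^[i] (dn x 0)).1.2 < m
    omega

lemma Per.mirT {L : ℤ} {t : TC} (h : Per L t) : Per L (mirT t) := by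
  intro p
  show (!t (p.1 + L, -1 - p.2)) = !t (p.1, -1 - p.2)
  rw [h (p.1, -1 - p.2)]

theorem rel_of_pathDn {L m : ℕ} (hL : 0 < L) {t : TC} (ht : Per L t) {b : ℕ → ℕ → Bool}
    (hb : ∀ j < m, ∀ i < L, t ((i : ℤ), -1 - (j : ℤ)) = !b j i) {σ : St} (hσ : σ ∈ W L) {x y : ℤ}
    (hp : PathDn t m x y) : (mact L b m σ) (nd L x) (nd L y) := by
  refine rel_of_pathUp hL ht.mirT (b := b) ?_ hσ hp.mir
  intro j hj i hi
  show (!t ((i : ℤ), -1 - (j : ℤ))) = b j i
  rw [hb j hj i hi, Bool.not_not]

/-! ### an interface never returns to its own beginning in the opposite direction -/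

lemma iter_ne_rev (t : TC) (n : ℕ) : ∀ d : DS, (nxt t)^[n] d ≠ rev d := by
  induction n using Nat.strong_induction_on with
  | _ n ih =>
    intro d h
    match n, ih, h with
    | 0, _, h =>
      have h1 : d = rev d := h
      have := congrArg Prod.snd h1
      simp only [rev] at this
      revert this
      generalize d.2 = c
      revert c
      decide
    | 1, _, h =>
      have h1 : nxt t d = rev d := h
      have h2 := congrArg rev h1
      rw [rev_nxt, rev_rev] at h2
      have h3 := congrArg Prod.snd h2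
      exact prt_ne _ _ h3
    | n + 2, ih, h =>
      have h1 : nxt t (rev (nxt t d)) = rev d := nxt_rev_nxt t d
      rw [← h1, Function.iterate_succ_apply'] at h
      have h2 := (stp t).injective h
      rw [Function.iterate_succ_apply] at h2
      exact ih n (by omega) _ h2

/-! ### chains of excursions -/

/-- label of a directed side of level `0` in the glued state: the first `k` strands are cut, the
labels `0, ..., k-1` are their upper ends, `k, ..., 2k-1` their lower ends, the strand `i ≥ k` has
the label `i + k` -/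
def labT (k u : ℕ) : ℕ := if (u - 4) / 2 < k then u else u + 2 * k
def labB (k u : ℕ) : ℕ := u + 2 * k

/-- directed sides of level zero -/
def Lev (d : DS) : Prop := ∃ x, d = up x 0 ∨ d = dn x 0

/-- all cut sides (periodic) -/
def Kut (L k : ℕ) : Set DS := {d | ∃ x : ℤ, x % L < k ∧ (d = up x 0 ∨ d = dn x 0)}

/-- label of a directed side of level zero -/
noncomputable def lab (L k : ℕ) (d : DS) : ℕ :=
  if d.2 = 0 then labT k (nd L d.1.1) else labB k (nd L d.1.1)

lemma lab_up (L k : ℕ) (x : ℤ) : lab L k (up x 0) = labT k (nd L x) := by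
  unfold lab up; simp

lemma lab_dn (L k : ℕ) (x : ℤ) : lab L k (dn x 0) = labB k (nd L x) := by
  unfold lab dn; simp

lemma lab_eq {L k : ℕ} {x : ℤ} (h : up x 0 ∉ Kut L k) : lab L k (up x 0) = lab L k (dn x 0) := by
  rw [lab_up, lab_dn]
  unfold labT labB
  rw [if_neg]
  intro h1
  apply h
  refine ⟨x, ?_, Or.inl rfl⟩
  unfold nd at h1
  omega

lemma kut_up {L k : ℕ} {x : ℤ} : up x 0 ∈ Kut L k ↔ x % L < k := by
  constructor
  · rintro ⟨y, h1, h2 | h2⟩
    · have := congrArg (fun d : DS => d.1.1) h2
      simp only [up] at this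
      rwa [this]
    · have := congrArg (fun d : DS => d.2) h2
      simp [up, dn] at this
  · intro h
    exact ⟨x, h, Or.inl rfl⟩

lemma kut_dn {L k : ℕ} {x : ℤ} : dn x 0 ∈ Kut L k ↔ x % L < k := by
  constructor
  · rintro ⟨y, h1, h2 | h2⟩
    · have := congrArg (fun d : DS => d.2) h2
      simp [up, dn] at this
    · have := congrArg (fun d : DS => d.1.1) h2
      simp only [dn] at this
      rwa [this]
  · intro h
    exact ⟨x, h, Or.inr rfl⟩

/-- crossing level zero downwards -/
lemma cross_dn {t : TC} {d : DS} (h1 : 0 ≤ d.1.2) (h2 : (nxt t d).1.2 < 0) :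
    ∃ y, nxt t d = dn y 0 := by
  obtain ⟨⟨x, j⟩, c⟩ := d
  unfold nxt at h2 ⊢
  simp only at h1 h2 ⊢
  generalize prt (t (x, j)) c = c' at *
  fin_cases c'
  · simp [rev, dr] at h2 ⊢
    have : j = 0 := by omega
    subst this
    exact ⟨x, by simp [dn]⟩
  · simp [rev, dr] at h2
    omega
  · simp [rev, dr] at h2
    omega
  · simp [rev, dr] at h2
    omega

/-- crossing level zero upwards -/
lemma cross_up {t : TC} {d : DS} (h1 : d.1.2 < 0) (h2 : 0 ≤ (nxt t d).1.2) :
    ∃ y, nxt t d = up y 0 := by
  obtain ⟨⟨x, j⟩, c⟩ := d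
  unfold nxt at h2 ⊢
  simp only at h1 h2 ⊢
  generalize prt (t (x, j)) c = c' at *
  fin_cases c'
  · simp [rev, dr] at h2
    omega
  · simp [rev, dr] at h2
    omega
  · simp [rev, dr] at h2 ⊢
    have : j = -1 := by omega
    subst this
    exact ⟨x, by simp [up]⟩
  · simp [rev, dr] at h2
    omega

lemma lev_cases {d : DS} (h : Lev d) : (∃ x, d = up x 0) ∨ (∃ x, d = dn x 0) := by
  obtain ⟨x, h | h⟩ := h
  · exact Or.inl ⟨x, h⟩
  · exact Or.inr ⟨x, h⟩

/-- connections in the glued state along a path of tiles: `G` is an equivalence relation on the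
labels that contains the relations of the upper and of the lower state -/
theorem glue_path {L m k : ℕ} (hL : 0 < L) {t : TC} (ht : Per L t) {b b' : ℕ → ℕ → Bool}
    (hb : ∀ j < m, ∀ i < L, t ((i : ℤ), (j : ℤ)) = b j i)
    (hb' : ∀ j < m, ∀ i < L, t ((i : ℤ), -1 - (j : ℤ)) = !b' j i)
    {σ τ : St} (hσ : σ ∈ W L) (hτ : τ ∈ W L) (G : St)
    (hT : ∀ u v, 4 ≤ u → 4 ≤ v → (mact L b m σ) u v → G (labT k u) (labT k v))
    (hB : ∀ u v, 4 ≤ u → 4 ≤ v → (mact L b' m τ) u v → G (labB k u) (labB k v))
    (n : ℕ) : ∀ (d : DS), 0 < n → Lev d → Lev ((nxt t)^[n] d) →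
    (∀ i < n, ((nxt t)^[i] d).1 ∈ rows (-m) m) →
    (∀ i, 0 < i → i < n → (nxt t)^[i] d ∉ Kut L k) →
    G (lab L k d) (lab L k (rev ((nxt t)^[n] d))) := by
  classical
  induction n using Nat.strong_induction_on with
  | _ n ih =>
    intro d hn hd hδ hR hK
    rcases lev_cases hd with ⟨x, rfl⟩ | ⟨x, rfl⟩
    · -- going up: first return to a tile of negative row, or arrival
      by_cases hex : ∃ i, i ≤ n ∧ ((nxt t)^[i] (up x 0)).1.2 < 0
      · have hfind := Nat.find_spec hex
        set n₁ := Nat.find hex with hn₁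
        have hmin : ∀ i < n₁, 0 ≤ ((nxt t)^[i] (up x 0)).1.2 := by
          intro i hi
          by_contra hc
          exact Nat.find_min hex hi ⟨by omega, not_le.1 hc⟩
        have hn₁0 : n₁ ≠ 0 := by
          intro h0
          rw [h0] at hfind
          have := hfind.2
          simp [up] at this
        obtain ⟨j, hj⟩ : ∃ j, n₁ = j + 1 := ⟨n₁ - 1, by omega⟩
        obtain ⟨y, hy⟩ : ∃ y, (nxt t)^[n₁] (up x 0) = dn y 0 := by
          rw [hj, Function.iterate_succ_apply']
          apply cross_dn (hmin j (by omega))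
          have := hfind.2
          rwa [hj, Function.iterate_succ_apply'] at this
        have hp : PathUp t m x y := ⟨n₁, hy, fun i hi => ⟨hmin i hi, (hR i (by omega)).2⟩⟩
        have hrel := hT _ _ (nd_ge L x) (nd_ge L y) (rel_of_pathUp hL ht hb hσ hp)
        rw [← lab_up, ← lab_up] at hrel
        rcases Nat.lt_or_ge n₁ n with hlt | hge
        · have hk := hK n₁ (by omega) hlt
          rw [hy] at hk
          have hk' : up y 0 ∉ Kut L k := by
            rw [kut_up]; rw [kut_dn] at hk; exact hk
          rw [lab_eq hk'] at hrel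
          have hit : ∀ i, (nxt t)^[i] (dn y 0) = (nxt t)^[i + n₁] (up x 0) := by
            intro i
            rw [Function.iterate_add_apply, hy]
          have h3 := ih (n - n₁) (by omega) (dn y 0) (by omega) ⟨y, Or.inr rfl⟩
            (by rw [hit, Nat.sub_add_cancel hlt.le]; exact hδ)
            (fun i hi => by rw [hit]; exact hR _ (by omega))
            (fun i h0 hi => by rw [hit]; exact hK _ (by omega) (by omega))
          rw [hit, Nat.sub_add_cancel hlt.le] at h3
          exact G.trans hrel h3
        · have : n₁ = n := le_antisymm hfind.1 hge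
          rw [← this, hy, rev_dn]
          exact hrel
      · -- never below level zero: then the end side would be an up side entered from below
        exfalso
        rcases lev_cases hδ with ⟨y, hy⟩ | ⟨y, hy⟩
        · -- the previous tile has row -1
          obtain ⟨j, hj⟩ : ∃ j, n = j + 1 := ⟨n - 1, by omega⟩
          apply hex
          refine ⟨j, by omega, ?_⟩
          have h1 : (rev ((nxt t)^[n] (up x 0))).1 = ((nxt t)^[j] (up x 0)).1 := by
            rw [hj, Function.iterate_succ_apply', rev_nxt]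
          rw [hy, rev_up] at h1
          rw [← h1]
          simp [dn]
        · apply hex
          refine ⟨n, le_rfl, ?_⟩
          rw [hy]
          simp [dn]
    · by_cases hex : ∃ i, i ≤ n ∧ 0 ≤ ((nxt t)^[i] (dn x 0)).1.2
      · have hfind := Nat.find_spec hex
        set n₁ := Nat.find hex with hn₁
        have hmin : ∀ i < n₁, ((nxt t)^[i] (dn x 0)).1.2 < 0 := by
          intro i hi
          by_contra hc
          exact Nat.find_min hex hi ⟨by omega, not_lt.1 hc⟩
        have hn₁0 : n₁ ≠ 0 := by
          intro h0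
          rw [h0] at hfind
          have := hfind.2
          simp [dn] at this
        obtain ⟨j, hj⟩ : ∃ j, n₁ = j + 1 := ⟨n₁ - 1, by omega⟩
        obtain ⟨y, hy⟩ : ∃ y, (nxt t)^[n₁] (dn x 0) = up y 0 := by
          rw [hj, Function.iterate_succ_apply']
          apply cross_up (hmin j (by omega))
          have := hfind.2
          rwa [hj, Function.iterate_succ_apply'] at this
        have hp : PathDn t m x y := ⟨n₁, hy, fun i hi => ⟨(hR i (by omega)).1, hmin i hi⟩⟩
        have hrel := hB _ _ (nd_ge L x) (nd_ge L y) (rel_of_pathDn hL ht hb' hτ hp)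
        rw [← lab_dn L k x, ← lab_dn L k y] at hrel
        rcases Nat.lt_or_ge n₁ n with hlt | hge
        · have hk := hK n₁ (by omega) hlt
          rw [hy] at hk
          rw [← lab_eq hk] at hrel
          have hit : ∀ i, (nxt t)^[i] (up y 0) = (nxt t)^[i + n₁] (dn x 0) := by
            intro i
            rw [Function.iterate_add_apply, hy]
          have h3 := ih (n - n₁) (by omega) (up y 0) (by omega) ⟨y, Or.inl rfl⟩
            (by rw [hit, Nat.sub_add_cancel hlt.le]; exact hδ)
            (fun i hi => by rw [hit]; exact hR _ (by omega))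
            (fun i h0 hi => by rw [hit]; exact hK _ (by omega) (by omega))
          rw [hit, Nat.sub_add_cancel hlt.le] at h3
          exact G.trans hrel h3
        · have : n₁ = n := le_antisymm hfind.1 hge
          rw [← this, hy, rev_up]
          exact hrel
      · exfalso
        rcases lev_cases hδ with ⟨y, hy⟩ | ⟨y, hy⟩
        · apply hex
          refine ⟨n, le_rfl, ?_⟩
          rw [hy]
          simp [up]
        · obtain ⟨j, hj⟩ : ∃ j, n = j + 1 := ⟨n - 1, by omega⟩
          apply hex
          refine ⟨j, by omega, ?_⟩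
          have h1 : (rev ((nxt t)^[n] (dn x 0))).1 = ((nxt t)^[j] (dn x 0)).1 := by
            rw [hj, Function.iterate_succ_apply', rev_nxt]
          rw [hy, rev_dn] at h1
          rw [← h1]
          simp [up]

end H81Tile
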