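import Pool.Agent.Helper81.Tile.Basic

/-!
A closed interface separates: potentials of finite sets of sides closed under the tiles, and the
equivalence of `the interface through a side leaves D` and `both corners of the side are joined to
the boundary of D`.
-/

namespace H81Tile
open Finset

lemma cor_rev1 (p : ℤ × ℤ) (c : Fin 4) : cor (p + dr c) (c + 2) = cor p (c + 1) := by
  obtain ⟨x, y⟩ := p
  fin_cases c <;> simp [cor, co, dr]

lemma cor_rev2 (p : ℤ × ℤ) (c : Fin 4) : cor (p + dr c) (c + 3) = cor p c := by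
  obtain ⟨x, y⟩ := p
  fin_cases c <;> simp [cor, co, dr]

lemma prt_eq_succ : ∀ (b : Bool) (c : Fin 4), (b = true ↔ (c = 0 ∨ c = 2)) → prt b c = c + 1 := by
  decide

/-- the set `O` of directed sides is closed under reversal and under the tiles -/
structure Closed (t : TC) (O : Set DS) : Prop where
  rv : ∀ d ∈ O, rev d ∈ O
  pr : ∀ d ∈ O, (d.1, prt (t d.1) d.2) ∈ O

lemma Closed.rv_iff {t : TC} {O : Set DS} (h : Closed t O) (d : DS) : rev d ∈ O ↔ d ∈ O := by
  constructor
  · intro h1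
    have := h.rv _ h1
    rwa [rev_rev] at this
  · exact h.rv d

lemma Closed.pr_iff {t : TC} {O : Set DS} (h : Closed t O) (p : ℤ × ℤ) (c : Fin 4) :
    (p, prt (t p) c) ∈ O ↔ (p, c) ∈ O := by
  constructor
  · intro h1
    have := h.pr _ h1
    simp only [prt_prt] at this
    exact this
  · exact h.pr (p, c)

open Classical in
/-- indicator function modulo two -/
noncomputable def chi (O : Set DS) (d : DS) : ZMod 2 := if d ∈ O then 1 else 0

lemma chi_of_iff {O : Set DS} {d e : DS} (h : d ∈ O ↔ e ∈ O) : chi O d = chi O e := by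
  unfold chi
  by_cases hd : d ∈ O
  · rw [if_pos hd, if_pos (h.1 hd)]
  · rw [if_neg hd, if_neg (fun h1 => hd (h.2 h1))]

lemma chi_sum {t : TC} {O : Set DS} (h : Closed t O) (p : ℤ × ℤ) :
    chi O (p, 0) + chi O (p, 1) + chi O (p, 2) + chi O (p, 3) = 0 := by
  have h2 : ∀ a : ZMod 2, a + a = 0 := CharTwo.add_self_eq_zero
  have hp := fun c => chi_of_iff (h.pr_iff p c)
  rcases hb : t p with _ | _
  · have h0 := hp 0
    have h1 := hp 1
    simp only [hb, prt] at h0 h1
    have h0' : chi O (p, 3) = chi O (p, 0) := h0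
    have h1' : chi O (p, 2) = chi O (p, 1) := h1
    rw [h0', h1']
    calc _ = (chi O (p, 0) + chi O (p, 0)) + (chi O (p, 1) + chi O (p, 1)) := by ring
      _ = 0 := by rw [h2, h2, add_zero]
  · have h0 := hp 0
    have h1 := hp 2
    simp only [hb, prt] at h0 h1
    have h0' : chi O (p, 1) = chi O (p, 0) := h0
    have h1' : chi O (p, 3) = chi O (p, 2) := h1
    rw [h0', h1']
    calc _ = (chi O (p, 0) + chi O (p, 0)) + (chi O (p, 2) + chi O (p, 2)) := by ring
      _ = 0 := by rw [h2, h2, add_zero]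

/-- the properties of the potential of a closed set of sides -/
structure IsPot (t : TC) (O : Set DS) (W : ℤ × ℤ → ZMod 2) : Prop where
  side : ∀ d, W (lc d) + W (rc d) = chi O d
  join : ∀ p u v, Jn t p u v → W u = W v
  far : ∃ N : ℤ, ∀ q : ℤ × ℤ, (N < |q.1| ∨ N < |q.2|) → W q = 0

lemma eq_of_add_zero {a b : ZMod 2} (h : a + b = 0) : a = b := by
  have h2 : b + b = 0 := CharTwo.add_self_eq_zero b
  calc a = a + (b + b) := by rw [h2, add_zero]
    _ = (a + b) + b := by ring
    _ = b := by rw [h, zero_add]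

theorem exists_pot {t : TC} {O : Set DS} (h : Closed t O) (hf : O.Finite) :
    ∃ W, IsPot t O W := by
  classical
  -- a bound
  obtain ⟨N, hN⟩ : ∃ N : ℤ, ∀ d ∈ O, |d.1.1| ≤ N ∧ |d.1.2| ≤ N := by
    refine ⟨∑ d ∈ hf.toFinset, (|d.1.1| + |d.1.2|), fun d hd => ?_⟩
    have h1 : |d.1.1| + |d.1.2| ≤ ∑ d ∈ hf.toFinset, (|d.1.1| + |d.1.2|) :=
      single_le_sum (f := fun d : DS => |d.1.1| + |d.1.2|)
        (fun d _ => add_nonneg (abs_nonneg _) (abs_nonneg _)) (hf.mem_toFinset.2 hd)
    have h2 := abs_nonneg d.1.1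
    have h3 := abs_nonneg d.1.2
    constructor <;> linarith
  have hchi : ∀ x y c, (N < |x| ∨ N < |y|) → chi O ((x, y), c) = 0 := by
    intro x y c hxy
    unfold chi
    rw [if_neg]
    intro hd
    have := hN _ hd
    rcases hxy with hx | hy
    · exact absurd this.1 (not_le.2 hx)
    · exact absurd this.2 (not_le.2 hy)
  have hr : ∀ d, chi O (rev d) = chi O d := fun d => chi_of_iff (h.rv_iff d)
  have e1 : ∀ x y, chi O ((x + 1, y), 3) = chi O ((x, y), 1) := by
    intro x y
    rw [← hr ((x, y), 1)]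
    simp [rev, dr]
  have e2 : ∀ x y, chi O ((x, y + 1), 0) = chi O ((x, y), 2) := by
    intro x y
    rw [← hr ((x, y), 2)]
    simp [rev, dr]
  obtain ⟨W, hW1, hW2, hW3⟩ := exists_potential (fun x y => chi O ((x, y), 0))
    (fun x y => chi O ((x, y), 3)) N
    (by
      intro x y
      show chi O ((x, y), 0) + chi O ((x + 1, y), 3) + chi O ((x, y + 1), 0) +
        chi O ((x, y), 3) = 0
      rw [e1, e2]
      exact chi_sum h (x, y))
    (fun x y hxy => hchi x y 0 hxy) (fun x y hxy => hchi x y 3 hxy)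
  have hside : ∀ d : DS, W (lc d).1 (lc d).2 + W (rc d).1 (rc d).2 = chi O d := by
    rintro ⟨⟨x, y⟩, c⟩
    fin_cases c
    · simpa [lc, rc, cor, co] using hW1 x y
    · have := hW2 (x + 1) y
      simp only [e1] at this
      simpa [lc, rc, cor, co] using this
    · have := hW1 x (y + 1)
      simp only [e2] at this
      rw [add_comm] at this
      simpa [lc, rc, cor, co] using this
    · have := hW2 x y
      rw [add_comm] at this
      simpa [lc, rc, cor, co] using this
  refine ⟨fun q => W q.1 q.2, hside, ?_, N, fun q hq => hW3 q.1 q.2 hq⟩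
  rintro p u v ⟨c, rfl, rfl, hc⟩
  have h1 := hside (p, c)
  have h2 := hside (p, c + 1)
  have hpr : prt (t p) c = c + 1 := prt_eq_succ (t p) c hc
  have h3 : chi O (p, c + 1) = chi O (p, c) := by
    have := chi_of_iff (h.pr_iff p c)
    rwa [hpr] at this
  have e4 : rc (p, c + 1) = cor p (c + 2) := by
    unfold rc
    congr 1
    show c + 1 + 1 = c + 2
    rw [add_assoc]; rfl
  have e5 : lc (p, c + 1) = rc (p, c) := rfl
  have e6 : lc (p, c) = cor p c := rfl
  rw [e4, e5, h3, ← h1, e6] at h2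
  show W (cor p c).1 (cor p c).2 = W (cor p (c + 2)).1 (cor p (c + 2)).2
  generalize W (cor p c).1 (cor p c).2 = a at *
  generalize W (cor p (c + 2)).1 (cor p (c + 2)).2 = b at *
  generalize W (rc (p, c)).1 (rc (p, c)).2 = e at *
  have : e + b = e + a := by rw [h2, add_comm]
  exact (add_left_cancel this).symm

lemma IsPot.conn {t : TC} {O : Set DS} {W : ℤ × ℤ → ZMod 2} (hW : IsPot t O W)
    {D : Set (ℤ × ℤ)} {u v : ℤ × ℤ} (h : CConn t D u v) : W u = W v := by
  induction h with
  | refl => rfl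
  | tail _ h2 ih =>
    obtain ⟨p, _, h3⟩ := h2
    rw [ih]
    exact hW.join p _ _ h3

/-- from every tile outside `D` one can go straight to infinity outside `D` -/
def Out (D : Set (ℤ × ℤ)) : Prop := ∀ p, p ∉ D → ∃ c : Fin 4, ∀ k : ℕ, p + (k : ℤ) • dr c ∉ D

lemma far_ray (N : ℤ) (p : ℤ × ℤ) (c : Fin 4) :
    ∃ k : ℕ, N < |(p + (k : ℤ) • dr c).1| ∨ N < |(p + (k : ℤ) • dr c).2| := by
  obtain ⟨x, y⟩ := p
  refine ⟨(|N| + |x| + |y| + 1).toNat, ?_⟩
  have h0 := abs_nonneg N
  have h1 := abs_nonneg x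
  have h2 := abs_nonneg y
  have h3 := le_abs_self N
  have h4 := neg_abs_le x
  have h5 := neg_abs_le y
  have h6 := le_abs_self x
  have h7 := le_abs_self y
  have hk : (((|N| + |x| + |y| + 1).toNat : ℕ) : ℤ) = |N| + |x| + |y| + 1 :=
    Int.toNat_of_nonneg (by linarith)
  rw [hk]
  fin_cases c
  · right
    simp only [dr]
    apply lt_abs.2
    right
    simp
    linarith
  · left
    simp only [dr]
    apply lt_abs.2
    left
    simp
    linarith
  · right
    simp only [dr]
    apply lt_abs.2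
    left
    simp
    linarith
  · left
    simp only [dr]
    apply lt_abs.2
    right
    simp
    linarith

/-- the potential vanishes at all corners of tiles outside `D`, if all sides in `O` lie
inside `D` -/
theorem IsPot.outside {t : TC} {O : Set DS} {W : ℤ × ℤ → ZMod 2} (hW : IsPot t O W)
    {D : Set (ℤ × ℤ)} (hD : Out D) (hO : ∀ d ∈ O, d.1 ∈ D)
    {p : ℤ × ℤ} (hp : p ∉ D) (c : Fin 4) : W (cor p c) = 0 := by
  have h0 : ∀ p, p ∉ D → ∀ c, chi O (p, c) = 0 := by
    intro p hp c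
    unfold chi
    exact if_neg (fun h => hp (hO _ h))
  have h1 : ∀ p, p ∉ D → ∀ c, W (cor p c) = W (cor p (c + 1)) := by
    intro p hp c
    have := hW.side (p, c)
    rw [h0 p hp c] at this
    exact eq_of_add_zero this
  have h2 : ∀ p, p ∉ D → ∀ c, W (cor p c) = W (cor p 0) := by
    intro p hp c
    have a0 := h1 p hp 0
    have a1 := h1 p hp 1
    have a2 := h1 p hp 2
    fin_cases c
    · rfl
    · exact a0.symm
    · exact (a0.trans a1).symm
    · exact (a0.trans (a1.trans a2)).symm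
  obtain ⟨N, hN⟩ := hW.far
  obtain ⟨e, he⟩ := hD p hp
  have h3 : ∀ k : ℕ, W (cor (p + (k : ℤ) • dr e) 0) = W (cor p 0) := by
    intro k
    induction k with
    | zero => simp
    | succ k ih =>
      rw [← ih]
      have e1 : p + ((k + 1 : ℕ) : ℤ) • dr e = (p + (k : ℤ) • dr e) + dr e := by
        push_cast
        rw [add_smul, one_smul, add_assoc]
      have h4 := he (k + 1)
      rw [e1] at h4 ⊢
      rw [← h2 _ h4 (e + 3), cor_rev2, h2 _ (he k)]
  obtain ⟨k, hk⟩ := far_ray N p e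
  have h5 : W (cor (p + (k : ℤ) • dr e) 0) = 0 := by
    have : cor (p + (k : ℤ) • dr e) 0 = p + (k : ℤ) • dr e := by simp [cor, co]
    rw [this]
    exact hN _ hk
  rw [h2 p hp c, ← h3 k, h5]

/-- `u` is a corner of a tile outside `D` -/
def OnBd (D : Set (ℤ × ℤ)) (u : ℤ × ℤ) : Prop := ∃ p, p ∉ D ∧ ∃ c, u = cor p c

/-- the corner `u` is connected to the boundary inside `D` -/
def Reach (t : TC) (D : Set (ℤ × ℤ)) (u : ℤ × ℤ) : Prop := ∃ v, OnBd D v ∧ CConn t D u v

/-- the interface through `d`, followed in the direction of `d`, leaves `D` -/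
def Leaves (t : TC) (D : Set (ℤ × ℤ)) (d : DS) : Prop := ∃ k : ℕ, ((nxt t)^[k] d).1 ∉ D

theorem reach_of_leaves {t : TC} {D : Set (ℤ × ℤ)} {d : DS} (h : Leaves t D d) :
    Reach t D (lc d) ∧ Reach t D (rc d) := by
  classical
  obtain ⟨h1, h2⟩ := conn_iter t D d (Nat.find h) (fun i hi => by
    by_contra hc
    exact Nat.find_min h hi hc)
  have h3 := Nat.find_spec h
  exact ⟨⟨_, ⟨_, h3, _, rfl⟩, h1⟩, ⟨_, ⟨_, h3, _, rfl⟩, h2⟩⟩

theorem leaves_of_reach {t : TC} {D : Set (ℤ × ℤ)} (hf : D.Finite) (hD : Out D) {d : DS}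
    (h1 : Reach t D (lc d)) (h2 : Reach t D (rc d)) : Leaves t D d := by
  classical
  by_contra hc
  have hc' : ∀ k : ℕ, ((nxt t)^[k] d).1 ∈ D := by
    intro k
    by_contra h3
    exact hc ⟨k, h3⟩
  let S : Set DS := Set.range (fun k : ℕ => (nxt t)^[k] d)
  have hSf : S.Finite := by
    apply Set.Finite.subset (hf.prod (Set.finite_univ (α := Fin 4)))
    rintro _ ⟨k, rfl⟩
    exact ⟨hc' k, Set.mem_univ _⟩
  have hSD : ∀ e ∈ S, e.1 ∈ D := by
    rintro _ ⟨k, rfl⟩
    exact hc' k
  have hSn : ∀ e ∈ S, nxt t e ∈ S := by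
    rintro _ ⟨k, rfl⟩
    exact ⟨k + 1, Function.iterate_succ_apply' _ _ _⟩
  have hSp : ∀ e ∈ S, ∃ e' ∈ S, nxt t e' = e := by
    have hinj : Set.InjOn (nxt t) S := fun a _ b _ hab => (stp t).injective hab
    have himg : nxt t '' S = S := by
      apply Set.eq_of_subset_of_ncard_le
      · rintro _ ⟨e, he, rfl⟩
        exact hSn e he
      · rw [Set.InjOn.ncard_image hinj]
      · exact hSf
    intro e he
    rw [← himg] at he
    obtain ⟨e', h3, h4⟩ := he
    exact ⟨e', h3, h4⟩
  let O : Set DS := S ∪ rev '' S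
  have hOf : O.Finite := hSf.union (hSf.image _)
  have hcl : Closed t O := by
    constructor
    · rintro e (he | ⟨e', he', rfl⟩)
      · exact Or.inr ⟨e, he, rfl⟩
      · rw [rev_rev]; exact Or.inl he'
    · rintro e (he | ⟨e', he', rfl⟩)
      · right
        exact ⟨nxt t e, hSn e he, rev_nxt t e⟩
      · left
        obtain ⟨e'', h3, rfl⟩ := hSp e' he'
        rw [rev_nxt]
        simp only [prt_prt]
        exact h3
  have hOD : ∀ e ∈ O, e.1 ∈ D := by
    rintro e (he | ⟨e', he', rfl⟩)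
    · exact hSD e he
    · obtain ⟨e'', h3, rfl⟩ := hSp e' he'
      rw [rev_nxt]
      exact hSD e'' h3
  obtain ⟨W, hW⟩ := exists_pot hcl hOf
  have hdO : d ∈ O := Or.inl ⟨0, rfl⟩
  have h3 := hW.side d
  have h4 : ∀ u, Reach t D u → W u = 0 := by
    rintro u ⟨v, ⟨p, hp, c, rfl⟩, h5⟩
    rw [hW.conn h5]
    exact hW.outside hD hOD hp c
  rw [h4 _ h1, h4 _ h2] at h3
  unfold chi at h3
  rw [if_pos hdO] at h3
  simp at h3

theorem leaves_iff {t : TC} {D : Set (ℤ × ℤ)} (hf : D.Finite) (hD : Out D) (d : DS) :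
    Leaves t D d ↔ Reach t D (lc d) ∧ Reach t D (rc d) :=
  ⟨reach_of_leaves, fun h => leaves_of_reach hf hD h.1 h.2⟩

theorem leaves_rev_iff {t : TC} {D : Set (ℤ × ℤ)} (hf : D.Finite) (hD : Out D) (d : DS) :
    Leaves t D (rev d) ↔ Leaves t D d := by
  rw [leaves_iff hf hD, leaves_iff hf hD, lc_rev, rc_rev, and_comm]

/-- a finite closed interface: the cluster of one of the two corners of each of its sides has
potential one, hence avoids all corners with potential zero -/
theorem closed_separates {t : TC} {O : Set DS} (h : Closed t O) (hf : O.Finite) {d : DS}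
    (hd : d ∈ O) : ∃ W, IsPot t O W ∧ (W (lc d) = 1 ∧ W (rc d) = 0 ∨ W (lc d) = 0 ∧ W (rc d) = 1) := by
  obtain ⟨W, hW⟩ := exists_pot h hf
  refine ⟨W, hW, ?_⟩
  have h1 := hW.side d
  unfold chi at h1
  rw [if_pos hd] at h1
  generalize W (lc d) = a at *
  generalize W (rc d) = b at *
  clear hW
  revert a b
  decide

end H81Tile
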