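import Mathlib

/-!
Discrete potentials modulo two of finitely supported closed one-forms on `ℤ × ℤ`.
-/

namespace H81Tile
open Finset

/-- sum of `f` from `x` to the right, up to `N` -/
def tailSum (N : ℤ) (f : ℤ → ZMod 2) (x : ℤ) : ZMod 2 :=
  ∑ i ∈ range (N + 1 - x).toNat, f (x + i)

lemma tailSum_of_gt {N : ℤ} {f : ℤ → ZMod 2} {x : ℤ} (hx : N < x) : tailSum N f x = 0 := by
  unfold tailSum
  have : (N + 1 - x).toNat = 0 := by omega
  rw [this, range_zero, sum_empty]

lemma tailSum_step {N : ℤ} {f : ℤ → ZMod 2} (hf : ∀ x, N < x → f x = 0) (x : ℤ) :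
    tailSum N f x = f x + tailSum N f (x + 1) := by
  by_cases hx : N < x
  · rw [tailSum_of_gt hx, tailSum_of_gt (by omega), hf x hx, add_zero]
  · unfold tailSum
    have : (N + 1 - x).toNat = (N + 1 - (x + 1)).toNat + 1 := by omega
    rw [this, sum_range_succ', add_comm]
    simp only [Nat.cast_zero, add_zero]
    congr 1
    apply sum_congr rfl
    intro i _
    congr 1
    push_cast
    ring

theorem exists_potential (h v : ℤ → ℤ → ZMod 2) (N : ℤ)
    (hc : ∀ x y, h x y + v (x + 1) y + h x (y + 1) + v x y = 0)
    (hh : ∀ x y, (N < |x| ∨ N < |y|) → h x y = 0)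
    (hv : ∀ x y, (N < |x| ∨ N < |y|) → v x y = 0) :
    ∃ W : ℤ → ℤ → ZMod 2, (∀ x y, W x y + W (x + 1) y = h x y) ∧
      (∀ x y, W x y + W x (y + 1) = v x y) ∧
      (∀ x y, (N < |x| ∨ N < |y|) → W x y = 0) := by
  have h2 : ∀ a : ZMod 2, a + a = 0 := CharTwo.add_self_eq_zero
  have hz : ∀ y x, N < x → h x y = 0 := fun y x hx =>
    hh x y (Or.inl (lt_of_lt_of_le hx (le_abs_self x)))
  have hzv : ∀ y x, N < x → v x y = 0 := fun y x hx =>
    hv x y (Or.inl (lt_of_lt_of_le hx (le_abs_self x)))
  let W : ℤ → ℤ → ZMod 2 := fun x y => tailSum N (fun x => h x y) x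
  have hW : ∀ x y, W x y = h x y + W (x + 1) y := fun x y =>
    tailSum_step (fun x hx => hz y x hx) x
  have hW0 : ∀ x y, N < x → W x y = 0 := fun x y hx => tailSum_of_gt hx
  have hver : ∀ x y, W x y + W x (y + 1) = v x y := by
    have key : ∀ (k : ℕ) x y, N - k < x → W x y + W x (y + 1) = v x y := by
      intro k
      induction k with
      | zero =>
        intro x y hx
        simp only [Nat.cast_zero, sub_zero] at hx
        rw [hW0 x y hx, hW0 x (y + 1) hx, hzv y x hx, add_zero]
      | succ k ih =>
        intro x y hx
        have h3 := ih (x + 1) y (by push_cast at hx; linarith)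
        rw [hW x y, hW x (y + 1)]
        have h4 := hc x y
        have h5 : v x y = h x y + v (x + 1) y + h x (y + 1) := by
          have := h2 (v x y)
          calc v x y = (h x y + v (x + 1) y + h x (y + 1) + v x y) + v x y := by
                rw [h4, zero_add]
            _ = h x y + v (x + 1) y + h x (y + 1) + (v x y + v x y) := by ring
            _ = _ := by rw [this, add_zero]
        rw [h5, ← h3]
        ring
    intro x y
    exact key (N - x + 1).toNat x y (by have := Int.self_le_toNat (N - x + 1); linarith)
  have hrow : ∀ x y, N < |y| → W x y = 0 := by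
    intro x y hy
    show tailSum N (fun x => h x y) x = 0
    unfold tailSum
    exact sum_eq_zero (fun i _ => hh _ _ (Or.inr hy))
  refine ⟨W, ?_, hver, ?_⟩
  · intro x y
    rw [hW x y, add_assoc, h2, add_zero]
  · intro x y hxy
    rcases hxy with hx | hy
    · rcases lt_abs.1 hx with hx' | hx'
      · exact hW0 x y hx'
      · -- far to the left: move up
        have hstep : ∀ y, W x y = W x (y + 1) := by
          intro y
          have := hver x y
          rw [hv x y (Or.inl hx)] at this
          calc W x y = W x y + (W x (y + 1) + W x (y + 1)) := by rw [h2, add_zero]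
            _ = (W x y + W x (y + 1)) + W x (y + 1) := by ring
            _ = _ := by rw [this, zero_add]
        have hk : ∀ (k : ℕ), W x y = W x (y + k) := by
          intro k
          induction k with
          | zero => simp
          | succ k ih =>
            rw [ih, hstep]
            congr 1
            push_cast
            ring
        rw [hk (N - y + 1).toNat]
        apply hrow
        apply lt_abs.2
        left
        have := Int.self_le_toNat (N - y + 1)
        linarith
    · exact hrow x y hy

end H81Tile
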