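import Pool.Agent.Helper81.Tile.Upper

/-!
The interface that starts at a cut side comes back to a cut side inside the strip, if there are
winding circuits in the upper and in the lower half of the strip.
-/

namespace H81Tile
open Finset IPC

/-- crossing the level `b` upwards -/
lemma cross_up_level {t : TC} {d : DS} {b : ℤ} (h1 : d.1.2 < b) (h2 : b ≤ (nxt t d).1.2) :
    ∃ y, nxt t d = up y b := by
  obtain ⟨⟨x, j⟩, c⟩ := d
  unfold nxt at h2 ⊢
  simp only at h1 h2 ⊢
  generalize prt (t (x, j)) c = c' at *
  fin_cases c'
  · simp [rev, dr] at h2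
    omega
  · simp [rev, dr] at h2
    omega
  · simp [rev, dr] at h2 ⊢
    have : j = b - 1 := by omega
    subst this
    exact ⟨x, by simp [up]⟩
  · simp [rev, dr] at h2
    omega

/-- crossing the level `b` downwards -/
lemma cross_dn_level {t : TC} {d : DS} {b : ℤ} (h1 : b ≤ d.1.2) (h2 : (nxt t d).1.2 < b) :
    ∃ y, nxt t d = dn y b := by
  obtain ⟨⟨x, j⟩, c⟩ := d
  unfold nxt at h2 ⊢
  simp only at h1 h2 ⊢
  generalize prt (t (x, j)) c = c' at *
  fin_cases c'
  · simp [rev, dr] at h2 ⊢
    have : j = b := by omega
    subst this
    exact ⟨x, by simp [dn]; omega⟩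
  · simp [rev, dr] at h2
    omega
  · simp [rev, dr] at h2
    omega
  · simp [rev, dr] at h2
    omega

/-- a winding circuit in the rows `a, ..., b-1` (two turns are enough) -/
def Wind (t : TC) (L a b : ℤ) : Prop := ∃ u : ℤ × ℤ, CConn t (rows a b) u (u.1 + (L + L), u.2)

lemma Wind.of_one {t : TC} {L a b : ℤ} (ht : Per L t) {u : ℤ × ℤ}
    (h : CConn t (rows a b) u (u.1 + L, u.2)) : Wind t L a b := by
  refine ⟨u, ?_⟩
  have hsh : ∀ {v w : ℤ × ℤ}, CConn t (rows a b) v w →
      CConn t (rows a b) (v.1 + L, v.2) (w.1 + L, w.2) := by
    intro v w hvw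
    induction hvw with
    | refl => exact Relation.ReflTransGen.refl
    | tail _ h2 ih =>
      obtain ⟨p, hp, c, rfl, rfl, hc⟩ := h2
      refine ih.tail ⟨(p.1 + L, p.2), hp, c, ?_, ?_, ?_⟩
      · unfold cor; ext <;> simp <;> ring
      · unfold cor; ext <;> simp <;> ring
      · rw [ht p]; exact hc
  have := h.trans (hsh h)
  simp only at this
  rwa [add_assoc] at this

lemma cconn_level {t : TC} {a b : ℤ} {u v : ℤ × ℤ} (h : CConn t (rows a b) u v) (hne : u ≠ v) :
    a ≤ u.2 ∧ u.2 ≤ b := by
  rcases Relation.ReflTransGen.cases_head h with h | ⟨w, ⟨p, hp, c, h1, _⟩, _⟩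
  · exact absurd h hne
  · rw [h1]
    obtain ⟨h2, h3⟩ := hp
    obtain ⟨x, y⟩ := p
    simp only at h2 h3
    fin_cases c <;> simp [cor, co] <;> omega

/-- the number of sides of a periodic set on a line in one period is even, if there is a winding
circuit -/
theorem even_of_wind {t : TC} {O : Set DS} {L : ℕ} {a b : ℤ} (hL : 0 < L)
    (hO : ClosedOn t (rows a b) O) (hI : Inv ((L : ℤ) + L) O) (hw : Wind t L a b) (x y : ℤ)
    (h1 : a ≤ y) (h2 : y ≤ b) : ∑ i ∈ range (L + L), chi O (up (x + i) y) = 0 := by
  obtain ⟨W, hW⟩ := exists_potOn hO
  obtain ⟨u, hu⟩ := hw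
  have hL' : (0 : ℤ) < L := by exact_mod_cast hL
  have hne : u ≠ (u.1 + ((L : ℤ) + L), u.2) := by
    intro h
    have := congrArg Prod.fst h
    simp only at this
    omega
  have hlev := cconn_level hu hne
  have e1 : W u = W (u.1 + ((L : ℤ) + L), u.2) := hW.conn hO (le_refl _) hu
  have e2 := hW.shift hI (x := x) (y := y) (x' := u.1) (y' := u.2) h1 h2 hlev.1 hlev.2
  have e3 := hW.sum x y h1 h2 (L + L)
  push_cast at e3
  rw [← e3, e2]
  show W u + W (u.1 + ((L : ℤ) + L), u.2) = 0
  rw [← e1]
  exact zz _

/-- reduction of a directed side modulo the period -/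
lemma sh_emod {p : ℤ} (d : DS) : ∃ k : ℤ, sh (k * p) ((d.1.1 % p, d.1.2), d.2) = d := by
  refine ⟨d.1.1 / p, ?_⟩
  unfold sh
  have := Int.emod_add_mul_ediv d.1.1 p
  obtain ⟨⟨x, y⟩, c⟩ := d
  simp only at this ⊢
  rw [mul_comm, this]

lemma Per.two {L : ℤ} {t : TC} (ht : Per L t) : Per (L + L) t := by
  intro p
  have := ht.mul 2 p
  rw [show (2 : ℤ) * L = L + L by ring] at this
  exact this

/-- the return of the interface -/
theorem returns {L m k : ℕ} (hL : 0 < L) (hm : 0 < m) {t : TC} (ht : Per L t)
    (hup : Wind t L 0 m) (hdn : Wind t L (-m) 0) {d : DS} (hd : d ∈ Kut L k) :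
    ∃ n, 0 < n ∧ (nxt t)^[n] d ∈ Kut L k ∧ (∀ i, 0 < i → i < n → (nxt t)^[i] d ∉ Kut L k) ∧
      ∀ i < n, ((nxt t)^[i] d).1 ∈ rows (-m) m := by
  classical
  have hL' : (0 : ℤ) < L := by exact_mod_cast hL
  have hm' : (0 : ℤ) < m := by exact_mod_cast hm
  have ht2 : Per ((L : ℤ) + L) t := ht.two
  have hd0 : d.1 ∈ rows (-m) m := by
    rcases kut_rows hd with ⟨h, _⟩ | ⟨h, _⟩
    · constructor <;> rw [h] <;> omega
    · constructor <;> rw [h] <;> omega
  by_cases hex : ∃ n, 0 < n ∧ ((nxt t)^[n] d ∈ Kut L k ∨ ((nxt t)^[n] d).1 ∉ rows (-m) m)
  · obtain ⟨hn0, hn⟩ := Nat.find_spec hex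
    set n := Nat.find hex with hnd
    have hmin : ∀ i, 0 < i → i < n → (nxt t)^[i] d ∉ Kut L k ∧ ((nxt t)^[i] d).1 ∈ rows (-m) m := by
      intro i h0 hi
      have := Nat.find_min hex hi
      push Not at this
      exact this h0
    have hrow : ∀ i < n, ((nxt t)^[i] d).1 ∈ rows (-m) m := by
      intro i hi
      rcases Nat.eq_zero_or_pos i with rfl | h
      · exact hd0
      · exact (hmin i h hi).2
    by_cases hK : (nxt t)^[n] d ∈ Kut L k
    · exact ⟨n, hn0, hK, fun i h0 hi => (hmin i h0 hi).1, hrow⟩
    · exfalso
      have hout : ((nxt t)^[n] d).1 ∉ rows (-m) m := by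
        rcases hn with h | h
        · exact absurd h hK
        · exact h
      -- the set of sides
      have hcut := cpath_exit_cutClosed (t := t) (R := rows (-m) m) hd hn0 hout
      set P := cpath t d n ∪ {(nxt t)^[n] d} with hP
      have hcutO : CutClosed t (rows (-m) m) (Kut L k) (spread ((L : ℤ) + L) P) :=
        hcut.spread ht2 (fun _ _ hp => hp) (fun j e => kut_sh j e)
      have hInv : Inv ((L : ℤ) + L) (spread ((L : ℤ) + L) P) := by
        intro e
        have := spread_sh ((L : ℤ) + L) P 1 e
        rwa [one_mul] at this
      have htile : ∀ e ∈ cpath t d n, e.1 ∈ rows (-m) m := by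
        rintro e ⟨i, ⟨hi, rfl⟩ | ⟨h0, hi, rfl⟩⟩
        · exact hrow i hi
        · obtain ⟨j, rfl⟩ : ∃ j, i = j + 1 := ⟨i - 1, by omega⟩
          rw [Function.iterate_succ_apply', rev_nxt]
          exact hrow j (by omega)
      obtain ⟨j, hj⟩ : ∃ j, n = j + 1 := ⟨n - 1, by omega⟩
      have hprev := hrow j (by omega)
      -- a side of the orbit whose reverse tile is outside the strip
      have hfirst : ∀ i ≤ n, ∀ e : DS, e = (nxt t)^[i] d → (rev e).1 ∉ rows (-m) m → False := by
        intro i hi e he hr
        rcases Nat.eq_zero_or_pos i with rfl | h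
        · apply hr
          rw [he]
          show (rev d).1 ∈ _
          rcases kut_rows hd with ⟨_, h⟩ | ⟨_, h⟩
          · constructor <;> rw [h] <;> omega
          · constructor <;> rw [h] <;> omega
        · obtain ⟨j', rfl⟩ : ∃ j', i = j' + 1 := ⟨i - 1, by omega⟩
          apply hr
          rw [he, Function.iterate_succ_apply', rev_nxt]
          exact hrow j' (by omega)
      have hcase : (m : ℤ) ≤ ((nxt t)^[n] d).1.2 ∨ ((nxt t)^[n] d).1.2 < -m := by
        by_contra hc
        push Not at hc
        exact hout ⟨hc.2, hc.1⟩
      rcases hcase with hc | hc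
      · -- exit at the top
        obtain ⟨x0, hx0⟩ : ∃ x0, (nxt t)^[n] d = up x0 m := by
          rw [hj, Function.iterate_succ_apply'] at hc ⊢
          exact cross_up_level hprev.2 hc
        have hev := even_of_wind hL (upO_closed hcutO) hInv.upO hup x0 m hm'.le le_rfl
        have hone : ∀ i : ℕ, i < L + L → i ≠ 0 →
            chi (upO (spread ((L : ℤ) + L) P)) (up (x0 + i) m) = 0 := by
          intro i hi h0
          unfold chi
          rw [if_neg]
          rintro (⟨⟨a, ha⟩, _⟩ | ⟨⟨a, ha⟩, _⟩)
          · rcases ha with ha | ha
            · have := (htile _ ha).2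
              simp [sh, up] at this
            · rw [Set.mem_singleton_iff, hx0] at ha
              have := congrArg (fun e : DS => e.1.1) ha
              simp only [sh, up] at this
              have e1 : (i : ℤ) = -a * (L + L) := by linarith
              have e2 : (0 : ℤ) < i := by omega
              have e3 : (i : ℤ) < L + L := by exact_mod_cast hi
              have e4 : 0 < -a := by
                by_contra h
                push Not at h
                have : -a * ((L : ℤ) + L) ≤ 0 := mul_nonpos_of_nonpos_of_nonneg h (by omega)
                omega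
              have e5 : 1 * ((L : ℤ) + L) ≤ -a * (L + L) :=
                mul_le_mul_of_nonneg_right (by omega) (by omega)
              omega
          · rw [← rev_sh] at ha
            have e0 : sh (a * ((L : ℤ) + L)) (up (x0 + i) m) = up (x0 + i + a * (L + L)) m := rfl
            rw [e0] at ha
            rcases ha with ⟨i', ⟨hi', he⟩ | ⟨h0', hi', he⟩⟩ | ha
            · refine hfirst i' hi'.le _ he ?_
              rw [rev_rev]
              intro h
              have := h.2
              simp [up] at this
            · have he' := congrArg rev he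
              rw [rev_rev, rev_rev] at he'
              rcases Nat.lt_or_ge i' n with hlt | hge
              · have := (hrow i' hlt).2
                rw [← he'] at this
                simp [up] at this
              · have hin : i' = n := le_antisymm hi' hge
                rw [hin, hx0] at he'
                have := congrArg (fun e : DS => e.1.1) he'
                simp only [up] at this
                have e1 : (i : ℤ) = -a * (L + L) := by linarith
                have e2 : (0 : ℤ) < i := by omega
                have e3 : (i : ℤ) < L + L := by exact_mod_cast hi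
                have e4 : 0 < -a := by
                  by_contra h
                  push Not at h
                  have : -a * ((L : ℤ) + L) ≤ 0 := mul_nonpos_of_nonpos_of_nonneg h (by omega)
                  omega
                have e5 : 1 * ((L : ℤ) + L) ≤ -a * (L + L) :=
                  mul_le_mul_of_nonneg_right (by omega) (by omega)
                omega
            · rw [Set.mem_singleton_iff, hx0] at ha
              have := congrArg Prod.snd ha
              simp [rev, up] at this
        have hzero : chi (upO (spread ((L : ℤ) + L) P)) (up (x0 + ((0 : ℕ) : ℤ)) m) = 1 := by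
          unfold chi
          rw [if_pos]
          left
          refine ⟨mem_spread_of (Or.inr ?_), ?_⟩
          · rw [Set.mem_singleton_iff, hx0]; simp
          · simp [up]
        rw [sum_eq_single_of_mem 0 (by rw [mem_range]; omega)
          (fun i hi h0 => hone i (mem_range.1 hi) h0), hzero] at hev
        exact one_ne_zero hev
      · -- exit at the bottom
        obtain ⟨x0, hx0⟩ : ∃ x0, (nxt t)^[n] d = dn x0 (-m) := by
          rw [hj, Function.iterate_succ_apply'] at hc ⊢
          exact cross_dn_level hprev.1 hc
        have hev := even_of_wind hL (dnO_closed hcutO) hInv.dnO hdn x0 (-m) le_rfl (by omega)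
        have hone : ∀ i : ℕ, i < L + L → i ≠ 0 →
            chi (dnO (spread ((L : ℤ) + L) P)) (up (x0 + i) (-m)) = 0 := by
          intro i hi h0
          unfold chi
          rw [if_neg]
          have hfin : ∀ a : ℤ, x0 + i + a * (L + L) = x0 → False := by
            intro a this
            have e1 : (i : ℤ) = -a * (L + L) := by linarith
            have e2 : (0 : ℤ) < i := by omega
            have e3 : (i : ℤ) < L + L := by exact_mod_cast hi
            have e4 : 0 < -a := by
              by_contra h
              push Not at h
              have : -a * ((L : ℤ) + L) ≤ 0 := mul_nonpos_of_nonpos_of_nonneg h (by omega)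
              omega
            have e5 : 1 * ((L : ℤ) + L) ≤ -a * (L + L) :=
              mul_le_mul_of_nonneg_right (by omega) (by omega)
            omega
          have hrevup : ∀ x : ℤ, rev (up x (-(m : ℤ))) = dn x (-m) := fun x => rev_up x _
          rintro (⟨⟨a, ha⟩, _⟩ | ⟨⟨a, ha⟩, _⟩)
          · have e0 : sh (a * ((L : ℤ) + L)) (up (x0 + i) (-(m : ℤ))) =
                up (x0 + i + a * (L + L)) (-m) := rfl
            rw [e0] at ha
            rcases ha with ⟨i', ⟨hi', he⟩ | ⟨h0', hi', he⟩⟩ | ha
            · refine hfirst i' hi'.le _ he ?_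
              rw [hrevup]
              intro h
              have := h.1
              simp [dn] at this
            · have he' := congrArg rev he
              rw [rev_rev, hrevup] at he'
              rcases Nat.lt_or_ge i' n with hlt | hge
              · have := (hrow i' hlt).1
                rw [← he'] at this
                simp [dn] at this
              · have hin : i' = n := le_antisymm hi' hge
                rw [hin, hx0] at he'
                have := congrArg (fun e : DS => e.1.1) he'
                simp only [dn] at this
                exact hfin a this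
            · rw [Set.mem_singleton_iff, hx0] at ha
              have := congrArg Prod.snd ha
              simp [up, dn] at this
          · rw [← rev_sh] at ha
            have e0 : sh (a * ((L : ℤ) + L)) (up (x0 + i) (-(m : ℤ))) =
                up (x0 + i + a * (L + L)) (-m) := rfl
            rw [e0, hrevup] at ha
            rcases ha with ha | ha
            · have := (htile _ ha).1
              simp [dn] at this
            · rw [Set.mem_singleton_iff, hx0] at ha
              have := congrArg (fun e : DS => e.1.1) ha
              simp only [dn] at this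
              exact hfin a this
        have hzero : chi (dnO (spread ((L : ℤ) + L) P)) (up (x0 + ((0 : ℕ) : ℤ)) (-m)) = 1 := by
          unfold chi
          rw [if_pos]
          right
          rw [rev_up]
          refine ⟨mem_spread_of (Or.inr ?_), ?_⟩
          · rw [Set.mem_singleton_iff, hx0]; simp
          · simp [dn]; omega
        rw [sum_eq_single_of_mem 0 (by rw [mem_range]; omega)
          (fun i hi h0 => hone i (mem_range.1 hi) h0), hzero] at hev
        exact one_ne_zero hev
  · -- the path stays in the strip for ever: it is periodic modulo the period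
    exfalso
    push Not at hex
    have hrow : ∀ i, ((nxt t)^[i] d).1 ∈ rows (-m) m := by
      intro i
      rcases Nat.eq_zero_or_pos i with rfl | h
      · exact hd0
      · exact (hex i h).2
    let red : ℕ → DS := fun n => ((((nxt t)^[n] d).1.1 % ((L : ℤ) + L), ((nxt t)^[n] d).1.2),
      ((nxt t)^[n] d).2)
    have hfin : (Set.range red).Finite := by
      apply Set.Finite.subset ((((Set.finite_Ico (0 : ℤ) (L + L)).prod
        (Set.finite_Ico (-(m : ℤ)) m))).prod (Set.finite_univ (α := Fin 4)))
      rintro _ ⟨n, rfl⟩
      refine ⟨⟨⟨Int.emod_nonneg _ (by omega), Int.emod_lt_of_pos _ (by omega)⟩, ?_⟩,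
        Set.mem_univ _⟩
      exact ⟨(hrow n).1, (hrow n).2⟩
    have hni : ¬ Function.Injective red := fun hinj =>
      (Set.infinite_range_of_injective hinj) hfin
    unfold Function.Injective at hni
    push Not at hni
    obtain ⟨a, b, hab, hne⟩ := hni
    have key : ∀ a b : ℕ, a < b → red a = red b → False := by
      intro a b hlt hab
      obtain ⟨ka, hka⟩ := sh_emod (p := (L : ℤ) + L) ((nxt t)^[a] d)
      obtain ⟨kb, hkb⟩ := sh_emod (p := (L : ℤ) + L) ((nxt t)^[b] d)
      have hab' : ((((nxt t)^[a] d).1.1 % ((L : ℤ) + L), ((nxt t)^[a] d).1.2),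
          ((nxt t)^[a] d).2) = ((((nxt t)^[b] d).1.1 % ((L : ℤ) + L), ((nxt t)^[b] d).1.2),
          ((nxt t)^[b] d).2) := hab
      rw [← hab'] at hkb
      have h1 : (nxt t)^[b] d = sh ((kb - ka) * ((L : ℤ) + L)) ((nxt t)^[a] d) := by
        rw [← hka, ← hkb, sh_add]
        congr 1
        ring
      rw [← iter_sh ht2] at h1
      have h2 : (nxt t)^[a] ((nxt t)^[b - a] d) =
          (nxt t)^[a] (sh ((kb - ka) * ((L : ℤ) + L)) d) := by
        rw [← Function.iterate_add_apply, show a + (b - a) = b by omega]
        exact h1
      have h3 := Function.Injective.iterate (stp t).injective a h2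
      have h4 : (nxt t)^[b - a] d ∈ Kut L k := by
        rw [h3]
        exact (kut_sh _ _).2 hd
      exact (hex (b - a) (by omega)).1 h4
    rcases Nat.lt_or_gt_of_ne hne with h | h
    · exact key a b h hab
    · exact key b a h hab.symm

end H81Tile
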