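import Pool.Agent.Helper81.Tile.Ring

/-!
The potential of an interface that starts and ends at a box of tiles.
-/

namespace H81Tile
open Finset

theorem exists_pot_form {g : DS → ZMod 2} (hr : ∀ d, g (rev d) = g d)
    (hc : ∀ p, g (p, 0) + g (p, 1) + g (p, 2) + g (p, 3) = 0)
    {N : ℤ} (hN : ∀ d : DS, (N < |d.1.1| ∨ N < |d.1.2|) → g d = 0) :
    ∃ W : ℤ × ℤ → ZMod 2, (∀ d, W (lc d) + W (rc d) = g d) ∧
      ∀ q : ℤ × ℤ, (N < |q.1| ∨ N < |q.2|) → W q = 0 := by
  have e1 : ∀ x y, g ((x + 1, y), 3) = g ((x, y), 1) := by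
    intro x y
    rw [← hr ((x, y), 1)]
    simp [rev, dr]
  have e2 : ∀ x y, g ((x, y + 1), 0) = g ((x, y), 2) := by
    intro x y
    rw [← hr ((x, y), 2)]
    simp [rev, dr]
  obtain ⟨W, hW1, hW2, hW3⟩ := exists_potential (fun x y => g ((x, y), 0))
    (fun x y => g ((x, y), 3)) N
    (by
      intro x y
      show g ((x, y), 0) + g ((x + 1, y), 3) + g ((x, y + 1), 0) + g ((x, y), 3) = 0
      rw [e1, e2]
      exact hc (x, y))
    (fun x y hxy => hN ((x, y), 0) hxy) (fun x y hxy => hN ((x, y), 3) hxy)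
  refine ⟨fun q => W q.1 q.2, ?_, fun q hq => hW3 q.1 q.2 hq⟩
  rintro ⟨⟨x, y⟩, c⟩
  fin_cases c
  · simpa [lc, rc, cor, co] using hW1 x y
  · have := hW2 (x + 1) y
    simp only [e1] at this
    simpa [lc, rc, cor, co] using this
  · have := hW1 x (y + 1)
    simp only [e2] at this
    rw [add_comm] at this
    simpa [lc, rc, cor, co] using this
  · have := hW2 x y
    rw [add_comm] at this
    simpa [lc, rc, cor, co] using this

/-! ### the periodic boundary sequence -/

/-- periodic sequence of the outward sides -/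
def es (x0 x1 y0 y1 i : ℤ) : DS := os x0 x1 y0 y1 (i % per x0 x1 y0 y1)

/-- periodic sequence of the corners -/
def ec (x0 x1 y0 y1 i : ℤ) : ℤ × ℤ := oc x0 x1 y0 y1 (i % per x0 x1 y0 y1)

section
variable {x0 x1 y0 y1 : ℤ}

lemma per_pos (hx : x0 < x1) (hy : y0 < y1) : 0 < per x0 x1 y0 y1 := by
  unfold per; omega

lemma lc_es (hx : x0 < x1) (hy : y0 < y1) (i : ℤ) :
    lc (es x0 x1 y0 y1 i) = ec x0 x1 y0 y1 i := by
  have hN := per_pos hx hy
  exact lc_os hx hy (Int.emod_nonneg _ hN.ne') (Int.emod_lt_of_pos _ hN)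

lemma rc_es (hx : x0 < x1) (hy : y0 < y1) (i : ℤ) :
    rc (es x0 x1 y0 y1 i) = ec x0 x1 y0 y1 (i + 1) := by
  have hN := per_pos hx hy
  have h0 := Int.emod_nonneg i hN.ne'
  have h1 := Int.emod_lt_of_pos i hN
  unfold es ec
  rcases lt_or_ge (i % per x0 x1 y0 y1 + 1) (per x0 x1 y0 y1) with h | h
  · rw [rc_os hx hy h0 h]
    congr 1
    rw [Int.add_emod, Int.emod_eq_of_lt (a := i % per x0 x1 y0 y1 + 1 % per x0 x1 y0 y1)]
    · congr 1
      rw [Int.emod_eq_of_lt (by norm_num) (by omega)]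
    · have := Int.emod_nonneg 1 hN.ne'
      omega
    · rw [Int.emod_eq_of_lt (a := 1) (by norm_num) (by omega)]
      exact h
  · have e : i % per x0 x1 y0 y1 = per x0 x1 y0 y1 - 1 := by omega
    rw [e, rc_os_last hx hy]
    congr 1
    have e2 : i + 1 = (i / per x0 x1 y0 y1 + 1) * per x0 x1 y0 y1 := by
      have := Int.emod_add_mul_ediv i (per x0 x1 y0 y1)
      rw [e] at this
      linear_combination -this
    rw [e2, Int.mul_emod_left]

lemma es_out (hx : x0 < x1) (hy : y0 < y1) (i : ℤ) :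
    (es x0 x1 y0 y1 i).1 ∉ Qb x0 x1 y0 y1 ∧ (rev (es x0 x1 y0 y1 i)).1 ∈ Qb x0 x1 y0 y1 := by
  have hN := per_pos hx hy
  exact os_out hx hy (Int.emod_nonneg _ hN.ne') (Int.emod_lt_of_pos _ hN)

lemma ec_inj (hx : x0 < x1) (hy : y0 < y1) {i j : ℤ}
    (h : ec x0 x1 y0 y1 i = ec x0 x1 y0 y1 j) : i % per x0 x1 y0 y1 = j % per x0 x1 y0 y1 := by
  have hN := per_pos hx hy
  exact oc_inj hx hy (Int.emod_nonneg _ hN.ne') (Int.emod_lt_of_pos _ hN)
    (Int.emod_nonneg _ hN.ne') (Int.emod_lt_of_pos _ hN) h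

lemma es_inj (hx : x0 < x1) (hy : y0 < y1) {i j : ℤ}
    (h : es x0 x1 y0 y1 i = es x0 x1 y0 y1 j) : i % per x0 x1 y0 y1 = j % per x0 x1 y0 y1 := by
  apply ec_inj hx hy
  rw [← lc_es hx hy, ← lc_es hx hy, h]

/-- two numbers in a window with the same residue -/
lemma win_eq {N i a b : ℤ} (ha : i ≤ a) (ha' : a < i + N) (hb : i ≤ b) (hb' : b < i + N)
    (h : a % N = b % N) : a = b := by
  have h1 : (a - i) % N = (b - i) % N := by
    rw [Int.sub_emod, h, ← Int.sub_emod]
  rw [Int.emod_eq_of_lt (by omega) (by omega), Int.emod_eq_of_lt (by omega) (by omega)] at h1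
  omega

lemma win_exists {N : ℤ} (hN : 0 < N) (i j : ℤ) : ∃ m, i ≤ m ∧ m < i + N ∧ m % N = j % N := by
  refine ⟨i + (j - i) % N, ?_, ?_, ?_⟩
  · have := Int.emod_nonneg (j - i) hN.ne'; omega
  · have := Int.emod_lt_of_pos (j - i) hN; omega
  · rw [Int.add_emod_emod]
    congr 1
    ring

lemma es_congr {i j : ℤ} (h : i % per x0 x1 y0 y1 = j % per x0 x1 y0 y1) :
    es x0 x1 y0 y1 i = es x0 x1 y0 y1 j := by
  unfold es; rw [h]

lemma ec_congr {i j : ℤ} (h : i % per x0 x1 y0 y1 = j % per x0 x1 y0 y1) :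
    ec x0 x1 y0 y1 i = ec x0 x1 y0 y1 j := by
  unfold ec; rw [h]

lemma exists_es (hx : x0 < x1) (hy : y0 < y1) (i : ℤ) {d : DS} (hd : d.1 ∉ Qb x0 x1 y0 y1)
    (h1 : lc d ∈ Cb x0 x1 y0 y1) (h2 : rc d ∈ Cb x0 x1 y0 y1) :
    ∃ m, i ≤ m ∧ m < i + per x0 x1 y0 y1 ∧ d = es x0 x1 y0 y1 m := by
  obtain ⟨j, h3, h4, rfl⟩ := exists_os hx hy hd h1 h2
  obtain ⟨m, h5, h6, h7⟩ := win_exists (per_pos hx hy) i j
  refine ⟨m, h5, h6, ?_⟩
  unfold es
  rw [h7, Int.emod_eq_of_lt h3 h4]

lemma cor_Cb {p : ℤ × ℤ} (hp : p ∈ Qb x0 x1 y0 y1) (c : Fin 4) : cor p c ∈ Cb x0 x1 y0 y1 := by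
  obtain ⟨x, y⟩ := p
  unfold Qb at hp
  unfold Cb cor
  simp only [Set.mem_ofPred_eq] at hp ⊢
  fin_cases c <;> simp [co] <;> omega

lemma exists_es' (hx : x0 < x1) (hy : y0 < y1) (i : ℤ) {d : DS} (hd : d.1 ∉ Qb x0 x1 y0 y1)
    (h1 : (rev d).1 ∈ Qb x0 x1 y0 y1) :
    ∃ m, i ≤ m ∧ m < i + per x0 x1 y0 y1 ∧ d = es x0 x1 y0 y1 m := by
  apply exists_es hx hy i hd
  · rw [← rc_rev]; exact cor_Cb h1 _
  · rw [← lc_rev]; exact cor_Cb h1 _

end

/-! ### the set of sides of a strand -/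

/-- the sides of the strand of length `n` -/
def strO (t : TC) (d : DS) (n : ℕ) : Set DS :=
  {x | ∃ s ≤ n, x = (nxt t)^[s] d ∨ x = rev ((nxt t)^[s] d)}

lemma strO_rev {t : TC} {d : DS} {n : ℕ} {x : DS} (h : x ∈ strO t d n) : rev x ∈ strO t d n := by
  obtain ⟨s, hs, rfl | rfl⟩ := h
  · exact ⟨s, hs, Or.inr rfl⟩
  · exact ⟨s, hs, Or.inl (rev_rev _)⟩

lemma strO_rev_iff {t : TC} {d : DS} {n : ℕ} {x : DS} : rev x ∈ strO t d n ↔ x ∈ strO t d n :=
  ⟨fun h => by have := strO_rev h; rwa [rev_rev] at this, strO_rev⟩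

lemma strO_pr {t : TC} {B : Set (ℤ × ℤ)} {d : DS} {n : ℕ} (h0 : (rev d).1 ∈ B)
    (hn : ((nxt t)^[n] d).1 ∈ B) {x : DS} (h : x ∈ strO t d n) (hx : x.1 ∉ B) :
    (x.1, prt (t x.1) x.2) ∈ strO t d n := by
  obtain ⟨s, hs, rfl | rfl⟩ := h
  · rcases Nat.lt_or_ge s n with h1 | h1
    · refine ⟨s + 1, h1, Or.inr ?_⟩
      rw [Function.iterate_succ_apply', rev_nxt]
    · have : s = n := le_antisymm hs h1
      rw [this] at hx
      exact absurd hn hx
  · rcases s with _ | s
    · exact absurd h0 hx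
    · refine ⟨s, by omega, Or.inl ?_⟩
      rw [Function.iterate_succ_apply', rev_nxt]
      simp only [prt_prt]

lemma strO_pr_iff {t : TC} {B : Set (ℤ × ℤ)} {d : DS} {n : ℕ} (h0 : (rev d).1 ∈ B)
    (hn : ((nxt t)^[n] d).1 ∈ B) {p : ℤ × ℤ} (hp : p ∉ B) (c : Fin 4) :
    (p, prt (t p) c) ∈ strO t d n ↔ (p, c) ∈ strO t d n := by
  constructor
  · intro h
    have := strO_pr h0 hn h hp
    simp only [prt_prt] at this
    exact this
  · intro h
    exact strO_pr h0 hn h hp

lemma strO_out {t : TC} {B : Set (ℤ × ℤ)} {d : DS} {n : ℕ}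
    (hB : ∀ s < n, ((nxt t)^[s] d).1 ∉ B) {x : DS} (h : x ∈ strO t d n)
    (hx : (rev x).1 ∈ B) : x = d ∨ x = rev ((nxt t)^[n] d) := by
  obtain ⟨s, hs, rfl | rfl⟩ := h
  · rcases s with _ | s
    · left; rfl
    · exfalso
      rw [Function.iterate_succ_apply', rev_nxt] at hx
      exact hB s (by omega) hx
  · rw [rev_rev] at hx
    rcases Nat.lt_or_ge s n with h1 | h1
    · exact absurd hx (hB s h1)
    · have : s = n := le_antisymm hs h1
      rw [this]
      right; rfl

lemma strO_finite (t : TC) (d : DS) (n : ℕ) : (strO t d n).Finite := by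
  have : strO t d n ⊆ ((Finset.range (n + 1)).image (fun s => (nxt t)^[s] d) ∪
      (Finset.range (n + 1)).image (fun s => rev ((nxt t)^[s] d)) : Finset DS) := by
    rintro x ⟨s, hs, rfl | rfl⟩
    · simp only [Finset.coe_union, Finset.coe_image, Set.mem_union]
      left
      exact ⟨s, by simp; omega, rfl⟩
    · simp only [Finset.coe_union, Finset.coe_image, Set.mem_union]
      right
      exact ⟨s, by simp; omega, rfl⟩
  exact (Finset.finite_toSet _).subset this

/-- tiles of the strand -/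
lemma strO_tile {t : TC} {B D : Set (ℤ × ℤ)} {d : DS} {n : ℕ} (h0 : (rev d).1 ∈ B)
    (hn : ((nxt t)^[n] d).1 ∈ B) (hBD : B ⊆ D) (hD : ∀ s < n, ((nxt t)^[s] d).1 ∈ D) {x : DS}
    (h : x ∈ strO t d n) : x.1 ∈ D := by
  obtain ⟨s, hs, rfl | rfl⟩ := h
  · rcases Nat.lt_or_ge s n with h1 | h1
    · exact hD s h1
    · have : s = n := le_antisymm hs h1
      rw [this]
      exact hBD hn
  · rcases s with _ | s
    · exact hBD h0
    · rw [Function.iterate_succ_apply', rev_nxt]
      exact hD s (by omega)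

/-! ### the potential -/

theorem exists_ring_pot {t : TC} {D : Set (ℤ × ℤ)} {x0 x1 y0 y1 : ℤ} (hx : x0 < x1)
    (hy : y0 < y1) (hD : Out D) (hBD : Qb x0 x1 y0 y1 ⊆ D) {i l : ℤ} (hil : i < l)
    (hl : l < i + per x0 x1 y0 y1) {n : ℕ}
    (hin : ∀ s < n, ((nxt t)^[s] (es x0 x1 y0 y1 i)).1 ∈ D \ Qb x0 x1 y0 y1)
    (hn : (nxt t)^[n] (es x0 x1 y0 y1 i) = rev (es x0 x1 y0 y1 l)) :
    ∃ W : ℤ × ℤ → ZMod 2, (∀ u v, CConn t (D \ Qb x0 x1 y0 y1) u v → W u = W v) ∧
      (∀ u, OnBd D u → W u = 0) ∧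
      ∀ m, i < m → m ≤ l → W (ec x0 x1 y0 y1 m) = W (ec x0 x1 y0 y1 i) + 1 := by
  classical
  set B := Qb x0 x1 y0 y1 with hB
  set N := per x0 x1 y0 y1 with hNd
  have hNp : 0 < N := per_pos hx hy
  set d := es x0 x1 y0 y1 i with hd
  have hd0 : d.1 ∉ B := (es_out hx hy i).1
  have hd1 : (rev d).1 ∈ B := (es_out hx hy i).2
  have hnB : ((nxt t)^[n] d).1 ∈ B := by rw [hn]; exact (es_out hx hy l).2
  obtain ⟨O, hO⟩ : ∃ O, O = strO t d n := ⟨_, rfl⟩
  have hz : ∀ a : ZMod 2, a + a = 0 := CharTwo.add_self_eq_zero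
  -- the trace of the strand on the boundary
  have htr : ∀ m, i ≤ m → m < i + N → (es x0 x1 y0 y1 m ∈ O ↔ m = i ∨ m = l) := by
    intro m h1 h2
    constructor
    · intro h
      rw [hO] at h
      rcases strO_out (fun s hs => (hin s hs).2) h (es_out hx hy m).2 with h3 | h3
      · left
        exact win_eq h1 h2 le_rfl (by omega) (es_inj hx hy h3)
      · right
        rw [hn, rev_rev] at h3
        exact win_eq h1 h2 hil.le hl (es_inj hx hy h3)
    · rintro (rfl | rfl)
      · rw [hO]; exact ⟨0, Nat.zero_le _, Or.inl rfl⟩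
      · rw [hO]
        refine ⟨n, le_rfl, Or.inr ?_⟩
        rw [hn, rev_rev]
  -- the function on the corners
  obtain ⟨w, hw⟩ : ∃ w : ℤ × ℤ → ZMod 2, ∀ q, w q =
      if ∃ m, i < m ∧ m ≤ l ∧ q = ec x0 x1 y0 y1 m then 1 else 0 := ⟨_, fun _ => rfl⟩
  have hwc : ∀ m, i ≤ m → m < i + N → w (ec x0 x1 y0 y1 m) = if i < m ∧ m ≤ l then 1 else 0 := by
    intro m h1 h2
    rw [hw]
    by_cases h : i < m ∧ m ≤ l
    · rw [if_pos h, if_pos ⟨m, h.1, h.2, rfl⟩]
    · rw [if_neg h, if_neg]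
      rintro ⟨m', h3, h4, h5⟩
      have : m = m' := win_eq h1 h2 (by omega) (by omega) (ec_inj hx hy h5)
      subst this
      exact h ⟨h3, h4⟩
  have hws : ∀ m, i ≤ m → m < i + N → w (lc (es x0 x1 y0 y1 m)) + w (rc (es x0 x1 y0 y1 m)) =
      chi O (es x0 x1 y0 y1 m) := by
    intro m h1 h2
    rw [lc_es hx hy, rc_es hx hy, hwc m h1 h2]
    have h3 : w (ec x0 x1 y0 y1 (m + 1)) = if m < l then 1 else 0 := by
      rcases lt_or_ge (m + 1) (i + N) with h | h
      · rw [hwc (m + 1) (by omega) h]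
        by_cases h4 : m < l
        · rw [if_pos h4, if_pos (by omega)]
        · rw [if_neg h4, if_neg (by omega)]
      · have h4 : m + 1 = i + N := by omega
        rw [h4]
        have h5 : ec x0 x1 y0 y1 (i + N) = ec x0 x1 y0 y1 i := ec_congr (by
          rw [← hNd, Int.add_emod_right])
        rw [h5, hwc i le_rfl (by omega), if_neg (by omega), if_neg (by omega)]
    rw [h3]
    unfold chi
    by_cases h4 : m = i
    · rw [if_pos ((htr m h1 h2).2 (Or.inl h4)), if_neg (by omega), if_pos (by omega), zero_add]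
    · by_cases h5 : m = l
      · rw [if_pos ((htr m h1 h2).2 (Or.inr h5)), if_pos (by omega), if_neg (by omega), add_zero]
      · rw [if_neg (fun h => ((htr m h1 h2).1 h).elim h4 h5)]
        by_cases h6 : m < l
        · rw [if_pos (by omega), if_pos h6]; exact hz 1
        · rw [if_neg (by omega), if_neg h6, add_zero]
  -- the closed form
  obtain ⟨g, hg⟩ : ∃ g : DS → ZMod 2, ∀ x, g x =
      if lc x ∈ Cb x0 x1 y0 y1 ∧ rc x ∈ Cb x0 x1 y0 y1 then w (lc x) + w (rc x) else chi O x :=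
    ⟨_, fun _ => rfl⟩
  have hgout : ∀ x : DS, x.1 ∉ B → g x = chi O x := by
    intro x hxB
    rw [hg]
    by_cases h : lc x ∈ Cb x0 x1 y0 y1 ∧ rc x ∈ Cb x0 x1 y0 y1
    · rw [if_pos h]
      obtain ⟨m, h1, h2, rfl⟩ := exists_es hx hy i hxB h.1 h.2
      exact hws m h1 h2
    · rw [if_neg h]
  have hgr : ∀ x, g (rev x) = g x := by
    intro x
    have h1 : chi O (rev x) = chi O x := chi_of_iff (by rw [hO]; exact strO_rev_iff)
    rw [hg, hg, lc_rev, rc_rev, h1]
    by_cases h : lc x ∈ Cb x0 x1 y0 y1 ∧ rc x ∈ Cb x0 x1 y0 y1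
    · rw [if_pos h, if_pos h.symm, add_comm]
    · rw [if_neg h, if_neg (fun h' => h h'.symm)]
  have hchiD : ∀ x : DS, x.1 ∉ D → chi O x = 0 := by
    intro x hx
    unfold chi
    rw [if_neg]
    intro h
    rw [hO] at h
    exact hx (strO_tile hd1 hnB hBD (fun s hs => (hin s hs).1) h)
  have hprO : ∀ p, p ∉ B → ∀ c, chi O (p, prt (t p) c) = chi O (p, c) := by
    intro p hp c
    apply chi_of_iff
    rw [hO]
    exact strO_pr_iff hd1 hnB hp c
  have hgc : ∀ p, g (p, 0) + g (p, 1) + g (p, 2) + g (p, 3) = 0 := by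
    intro p
    by_cases hp : p ∈ B
    · have h1 : ∀ c, g (p, c) = w (cor p c) + w (cor p (c + 1)) := by
        intro c
        rw [hg, if_pos]
        · rfl
        · exact ⟨cor_Cb hp _, cor_Cb hp _⟩
      rw [h1, h1, h1, h1]
      show w (cor p 0) + w (cor p 1) + (w (cor p 1) + w (cor p 2)) +
        (w (cor p 2) + w (cor p 3)) + (w (cor p 3) + w (cor p 0)) = 0
      linear_combination hz (w (cor p 0)) + hz (w (cor p 1)) + hz (w (cor p 2)) + hz (w (cor p 3))
    · rw [hgout (p, 0) hp, hgout (p, 1) hp, hgout (p, 2) hp, hgout (p, 3) hp]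
      have hpp := hprO p hp
      rcases hb : t p with _ | _
      · have q0 := hpp 0
        have q1 := hpp 1
        simp only [hb, prt] at q0 q1
        have q0' : chi O (p, 3) = chi O (p, 0) := q0
        have q1' : chi O (p, 2) = chi O (p, 1) := q1
        rw [q0', q1']
        linear_combination hz (chi O (p, 0)) + hz (chi O (p, 1))
      · have q0 := hpp 0
        have q1 := hpp 2
        simp only [hb, prt] at q0 q1
        have q0' : chi O (p, 1) = chi O (p, 0) := q0
        have q1' : chi O (p, 3) = chi O (p, 2) := q1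
        rw [q0', q1']
        linear_combination hz (chi O (p, 0)) + hz (chi O (p, 2))
  -- a bound
  have hOf : O.Finite := by rw [hO]; exact strO_finite _ _ _
  obtain ⟨K, hK⟩ : ∃ K : ℤ, ∀ x : DS, (K < |x.1.1| ∨ K < |x.1.2|) → g x = 0 := by
    have hb : ∀ x ∈ O, |x.1.1| + |x.1.2| ≤ ∑ d ∈ hOf.toFinset, (|d.1.1| + |d.1.2|) :=
      fun x hx => single_le_sum (f := fun d : DS => |d.1.1| + |d.1.2|)
        (fun d _ => add_nonneg (abs_nonneg _) (abs_nonneg _)) (hOf.mem_toFinset.2 hx)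
    have hS0 : 0 ≤ ∑ d ∈ hOf.toFinset, (|d.1.1| + |d.1.2|) :=
      sum_nonneg (fun d _ => add_nonneg (abs_nonneg _) (abs_nonneg _))
    refine ⟨∑ d ∈ hOf.toFinset, (|d.1.1| + |d.1.2|) + |x0| + |x1| + |y0| + |y1| + 1,
      fun x hxK => ?_⟩
    have a1 := abs_nonneg x0
    have a2 := abs_nonneg x1
    have a3 := abs_nonneg y0
    have a4 := abs_nonneg y1
    have b1 := neg_abs_le x0
    have b2 := le_abs_self x1
    have b3 := neg_abs_le y0
    have b4 := le_abs_self y1
    rw [hg, if_neg, chi, if_neg]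
    · intro h
      have := hb x h
      have c1 := abs_nonneg x.1.1
      have c2 := abs_nonneg x.1.2
      rcases hxK with h | h <;> linarith
    · rintro ⟨⟨h1, h2, h3, h4⟩, ⟨h5, h6, h7, h8⟩⟩
      obtain ⟨⟨a, b⟩, c⟩ := x
      simp only at hxK
      unfold lc cor at h1 h2 h3 h4
      unfold rc cor at h5 h6 h7 h8
      have ha : |a| ≤ |x0| + |x1| + 1 := by
        rw [abs_le]
        fin_cases c <;> simp [co] at h1 h2 h3 h4 h5 h6 h7 h8 <;> constructor <;> linarith
      have hb' : |b| ≤ |y0| + |y1| + 1 := by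
        rw [abs_le]
        fin_cases c <;> simp [co] at h1 h2 h3 h4 h5 h6 h7 h8 <;> constructor <;> linarith
      rcases hxK with h | h <;> linarith
  obtain ⟨W, hW1, hW2⟩ := exists_pot_form hgr hgc hK
  refine ⟨W, ?_, ?_, ?_⟩
  · -- constant on connections
    have hjoin : ∀ p u v, p ∉ B → Jn t p u v → W u = W v := by
      rintro p u v hp ⟨c, rfl, rfl, hc⟩
      have h1 := hW1 (p, c)
      have h2 := hW1 (p, c + 1)
      rw [hgout (p, c) hp] at h1
      rw [hgout (p, c + 1) hp] at h2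
      have hpr : prt (t p) c = c + 1 := prt_eq_succ (t p) c hc
      have h3 : chi O (p, c + 1) = chi O (p, c) := by
        have := hprO p hp c
        rwa [hpr] at this
      have e4 : rc (p, c + 1) = cor p (c + 2) := by
        unfold rc
        congr 1
        show c + 1 + 1 = c + 2
        rw [add_assoc]; rfl
      have e5 : lc (p, c + 1) = rc (p, c) := rfl
      have e6 : lc (p, c) = cor p c := rfl
      rw [e4, e5, h3, ← h1, e6] at h2
      generalize W (cor p c) = a at *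
      generalize W (cor p (c + 2)) = b at *
      generalize W (rc (p, c)) = e at *
      have : e + b = e + a := by rw [h2, add_comm]
      exact (add_left_cancel this).symm
    intro u v h
    induction h with
    | refl => rfl
    | tail _ h2 ih =>
      obtain ⟨p, hp, h3⟩ := h2
      rw [ih]
      exact hjoin p _ _ hp.2 h3
  · -- zero outside
    rintro u ⟨p, hp, c, rfl⟩
    have h1 : ∀ p, p ∉ D → ∀ c, W (cor p c) = W (cor p (c + 1)) := by
      intro p hp c
      have := hW1 (p, c)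
      rw [hgout (p, c) (fun h => hp (hBD h)), hchiD (p, c) hp] at this
      exact eq_of_add_zero this
    have h2 : ∀ p, p ∉ D → ∀ c, W (cor p c) = W (cor p 0) := by
      intro p hp c
      have a0 := h1 p hp 0
      have a1 := h1 p hp 1
      have a2 := h1 p hp 2
      fin_cases c
      · rfl
      · exact a0.symm
      · exact (a0.trans a1).symm
      · exact (a0.trans (a1.trans a2)).symm
    obtain ⟨e, he⟩ := hD p hp
    have h3 : ∀ k : ℕ, W (cor (p + (k : ℤ) • dr e) 0) = W (cor p 0) := by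
      intro k
      induction k with
      | zero => simp
      | succ k ih =>
        rw [← ih]
        have e1 : p + ((k + 1 : ℕ) : ℤ) • dr e = (p + (k : ℤ) • dr e) + dr e := by
          push_cast
          rw [add_smul, one_smul, add_assoc]
        have h4 := he (k + 1)
        rw [e1] at h4 ⊢
        rw [← h2 _ h4 (e + 3), cor_rev2, h2 _ (he k)]
    obtain ⟨k, hk⟩ := far_ray K p e
    have h5 : W (cor (p + (k : ℤ) • dr e) 0) = 0 := by
      have : cor (p + (k : ℤ) • dr e) 0 = p + (k : ℤ) • dr e := by simp [cor, co]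
      rw [this]
      exact hW2 _ hk
    rw [h2 p hp c, ← h3 k, h5]
  · -- values at the corners of the box
    have hstep : ∀ m, i ≤ m → m < i + N → W (ec x0 x1 y0 y1 m) + W (ec x0 x1 y0 y1 (m + 1)) =
        chi O (es x0 x1 y0 y1 m) := by
      intro m h1 h2
      have := hW1 (es x0 x1 y0 y1 m)
      rw [lc_es hx hy, rc_es hx hy, hgout _ (es_out hx hy m).1] at this
      exact this
    intro m h1 h2
    have key : ∀ k : ℕ, i + 1 + k ≤ l →
        W (ec x0 x1 y0 y1 (i + 1 + k)) = W (ec x0 x1 y0 y1 i) + 1 := by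
      intro k
      induction k with
      | zero =>
        intro h
        have h3 := hstep i le_rfl (by omega)
        have h4 : chi O (es x0 x1 y0 y1 i) = 1 := by
          unfold chi
          rw [if_pos ((htr i le_rfl (by omega)).2 (Or.inl rfl))]
        rw [h4] at h3
        push_cast
        rw [add_zero]
        linear_combination h3 - hz (W (ec x0 x1 y0 y1 i))
      | succ k ih =>
        intro h
        have h3 := ih (by push_cast at h; omega)
        have h4 := hstep (i + 1 + k) (by omega) (by push_cast at h; omega)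
        have h5 : chi O (es x0 x1 y0 y1 (i + 1 + k)) = 0 := by
          unfold chi
          rw [if_neg]
          intro h6
          rcases (htr _ (by omega) (by push_cast at h; omega)).1 h6 with h7 | h7
          · omega
          · push_cast at h; omega
        rw [h5] at h4
        have h6 := eq_of_add_zero h4
        push_cast
        rw [← add_assoc, ← h6]
        exact h3
    have := key (m - (i + 1)).toNat (by
      rw [Int.toNat_of_nonneg (by omega)]; omega)
    rw [Int.toNat_of_nonneg (by omega)] at this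
    rw [show i + 1 + (m - (i + 1)) = m by ring] at this
    exact this

end H81Tile
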