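import Pool.Agent.Helper81.Tile.ArmUp

/-!
The slit plane: the `2k` interfaces that start at the cut sides `0, ..., k-1` of level zero and
leave a diamond shaped set of tiles `D` separate `2k` arms: two arms with the same colour are not
connected outside of a neighbourhood of the slit.
-/

namespace H81Tile
open Finset

/-! ### potentials on half diamonds -/

/-- potential on the tiles of `D`; on the line zero everywhere -/
structure PotIn (D : Set (ℤ × ℤ)) (O : Set DS) (W : ℤ × ℤ → ZMod 2) : Prop where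
  side : ∀ d : DS, d.1 ∈ D → W (lc d) + W (rc d) = chi O d
  hor : ∀ x, W (x, 0) + W (x + 1, 0) = chi O (up x 0)

theorem exists_potIn_up {t : TC} {D : Set (ℤ × ℤ)} {O : Set DS} (hD0 : ∀ p ∈ D, 0 ≤ p.2)
    (hD : ∀ x y : ℤ, (x, y) ∈ D → 0 < y → (x, y - 1) ∈ D) (hO : ClosedOn t D O) :
    ∃ W, PotIn D O W := by
  have hz : ∀ a : ZMod 2, a + a = 0 := CharTwo.add_self_eq_zero
  have hr : ∀ d, chi O (rev d) = chi O d := fun d => chi_of_iff (hO.rv_iff d)
  have e1 : ∀ x y, chi O ((x + 1, y), 3) = chi O ((x, y), 1) := by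
    intro x y
    rw [← hr ((x, y), 1)]
    simp [rev, dr]
  have e2 : ∀ x y, chi O (up x (y + 1)) = chi O ((x, y), 2) := by
    intro x y
    rw [← hr ((x, y), 2)]
    simp [rev, dr, up]
  obtain ⟨H, hH⟩ := exists_prim (fun x => chi O (up x 0))
  obtain ⟨W, hWd⟩ : ∃ W : ℤ × ℤ → ZMod 2,
      ∀ x y, W (x, y) = H x + ∑ j ∈ range y.toNat, chi O ((x, (j : ℤ)), 3) :=
    ⟨fun q => H q.1 + ∑ j ∈ range q.2.toNat, chi O ((q.1, (j : ℤ)), 3), fun _ _ => rfl⟩
  have hver : ∀ x y, 0 ≤ y → W (x, y + 1) = W (x, y) + chi O ((x, y), 3) := by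
    intro x y hy
    rw [hWd, hWd]
    have e1 : (y + 1).toNat = y.toNat + 1 := by omega
    rw [e1, sum_range_succ]
    have e2 : ((y.toNat : ℕ) : ℤ) = y := Int.toNat_of_nonneg hy
    rw [e2, add_assoc]
  have hcl : ∀ x y, (x, y) ∈ D →
      chi O ((x, y), 0) + chi O ((x, y), 1) + chi O ((x, y), 2) + chi O ((x, y), 3) = 0 := by
    intro x y hp
    have hpp := fun c => chi_of_iff (hO.pr_iff hp c)
    rcases hb : t (x, y) with _ | _
    · have q0 := hpp 0
      have q1 := hpp 1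
      simp only [hb, prt] at q0 q1
      have q0' : chi O ((x, y), 3) = chi O ((x, y), 0) := q0
      have q1' : chi O ((x, y), 2) = chi O ((x, y), 1) := q1
      rw [q0', q1']
      linear_combination hz (chi O ((x, y), 0)) + hz (chi O ((x, y), 1))
    · have q0 := hpp 0
      have q1 := hpp 2
      simp only [hb, prt] at q0 q1
      have q0' : chi O ((x, y), 1) = chi O ((x, y), 0) := q0
      have q1' : chi O ((x, y), 3) = chi O ((x, y), 2) := q1
      rw [q0', q1']
      linear_combination hz (chi O ((x, y), 0)) + hz (chi O ((x, y), 2))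
  have hhor0 : ∀ x, W (x, 0) + W (x + 1, 0) = chi O (up x 0) := by
    intro x
    rw [hWd, hWd]
    simp only [Int.toNat_zero, range_zero, sum_empty, add_zero]
    exact hH x
  have hhor : ∀ (n : ℕ) x, (n = 0 ∨ (x, (n : ℤ) - 1) ∈ D) →
      W (x, (n : ℤ)) + W (x + 1, (n : ℤ)) = chi O (up x n) := by
    intro n
    induction n with
    | zero => intro x _; exact hhor0 x
    | succ n ih =>
      intro x h
      have h1 : (x, (n : ℤ)) ∈ D := by
        rcases h with h | h
        · exact absurd h (by omega)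
        · push_cast at h
          rwa [add_sub_cancel_right] at h
      have h2 := ih x (by
        rcases Nat.eq_zero_or_pos n with h0 | h0
        · left; exact h0
        · right
          exact hD x n h1 (by exact_mod_cast h0))
      have h3 := hcl x n h1
      push_cast
      rw [hver x n (by positivity), hver (x + 1) n (by positivity), e2, e1]
      have h4 : chi O (up x n) = chi O ((x, (n : ℤ)), 0) := rfl
      rw [h4] at h2
      linear_combination h2 - h3 + hz (chi O ((x, (n : ℤ)), 1)) + hz (chi O ((x, (n : ℤ)), 3)) +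
        hz (chi O ((x, (n : ℤ)), 0))
  refine ⟨W, ?_, hhor0⟩
  rintro ⟨⟨x, y⟩, c⟩ hp
  simp only at hp
  have hy0 : 0 ≤ y := hD0 _ hp
  have hyn : ((y.toNat : ℕ) : ℤ) = y := Int.toNat_of_nonneg hy0
  fin_cases c
  · have := hhor y.toNat x (by
      rcases Nat.eq_zero_or_pos y.toNat with h0 | h0
      · left; exact h0
      · right
        rw [hyn]
        exact hD x y hp (by omega))
    rw [hyn] at this
    simpa [lc, rc, cor, co, up] using this
  · have := hver (x + 1) y hy0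
    rw [e1] at this
    have h2 : W (x + 1, y) + W (x + 1, y + 1) = chi O ((x, y), 1) := by
      rw [this]
      linear_combination hz (W (x + 1, y))
    simpa [lc, rc, cor, co] using h2
  · have := hhor (y.toNat + 1) x (by
      right
      push_cast
      rw [hyn, add_sub_cancel_right]
      exact hp)
    push_cast at this
    rw [hyn, e2, add_comm] at this
    simpa [lc, rc, cor, co] using this
  · have := hver x y hy0
    have h2 : W (x, y + 1) + W (x, y) = chi O ((x, y), 3) := by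
      rw [this]
      linear_combination hz (W (x, y))
    simpa [lc, rc, cor, co] using h2

/-- reflected point -/
def mp (q : ℤ × ℤ) : ℤ × ℤ := (q.1, -q.2)

lemma lc_mir (d : DS) : lc (mir d) = mp (rc d) := by
  obtain ⟨⟨x, y⟩, c⟩ := d
  fin_cases c <;> simp [lc, rc, mir, mc, mp, cor, co] <;> ring

lemma rc_mir (d : DS) : rc (mir d) = mp (lc d) := by
  obtain ⟨⟨x, y⟩, c⟩ := d
  fin_cases c <;> simp [lc, rc, mir, mc, mp, cor, co] <;> ring

lemma ClosedOn.mirror {t : TC} {D : Set (ℤ × ℤ)} {O : Set DS} (h : ClosedOn t D O) :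
    ClosedOn (mirT t) {p | (p.1, -1 - p.2) ∈ D} {d | mir d ∈ O} := by
  constructor
  · intro d hd
    show mir (rev d) ∈ O
    rw [← rev_mir]
    exact h.rv _ hd
  · intro d hd hdr
    show mir (d.1, prt (mirT t d.1) d.2) ∈ O
    have h2 := h.pr _ hd hdr
    have h3 : mir (d.1, prt (mirT t d.1) d.2) = ((mir d).1, prt (t (mir d).1) (mir d).2) := by
      unfold mir mirT
      simp only
      have := prt_mc (!t (d.1.1, -1 - d.1.2)) d.2
      rw [Bool.not_not] at this
      rw [this]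
    rw [h3]
    exact h2

theorem exists_potIn_dn {t : TC} {D : Set (ℤ × ℤ)} {O : Set DS} (hD0 : ∀ p ∈ D, p.2 < 0)
    (hD : ∀ x y : ℤ, (x, y) ∈ D → y < -1 → (x, y + 1) ∈ D) (hO : ClosedOn t D O) :
    ∃ W, PotIn D O W := by
  obtain ⟨W, hW⟩ := exists_potIn_up (D := {p | (p.1, -1 - p.2) ∈ D}) (O := {d | mir d ∈ O})
    (fun p hp => by have := hD0 _ hp; simp only at this; omega)
    (fun x y hp hy => by
      have h1 := hD x (-1 - y) hp (by omega)
      show (x, -1 - (y - 1)) ∈ D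
      rwa [show -1 - (y - 1) = -1 - y + 1 by ring]) hO.mirror
  refine ⟨fun q => W (mp q), fun d hd => ?_, fun x => ?_⟩
  · have h1 := hW.side (mir d) (by
      show (d.1.1, -1 - (-1 - d.1.2)) ∈ D
      rw [show -1 - (-1 - d.1.2) = d.1.2 by ring]
      exact hd)
    rw [lc_mir, rc_mir] at h1
    have h2 : chi {d | mir d ∈ O} (mir d) = chi O d := chi_eq_of_iff (by
      show mir (mir d) ∈ O ↔ _
      rw [mir_mir])
    rw [h2, add_comm] at h1
    exact h1
  · have h1 := hW.hor x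
    have h2 : chi {d | mir d ∈ O} (up x 0) = chi O (up x 0) := chi_eq_of_iff (by
      show mir (up x 0) ∈ O ↔ _
      rw [mir_up, ← rev_up]
      exact hO.rv_iff _)
    rw [h2] at h1
    simpa [mp] using h1

theorem PotIn.join {t : TC} {O : Set DS} {D : Set (ℤ × ℤ)} (hO : ClosedOn t D O)
    {W : ℤ × ℤ → ZMod 2} (hW : PotIn D O W) {p u v : ℤ × ℤ} (hp : p ∈ D)
    (h : Jn t p u v) : W u = W v := by
  obtain ⟨c, rfl, rfl, hc⟩ := h
  have h1 := hW.side (p, c) hp
  have h2 := hW.side (p, c + 1) hp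
  have hpr : prt (t p) c = c + 1 := prt_eq_succ (t p) c hc
  have h3 : chi O (p, c + 1) = chi O (p, c) := by
    have := chi_of_iff (hO.pr_iff hp c)
    rwa [hpr] at this
  have e4 : rc (p, c + 1) = cor p (c + 2) := by
    unfold rc
    congr 1
    show c + 1 + 1 = c + 2
    rw [add_assoc]; rfl
  have e5 : lc (p, c + 1) = rc (p, c) := rfl
  have e6 : lc (p, c) = cor p c := rfl
  rw [e4, e5, h3, ← h1, e6] at h2
  generalize W (cor p c) = a at *
  generalize W (cor p (c + 2)) = b at *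
  generalize W (rc (p, c)) = e at *
  have : e + b = e + a := by rw [h2, add_comm]
  exact (add_left_cancel this).symm

/-! ### the slit plane -/

/-- the cut sides of the slit -/
def Cut (k : ℕ) : Set DS := {d | ∃ x : ℤ, 0 ≤ x ∧ x < k ∧ (d = up x 0 ∨ d = dn x 0)}

lemma cut_rev {k : ℕ} {d : DS} (h : d ∈ Cut k) : rev d ∈ Cut k := by
  obtain ⟨x, h0, h1, rfl | rfl⟩ := h
  · rw [rev_up]; exact ⟨x, h0, h1, Or.inr rfl⟩
  · rw [rev_dn]; exact ⟨x, h0, h1, Or.inl rfl⟩

lemma cut_rev_iff {k : ℕ} {d : DS} : rev d ∈ Cut k ↔ d ∈ Cut k :=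
  ⟨fun h => by have := cut_rev h; rwa [rev_rev] at this, cut_rev⟩

lemma cut_up {k : ℕ} {x : ℤ} : up x 0 ∈ Cut k ↔ 0 ≤ x ∧ x < k := by
  constructor
  · rintro ⟨y, h0, h1, h2 | h2⟩
    · rw [up_inj h2]; exact ⟨h0, h1⟩
    · exact absurd h2 (up_ne_dn _ _)
  · rintro ⟨h0, h1⟩
    exact ⟨x, h0, h1, Or.inl rfl⟩

lemma cut_dn {k : ℕ} {x : ℤ} : dn x 0 ∈ Cut k ↔ 0 ≤ x ∧ x < k := by
  rw [← rev_up, cut_rev_iff, cut_up]

lemma cut_rows {k : ℕ} {d : DS} (h : d ∈ Cut k) :
    (d.1.2 = 0 ∧ (rev d).1.2 = -1) ∨ (d.1.2 = -1 ∧ (rev d).1.2 = 0) := by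
  obtain ⟨x, _, _, rfl | rfl⟩ := h
  · left; rw [rev_up]; simp [up, dn]
  · right; rw [rev_dn]; simp [up, dn]

/-- one step between marked corners in `D` slit along the cut -/
def SStep (t : TC) (D : Set (ℤ × ℤ)) (k : ℕ) (u v : (ℤ × ℤ) × Bool) : Prop :=
  (∃ p ∈ D, u.2 = decide (0 ≤ p.2) ∧ v.2 = decide (0 ≤ p.2) ∧ Jn t p u.1 v.1) ∨
    (u.1 = v.1 ∧ u.1.2 = 0 ∧ (u.1.1 ≤ 0 ∨ (k : ℤ) ≤ u.1.1))

/-- connection in `D` slit along the cut -/
def SConn (t : TC) (D : Set (ℤ × ℤ)) (k : ℕ) : (ℤ × ℤ) × Bool → (ℤ × ℤ) × Bool → Prop :=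
  Relation.ReflTransGen (SStep t D k)

lemma lc_up (x j : ℤ) : lc (up x j) = (x, j) := by simp [lc, up, cor, co]
lemma rc_up (x j : ℤ) : rc (up x j) = (x + 1, j) := by simp [rc, up, cor, co]
lemma lc_dn (x j : ℤ) : lc (dn x j) = (x + 1, j) := by simp [lc, dn, cor, co]
lemma rc_dn (x j : ℤ) : rc (dn x j) = (x, j) := by simp [rc, dn, cor, co]

/-- change of the mark at a side that is not cut -/
lemma flip_side {t : TC} {D : Set (ℤ × ℤ)} {k : ℕ} {d : DS} (hd : nxt t d ∉ Cut k) :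
    SConn t D k (lc (nxt t d), mk d) (lc (nxt t d), mk (nxt t d)) ∧
      SConn t D k (rc (nxt t d), mk d) (rc (nxt t d), mk (nxt t d)) := by
  by_cases h1 : 0 ≤ d.1.2
  · by_cases h2 : 0 ≤ (nxt t d).1.2
    · have e1 : mk d = true := decide_eq_true h1
      have e2 : mk (nxt t d) = true := decide_eq_true h2
      rw [e1, e2]
      exact ⟨Relation.ReflTransGen.refl, Relation.ReflTransGen.refl⟩
    · obtain ⟨y, hy⟩ := cross_dn h1 (not_le.1 h2)
      rw [hy, cut_dn] at hd
      rw [hy, lc_dn, rc_dn]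
      constructor
      · refine Relation.ReflTransGen.single (Or.inr ⟨rfl, rfl, ?_⟩)
        simp only
        omega
      · refine Relation.ReflTransGen.single (Or.inr ⟨rfl, rfl, ?_⟩)
        simp only
        omega
  · by_cases h2 : 0 ≤ (nxt t d).1.2
    · obtain ⟨y, hy⟩ := cross_up (not_le.1 h1) h2
      rw [hy, cut_up] at hd
      rw [hy, lc_up, rc_up]
      constructor
      · refine Relation.ReflTransGen.single (Or.inr ⟨rfl, rfl, ?_⟩)
        simp only
        omega
      · refine Relation.ReflTransGen.single (Or.inr ⟨rfl, rfl, ?_⟩)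
        simp only
        omega
    · have e1 : mk d = false := decide_eq_false h1
      have e2 : mk (nxt t d) = false := decide_eq_false h2
      rw [e1, e2]
      exact ⟨Relation.ReflTransGen.refl, Relation.ReflTransGen.refl⟩

/-- along an interface that does not meet the cut both marked corners stay connected -/
theorem sconn_iter {t : TC} {D : Set (ℤ × ℤ)} {k : ℕ} {d : DS} {n : ℕ}
    (hD : ∀ i < n, ((nxt t)^[i] d).1 ∈ D) (hK : ∀ i, 0 < i → i ≤ n → (nxt t)^[i] d ∉ Cut k) :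
    SConn t D k (lc d, mk d) (lc ((nxt t)^[n] d), mk ((nxt t)^[n] d)) ∧
      SConn t D k (rc d, mk d) (rc ((nxt t)^[n] d), mk ((nxt t)^[n] d)) := by
  induction n with
  | zero => exact ⟨Relation.ReflTransGen.refl, Relation.ReflTransGen.refl⟩
  | succ n ih =>
    obtain ⟨h1, h2⟩ := ih (fun i hi => hD i (by omega)) (fun i h0 hi => hK i h0 (by omega))
    have h3 := hD n (by omega)
    have h4 := hK (n + 1) (by omega) le_rfl
    rw [Function.iterate_succ_apply'] at h4 ⊢
    set e := (nxt t)^[n] d with he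
    obtain ⟨f1, f2⟩ := flip_side (D := D) h4
    rcases corners_nxt t e with ⟨h5, h6⟩ | ⟨h5, h6⟩
    · constructor
      · rw [h5] at f1 ⊢
        exact h1.trans f1
      · refine (h2.tail (Or.inl ⟨e.1, h3, rfl, rfl, h6⟩)).trans f2
    · constructor
      · refine (h1.tail (Or.inl ⟨e.1, h3, rfl, rfl, h6⟩)).trans f1
      · rw [h5] at f2 ⊢
        exact h2.trans f2

/-- the `2k` ends in cyclic order -/
def en (k j : ℕ) : DS := if j < k then up j 0 else dn (2 * k - 1 - j) 0

lemma en_cases {k j : ℕ} (hj : j < 2 * k) : ∃ x : ℤ, 0 ≤ x ∧ x < k ∧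
    ((j < k ∧ (j : ℤ) = x ∧ en k j = up x 0) ∨
      (k ≤ j ∧ (j : ℤ) = 2 * k - 1 - x ∧ en k j = dn x 0)) := by
  unfold en
  by_cases h : j < k
  · rw [if_pos h]
    exact ⟨j, by positivity, by exact_mod_cast h, Or.inl ⟨h, rfl, rfl⟩⟩
  · rw [if_neg h]
    exact ⟨2 * k - 1 - j, by omega, by omega, Or.inr ⟨by omega, by ring, rfl⟩⟩

lemma en_cut {k j : ℕ} (hj : j < 2 * k) : en k j ∈ Cut k := by
  obtain ⟨x, h0, h1, ⟨_, _, h⟩ | ⟨_, _, h⟩⟩ := en_cases hj
  · exact ⟨x, h0, h1, Or.inl h⟩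
  · exact ⟨x, h0, h1, Or.inr h⟩

lemma en_inj {k i j : ℕ} (hi : i < 2 * k) (hj : j < 2 * k) (h : en k i = en k j) : i = j := by
  obtain ⟨x, _, _, ⟨_, h1, h2⟩ | ⟨_, h1, h2⟩⟩ := en_cases hi <;>
  obtain ⟨y, _, _, ⟨_, h3, h4⟩ | ⟨_, h3, h4⟩⟩ := en_cases hj
  · have := up_inj (h2.symm.trans (h.trans h4)); omega
  · exact absurd (h2.symm.trans (h.trans h4)) (up_ne_dn _ _)
  · exact absurd (h4.symm.trans (h.symm.trans h2)) (up_ne_dn _ _)
  · have := dn_inj (h2.symm.trans (h.trans h4)); omega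

/-- `CLeaves` with the first exit -/
lemma CLeaves.first {t : TC} {D : Set (ℤ × ℤ)} {K : Set DS} {d : DS} (h : CLeaves t D K d)
    (hd : d.1 ∈ D) : ∃ n, 0 < n ∧ ((nxt t)^[n] d).1 ∉ D ∧ (∀ i < n, ((nxt t)^[i] d).1 ∈ D) ∧
      ∀ j, 0 < j → j < n → (nxt t)^[j] d ∉ K := by
  classical
  obtain ⟨n, h1, h2⟩ := h
  have hex : ∃ n, ((nxt t)^[n] d).1 ∉ D := ⟨n, h1⟩
  have hle : Nat.find hex ≤ n := Nat.find_min' hex h1
  refine ⟨Nat.find hex, ?_, Nat.find_spec hex, ?_, fun j h0 hj => h2 j h0 (by omega)⟩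
  · rcases Nat.eq_zero_or_pos (Nat.find hex) with h0 | h0
    · exfalso
      have := Nat.find_spec hex
      rw [h0] at this
      exact this hd
    · exact h0
  · intro i hi
    by_contra hc
    exact Nat.find_min hex hi hc

/-- a diamond shaped region that contains the tiles at the slit -/
structure Diam (D : Set (ℤ × ℤ)) (k : ℕ) : Prop where
  up : ∀ x y : ℤ, (x, y) ∈ D → 0 < y → (x, y - 1) ∈ D
  dn : ∀ x y : ℤ, (x, y) ∈ D → y < -1 → (x, y + 1) ∈ D
  cut : ∀ d ∈ Cut k, d.1 ∈ D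

/-- the sides of the interface from the end `d` until it leaves `D` -/
def exP (t : TC) (d : DS) (n : ℕ) : Set DS := cpath t d n ∪ {(nxt t)^[n] d}

lemma exP_closed {t : TC} {D : Set (ℤ × ℤ)} {K : Set DS} {d : DS} {n : ℕ}
    (hd : d ∈ K) (h0n : 0 < n) (hn : ((nxt t)^[n] d).1 ∉ D) : CutClosed t D K (exP t d n) := by
  constructor
  · rintro e (⟨i, ⟨hi, rfl⟩ | ⟨h0, hi, rfl⟩⟩ | he) hek
    · rcases Nat.eq_zero_or_pos i with rfl | h
      · exact absurd hd hek
      · exact Or.inl ⟨i, Or.inr ⟨h, hi.le, rfl⟩⟩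
    · rw [rev_rev]
      rcases Nat.lt_or_ge i n with h | h
      · exact Or.inl ⟨i, Or.inl ⟨h, rfl⟩⟩
      · have : i = n := le_antisymm hi h
        rw [this]
        exact Or.inr rfl
    · rw [Set.mem_singleton_iff] at he
      rw [he]
      exact Or.inl ⟨n, Or.inr ⟨h0n, le_rfl, rfl⟩⟩
  · rintro e (he | he) heR
    · exact Or.inl (cpath_pr e he heR)
    · rw [Set.mem_singleton_iff] at he
      rw [he] at heR
      exact absurd heR hn

lemma CutClosed.union {t : TC} {D : Set (ℤ × ℤ)} {K O O' : Set DS} (h : CutClosed t D K O)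
    (h' : CutClosed t D K O') : CutClosed t D K (O ∪ O') := by
  constructor
  · rintro d (hd | hd) hk
    · exact Or.inl (h.rv d hd hk)
    · exact Or.inr (h'.rv d hd hk)
  · rintro d (hd | hd) hk
    · exact Or.inl (h.pr d hd hk)
    · exact Or.inr (h'.pr d hd hk)

lemma exP_cut {t : TC} {D : Set (ℤ × ℤ)} {k : ℕ} (hD : ∀ d ∈ Cut k, d.1 ∈ D) {d : DS} {n : ℕ}
    (hn : ((nxt t)^[n] d).1 ∉ D) (hK : ∀ j, 0 < j → j < n → (nxt t)^[j] d ∉ Cut k) {e : DS}
    (he : e ∈ exP t d n) (hek : e ∈ Cut k) : e = d := by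
  have hnK : (nxt t)^[n] d ∉ Cut k := fun h => hn (hD _ h)
  rcases he with ⟨i, ⟨hi, rfl⟩ | ⟨h0, hi, rfl⟩⟩ | he
  · rcases Nat.eq_zero_or_pos i with rfl | h
    · rfl
    · exact absurd hek (hK i h hi)
  · exfalso
    rcases Nat.lt_or_ge i n with h | h
    · exact hK i h0 h (cut_rev_iff.1 hek)
    · have : i = n := le_antisymm hi h
      rw [this] at hek
      exact hnK (cut_rev_iff.1 hek)
  · rw [Set.mem_singleton_iff] at he
    rw [he] at hek
    exact absurd hek hnK

lemma upO_closed' {t : TC} {D : Set (ℤ × ℤ)} {k : ℕ} {O : Set DS}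
    (h : CutClosed t D (Cut k) O) : ClosedOn t {p | p ∈ D ∧ 0 ≤ p.2} (upO O) := by
  constructor
  · rintro d (⟨h1, h2⟩ | ⟨h1, h2⟩)
    · right; rw [rev_rev]; exact ⟨h1, h2⟩
    · left; exact ⟨h1, h2⟩
  · rintro d hd ⟨hdD, h0⟩
    left
    have hmem : d ∈ O := by
      rcases hd with ⟨h1, _⟩ | ⟨h1, h2⟩
      · exact h1
      · by_cases hk : rev d ∈ Cut k
        · have := cut_rows (cut_rev_iff.1 hk)
          omega
        · have := h.rv _ h1 hk
          rwa [rev_rev] at this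
    exact ⟨h.pr d hmem hdD, h0⟩

lemma dnO_closed' {t : TC} {D : Set (ℤ × ℤ)} {k : ℕ} {O : Set DS}
    (h : CutClosed t D (Cut k) O) : ClosedOn t {p | p ∈ D ∧ p.2 < 0} (dnO O) := by
  constructor
  · rintro d (⟨h1, h2⟩ | ⟨h1, h2⟩)
    · right; rw [rev_rev]; exact ⟨h1, h2⟩
    · left; exact ⟨h1, h2⟩
  · rintro d hd ⟨hdD, h0⟩
    left
    have hmem : d ∈ O := by
      rcases hd with ⟨h1, _⟩ | ⟨h1, h2⟩
      · exact h1
      · by_cases hk : rev d ∈ Cut k
        · have := cut_rows (cut_rev_iff.1 hk)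
          omega
        · have := h.rv _ h1 hk
          rwa [rev_rev] at this
    exact ⟨h.pr d hmem hdD, h0⟩

/-- **Separation**: a function on the marked corners, constant on the connected components of the
slit region, which distinguishes the corners at the ends `i` and `j` -/
theorem sep_ends {t : TC} {D : Set (ℤ × ℤ)} {k : ℕ} (hD : Diam D k)
    (hl : ∀ j < 2 * k, CLeaves t D (Cut k) (en k j)) {i j : ℕ} (hij : i < j) (hj : j < 2 * k) :
    ∃ Wm : (ℤ × ℤ) × Bool → ZMod 2, (∀ u v, SConn t D k u v → Wm u = Wm v) ∧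
      Wm (lc (en k i), mk (en k i)) ≠ Wm (lc (en k j), mk (en k j)) := by
  have hi : i < 2 * k := by omega
  obtain ⟨n1, hn1, ho1, hin1, hK1⟩ := (hl i hi).first (hD.cut _ (en_cut hi))
  obtain ⟨n2, hn2, ho2, hin2, hK2⟩ := (hl j hj).first (hD.cut _ (en_cut hj))
  set d := en k i with hdd
  set e := en k j with hee
  have hde : d ≠ e := fun h => by have := en_inj hi hj h; omega
  obtain ⟨O, hOd⟩ : ∃ O, O = exP t d n1 ∪ exP t e n2 := ⟨_, rfl⟩
  have hO : CutClosed t D (Cut k) O := by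
    rw [hOd]
    exact (exP_closed (en_cut hi) hn1 ho1).union (exP_closed (en_cut hj) hn2 ho2)
  have hdO : d ∈ O := by
    rw [hOd]; exact Or.inl (Or.inl ⟨0, Or.inl ⟨hn1, rfl⟩⟩)
  have heO : e ∈ O := by
    rw [hOd]; exact Or.inr (Or.inl ⟨0, Or.inl ⟨hn2, rfl⟩⟩)
  have hOK : ∀ f ∈ O, f ∈ Cut k → f = d ∨ f = e := by
    intro f hf hfk
    rw [hOd] at hf
    rcases hf with hf | hf
    · exact Or.inl (exP_cut hD.cut ho1 hK1 hf hfk)
    · exact Or.inr (exP_cut hD.cut ho2 hK2 hf hfk)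
  have hchi : ∀ f ∈ Cut k, chi O f = ind d f + ind e f := by
    intro f hf
    unfold chi ind
    by_cases h1 : f = d
    · rw [if_pos (h1 ▸ hdO), if_pos h1, if_neg (fun h => hde (h1.symm.trans h)), add_zero]
    · by_cases h2 : f = e
      · rw [if_pos (h2 ▸ heO), if_neg h1, if_pos h2, zero_add]
      · rw [if_neg (fun h => (hOK f h hf).elim h1 h2), if_neg h1, if_neg h2, add_zero]
  obtain ⟨Wu, hWu⟩ := exists_potIn_up (t := t) (D := {p | p ∈ D ∧ 0 ≤ p.2}) (O := upO O)
    (fun p hp => hp.2) (fun x y hp hy => ⟨hD.up x y hp.1 hy, by simp only; omega⟩)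
    (upO_closed' hO)
  obtain ⟨Wd, hWd⟩ := exists_potIn_dn (t := t) (D := {p | p ∈ D ∧ p.2 < 0}) (O := dnO O)
    (fun p hp => hp.2) (fun x y hp hy => ⟨hD.dn x y hp.1 hy, by simp only; omega⟩)
    (dnO_closed' hO)
  have hcu : ∀ x, Wu (x, 0) + Wu (x + 1, 0) = chi O (up x 0) := by
    intro x; rw [hWu.hor x]; exact chi_eq_of_iff (up_mem_upO x)
  have hcd : ∀ x, Wd (x, 0) + Wd (x + 1, 0) = chi O (dn x 0) := by
    intro x; rw [hWd.hor x]; exact chi_eq_of_iff (up_mem_dnO x)
  have hnc : ∀ x : ℤ, ¬ (0 ≤ x ∧ x < k) → chi O (up x 0) = chi O (dn x 0) := by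
    intro x hx
    apply chi_of_iff
    constructor
    · intro h
      rw [← rev_up]
      exact hO.rv _ h (by rw [cut_up]; exact hx)
    · intro h
      rw [← rev_dn]
      exact hO.rv _ h (by rw [cut_dn]; exact hx)
  -- the difference on the line zero
  obtain ⟨Δ, hΔ⟩ : ∃ Δ : ℤ → ZMod 2, ∀ x, Δ x = Wu (x, 0) + Wd (x, 0) := ⟨_, fun _ => rfl⟩
  have hΔ1 : ∀ x : ℤ, ¬ (0 ≤ x ∧ x < k) → Δ x = Δ (x + 1) := by
    intro x hx
    have h1 := hcu x
    have h2 := hcd x
    rw [← hnc x hx] at h2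
    rw [hΔ, hΔ]
    linear_combination h1 + h2 + zz (chi O (up x 0)) - zz (Wu (x + 1, 0)) - zz (Wd (x + 1, 0))
  have hΔ2 : ∀ m : ℕ, m ≤ k → Δ 0 + Δ m = ∑ x ∈ range m,
      (chi O (up x 0) + chi O (dn x 0)) := by
    intro m
    induction m with
    | zero => intro _; simp [zz]
    | succ m ih =>
      intro hm
      rw [sum_range_succ, ← ih (by omega), ← hcu m, ← hcd m, hΔ, hΔ, hΔ]
      push_cast
      linear_combination (-1 : ZMod 2) * zz (Wu (m, 0)) - zz (Wd (m, 0))
  obtain ⟨x1, hx10, hx1k, hx1⟩ := en_cases hi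
  obtain ⟨x2, hx20, hx2k, hx2⟩ := en_cases hj
  have hd' : d = up x1 0 ∨ d = dn x1 0 := by
    rcases hx1 with ⟨_, _, h⟩ | ⟨_, _, h⟩
    · exact Or.inl h
    · exact Or.inr h
  have he' : e = up x2 0 ∨ e = dn x2 0 := by
    rcases hx2 with ⟨_, _, h⟩ | ⟨_, _, h⟩
    · exact Or.inl h
    · exact Or.inr h
  have hΔk : Δ 0 = Δ k := by
    have h1 := hΔ2 k le_rfl
    have h2 : ∀ x ∈ range k, chi O (up x 0) + chi O (dn x 0) =
        (ind d (up x 0) + ind d (dn x 0)) + (ind e (up x 0) + ind e (dn x 0)) := by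
      intro x hx
      rw [mem_range] at hx
      rw [hchi _ (cut_up.2 ⟨by positivity, by exact_mod_cast hx⟩),
        hchi _ (cut_dn.2 ⟨by positivity, by exact_mod_cast hx⟩)]
      ring
    rw [sum_congr rfl h2, sum_add_distrib, sum_ind hx10 hx1k hd', sum_ind hx20 hx2k he', zz] at h1
    exact eq_of_add_zero h1
  have hΔ3 : ∀ x : ℤ, (x ≤ 0 ∨ (k : ℤ) ≤ x) → Δ x = Δ 0 := by
    have hneg : ∀ n : ℕ, Δ (-(n : ℤ)) = Δ 0 := by
      intro n
      induction n with
      | zero => simp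
      | succ n ih =>
        rw [← ih]
        have := hΔ1 (-((n + 1 : ℕ) : ℤ)) (by push_cast; omega)
        rw [this]
        congr 1
        push_cast
        ring
    have hpos : ∀ n : ℕ, Δ (k + (n : ℤ)) = Δ 0 := by
      intro n
      induction n with
      | zero => simp [hΔk]
      | succ n ih =>
        rw [← ih]
        have := hΔ1 (k + (n : ℤ)) (by omega)
        rw [this]
        congr 1
    intro x hx
    rcases hx with hx | hx
    · have := hneg (-x).toNat
      rwa [Int.toNat_of_nonneg (by omega), neg_neg] at this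
    · have := hpos (x - k).toNat
      rwa [Int.toNat_of_nonneg (by omega), add_sub_cancel] at this
  -- the marked potential
  obtain ⟨Wm, hWm⟩ : ∃ Wm : (ℤ × ℤ) × Bool → ZMod 2, ∀ v, Wm v =
      if v.2 then Wu v.1 else Wd v.1 + Δ 0 := ⟨_, fun _ => rfl⟩
  have hflip : ∀ v : ℤ × ℤ, v.2 = 0 → (v.1 ≤ 0 ∨ (k : ℤ) ≤ v.1) → Wu v = Wd v + Δ 0 := by
    rintro ⟨x, y⟩ hy hx
    simp only at hy hx
    subst hy
    rw [← hΔ3 x hx, hΔ]
    linear_combination -zz (Wd (x, 0))
  have hstep : ∀ u v, SStep t D k u v → Wm u = Wm v := by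
    rintro ⟨u, mu⟩ ⟨v, mv⟩ (⟨p, hp, h1, h2, h3⟩ | ⟨h1, h2, h3⟩)
    · simp only at h1 h2 h3
      rw [hWm, hWm]
      simp only
      by_cases hp0 : 0 ≤ p.2
      · rw [decide_eq_true hp0] at h1 h2
        rw [h1, h2, if_pos rfl, if_pos rfl]
        exact hWu.join (upO_closed' hO) ⟨hp, hp0⟩ h3
      · rw [decide_eq_false hp0] at h1 h2
        rw [h1, h2, if_neg (by decide), if_neg (by decide)]
        rw [hWd.join (dnO_closed' hO) ⟨hp, not_le.1 hp0⟩ h3]
    · simp only at h1 h2 h3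
      subst h1
      rw [hWm, hWm]
      simp only
      have := hflip u h2 h3
      rcases mu with _ | _ <;> rcases mv with _ | _ <;> simp [this]
  have hconn : ∀ u v, SConn t D k u v → Wm u = Wm v := by
    intro u v h
    induction h with
    | refl => rfl
    | tail _ h2 ih => rw [ih]; exact hstep _ _ h2
  refine ⟨Wm, hconn, ?_⟩
  -- increments along the ends
  have hinc : ∀ l < 2 * k, Wm (lc (en k l), mk (en k l)) + Wm (rc (en k l), mk (en k l)) =
      ind d (en k l) + ind e (en k l) := by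
    intro l hl'
    obtain ⟨x, h0, h1, h⟩ := en_cases hl'
    rcases h with ⟨_, _, h⟩ | ⟨_, _, h⟩
    · rw [← hchi _ (en_cut hl'), h]
      have hmk : mk (up x 0) = true := by simp [mk, up]
      rw [hmk, lc_up, rc_up, hWm, hWm]
      exact hcu x
    · rw [← hchi _ (en_cut hl'), h]
      have hmk : mk (dn x 0) = false := by simp [mk, dn]
      rw [hmk, lc_dn, rc_dn, hWm, hWm]
      simp only [Bool.false_eq_true, if_false]
      have := hcd x
      linear_combination this + zz (Δ 0)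
  have hglue : ∀ l, l + 1 < 2 * k → Wm (rc (en k l), mk (en k l)) =
      Wm (lc (en k (l + 1)), mk (en k (l + 1))) := by
    intro l hl'
    obtain ⟨x, h0, h1, h⟩ := en_cases (show l < 2 * k by omega)
    obtain ⟨y, h0', h1', h'⟩ := en_cases hl'
    have mku : ∀ z : ℤ, mk (up z 0) = true := fun z => by simp [mk, up]
    have mkd : ∀ z : ℤ, mk (dn z 0) = false := fun z => by simp [mk, dn]
    rcases h with ⟨a1, a2, h⟩ | ⟨a1, a2, h⟩ <;> rcases h' with ⟨b1, b2, h'⟩ | ⟨b1, b2, h'⟩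
    · rw [h, h', mku, mku, rc_up, lc_up]
      have : x + 1 = y := by push_cast at b2; omega
      rw [this]
    · rw [h, h', mku, mkd, rc_up, lc_dn, hWm, hWm]
      simp only [Bool.false_eq_true, if_false, if_true]
      have : x + 1 = y + 1 := by push_cast at b2; omega
      rw [this]
      exact hflip (y + 1, 0) rfl (Or.inr (by simp only; push_cast at b2; omega))
    · exfalso; omega
    · rw [h, h', mkd, mkd, rc_dn, lc_dn]
      have : x = y + 1 := by push_cast at b2; omega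
      rw [this]
  have hrun : ∀ l, i + 1 ≤ l → l ≤ j →
      Wm (lc (en k l), mk (en k l)) = Wm (lc d, mk d) + 1 := by
    intro l hl'
    induction l, hl' using Nat.le_induction with
    | base =>
      intro _
      have h1 := hinc i hi
      have h2 := hglue i (by omega)
      rw [← h2]
      rw [← hdd] at h1 ⊢
      have h3 : ind d d = 1 := if_pos rfl
      have h4 : ind e d = 0 := if_neg hde
      rw [h3, h4] at h1
      linear_combination h1 - zz (Wm (lc d, mk d))
    | succ l hl1 ih =>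
      intro hlj
      rw [← ih (by omega), ← hglue l (by omega)]
      have h1 := hinc l (by omega)
      have h3 : ind d (en k l) = 0 := if_neg (fun h => by
        have := en_inj (by omega) hi h; omega)
      have h4 : ind e (en k l) = 0 := if_neg (fun h => by
        have := en_inj (by omega) hj h; omega)
      rw [h3, h4, add_zero] at h1
      exact (eq_of_add_zero h1).symm
  have hfin := hrun j (by omega) le_rfl
  rw [← hee] at hfin
  rw [hfin]
  intro h
  have h5 : (1 : ZMod 2) = 0 := by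
    have : Wm (lc d, mk d) + 0 = Wm (lc d, mk d) + 1 := by rw [add_zero]; exact h
    exact (add_left_cancel this).symm
  exact one_ne_zero h5

end H81Tile
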