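import Pool.Agent.Helper81.Tile.Lower

/-!
Upper direction: if the corners at the cut strands are connected to the corners at the next cut
(one turn around the cylinder), the algebraic arm event holds.
-/

namespace H81Tile
open Finset IPC
open IP (St)

/-- `O` is closed under the tiles in `R` and under the reversal of the sides that are not cut -/
structure CutClosed (t : TC) (R : Set (ℤ × ℤ)) (K : Set DS) (O : Set DS) : Prop where
  rv : ∀ d ∈ O, d ∉ K → rev d ∈ O
  pr : ∀ d ∈ O, d.1 ∈ R → (d.1, prt (t d.1) d.2) ∈ O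

/-- upper part -/
def upO (O : Set DS) : Set DS := {d | (d ∈ O ∧ 0 ≤ d.1.2) ∨ (rev d ∈ O ∧ 0 ≤ (rev d).1.2)}
/-- lower part -/
def dnO (O : Set DS) : Set DS := {d | (d ∈ O ∧ d.1.2 < 0) ∨ (rev d ∈ O ∧ (rev d).1.2 < 0)}

lemma kut_rev {L k : ℕ} {d : DS} (h : d ∈ Kut L k) : rev d ∈ Kut L k := by
  obtain ⟨x, h1, rfl | rfl⟩ := h
  · rw [rev_up]; exact ⟨x, h1, Or.inr rfl⟩
  · rw [rev_dn]; exact ⟨x, h1, Or.inl rfl⟩

lemma kut_rev_iff {L k : ℕ} {d : DS} : rev d ∈ Kut L k ↔ d ∈ Kut L k :=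
  ⟨fun h => by have := kut_rev h; rwa [rev_rev] at this, kut_rev⟩

lemma kut_rows {L k : ℕ} {d : DS} (h : d ∈ Kut L k) :
    (d.1.2 = 0 ∧ (rev d).1.2 = -1) ∨ (d.1.2 = -1 ∧ (rev d).1.2 = 0) := by
  obtain ⟨x, h1, rfl | rfl⟩ := h
  · left; rw [rev_up]; simp [up, dn]
  · right; rw [rev_dn]; simp [up, dn]

lemma upO_closed {t : TC} {m : ℤ} {L k : ℕ} {O : Set DS}
    (h : CutClosed t (rows (-m) m) (Kut L k) O) : ClosedOn t (rows 0 m) (upO O) := by
  constructor
  · rintro d (⟨h1, h2⟩ | ⟨h1, h2⟩)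
    · right; rw [rev_rev]; exact ⟨h1, h2⟩
    · left; exact ⟨h1, h2⟩
  · rintro d hd ⟨h0, hm⟩
    left
    have hmem : d ∈ O := by
      rcases hd with ⟨h1, _⟩ | ⟨h1, h2⟩
      · exact h1
      · by_cases hk : rev d ∈ Kut L k
        · have := kut_rows (kut_rev_iff.1 hk)
          omega
        · have := h.rv _ h1 hk
          rwa [rev_rev] at this
    exact ⟨h.pr d hmem ⟨by omega, hm⟩, h0⟩

lemma dnO_closed {t : TC} {m : ℤ} {L k : ℕ} {O : Set DS}
    (h : CutClosed t (rows (-m) m) (Kut L k) O) : ClosedOn t (rows (-m) 0) (dnO O) := by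
  constructor
  · rintro d (⟨h1, h2⟩ | ⟨h1, h2⟩)
    · right; rw [rev_rev]; exact ⟨h1, h2⟩
    · left; exact ⟨h1, h2⟩
  · rintro d hd ⟨hm, h0⟩
    left
    have hmem : d ∈ O := by
      rcases hd with ⟨h1, _⟩ | ⟨h1, h2⟩
      · exact h1
      · by_cases hk : rev d ∈ Kut L k
        · have := kut_rows (kut_rev_iff.1 hk)
          omega
        · have := h.rv _ h1 hk
          rwa [rev_rev] at this
    exact ⟨h.pr d hmem ⟨hm, by omega⟩, h0⟩

lemma up_mem_upO {O : Set DS} (x : ℤ) : up x 0 ∈ upO O ↔ up x 0 ∈ O := by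
  constructor
  · rintro (⟨h1, _⟩ | ⟨_, h2⟩)
    · exact h1
    · rw [rev_up] at h2; simp [dn] at h2
  · intro h; left; exact ⟨h, by simp [up]⟩

lemma up_mem_dnO {O : Set DS} (x : ℤ) : up x 0 ∈ dnO O ↔ dn x 0 ∈ O := by
  constructor
  · rintro (⟨_, h2⟩ | ⟨h1, _⟩)
    · simp [up] at h2
    · rwa [rev_up] at h1
  · intro h; right; rw [rev_up]; exact ⟨h, by simp [dn]⟩

/-- invariance under the translation by `a` -/
def Inv (a : ℤ) (O : Set DS) : Prop := ∀ d, sh a d ∈ O ↔ d ∈ O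

lemma Inv.upO {a : ℤ} {O : Set DS} (h : Inv a O) : Inv a (upO O) := by
  intro d
  have e : rev (sh a d) = sh a (rev d) := rev_sh a d
  constructor
  · rintro (⟨h1, h2⟩ | ⟨h1, h2⟩)
    · left; exact ⟨(h d).1 h1, h2⟩
    · rw [e] at h1 h2; right; exact ⟨(h _).1 h1, h2⟩
  · rintro (⟨h1, h2⟩ | ⟨h1, h2⟩)
    · left; exact ⟨(h d).2 h1, h2⟩
    · right; rw [e]; exact ⟨(h _).2 h1, h2⟩

lemma Inv.dnO {a : ℤ} {O : Set DS} (h : Inv a O) : Inv a (dnO O) := by
  intro d
  have e : rev (sh a d) = sh a (rev d) := rev_sh a d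
  constructor
  · rintro (⟨h1, h2⟩ | ⟨h1, h2⟩)
    · left; exact ⟨(h d).1 h1, h2⟩
    · rw [e] at h1 h2; right; exact ⟨(h _).1 h1, h2⟩
  · rintro (⟨h1, h2⟩ | ⟨h1, h2⟩)
    · left; exact ⟨(h d).2 h1, h2⟩
    · right; rw [e]; exact ⟨(h _).2 h1, h2⟩

lemma zz (a : ZMod 2) : a + a = 0 := CharTwo.add_self_eq_zero a

/-- the increment of the potential over one period is constant -/
lemma PotOn.shift {O : Set DS} {a b p : ℤ} {W : ℤ × ℤ → ZMod 2} (hW : PotOn a b O W)
    (hO : Inv p O) {x y x' y' : ℤ} (h1 : a ≤ y) (h2 : y ≤ b) (h1' : a ≤ y') (h2' : y' ≤ b) :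
    W (x, y) + W (x + p, y) = W (x', y') + W (x' + p, y') := by
  have hx : ∀ x y, a ≤ y → y ≤ b → W (x, y) + W (x + p, y) = W (x + 1, y) + W (x + 1 + p, y) := by
    intro x y h1 h2
    have e1 := hW.hor x y h1 h2
    have e2 := hW.hor (x + p) y h1 h2
    have e3 : chi O (up (x + p) y) = chi O (up x y) := chi_of_iff (hO (up x y))
    rw [e3, ← e1] at e2
    rw [show x + 1 + p = x + p + 1 by ring]
    linear_combination e2 + zz (W (x, y)) - zz (W (x + p + 1, y))
  have hy : ∀ x y, a ≤ y → y < b → W (x, y) + W (x + p, y) = W (x, y + 1) + W (x + p, y + 1) := by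
    intro x y h1 h2
    have e1 := hW.ver x y h1 h2
    have e2 := hW.ver (x + p) y h1 h2
    have e3 : chi O ((x + p, y), 3) = chi O ((x, y), 3) := chi_of_iff (hO ((x, y), 3))
    rw [e3, ← e1] at e2
    linear_combination e2 + zz (W (x, y)) - zz (W (x + p, y + 1))
  have hxs : ∀ (n : ℕ) x y, a ≤ y → y ≤ b →
      W (x, y) + W (x + p, y) = W (x + n, y) + W (x + n + p, y) := by
    intro n
    induction n with
    | zero => intro x y _ _; simp
    | succ n ih =>
      intro x y h1 h2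
      rw [ih x y h1 h2, hx (x + n) y h1 h2]
      push_cast
      rw [show x + (n + 1) = x + (n : ℤ) + 1 by ring]
  have hys : ∀ (n : ℕ) x y, a ≤ y → y + n ≤ b →
      W (x, y) + W (x + p, y) = W (x, y + n) + W (x + p, y + n) := by
    intro n
    induction n with
    | zero => intro x y _ _; simp
    | succ n ih =>
      intro x y h1 h2
      push_cast at h2 ⊢
      rw [ih x y h1 (by linarith), hy x (y + n) (by linarith) (by linarith)]
      rw [show y + ((n : ℤ) + 1) = y + n + 1 by ring]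
  have hX : ∀ x x' y, a ≤ y → y ≤ b → W (x, y) + W (x + p, y) = W (x', y) + W (x' + p, y) := by
    intro x x' y h1 h2
    rcases le_total x x' with h | h
    · have := hxs (x' - x).toNat x y h1 h2
      rw [Int.toNat_of_nonneg (by linarith)] at this
      rwa [show x + (x' - x) = x' by ring] at this
    · have := hxs (x - x').toNat x' y h1 h2
      rw [Int.toNat_of_nonneg (by linarith)] at this
      rw [show x' + (x - x') = x by ring] at this
      exact this.symm
  have hY : ∀ x y y', a ≤ y → y ≤ y' → y' ≤ b →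
      W (x, y) + W (x + p, y) = W (x, y') + W (x + p, y') := by
    intro x y y' h1 h h2
    have := hys (y' - y).toNat x y h1 (by rw [Int.toNat_of_nonneg (by linarith)]; linarith)
    rw [Int.toNat_of_nonneg (by linarith)] at this
    rwa [show y + (y' - y) = y' by ring] at this
  rw [hX x x' y h1 h2]
  rcases le_total y y' with h | h
  · exact hY x' y y' h1 h h2'
  · exact (hY x' y' y h1' h h2).symm

/-! ### sides of a path in the cut configuration -/

/-- the sides of the first `n` steps, each side seen from the tile crossed by the path -/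
def cpath (t : TC) (d : DS) (n : ℕ) : Set DS :=
  {e | ∃ i, (i < n ∧ e = (nxt t)^[i] d) ∨ (0 < i ∧ i ≤ n ∧ e = rev ((nxt t)^[i] d))}

lemma cpath_pr {t : TC} {R : Set (ℤ × ℤ)} {d : DS} {n : ℕ} :
    ∀ e ∈ cpath t d n, e.1 ∈ R → (e.1, prt (t e.1) e.2) ∈ cpath t d n := by
  rintro e ⟨i, ⟨hi, rfl⟩ | ⟨h0, hi, rfl⟩⟩ _
  · refine ⟨i + 1, Or.inr ⟨by omega, by omega, ?_⟩⟩
    rw [Function.iterate_succ_apply', rev_nxt]
  · obtain ⟨j, rfl⟩ : ∃ j, i = j + 1 := ⟨i - 1, by omega⟩
    refine ⟨j, Or.inl ⟨by omega, ?_⟩⟩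
    rw [Function.iterate_succ_apply', rev_nxt]
    simp only [prt_prt]

/-- a path from a cut side to a cut side -/
lemma cpath_cutClosed {t : TC} {R : Set (ℤ × ℤ)} {L k : ℕ} {d : DS} {n : ℕ} (hd : d ∈ Kut L k)
    (hn : (nxt t)^[n] d ∈ Kut L k) : CutClosed t R (Kut L k) (cpath t d n) := by
  constructor
  · rintro e ⟨i, ⟨hi, rfl⟩ | ⟨h0, hi, rfl⟩⟩ hek
    · rcases Nat.eq_zero_or_pos i with rfl | h
      · exact absurd hd hek
      · exact ⟨i, Or.inr ⟨h, hi.le, rfl⟩⟩
    · rw [rev_rev]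
      rcases Nat.lt_or_ge i n with h | h
      · exact ⟨i, Or.inl ⟨h, rfl⟩⟩
      · have : i = n := le_antisymm hi h
        rw [this] at hek
        exact absurd (kut_rev hn) hek
  · exact cpath_pr

/-- a path from a cut side to the outside of `R` -/
lemma cpath_exit_cutClosed {t : TC} {R : Set (ℤ × ℤ)} {L k : ℕ} {d : DS} {n : ℕ}
    (hd : d ∈ Kut L k) (h0n : 0 < n) (hn : ((nxt t)^[n] d).1 ∉ R) :
    CutClosed t R (Kut L k) (cpath t d n ∪ {(nxt t)^[n] d}) := by
  constructor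
  · rintro e (⟨i, ⟨hi, rfl⟩ | ⟨h0, hi, rfl⟩⟩ | he) hek
    · rcases Nat.eq_zero_or_pos i with rfl | h
      · exact absurd hd hek
      · exact Or.inl ⟨i, Or.inr ⟨h, hi.le, rfl⟩⟩
    · rw [rev_rev]
      rcases Nat.lt_or_ge i n with h | h
      · exact Or.inl ⟨i, Or.inl ⟨h, rfl⟩⟩
      · have : i = n := le_antisymm hi h
        rw [this]
        exact Or.inr rfl
    · rw [Set.mem_singleton_iff] at he
      rw [he]
      exact Or.inl ⟨n, Or.inr ⟨h0n, le_rfl, rfl⟩⟩
  · rintro e (he | he) heR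
    · exact Or.inl (cpath_pr e he heR)
    · rw [Set.mem_singleton_iff] at he
      rw [he] at heR
      exact absurd heR hn

lemma CutClosed.spread {t : TC} {R : Set (ℤ × ℤ)} {K : Set DS} {O : Set DS} {a : ℤ}
    (h : CutClosed t R K O) (ht : Per a t)
    (hR : ∀ (k : ℤ) (p : ℤ × ℤ), p ∈ R → (p.1 + k * a, p.2) ∈ R)
    (hK : ∀ (k : ℤ) (d : DS), sh (k * a) d ∈ K ↔ d ∈ K) : CutClosed t R K (spread a O) := by
  constructor
  · rintro d ⟨k, hk⟩ hdK
    refine ⟨k, ?_⟩
    rw [← rev_sh]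
    exact h.rv _ hk (fun h1 => hdK ((hK k d).1 h1))
  · rintro d ⟨k, hk⟩ hd
    refine ⟨k, ?_⟩
    have h1 := h.pr _ hk (hR k d.1 hd)
    have h2 : t (sh (k * a) d).1 = t d.1 := ht.mul k d.1
    rw [h2] at h1
    exact h1

lemma kut_sh {L k : ℕ} (j : ℤ) (d : DS) : sh (j * (L + L)) d ∈ Kut L k ↔ d ∈ Kut L k := by
  constructor
  · rintro ⟨x, h1, h2⟩
    refine ⟨x - j * (L + L), ?_, ?_⟩
    · rw [show x - j * ((L : ℤ) + L) = x + (-(2 * j)) * L by ring, Int.add_mul_emod_self_right]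
      exact h1
    · rcases h2 with h2 | h2
      · left
        have h3 := congrArg (fun e : DS => sh (-(j * ((L : ℤ) + L))) e) h2
        simp only [sh_add, add_neg_cancel, sh_zero] at h3
        rw [h3]
        rfl
      · right
        have h3 := congrArg (fun e : DS => sh (-(j * ((L : ℤ) + L))) e) h2
        simp only [sh_add, add_neg_cancel, sh_zero] at h3
        rw [h3]
        rfl
  · rintro ⟨x, h1, h2⟩
    refine ⟨x + j * (L + L), ?_, ?_⟩
    · rw [show x + j * ((L : ℤ) + L) = x + (2 * j) * L by ring, Int.add_mul_emod_self_right]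
      exact h1
    · rcases h2 with rfl | rfl
      · left; rfl
      · right; rfl

end H81Tile
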