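import Pool.Agent.Helper81.Tile.Loop
import Pool.Agent.Helper47.Perc.Duality

/-!
Tiles and bond configurations of the square lattice.

The vertex `(x, y)` of the square lattice is the corner `st (x, y) = (x - y, x + y)`, the unit
face with lower left vertex `(x, y)` is the corner `fc (x, y) = (x - y, x + y + 1)`; the tiles are
the edges, `te p` is the edge of the tile `p`.
-/

namespace H81Tile
open Finset H47Perc

/-- corner of a vertex -/
def st (z : ℤ × ℤ) : ℤ × ℤ := (z.1 - z.2, z.1 + z.2)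
/-- corner of a face -/
def fc (f : ℤ × ℤ) : ℤ × ℤ := (f.1 - f.2, f.1 + f.2 + 1)

lemma st_inj {u v : ℤ × ℤ} (h : st u = st v) : u = v := by
  unfold st at h
  rw [Prod.mk.injEq] at h
  ext <;> omega

lemma fc_inj {u v : ℤ × ℤ} (h : fc u = fc v) : u = v := by
  unfold fc at h
  rw [Prod.mk.injEq] at h
  ext <;> omega

lemma st_ne_fc (u f : ℤ × ℤ) : st u ≠ fc f := by
  intro h
  unfold st fc at h
  rw [Prod.mk.injEq] at h
  omega

/-- the edge of a tile -/
def te (p : ℤ × ℤ) : Sym2 (ℤ × ℤ) :=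
  if (p.1 + p.2) % 2 = 0 then hE ((p.1 + p.2) / 2) ((p.2 - p.1) / 2)
  else vE ((p.1 + p.2 + 1) / 2) ((p.2 - p.1 - 1) / 2)

/-- the tile of a horizontal edge -/
lemma te_h (x y : ℤ) : te (x - y, x + y) = hE x y := by
  unfold te
  rw [if_pos (by simp only; omega)]
  congr 1
  · simp only; omega
  · simp only; omega

/-- the tile of a vertical edge -/
lemma te_v (x y : ℤ) : te (x - y - 1, x + y) = vE x y := by
  unfold te
  rw [if_neg (by simp only; omega)]
  congr 1
  · simp only; omega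
  · simp only; omega

lemma te_cases (p : ℤ × ℤ) : (∃ x y, p = (x - y, x + y)) ∨ (∃ x y, p = (x - y - 1, x + y)) := by
  obtain ⟨i, j⟩ := p
  rcases Int.emod_two_eq_zero_or_one (i + j) with h | h
  · left
    refine ⟨(i + j) / 2, (j - i) / 2, ?_⟩
    rw [Prod.mk.injEq]
    constructor <;> omega
  · right
    refine ⟨(i + j + 1) / 2, (j - i - 1) / 2, ?_⟩
    rw [Prod.mk.injEq]
    constructor <;> omega

lemma hE_ne_vE (x y x' y' : ℤ) : hE x y ≠ vE x' y' := by
  intro h
  unfold hE vE at h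
  rw [Sym2.eq_iff] at h
  rcases h with ⟨h1, h2⟩ | ⟨h1, h2⟩
  · rw [Prod.mk.injEq] at h1 h2
    omega
  · rw [Prod.mk.injEq] at h1 h2
    omega

lemma hE_inj {x y x' y' : ℤ} (h : hE x y = hE x' y') : x = x' ∧ y = y' := by
  unfold hE at h
  rw [Sym2.eq_iff] at h
  rcases h with ⟨h1, h2⟩ | ⟨h1, h2⟩
  · rw [Prod.mk.injEq] at h1
    exact h1
  · rw [Prod.mk.injEq] at h1 h2
    omega

lemma vE_inj {x y x' y' : ℤ} (h : vE x y = vE x' y') : x = x' ∧ y = y' := by
  unfold vE at h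
  rw [Sym2.eq_iff] at h
  rcases h with ⟨h1, h2⟩ | ⟨h1, h2⟩
  · rw [Prod.mk.injEq] at h1
    exact h1
  · rw [Prod.mk.injEq] at h1 h2
    omega

lemma te_inj {p q : ℤ × ℤ} (h : te p = te q) : p = q := by
  rcases te_cases p with ⟨x, y, rfl⟩ | ⟨x, y, rfl⟩ <;>
  rcases te_cases q with ⟨x', y', rfl⟩ | ⟨x', y', rfl⟩
  · rw [te_h, te_h] at h
    obtain ⟨rfl, rfl⟩ := hE_inj h
    rfl
  · rw [te_h, te_v] at h
    exact absurd h (hE_ne_vE _ _ _ _)
  · rw [te_h, te_v] at h
    exact absurd h.symm (hE_ne_vE _ _ _ _)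
  · rw [te_v, te_v] at h
    obtain ⟨rfl, rfl⟩ := vE_inj h
    rfl

open Classical in
/-- the tile configuration of a bond configuration -/
noncomputable def tcOf (ω : Set (Sym2 (ℤ × ℤ))) : TC := fun p =>
  if (p.1 + p.2) % 2 = 0 then decide (te p ∈ ω) else decide (te p ∉ ω)

lemma tcOf_h (ω : Set (Sym2 (ℤ × ℤ))) (x y : ℤ) :
    tcOf ω (x - y, x + y) = true ↔ hE x y ∈ ω := by
  unfold tcOf
  rw [if_pos (by simp only; omega), te_h]
  simp

lemma tcOf_v (ω : Set (Sym2 (ℤ × ℤ))) (x y : ℤ) :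
    tcOf ω (x - y - 1, x + y) = true ↔ vE x y ∉ ω := by
  unfold tcOf
  rw [if_neg (by simp only; omega), te_v]
  simp

/-- the tiles of a set of edges -/
def tilesOf (E : Set (Sym2 (ℤ × ℤ))) : Set (ℤ × ℤ) := {p | te p ∈ E}

/-- `e` is the common edge of the faces `f` and `g` -/
def Sep (f g : ℤ × ℤ) (e : Sym2 (ℤ × ℤ)) : Prop :=
  (g = (f.1 + 1, f.2) ∧ e = vE (f.1 + 1) f.2) ∨ (f = (g.1 + 1, g.2) ∧ e = vE (g.1 + 1) g.2) ∨
    (g = (f.1, f.2 + 1) ∧ e = hE f.1 (f.2 + 1)) ∨ (f = (g.1, g.2 + 1) ∧ e = hE g.1 (g.2 + 1))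

/-- dual step: the faces `f` and `g` are separated by an edge of `E` that is not in `ω` -/
def FStep (E ω : Set (Sym2 (ℤ × ℤ))) (f g : ℤ × ℤ) : Prop := ∃ e ∈ E, e ∉ ω ∧ Sep f g e

/-- primal step -/
def VStep (E ω : Set (Sym2 (ℤ × ℤ))) (u v : ℤ × ℤ) : Prop :=
  s(u, v) ∈ E ∧ s(u, v) ∈ ω ∧ lattice.Adj u v

lemma Sep.symm {f g : ℤ × ℤ} {e : Sym2 (ℤ × ℤ)} (h : Sep f g e) : Sep g f e := by
  rcases h with h | h | h | h
  · exact Or.inr (Or.inl h)
  · exact Or.inl h
  · exact Or.inr (Or.inr (Or.inr h))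
  · exact Or.inr (Or.inr (Or.inl h))

lemma lattice_hE (x y : ℤ) : lattice.Adj (x, y) (x + 1, y) := by
  right; simp

lemma lattice_vE (x y : ℤ) : lattice.Adj (x, y) (x, y + 1) := by
  left; simp

/-- the corners joined inside a tile -/
lemma jn_h {t : TC} {x y : ℤ} {u v : ℤ × ℤ} (h : Jn t (x - y, x + y) u v) :
    (t (x - y, x + y) = true ∧
      ((u = st (x, y) ∧ v = st (x + 1, y)) ∨ (u = st (x + 1, y) ∧ v = st (x, y)))) ∨
    (t (x - y, x + y) = false ∧
      ((u = fc (x, y - 1) ∧ v = fc (x, y)) ∨ (u = fc (x, y) ∧ v = fc (x, y - 1)))) := by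
  obtain ⟨c, rfl, rfl, hc⟩ := h
  rcases hb : t (x - y, x + y) with _ | _
  · right
    refine ⟨rfl, ?_⟩
    rw [hb] at hc
    fin_cases c
    · simp at hc
    · left
      constructor
      · simp only [cor, co, fc]; ext <;> simp <;> ring
      · simp only [cor, co, fc]; ext <;> simp
    · simp at hc
    · right
      constructor
      · simp only [cor, co, fc]; ext <;> simp
      · simp only [cor, co, fc]; ext <;> simp <;> ring
  · left
    refine ⟨rfl, ?_⟩
    rw [hb] at hc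
    fin_cases c
    · left
      constructor
      · simp only [cor, co, st]; ext <;> simp
      · simp only [cor, co, st]; ext <;> simp <;> ring
    · simp at hc
    · right
      constructor
      · simp only [cor, co, st]; ext <;> simp <;> ring
      · simp only [cor, co, st]; ext <;> simp
    · simp at hc

lemma jn_h_t {t : TC} {x y : ℤ} (h : t (x - y, x + y) = true) :
    Jn t (x - y, x + y) (st (x, y)) (st (x + 1, y)) := by
  refine ⟨0, ?_, ?_, by simp [h]⟩
  · simp only [cor, co, st]; ext <;> simp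
  · simp only [cor, co, st]; ext <;> simp <;> ring

lemma jn_h_f {t : TC} {x y : ℤ} (h : t (x - y, x + y) = false) :
    Jn t (x - y, x + y) (fc (x, y - 1)) (fc (x, y)) := by
  refine ⟨1, ?_, ?_, by simp [h]⟩
  · simp only [cor, co, fc]; ext <;> simp <;> ring
  · simp only [cor, co, fc]; ext <;> simp

lemma jn_v {t : TC} {x y : ℤ} {u v : ℤ × ℤ} (h : Jn t (x - y - 1, x + y) u v) :
    (t (x - y - 1, x + y) = false ∧
      ((u = st (x, y) ∧ v = st (x, y + 1)) ∨ (u = st (x, y + 1) ∧ v = st (x, y)))) ∨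
    (t (x - y - 1, x + y) = true ∧
      ((u = fc (x - 1, y) ∧ v = fc (x, y)) ∨ (u = fc (x, y) ∧ v = fc (x - 1, y)))) := by
  obtain ⟨c, rfl, rfl, hc⟩ := h
  rcases hb : t (x - y - 1, x + y) with _ | _
  · left
    refine ⟨rfl, ?_⟩
    rw [hb] at hc
    fin_cases c
    · simp at hc
    · left
      constructor
      · simp only [cor, co, st]; ext <;> simp
      · simp only [cor, co, st]; ext <;> simp <;> ring
    · simp at hc
    · right
      constructor
      · simp only [cor, co, st]; ext <;> simp <;> ring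
      · simp only [cor, co, st]; ext <;> simp
  · right
    refine ⟨rfl, ?_⟩
    rw [hb] at hc
    fin_cases c
    · left
      constructor
      · simp only [cor, co, fc]; ext <;> simp <;> ring
      · simp only [cor, co, fc]; ext <;> simp
    · simp at hc
    · right
      constructor
      · simp only [cor, co, fc]; ext <;> simp
      · simp only [cor, co, fc]; ext <;> simp <;> ring
    · simp at hc

lemma jn_v_f {t : TC} {x y : ℤ} (h : t (x - y - 1, x + y) = false) :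
    Jn t (x - y - 1, x + y) (st (x, y)) (st (x, y + 1)) := by
  refine ⟨1, ?_, ?_, by simp [h]⟩
  · simp only [cor, co, st]; ext <;> simp
  · simp only [cor, co, st]; ext <;> simp <;> ring

lemma jn_v_t {t : TC} {x y : ℤ} (h : t (x - y - 1, x + y) = true) :
    Jn t (x - y - 1, x + y) (fc (x - 1, y)) (fc (x, y)) := by
  refine ⟨0, ?_, ?_, by simp [h]⟩
  · simp only [cor, co, fc]; ext <;> simp <;> ring
  · simp only [cor, co, fc]; ext <;> simp

lemma tcOf_h_f (ω : Set (Sym2 (ℤ × ℤ))) (x y : ℤ) :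
    tcOf ω (x - y, x + y) = false ↔ hE x y ∉ ω := by
  rw [← tcOf_h, Bool.not_eq_true]

lemma tcOf_v_f (ω : Set (Sym2 (ℤ × ℤ))) (x y : ℤ) :
    tcOf ω (x - y - 1, x + y) = false ↔ vE x y ∈ ω := by
  rw [← Bool.not_eq_true, tcOf_v, not_not]

/-- one step between corners is a primal or a dual step -/
theorem cstep_cases {E ω : Set (Sym2 (ℤ × ℤ))} {u v : ℤ × ℤ}
    (h : CStep (tcOf ω) (tilesOf E) u v) :
    (∃ a b, u = st a ∧ v = st b ∧ VStep E ω a b) ∨ (∃ f g, u = fc f ∧ v = fc g ∧ FStep E ω f g) := by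
  obtain ⟨p, hp, h⟩ := h
  rcases te_cases p with ⟨x, y, rfl⟩ | ⟨x, y, rfl⟩
  · have hp' : hE x y ∈ E := by
      have : te (x - y, x + y) ∈ E := hp
      rwa [te_h] at this
    rcases jn_h h with ⟨h1, h2⟩ | ⟨h1, h2⟩
    · have hω := (tcOf_h ω x y).1 h1
      left
      rcases h2 with ⟨rfl, rfl⟩ | ⟨rfl, rfl⟩
      · exact ⟨_, _, rfl, rfl, hp', hω, lattice_hE x y⟩
      · refine ⟨_, _, rfl, rfl, ?_, ?_, (lattice_hE x y).symm⟩
        · rw [Sym2.eq_swap]; exact hp'
        · rw [Sym2.eq_swap]; exact hω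
    · have hω := (tcOf_h_f ω x y).1 h1
      right
      rcases h2 with ⟨rfl, rfl⟩ | ⟨rfl, rfl⟩
      · refine ⟨_, _, rfl, rfl, hE x y, hp', hω, ?_⟩
        right; right; left
        simp
      · refine ⟨_, _, rfl, rfl, hE x y, hp', hω, ?_⟩
        right; right; right
        simp
  · have hp' : vE x y ∈ E := by
      have : te (x - y - 1, x + y) ∈ E := hp
      rwa [te_v] at this
    rcases jn_v h with ⟨h1, h2⟩ | ⟨h1, h2⟩
    · have hω := (tcOf_v_f ω x y).1 h1
      left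
      rcases h2 with ⟨rfl, rfl⟩ | ⟨rfl, rfl⟩
      · exact ⟨_, _, rfl, rfl, hp', hω, lattice_vE x y⟩
      · refine ⟨_, _, rfl, rfl, ?_, ?_, (lattice_vE x y).symm⟩
        · rw [Sym2.eq_swap]; exact hp'
        · rw [Sym2.eq_swap]; exact hω
    · have hω := (tcOf_v ω x y).1 h1
      right
      rcases h2 with ⟨rfl, rfl⟩ | ⟨rfl, rfl⟩
      · refine ⟨_, _, rfl, rfl, vE x y, hp', hω, ?_⟩
        left
        simp
      · refine ⟨_, _, rfl, rfl, vE x y, hp', hω, ?_⟩
        right; left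
        simp

theorem cstep_of_vstep {E ω : Set (Sym2 (ℤ × ℤ))} {u v : ℤ × ℤ} (h : VStep E ω u v) :
    CStep (tcOf ω) (tilesOf E) (st u) (st v) := by
  obtain ⟨h1, h2, h3⟩ := h
  obtain ⟨x, y⟩ := u
  obtain ⟨x', y'⟩ := v
  rcases h3 with ⟨h3, h4⟩ | ⟨h3, h4⟩
  · simp only at h3 h4
    subst h3
    rcases (abs_eq (by norm_num)).1 h4 with h | h
    · have e : y = y' + 1 := by omega
      subst e
      have e1 : s((x, y' + 1), (x, y')) = vE x y' := by rw [vE, Sym2.eq_swap]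
      rw [e1] at h1 h2
      refine ⟨(x - y' - 1, x + y'), ?_, (jn_v_f ((tcOf_v_f ω x y').2 h2)).symm⟩
      show te _ ∈ E
      rw [te_v]; exact h1
    · have e : y' = y + 1 := by omega
      subst e
      refine ⟨(x - y - 1, x + y), ?_, jn_v_f ((tcOf_v_f ω x y).2 h2)⟩
      show te _ ∈ E
      rw [te_v]; exact h1
  · simp only at h3 h4
    subst h3
    rcases (abs_eq (by norm_num)).1 h4 with h | h
    · have e : x = x' + 1 := by omega
      subst e
      have e1 : s((x' + 1, y), (x', y)) = hE x' y := by rw [hE, Sym2.eq_swap]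
      rw [e1] at h1 h2
      refine ⟨(x' - y, x' + y), ?_, (jn_h_t ((tcOf_h ω x' y).2 h2)).symm⟩
      show te _ ∈ E
      rw [te_h]; exact h1
    · have e : x' = x + 1 := by omega
      subst e
      refine ⟨(x - y, x + y), ?_, jn_h_t ((tcOf_h ω x y).2 h2)⟩
      show te _ ∈ E
      rw [te_h]; exact h1

theorem cstep_of_fstep {E ω : Set (Sym2 (ℤ × ℤ))} {f g : ℤ × ℤ} (h : FStep E ω f g) :
    CStep (tcOf ω) (tilesOf E) (fc f) (fc g) := by
  obtain ⟨e, he, hω, hs⟩ := h
  rcases hs with ⟨rfl, rfl⟩ | ⟨rfl, rfl⟩ | ⟨rfl, rfl⟩ | ⟨rfl, rfl⟩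
  · have := jn_v_t ((tcOf_v ω (f.1 + 1) f.2).2 hω)
    refine ⟨(f.1 + 1 - f.2 - 1, f.1 + 1 + f.2), ?_, ?_⟩
    · show te _ ∈ E
      rw [te_v]; exact he
    · simpa using this
  · have := (jn_v_t ((tcOf_v ω (g.1 + 1) g.2).2 hω)).symm
    refine ⟨(g.1 + 1 - g.2 - 1, g.1 + 1 + g.2), ?_, ?_⟩
    · show te _ ∈ E
      rw [te_v]; exact he
    · simpa using this
  · have := jn_h_f ((tcOf_h_f ω f.1 (f.2 + 1)).2 hω)
    refine ⟨(f.1 - (f.2 + 1), f.1 + (f.2 + 1)), ?_, ?_⟩
    · show te _ ∈ E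
      rw [te_h]; exact he
    · simpa using this
  · have := (jn_h_f ((tcOf_h_f ω g.1 (g.2 + 1)).2 hω)).symm
    refine ⟨(g.1 - (g.2 + 1), g.1 + (g.2 + 1)), ?_, ?_⟩
    · show te _ ∈ E
      rw [te_h]; exact he
    · simpa using this

/-- connections between vertices -/
theorem cconn_st_iff {E ω : Set (Sym2 (ℤ × ℤ))} {u : ℤ × ℤ} {w : ℤ × ℤ} :
    CConn (tcOf ω) (tilesOf E) (st u) w ↔
      ∃ v, w = st v ∧ Relation.ReflTransGen (VStep E ω) u v := by
  constructor
  · intro h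
    induction h with
    | refl => exact ⟨u, rfl, Relation.ReflTransGen.refl⟩
    | tail _ h2 ih =>
      obtain ⟨v, rfl, hv⟩ := ih
      rcases cstep_cases h2 with ⟨a, b, h3, h4, h5⟩ | ⟨f, g, h3, h4, h5⟩
      · rw [← st_inj h3] at h5
        exact ⟨b, h4, hv.tail h5⟩
      · exact absurd h3 (st_ne_fc _ _)
  · rintro ⟨v, rfl, h⟩
    induction h with
    | refl => exact Relation.ReflTransGen.refl
    | tail _ h2 ih => exact ih.tail (cstep_of_vstep h2)

/-- connections between faces -/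
theorem cconn_fc_iff {E ω : Set (Sym2 (ℤ × ℤ))} {u : ℤ × ℤ} {w : ℤ × ℤ} :
    CConn (tcOf ω) (tilesOf E) (fc u) w ↔
      ∃ v, w = fc v ∧ Relation.ReflTransGen (FStep E ω) u v := by
  constructor
  · intro h
    induction h with
    | refl => exact ⟨u, rfl, Relation.ReflTransGen.refl⟩
    | tail _ h2 ih =>
      obtain ⟨v, rfl, hv⟩ := ih
      rcases cstep_cases h2 with ⟨a, b, h3, h4, h5⟩ | ⟨f, g, h3, h4, h5⟩
      · exact absurd h3.symm (st_ne_fc _ _)
      · rw [← fc_inj h3] at h5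
        exact ⟨g, h4, hv.tail h5⟩
  · rintro ⟨v, rfl, h⟩
    induction h with
    | refl => exact Relation.ReflTransGen.refl
    | tail _ h2 ih => exact ih.tail (cstep_of_fstep h2)

/-- for configurations inside `S`, primal connections are `Joined` -/
theorem vconn_iff_joined {S : Finset (ℤ × ℤ)} {ω : Finset (Sym2 (ℤ × ℤ))} (hω : ω ⊆ edgesIn S)
    {u v : ℤ × ℤ} :
    Relation.ReflTransGen (VStep (edgesIn S : Set (Sym2 (ℤ × ℤ))) (ω : Set (Sym2 (ℤ × ℤ)))) u v ↔
      Joined ω u v := by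
  constructor
  · intro h
    induction h with
    | refl => exact SimpleGraph.Reachable.refl _
    | tail _ h2 ih =>
      refine SimpleGraph.Reachable.trans ih (SimpleGraph.Adj.reachable ?_)
      rw [SimpleGraph.fromEdgeSet_adj]
      exact ⟨h2.2.1, h2.2.2.ne⟩
  · rintro ⟨p⟩
    induction p with
    | nil => exact Relation.ReflTransGen.refl
    | cons h _ ih =>
      rw [SimpleGraph.fromEdgeSet_adj] at h
      have h1 : _ ∈ ω := h.1
      have h2 := hω h1
      exact Relation.ReflTransGen.head ⟨h2, h1, (mem_edgesIn.1 h2).2.2⟩ ih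

end H81Tile
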